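import Pool.Agent.H32.UD.Dec

/-!
# UD.Adj : the adjoint in the field model, description of the Lie algebra

`(a Fz c)^* = sg c Fz (-c) bar a`.

PROOF. `adj1`: `B (a σ c x, y) = Tr (δ a σ c x bar y)`; apply `trace_σ` with `-c`: `= Tr (σ (-c) (δ a bar y) x)`, `σ (-c) δ = sg c δ` (`σ_δ`, `sg_neg`), so `= sg c Tr (δ x σ(-c) (a bar y)) = sg c B (x, σ (-c) (bar a y))` since `bar (σ(-c)(bar a y)) = σ(-c) (a bar y)` (`bar_σ`, `bar_bar`).
`adj2` from `adj1` with the roles changed (`B_symm` twice, or directly). `S_mem`: `B (S x, y) = B (a Fz c x, y) - sg c B (Fz (-c) (bar a x), y)` and `adj1`, `adj2`. `mem_iff`: write `X = ∑ M (a c) Fz c`; `star X := ∑ sg c • (Fz (-c) * M (bar (a c)))` satisfies `B (X x, y) = B (x, star X y)`; `X ∈ 𝔤` iff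
`B (x, (star X + X) y) = 0` for all `x, y` iff `star X = - X` (`B_nondeg'`); the coefficient of `star X` at `-c` is `sg c σ (-c) (bar (a c))` (`Fz_M`, `co_sum` reindexed by `c ↦ -c`). `S_neg`: `Fz (-c) M (bar a) = M (σ(-c) (bar a)) Fz (-c)`. `S_r`, `S_zero`: `c = r`: `sg r = (-1)^r`, `-r = r`, `Fz r M (bar a) = M a Fz r` as `σ r (bar a) = a`.
`decomp`: for `X ∈ 𝔤` the coefficient of `∑_{c ≠ 0} S c (co X c)` at `d ≠ 0` is `co X d + (contribution of c = -d) = 2 co X d` by `mem_iff` (for `d = r` both contributions come from `c = r` as well), at `0` it is `0`.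
-/

set_option autoImplicit false

namespace Pool.Agent.H32.UD

open Module

namespace Dat

variable {F E : Type} [Field F] [Field E] [Algebra F E] (D : Dat F E) [Finite F] [Finite E]

theorem adj1 (c : ZMod (2 * D.r)) (a x y : E) :
    D.B ((M F a * D.Fz c) x) y = D.B x ((D.sg c • (D.Fz (-c) * M F (D.bar a))) y) := by
  have h1 : (M F a * D.Fz c) x = a * D.σ c x := rfl
  have h2 : (D.sg c • (D.Fz (-c) * M F (D.bar a))) y = D.sg c • D.σ (-c) (D.bar a * y) := rfl
  rw [B_apply, B_apply, h1, h2, ← D.trace_σ (-c) (D.δ * (a * D.σ c x) * D.bar y)]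
  congr 1
  rw [map_smul, D.bar_σ, map_mul D.bar, D.bar_bar, map_mul, map_mul, map_mul, map_mul, D.σ_δ, D.sg_neg,
    D.σ_neg_apply]
  simp only [Algebra.smul_def]
  ring

theorem adj2 (c : ZMod (2 * D.r)) (a x y : E) :
    D.B ((D.sg c • (D.Fz (-c) * M F (D.bar a))) x) y = D.B x ((M F a * D.Fz c) y) := by
  rw [D.B_symm y, ← D.adj1, D.B_symm x, ← mul_assoc, ← pow_add, ← two_mul, pow_mul]
  norm_num

theorem S_mem (c : ZMod (2 * D.r)) (a : E) : D.S c a ∈ D.𝔤 := by
  rw [D.mem_𝔤]
  intro x y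
  unfold S
  rw [LinearMap.sub_apply, LinearMap.sub_apply, map_sub, map_sub, LinearMap.sub_apply]
  rw [D.adj1 c a x y, D.adj2 c a x y]
  ring

/-- the adjoint -/
private noncomputable def star' (X : Module.End F E) : Module.End F E :=
  ∑ c, D.sg c • (D.Fz (-c) * M F (D.bar (D.co X c)))

private theorem star_adj (X : Module.End F E) (x y : E) : D.B (X x) y = D.B x (D.star' X y) := by
  conv_lhs => rw [D.eq_sum X]
  unfold star'
  rw [LinearMap.sum_apply, LinearMap.sum_apply, map_sum, map_sum, LinearMap.sum_apply]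
  exact Finset.sum_congr rfl fun c _ => D.adj1 c _ x y

private theorem co_star (X : Module.End F E) (c : ZMod (2 * D.r)) :
    D.co (D.star' X) (-c) = D.sg c • D.σ (-c) (D.bar (D.co X c)) := by
  have h : D.star' X = ∑ c, M F (D.sg c • D.σ c (D.bar (D.co X (-c)))) * D.Fz c := by
    unfold star'
    rw [← Equiv.sum_comp (Equiv.neg (ZMod (2 * D.r)))]
    refine Finset.sum_congr rfl fun c _ => ?_
    rw [Equiv.neg_apply, neg_neg, D.Fz_M, D.sg_neg, M_smul, smul_mul_assoc]
  rw [h, D.co_sum, neg_neg, D.sg_neg]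

theorem mem_iff (X : Module.End F E) :
    X ∈ D.𝔤 ↔ ∀ c, D.co X (-c) = -(D.sg c • D.σ (-c) (D.bar (D.co X c))) := by
  have h1 : X ∈ D.𝔤 ↔ D.star' X + X = 0 := by
    rw [D.mem_𝔤]
    constructor
    · intro h
      ext y
      apply D.B_nondeg'
      intro x
      rw [LinearMap.add_apply, map_add, ← D.star_adj]
      exact h x y
    · intro h x y
      rw [D.star_adj, ← map_add, ← LinearMap.add_apply, h]
      simp
  rw [h1]
  constructor
  · intro h c
    have h2 : D.co (D.star' X + X) (-c) = 0 := by rw [h, D.co_zero]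
    rw [D.co_add, D.co_star] at h2
    linear_combination h2
  · intro h
    apply D.ext_co
    intro d
    have h2 := h (-d)
    have h3 := D.co_star X (-d)
    rw [neg_neg] at h2 h3
    rw [D.co_add, h3, h2, D.co_zero]
    ring

theorem co_S (c d : ZMod (2 * D.r)) (a : E) : D.co (D.S c a) d =
    (if d = c then a else 0) - (if d = -c then D.sg c • D.σ (-c) (D.bar a) else 0) := by
  unfold S
  rw [D.co_sub, D.co_single, D.Fz_M, D.co_smul, D.co_single, smul_ite, smul_zero]

theorem S_add (c : ZMod (2 * D.r)) (a b : E) : D.S c (a + b) = D.S c a + D.S c b := by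
  unfold S
  rw [M_add, map_add D.bar, M_add, add_mul, mul_add, smul_add]
  abel

theorem S_smul (c : ZMod (2 * D.r)) (t : F) (a : E) : D.S c (t • a) = t • D.S c a := by
  unfold S
  rw [M_smul, map_smul D.bar, M_smul, smul_mul_assoc, mul_smul_comm, smul_sub, smul_comm (D.sg c) t]

/-- `S (-c)` is expressed by `S c` -/
theorem S_neg (c : ZMod (2 * D.r)) (a : E) : D.S (-c) a = -(D.sg c • D.S c (D.σ c (D.bar a))) := by
  unfold S
  rw [neg_neg, D.sg_neg, D.bar_σ, D.bar_bar, D.Fz_M, D.Fz_M, D.σ_neg_apply, smul_sub, smul_smul,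
    D.sg_mul_self, one_smul, neg_sub]

theorem S_zero (a : E) : D.S 0 a = M F (a - D.bar a) := by
  unfold S
  rw [neg_zero, D.Fz_zero, D.sg_zero, mul_one, one_mul, one_smul, M_sub]

private theorem σ_r_bar (a : E) : D.σ (D.r : ZMod (2 * D.r)) (D.bar a) = a := D.bar_bar a

theorem S_r_even (h : Even D.r) (a : E) : D.S (D.r : ZMod (2 * D.r)) a = 0 := by
  unfold S
  rw [D.sg_r, Even.neg_one_pow h, one_smul, D.neg_r, D.Fz_M, D.σ_r_bar, sub_self]

theorem S_r_odd (h : Odd D.r) (a : E) :
    D.S (D.r : ZMod (2 * D.r)) a = (2 : F) • (M F a * D.Fz (D.r : ZMod (2 * D.r))) := by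
  have e : ∀ Y : Module.End F E, (-1 : F) • Y = -Y := fun Y => neg_one_smul F Y
  unfold S
  rw [D.sg_r, Odd.neg_one_pow h, e, D.neg_r, D.Fz_M, D.σ_r_bar, sub_neg_eq_add, two_smul]

private noncomputable def coH (d : ZMod (2 * D.r)) : Module.End F E →+ E where
  toFun X := D.co X d
  map_zero' := D.co_zero d
  map_add' X Y := D.co_add X Y d

theorem decomp {X : Module.End F E} (hX : X ∈ D.𝔤) :
    (2 : F) • X = (2 : F) • M F (D.co X 0) + ∑ c ∈ Finset.univ.erase (0 : ZMod (2 * D.r)), D.S c (D.co X c) := by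
  have hm := (D.mem_iff X).1 hX
  apply D.ext_co
  intro d
  have hs : D.co (∑ c ∈ Finset.univ.erase (0 : ZMod (2 * D.r)), D.S c (D.co X c)) d =
      ∑ c ∈ Finset.univ.erase (0 : ZMod (2 * D.r)), ((if d = c then D.co X d else 0) +
        (if c = -d then D.co X d else 0)) := by
    show D.coH d (∑ c ∈ Finset.univ.erase (0 : ZMod (2 * D.r)), D.S c (D.co X c)) = _
    rw [map_sum]
    refine Finset.sum_congr rfl fun c _ => ?_
    show D.co (D.S c (D.co X c)) d = _
    rw [D.co_S]
    have h1 : (if d = c then D.co X c else 0) = (if d = c then D.co X d else 0) := by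
      split_ifs with h
      · rw [h]
      · rfl
    have h2 : (if d = -c then D.sg c • D.σ (-c) (D.bar (D.co X c)) else 0) =
        -(if c = -d then D.co X d else 0) := by
      by_cases h : d = -c
      · have h' : c = -d := by rw [h, neg_neg]
        rw [if_pos h, if_pos h']
        have := hm c
        rw [← h] at this
        rw [this, neg_neg, ← h]
      · have h' : ¬ c = -d := fun hc => h (by rw [hc, neg_neg])
        rw [if_neg h, if_neg h', neg_zero]
    rw [h1, h2, sub_neg_eq_add]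
  rw [D.co_add, D.co_smul, D.co_smul, D.co_M, hs, Finset.sum_add_distrib, Finset.sum_ite_eq,
    Finset.sum_ite_eq']
  by_cases hd : d = 0
  · subst hd
    simp
  · have hd' : -d ≠ 0 := neg_ne_zero.2 hd
    rw [if_neg hd, if_pos (Finset.mem_erase.2 ⟨hd, Finset.mem_univ _⟩),
      if_pos (Finset.mem_erase.2 ⟨hd', Finset.mem_univ _⟩), smul_zero, zero_add, two_smul]

theorem bar_co_zero {X : Module.End F E} (hX : X ∈ D.𝔤) : D.bar (D.co X 0) = -D.co X 0 := by
  have h := (D.mem_iff X).1 hX 0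
  rw [neg_zero, D.sg_zero, one_smul, D.σ_zero_apply] at h
  rw [eq_neg_iff_add_eq_zero]
  linear_combination h

theorem co_r_even {X : Module.End F E} (hX : X ∈ D.𝔤) (h : Even D.r) :
    D.co X (D.r : ZMod (2 * D.r)) = 0 := by
  have h1 := (D.mem_iff X).1 hX (D.r : ZMod (2 * D.r))
  rw [D.sg_r, Even.neg_one_pow h, one_smul, D.neg_r, D.σ_r_bar] at h1
  have h2 : (2 : F) • D.co X (D.r : ZMod (2 * D.r)) = 0 := by
    rw [two_smul]
    linear_combination h1
  exact (smul_eq_zero.1 h2).resolve_left D.two_ne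

end Dat

end Pool.Agent.H32.UD
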