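import Pool.Agent.H32.UD.Gcd
import Pool.Agent.H89.UD.Bad

/-!
# UD.Bad : intersections of the normalisers of two subfields (block F, helper89)
-/

set_option autoImplicit false

namespace Pool.Agent.H32.UD

open Module

theorem bad_small (r : ℕ) : ∃ C q0 : ℕ, ∀ (F E : Type) [Field F] [Field E] [Algebra F E] [Finite F]
    [Finite E] (D : Dat F E), D.r = r → q0 ≤ Nat.card F → ∀ k l : ℕ, k.Prime → l.Prime → k ∣ 2 * r → l ∣ 2 * r →
    ¬ (k = 2 ∧ l = 2) →
    Nat.card {g : E ≃ₗ[F] E // g ∈ D.Gc ∧ ¬ D.Triv k l g} * Nat.card F ≤ C * Nat.card D.Gc :=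
  Pool.Agent.H89.UD.bad_small r

end Pool.Agent.H32.UD
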