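import Pool.Agent.H32.UD.Defs

/-!
# UD.Bas : first facts on the field model
-/

set_option autoImplicit false
set_option linter.unusedSectionVars false

namespace Pool.Agent.H32.UD

open Module

section M

variable (F : Type) {E : Type} [Field F] [Field E] [Algebra F E]

theorem M_mul (a b : E) : M F (a * b) = M F a * M F b := by
  ext x; simp [mul_assoc]

theorem M_one : M F (1 : E) = 1 := by
  ext x; simp

theorem M_zero : M F (0 : E) = 0 := by
  ext x; simp

theorem M_add (a b : E) : M F (a + b) = M F a + M F b := by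
  ext x; simp [add_mul]

theorem M_sub (a b : E) : M F (a - b) = M F a - M F b := by
  ext x; simp [sub_mul]

theorem M_neg (a : E) : M F (-a) = -M F a := by
  ext x; simp

theorem M_smul (c : F) (a : E) : M F (c • a) = c • M F a := by
  ext x; simp

theorem M_inj {a b : E} (h : M F a = M F b) : a = b := by
  have := LinearMap.congr_fun h 1
  simpa using this

theorem M_comm (a b : E) : M F a * M F b = M F b * M F a := by
  rw [← M_mul, ← M_mul, mul_comm]

theorem M_pow (a : E) (n : ℕ) : M F (a ^ n) = M F a ^ n := by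
  induction n with
  | zero => simp [M_one]
  | succ n ih => rw [pow_succ, pow_succ, M_mul, ih]

theorem M_algebraMap (c : F) : M F (algebraMap F E c) = c • (1 : Module.End F E) := by
  ext x; simp [Algebra.smul_def]

end M

namespace Dat

variable {F E : Type} [Field F] [Field E] [Algebra F E] (D : Dat F E) [Finite F] [Finite E]

theorem fr_pow : fr F E ^ (2 * D.r) = 1 := by
  rw [← D.fin, ← orderOf_fr, pow_orderOf_eq_one]

theorem σ_natCast (n : ℕ) : D.σ (n : ZMod (2 * D.r)) = fr F E ^ n := by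
  unfold σ
  rw [ZMod.val_natCast]
  conv_rhs => rw [← Nat.div_add_mod n (2 * D.r), pow_add, pow_mul, D.fr_pow, one_pow, one_mul]

theorem σ_zero : D.σ 0 = 1 := by
  have := D.σ_natCast 0
  simpa using this

theorem σ_add (c d : ZMod (2 * D.r)) : D.σ (c + d) = D.σ c * D.σ d := by
  have h1 : c = ((c.val : ℕ) : ZMod (2 * D.r)) := (ZMod.natCast_zmod_val c).symm
  have h2 : d = ((d.val : ℕ) : ZMod (2 * D.r)) := (ZMod.natCast_zmod_val d).symm
  rw [h1, h2, ← Nat.cast_add, σ_natCast, σ_natCast, σ_natCast, pow_add]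

theorem σ_one : D.σ 1 = fr F E := by
  have := D.σ_natCast 1
  simpa using this

theorem σ_add_apply (c d : ZMod (2 * D.r)) (x : E) : D.σ (c + d) x = D.σ c (D.σ d x) := by
  rw [σ_add]; rfl

theorem σ_zero_apply (x : E) : D.σ 0 x = x := by
  rw [σ_zero]; rfl

theorem σ_comm (c d : ZMod (2 * D.r)) (x : E) : D.σ c (D.σ d x) = D.σ d (D.σ c x) := by
  rw [← σ_add_apply, ← σ_add_apply, add_comm]

theorem σ_neg_apply (c : ZMod (2 * D.r)) (x : E) : D.σ (-c) (D.σ c x) = x := by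
  rw [← σ_add_apply, neg_add_cancel, σ_zero_apply]

theorem σ_apply_neg (c : ZMod (2 * D.r)) (x : E) : D.σ c (D.σ (-c) x) = x := by
  rw [← σ_add_apply, add_neg_cancel, σ_zero_apply]

theorem σ_inj {c d : ZMod (2 * D.r)} (h : D.σ c = D.σ d) : c = d := by
  unfold σ at h
  have h1 : ∀ n, n < 2 * D.r → ∀ m, m < 2 * D.r → fr F E ^ n = fr F E ^ m → n = m := by
    intro n hn m hm hnm
    have ho := orderOf_fr F E
    rw [D.fin] at ho
    exact (pow_injOn_Iio_orderOf (x := fr F E)) (by simpa [ho] using hn) (by simpa [ho] using hm) hnm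
  exact ZMod.val_injective _ (h1 _ (ZMod.val_lt c) _ (ZMod.val_lt d) h)

theorem two_r : ((D.r : ℕ) : ZMod (2 * D.r)) + (D.r : ZMod (2 * D.r)) = 0 := by
  rw [← Nat.cast_add, ← two_mul]
  exact ZMod.natCast_self _

theorem neg_r : -((D.r : ℕ) : ZMod (2 * D.r)) = (D.r : ZMod (2 * D.r)) := by
  rw [neg_eq_iff_add_eq_zero]
  exact D.two_r

theorem r_ne_zero : ((D.r : ℕ) : ZMod (2 * D.r)) ≠ 0 := by
  rw [Ne, ZMod.natCast_eq_zero_iff]
  intro h
  have := Nat.le_of_dvd (by have := D.four_le; omega) h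
  have := D.four_le
  omega

theorem bar_eq : D.bar = D.σ (D.r : ZMod (2 * D.r)) := rfl

theorem bar_bar (x : E) : D.bar (D.bar x) = x := by
  rw [bar_eq, ← σ_add_apply, two_r, σ_zero_apply]

theorem bar_σ (c : ZMod (2 * D.r)) (x : E) : D.bar (D.σ c x) = D.σ c (D.bar x) := by
  rw [bar_eq, σ_comm]

theorem Fz_apply (c : ZMod (2 * D.r)) (x : E) : D.Fz c x = D.σ c x := rfl

theorem Fz_zero : D.Fz 0 = 1 := by
  ext x
  rw [Fz_apply, σ_zero_apply]; rfl

theorem Fz_add (c d : ZMod (2 * D.r)) : D.Fz (c + d) = D.Fz c * D.Fz d := by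
  ext x
  rw [Fz_apply, σ_add_apply]; rfl

theorem Fz_M (c : ZMod (2 * D.r)) (a : E) : D.Fz c * M F a = M F (D.σ c a) * D.Fz c := by
  ext x
  show D.σ c (a * x) = D.σ c a * D.σ c x
  rw [map_mul]

theorem sg_natCast (n : ℕ) : D.sg (n : ZMod (2 * D.r)) = (-1 : F) ^ (D.r * n) := by
  unfold sg
  rw [ZMod.val_natCast]
  conv_rhs => rw [← Nat.div_add_mod n (2 * D.r), mul_add, pow_add]
  have : (-1 : F) ^ (D.r * (2 * D.r * (n / (2 * D.r)))) = 1 := by
    have e : D.r * (2 * D.r * (n / (2 * D.r))) = 2 * (D.r * D.r * (n / (2 * D.r))) := by ring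
    rw [e, pow_mul]
    norm_num
  rw [this, one_mul]

theorem sg_zero : D.sg 0 = 1 := by
  have := D.sg_natCast 0
  simpa using this

theorem sg_add (c d : ZMod (2 * D.r)) : D.sg (c + d) = D.sg c * D.sg d := by
  have h1 : c = ((c.val : ℕ) : ZMod (2 * D.r)) := (ZMod.natCast_zmod_val c).symm
  have h2 : d = ((d.val : ℕ) : ZMod (2 * D.r)) := (ZMod.natCast_zmod_val d).symm
  rw [h1, h2, ← Nat.cast_add, sg_natCast, sg_natCast, sg_natCast, mul_add, pow_add]

theorem sg_mul_self (c : ZMod (2 * D.r)) : D.sg c * D.sg c = 1 := by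
  unfold sg
  rw [← pow_add, ← two_mul, pow_mul]
  norm_num

theorem sg_neg (c : ZMod (2 * D.r)) : D.sg (-c) = D.sg c := by
  have h := D.sg_add c (-c)
  rw [add_neg_cancel, sg_zero] at h
  have h2 := D.sg_mul_self c
  calc D.sg (-c) = (D.sg c * D.sg c) * D.sg (-c) := by rw [h2, one_mul]
    _ = D.sg c * (D.sg c * D.sg (-c)) := by ring
    _ = D.sg c := by rw [← h, mul_one]

theorem sg_r : D.sg (D.r : ZMod (2 * D.r)) = (-1) ^ D.r := by
  rw [sg_natCast]
  rcases Nat.even_or_odd D.r with h | h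
  · rw [Even.neg_one_pow (h.mul_right _), Even.neg_one_pow h]
  · rw [Odd.neg_one_pow (h.mul h), Odd.neg_one_pow h]

theorem trace_σ (c : ZMod (2 * D.r)) (x : E) : Algebra.trace F E (D.σ c x) = Algebra.trace F E x :=
  Algebra.trace_eq_of_algEquiv (D.σ c) x

theorem trace_bar (x : E) : Algebra.trace F E (D.bar x) = Algebra.trace F E x := D.trace_σ _ x

theorem fr_δ : fr F E D.δ = (-1) ^ D.r * D.δ := by
  rw [fr_apply, D.δ_q]

theorem σ_δ (c : ZMod (2 * D.r)) : D.σ c D.δ = D.sg c • D.δ := by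
  have h1 : c = ((c.val : ℕ) : ZMod (2 * D.r)) := (ZMod.natCast_zmod_val c).symm
  rw [h1, σ_natCast, sg_natCast]
  generalize c.val = n
  induction n with
  | zero => simp
  | succ n ih =>
    rw [pow_succ, AlgEquiv.mul_apply, fr_δ, map_mul, map_pow, map_neg, map_one, ih, mul_add, pow_add,
      mul_one, mul_smul, Algebra.smul_def, Algebra.smul_def, Algebra.smul_def]
    simp only [map_pow, map_neg, map_one]
    ring

theorem bar_δ : D.bar D.δ = (-1) ^ D.r * D.δ := by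
  rw [bar_eq, σ_δ, sg_r, Algebra.smul_def]
  simp

theorem B_symm (x y : E) : D.B y x = (-1) ^ D.r * D.B x y := by
  rw [B_apply, B_apply, ← D.trace_bar, map_mul D.bar, map_mul D.bar, bar_δ, bar_bar]
  have e : (-1) ^ D.r * D.δ * D.bar y * x = ((-1 : F) ^ D.r) • (D.δ * x * D.bar y) := by
    rw [Algebra.smul_def]
    simp only [map_pow, map_neg, map_one]
    ring
  rw [e, map_smul, smul_eq_mul]

theorem B_nondeg {x : E} (h : ∀ y, D.B x y = 0) : x = 0 := by
  by_contra hx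
  obtain ⟨t, ht⟩ := Algebra.trace_surjective F E 1
  have h1 := h (D.bar (t * (D.δ * x)⁻¹))
  have hne : D.δ * x ≠ 0 := mul_ne_zero D.δ_ne hx
  rw [B_apply, bar_bar, mul_comm t, ← mul_assoc, mul_inv_cancel₀ hne, one_mul, ht] at h1
  exact one_ne_zero h1

theorem B_nondeg' {x : E} (h : ∀ y, D.B y x = 0) : x = 0 := by
  apply D.B_nondeg
  intro y
  rw [B_symm, h, mul_zero]

theorem mu_mem_G {u : Eˣ} (hu : (u : E) * D.bar u = 1) : mu F u ∈ D.G := by
  intro x y
  rw [mu_apply, mu_apply, B_apply, B_apply, map_mul D.bar]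
  congr 1
  linear_combination D.δ * x * D.bar y * hu

theorem M_mem_𝔤 {e : E} (he : D.bar e = -e) : M F e ∈ D.𝔤 := by
  intro x y
  rw [M_apply, M_apply, B_apply, B_apply, map_mul D.bar, he, ← map_add]
  have : D.δ * (e * x) * D.bar y + D.δ * x * (-e * D.bar y) = 0 := by ring
  rw [this, map_zero]

theorem conj_mem_𝔤 {h : E ≃ₗ[F] E} (hh : h ∈ D.G) {X : Module.End F E} (hX : X ∈ D.𝔤) :
    (h : Module.End F E) * X * ((h⁻¹ : E ≃ₗ[F] E) : Module.End F E) ∈ D.𝔤 := by
  intro x y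
  have h1 : ∀ z, h ((h⁻¹ : E ≃ₗ[F] E) z) = z := fun z => by
    rw [← LinearEquiv.mul_apply, mul_inv_cancel]; rfl
  have e1 : D.B (((h : Module.End F E) * X * ((h⁻¹ : E ≃ₗ[F] E) : Module.End F E)) x) y =
      D.B (X ((h⁻¹ : E ≃ₗ[F] E) x)) ((h⁻¹ : E ≃ₗ[F] E) y) := by
    rw [← hh (X ((h⁻¹ : E ≃ₗ[F] E) x)), h1]
    rfl
  have e2 : D.B x (((h : Module.End F E) * X * ((h⁻¹ : E ≃ₗ[F] E) : Module.End F E)) y) =
      D.B ((h⁻¹ : E ≃ₗ[F] E) x) (X ((h⁻¹ : E ≃ₗ[F] E) y)) := by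
    rw [← hh ((h⁻¹ : E ≃ₗ[F] E) x), h1]
    rfl
  rw [e1, e2]
  exact hX _ _

theorem Wsp_le (H : Subgroup (E ≃ₗ[F] E)) (hH : H ≤ D.G) : D.Wsp H ≤ D.𝔤 := by
  unfold Wsp
  rw [Submodule.span_le]
  rintro Y ⟨h, hh, e, he, rfl⟩
  exact D.conj_mem_𝔤 (hH hh) (D.M_mem_𝔤 he)

end Dat

end Pool.Agent.H32.UD
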