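import Pool.Agent.H32.UD.Gcd

/-!
# UD.Dt : most elements of a space of endomorphisms have no eigenvalue `-1`; Cayley elements

PROOF. `det_zeros`: `m = finrank U`; choose a basis of `U`; `det (1 + ∑ x_i X_i)` (matrix entries in a basis of `V`) is a polynomial in `x` of total degree `≤ finrank V` with value `1` at `0`; Schwartz-Zippel (`MvPolynomial.schwartz_zippel_totalDegree` with `S = Finset.univ`) gives `card (zeros) / q^m ≤ deg / q`.
`cayley`: for `X ∈ 𝔤` with `1 + X` injective (bijective) let `g = (1 - X)(1 + X)⁻¹`; `1 - X` is bijective too (`B ((1 + X) x, y) = B (x, (1 - X) y)`), `g ∈ G`: `B ((1 - X) x, (1 - X) y) = B ((1 + X) x, (1 + X) y)` since `B (X x, X y)`, `B (X x, y) + B (x, X y) = 0`. `g v = - v`, `v = (1 + X) w`: `(1 - X) w = -(1 + X) w`, `2 w = 0`.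
`X` is determined by `g`: `1 + g = 2 (1 + X)⁻¹`. If `X` commutes with `M j` so does `g`.
-/

set_option autoImplicit false

namespace Pool.Agent.H32.UD

open Module

/-- the generic matrix -/
private noncomputable def dtP {F V : Type} [Field F] [AddCommGroup V] [Module F V] {m n : ℕ}
    (c : Basis (Fin n) F V) (b : Fin m → Module.End F V) : Matrix (Fin n) (Fin n) (MvPolynomial (Fin m) F) :=
  fun i j => MvPolynomial.C ((1 : Matrix (Fin n) (Fin n) F) i j) +
    ∑ k, MvPolynomial.X k * MvPolynomial.C (LinearMap.toMatrix c c (b k) i j)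

private lemma dt_eval {F V : Type} [Field F] [AddCommGroup V] [Module F V] {m n : ℕ}
    (c : Basis (Fin n) F V) (b : Fin m → Module.End F V) (t : Fin m → F) :
    MvPolynomial.eval t (dtP c b).det = LinearMap.det (1 + ∑ k, t k • b k) := by
  rw [RingHom.map_det, ← LinearMap.det_toMatrix c]
  congr 1
  ext i j
  rw [RingHom.mapMatrix_apply, Matrix.map_apply]
  unfold dtP
  rw [map_add, map_sum, MvPolynomial.eval_C, map_add, LinearMap.toMatrix_one, Matrix.add_apply,
    map_sum, Matrix.sum_apply]
  congr 1
  refine Finset.sum_congr rfl fun k _ => ?_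
  rw [map_mul, MvPolynomial.eval_X, MvPolynomial.eval_C, map_smul, Matrix.smul_apply, smul_eq_mul]

private lemma dt_deg {F V : Type} [Field F] [AddCommGroup V] [Module F V] {m n : ℕ}
    (c : Basis (Fin n) F V) (b : Fin m → Module.End F V) : (dtP c b).det.totalDegree ≤ n := by
  rw [Matrix.det_apply]
  refine MvPolynomial.totalDegree_finsetSum_le fun σ _ => ?_
  refine (MvPolynomial.totalDegree_smul_le _ _).trans ?_
  refine (MvPolynomial.totalDegree_finsetProd _ _).trans ?_
  refine (Finset.sum_le_card_nsmul _ _ 1 fun i _ => ?_).trans (by simp)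
  unfold dtP
  refine (MvPolynomial.totalDegree_add _ _).trans (max_le ?_ ?_)
  · rw [MvPolynomial.totalDegree_C]
    exact Nat.zero_le _
  · refine MvPolynomial.totalDegree_finsetSum_le fun k _ => ?_
    refine (MvPolynomial.totalDegree_mul _ _).trans ?_
    rw [MvPolynomial.totalDegree_C, MvPolynomial.totalDegree_X]

theorem det_zeros {F V : Type} [Field F] [Finite F] [AddCommGroup V] [Module F V] [FiniteDimensional F V]
    (U : Submodule F (Module.End F V)) :
    Nat.card {X : U // ¬ ∀ x, x + (X : Module.End F V) x = 0 → x = 0} * Nat.card F ≤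
      finrank F V * Nat.card F ^ finrank F U := by
  classical
  have hF : Fintype F := Fintype.ofFinite F
  have b : Basis (Fin (finrank F U)) F U := Module.finBasis F U
  have c : Basis (Fin (finrank F V)) F V := Module.finBasis F V
  set B : Fin (finrank F U) → Module.End F V := fun k => ((b k : U) : Module.End F V) with hB
  have hP0 : (dtP c B).det ≠ 0 := by
    intro h
    have h1 := dt_eval c B 0
    rw [h, map_zero] at h1
    simp at h1
  have hsz := MvPolynomial.schwartz_zippel_totalDegree hP0 (Finset.univ : Finset F)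
  have hinj : Nat.card {X : U // ¬ ∀ x, x + (X : Module.End F V) x = 0 → x = 0} ≤
      (Finset.filter (fun t => MvPolynomial.eval t (dtP c B).det = 0)
        (Fintype.piFinset fun _ : Fin (finrank F U) => (Finset.univ : Finset F))).card := by
    rw [← Fintype.card_coe, ← Nat.card_eq_fintype_card]
    have hmem : ∀ X : {X : U // ¬ ∀ x, x + (X : Module.End F V) x = 0 → x = 0},
        b.equivFun X.1 ∈ Finset.filter (fun t => MvPolynomial.eval t (dtP c B).det = 0)
          (Fintype.piFinset fun _ : Fin (finrank F U) => (Finset.univ : Finset F)) := by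
      intro X
      rw [Finset.mem_filter]
      refine ⟨by simp, ?_⟩
      have h1 : ∑ k, b.equivFun X.1 k • B k = ((X.1 : U) : Module.End F V) := by
        have h2 := b.sum_equivFun X.1
        have h3 := congrArg (Submodule.subtype U) h2
        rw [map_sum] at h3
        simpa using h3
      rw [dt_eval, h1]
      by_contra hd
      apply X.2
      intro x hx
      have hu : IsUnit (LinearMap.det (1 + ((X.1 : U) : Module.End F V))) := isUnit_iff_ne_zero.2 hd
      have hu2 := (LinearMap.isUnit_iff_isUnit_det _).2 hu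
      have hk := (LinearMap.isUnit_iff_ker_eq_bot _).1 hu2
      have hx2 : x ∈ LinearMap.ker (1 + ((X.1 : U) : Module.End F V)) := by
        rw [LinearMap.mem_ker, LinearMap.add_apply]
        exact hx
      rw [hk] at hx2
      exact (Submodule.mem_bot F).1 hx2
    refine Nat.card_le_card_of_injective (fun X => ⟨b.equivFun X.1, hmem X⟩) ?_
    intro X Y hXY
    have h1 : b.equivFun X.1 = b.equivFun Y.1 := congrArg Subtype.val hXY
    exact Subtype.ext (b.equivFun.injective h1)
  have hq : 0 < Fintype.card F := Fintype.card_pos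
  have hq' : (0 : ℚ≥0) < (Fintype.card F : ℚ≥0) := by exact_mod_cast hq
  rw [Finset.card_univ, div_le_div_iff₀ (pow_pos hq' _) hq'] at hsz
  have hsz2 : (Finset.filter (fun t => MvPolynomial.eval t (dtP c B).det = 0)
        (Fintype.piFinset fun _ : Fin (finrank F U) => (Finset.univ : Finset F))).card * Fintype.card F ≤
        (dtP c B).det.totalDegree * Fintype.card F ^ finrank F U := by exact_mod_cast hsz
  rw [Nat.card_eq_fintype_card (α := F)]
  exact (Nat.mul_le_mul_right _ hinj).trans (hsz2.trans (Nat.mul_le_mul_right _ (dt_deg c B)))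

namespace Dat

variable {F E : Type} [Field F] [Field E] [Algebra F E] (D : Dat F E) [Finite F] [Finite E]

omit [Finite F] in
private lemma dt_bij (X : Module.End F E) (h : ∀ x, x + X x = 0 → x = 0) :
    Function.Bijective fun x => x + X x := by
  have hi : Function.Injective fun x => x + X x := by
    intro x y hxy
    have h1 : (x - y) + X (x - y) = 0 := by
      rw [map_sub]
      have h2 : x + X x = y + X y := hxy
      linear_combination h2
    exact sub_eq_zero.1 (h _ h1)
  exact ⟨hi, Finite.surjective_of_injective hi⟩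

include D in
omit [Finite F] [Finite E] in
private lemma dt_two (x : E) (h : x + x = 0) : x = 0 := by
  have h1 : (2 : F) • x = 0 := by rw [two_smul]; exact h
  exact (smul_eq_zero.1 h1).resolve_left D.two_ne

theorem cayley (X : Module.End F E) (hX : X ∈ D.𝔤) (h : ∀ x, x + X x = 0 → x = 0) :
    ∃ g : E ≃ₗ[F] E, g ∈ D.Cay ∧ ∀ x, g (x + X x) = x - X x := by
  have hg := D.mem_𝔤.1 hX
  have b1 := dt_bij X h
  have h2 : ∀ x, x + (-X) x = 0 → x = 0 := by
    intro y hy
    apply D.B_nondeg'
    intro z
    obtain ⟨x, hx⟩ := b1.2 z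
    have hx' : x + X x = z := hx
    rw [← hx', map_add, LinearMap.add_apply]
    have h3 : D.B (X x) y = -D.B x (X y) := by
      have := hg x y
      linear_combination this
    have h4 : D.B x (y + (-X) y) = 0 := by rw [hy, map_zero]
    rw [map_add, LinearMap.neg_apply, map_neg] at h4
    rw [h3]
    exact h4
  have b2 := dt_bij (-X) h2
  let e1 : E ≃ₗ[F] E := LinearEquiv.ofBijective (LinearMap.id + X) b1
  let e2 : E ≃ₗ[F] E := LinearEquiv.ofBijective (LinearMap.id + -X) b2
  have he1 : ∀ x, e1 x = x + X x := fun x => rfl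
  have he2 : ∀ x, e2 x = x - X x := fun x => (sub_eq_add_neg x (X x)).symm
  have hgx : ∀ x, (e1.symm.trans e2) (x + X x) = x - X x := by
    intro x
    rw [LinearEquiv.trans_apply, ← he1, LinearEquiv.symm_apply_apply, he2]
  refine ⟨e1.symm.trans e2, ⟨?_, ?_⟩, hgx⟩
  · rw [D.mem_G]
    intro u v
    obtain ⟨x, hx⟩ := b1.2 u
    obtain ⟨y, hy⟩ := b1.2 v
    have hx' : x + X x = u := hx
    have hy' : y + X y = v := hy
    rw [← hx', ← hy', hgx, hgx]
    simp only [map_add, map_sub, LinearMap.add_apply, LinearMap.sub_apply]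
    have h3 := hg x y
    linear_combination -2 * h3
  · intro v hv
    obtain ⟨w, hw⟩ := b1.2 v
    have hw' : w + X w = v := hw
    rw [← hw', hgx] at hv
    have h3 : w = 0 := D.dt_two w (by linear_combination hv)
    rw [← hw', h3, map_zero, add_zero]

include D in
theorem cayley_inj (X Y : Module.End F E) (h : ∀ x, x + X x = 0 → x = 0) (h' : ∀ x, x + Y x = 0 → x = 0)
    (g : E ≃ₗ[F] E) (hX : ∀ x, g (x + X x) = x - X x) (hY : ∀ x, g (x + Y x) = x - Y x) : X = Y := by
  ext x
  obtain ⟨w, hw⟩ := (dt_bij Y h').2 (x + X x)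
  have hw' : w + Y w = x + X x := hw
  have h1 := hX x
  rw [← hw', hY] at h1
  have h2 : w = x := by
    have h3 : w - x = 0 := D.dt_two _ (by linear_combination hw' + h1)
    exact sub_eq_zero.1 h3
  rw [h2] at hw'
  linear_combination -hw'

theorem cayley_comm (X : Module.End F E) (h : ∀ x, x + X x = 0 → x = 0) (j : E) (hj : X * M F j = M F j * X)
    (g : E ≃ₗ[F] E) (hX : ∀ x, g (x + X x) = x - X x) :
    (g : Module.End F E) * M F j = M F j * (g : Module.End F E) := by
  ext v
  obtain ⟨w, hw⟩ := (dt_bij X h).2 v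
  have hw' : w + X w = v := hw
  have hc : ∀ y, X (j * y) = j * X y := by
    intro y
    have := LinearMap.congr_fun hj y
    exact this
  change g (j * v) = j * g v
  rw [← hw', hX]
  have h1 : j * (w + X w) = j * w + X (j * w) := by rw [hc]; ring
  rw [h1, hX, hc]
  ring

/-- every Cayley element is of this form -/
theorem cayley_surj (g : E ≃ₗ[F] E) (hg : g ∈ D.Cay) :
    ∃ X ∈ D.𝔤, (∀ x, x + X x = 0 → x = 0) ∧ ∀ x, g (x + X x) = x - X x := by
  have hG := D.mem_G.1 hg.1
  have hb := dt_bij (g : Module.End F E) (fun x hx => hg.2 x (by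
    have h1 : x + g x = 0 := hx
    linear_combination h1))
  let e : E ≃ₗ[F] E := LinearEquiv.ofBijective (LinearMap.id + (g : Module.End F E)) hb
  have he : ∀ x, e x = x + g x := fun x => rfl
  let X : Module.End F E := (2 : F) • (e.symm : E →ₗ[F] E) - LinearMap.id
  have hXe : ∀ w, X (w + g w) = w - g w := by
    intro w
    have h1 : X (w + g w) = (2 : F) • e.symm (w + g w) - (w + g w) := rfl
    rw [h1, ← he, LinearEquiv.symm_apply_apply, he, two_smul]
    ring
  refine ⟨X, ?_, ?_, ?_⟩
  · rw [D.mem_𝔤]
    intro x y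
    obtain ⟨w, hw⟩ := hb.2 x
    obtain ⟨z, hz⟩ := hb.2 y
    have hw' : w + g w = x := hw
    have hz' : z + g z = y := hz
    rw [← hw', ← hz', hXe, hXe]
    simp only [map_add, map_sub, LinearMap.add_apply, LinearMap.sub_apply]
    have h3 := hG w z
    linear_combination -2 * h3
  · intro x hx
    obtain ⟨w, hw⟩ := hb.2 x
    have hw' : w + g w = x := hw
    rw [← hw', hXe] at hx
    have h3 : w = 0 := D.dt_two w (by linear_combination hx)
    rw [← hw', h3, map_zero, add_zero]
  · intro x
    obtain ⟨w, hw⟩ := hb.2 x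
    have hw' : w + g w = x := hw
    rw [← hw', hXe]
    have h1 : w + g w + (w - g w) = w + w := by ring
    rw [h1, map_add]
    ring

end Dat

end Pool.Agent.H32.UD
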