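import Pool.Agent.H32.UD.Com
import Pool.Agent.H32.UD.Dt

/-!
# UD.CJ : lower bound for the centraliser of `M j` in `⁅G, G⁆ ⊓ Gc`

PROOF. `m = finrank (cen j)`. By `det_zeros` (`U = cen j`, `finrank E = 2 r`) at least `q^m - 2 r q^(m-1) ≥ q^m / 2` elements `X ∈ cen j` have `1 + X` injective (`q ≥ 4 r`). `cayley`, `cayley_inj`, `cayley_comm`: at least `q^m / 2` elements `g ∈ Cay ⊆ Gc` commuting with `M j`. The index of `⁅G, G⁆` in `G` is at most `K = C₁ C₂` (`comm_card`, `upper`), so some coset `g₀ ⁅G, G⁆` contains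
at least `q^m / (2 K)` of them, and `g₁⁻¹ g` (`g₁` a fixed one, `g` any) are that many elements of `⁅G, G⁆ ⊓ Gc` commuting with `M j`.
-/

set_option autoImplicit false

namespace Pool.Agent.H32.UD

open Module

namespace Dat

variable {F E : Type} [Field F] [Field E] [Algebra F E] (D : Dat F E) [Finite F] [Finite E]

/-- the centraliser of `M j` in `⁅G, G⁆ ⊓ Gc` -/
def CJ (j : E) : Subgroup (E ≃ₗ[F] E) where
  carrier := {g | g ∈ (⁅D.G, D.G⁆ ⊓ D.Gc : Subgroup (E ≃ₗ[F] E)) ∧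
    (g : Module.End F E) * M F j = M F j * (g : Module.End F E)}
  mul_mem' := by
    rintro a b ⟨ha, ha'⟩ ⟨hb, hb'⟩
    refine ⟨mul_mem ha hb, ?_⟩
    have e : ((a * b : E ≃ₗ[F] E) : Module.End F E) = (a : Module.End F E) * (b : Module.End F E) := rfl
    rw [e, mul_assoc, hb', ← mul_assoc, ha', mul_assoc]
  one_mem' := ⟨one_mem _, by ext x; rfl⟩
  inv_mem' := by
    rintro a ⟨ha, ha'⟩
    refine ⟨inv_mem ha, ?_⟩
    have e1 : ((a⁻¹ : E ≃ₗ[F] E) : Module.End F E) * (a : Module.End F E) = 1 := by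
      ext x
      show (a⁻¹ * a : E ≃ₗ[F] E) x = x
      rw [inv_mul_cancel]; rfl
    have e2 : (a : Module.End F E) * ((a⁻¹ : E ≃ₗ[F] E) : Module.End F E) = 1 := by
      ext x
      show (a * a⁻¹ : E ≃ₗ[F] E) x = x
      rw [mul_inv_cancel]; rfl
    calc ((a⁻¹ : E ≃ₗ[F] E) : Module.End F E) * M F j
        = ((a⁻¹ : E ≃ₗ[F] E) : Module.End F E) * M F j * ((a : Module.End F E) * ((a⁻¹ : E ≃ₗ[F] E) : Module.End F E)) := by
          rw [e2, mul_one]
      _ = ((a⁻¹ : E ≃ₗ[F] E) : Module.End F E) * (M F j * (a : Module.End F E)) * ((a⁻¹ : E ≃ₗ[F] E) : Module.End F E) := by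
          simp only [mul_assoc]
      _ = (((a⁻¹ : E ≃ₗ[F] E) : Module.End F E) * (a : Module.End F E)) * M F j * ((a⁻¹ : E ≃ₗ[F] E) : Module.End F E) := by
          rw [← ha']; simp only [mul_assoc]
      _ = M F j * ((a⁻¹ : E ≃ₗ[F] E) : Module.End F E) := by rw [e1, one_mul]

end Dat

private theorem CJ_fin {F E : Type} [Field F] [Field E] [Algebra F E] [Finite E] :
    Finite (E ≃ₗ[F] E) :=
  Finite.of_injective (fun g : E ≃ₗ[F] E => (g : E → E)) DFunLike.coe_injective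

private theorem CJ_index {F E : Type} [Field F] [Field E] [Algebra F E] [Finite F] [Finite E]
    (D : Dat F E) {C₁ C₂ N : ℕ} (h1 : N ≤ C₁ * Nat.card (⁅D.G, D.G⁆ : Subgroup (E ≃ₗ[F] E)))
    (h2 : Nat.card D.G ≤ C₂ * N) :
    Nat.card (D.G ⧸ (⁅D.G, D.G⁆ : Subgroup (E ≃ₗ[F] E)).subgroupOf D.G) ≤ C₁ * C₂ := by
  have : Finite (E ≃ₗ[F] E) := CJ_fin
  have hle : (⁅D.G, D.G⁆ : Subgroup (E ≃ₗ[F] E)) ≤ D.G := by
    rw [Subgroup.commutator_le]
    intro a ha b hb
    rw [commutatorElement_def]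
    exact mul_mem (mul_mem (mul_mem ha hb) (inv_mem ha)) (inv_mem hb)
  have e1 := Subgroup.card_eq_card_quotient_mul_card_subgroup
    ((⁅D.G, D.G⁆ : Subgroup (E ≃ₗ[F] E)).subgroupOf D.G)
  have e2 : Nat.card ((⁅D.G, D.G⁆ : Subgroup (E ≃ₗ[F] E)).subgroupOf D.G) =
      Nat.card (⁅D.G, D.G⁆ : Subgroup (E ≃ₗ[F] E)) :=
    Nat.card_congr (Subgroup.subgroupOfEquivOfLe hle).toEquiv
  rw [e2] at e1
  have hpos : 0 < Nat.card (⁅D.G, D.G⁆ : Subgroup (E ≃ₗ[F] E)) := Nat.card_pos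
  refine Nat.le_of_mul_le_mul_right ?_ hpos
  rw [← e1]
  calc Nat.card D.G ≤ C₂ * N := h2
    _ ≤ C₂ * (C₁ * Nat.card (⁅D.G, D.G⁆ : Subgroup (E ≃ₗ[F] E))) := Nat.mul_le_mul_left _ h1
    _ = _ := by ring

theorem cj_card (r : ℕ) : ∃ C q0 : ℕ, ∀ (F E : Type) [Field F] [Field E] [Algebra F E] [Finite F]
    [Finite E] (D : Dat F E), D.r = r → q0 ≤ Nat.card F → ∀ j : E, fr F E j = -j → j ≠ 0 →
    Nat.card F ^ finrank F (D.cen j) ≤ C * Nat.card (D.CJ j) := by
  obtain ⟨C₁, q₁, hC₁⟩ := comm_card r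
  obtain ⟨C₂, hC₂⟩ := upper r
  refine ⟨2 * (C₁ * C₂), max q₁ (4 * r), ?_⟩
  intro F E _ _ _ _ _ D hr hq j hj hj0
  classical
  have hfin : Finite (E ≃ₗ[F] E) := CJ_fin
  have hE : FiniteDimensional F E := FiniteDimensional.of_finrank_pos (by
    rw [D.fin]; have := D.four_le; omega)
  have : Finite (Module.End F E) :=
    Finite.of_injective (fun g : Module.End F E => (g : E → E)) DFunLike.coe_injective
  have hq1 : q₁ ≤ Nat.card F := (le_max_left _ _).trans hq
  have hq4 : 4 * r ≤ Nat.card F := (le_max_right _ _).trans hq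
  have hr4 : 4 ≤ r := hr ▸ D.four_le
  have hidx := CJ_index D (hC₁ F E D hr hq1) (hC₂ F E D hr)
  -- the good elements of the centraliser
  set m := finrank F (D.cen j) with hm
  set S := {X : D.cen j // ∀ x, x + (X : Module.End F E) x = 0 → x = 0} with hS
  have hU : Nat.card (D.cen j) = Nat.card F ^ m := by
    rw [hm]
    exact Module.natCard_eq_pow_finrank (K := F) (V := D.cen j)
  have hbad := det_zeros (D.cen j)
  rw [D.fin, hr] at hbad
  have hsplit : Nat.card S +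
      Nat.card {X : D.cen j // ¬ ∀ x, x + (X : Module.End F E) x = 0 → x = 0} =
      Nat.card (D.cen j) := by
    rw [← Nat.card_sum]
    exact Nat.card_congr (Equiv.sumCompl _)
  set b := Nat.card {X : D.cen j // ¬ ∀ x, x + (X : Module.End F E) x = 0 → x = 0} with hb
  have hS2 : Nat.card F ^ m ≤ 2 * Nat.card S := by
    have h1 : b * (4 * r) ≤ 2 * r * Nat.card F ^ m := (Nat.mul_le_mul_left _ hq4).trans hbad
    have h2 : 2 * b ≤ Nat.card F ^ m := by
      have h3 : (2 * b) * (2 * r) ≤ Nat.card F ^ m * (2 * r) := by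
        calc (2 * b) * (2 * r) = b * (4 * r) := by ring
          _ ≤ 2 * r * Nat.card F ^ m := h1
          _ = _ := by ring
      exact Nat.le_of_mul_le_mul_right h3 (by omega)
    rw [hU] at hsplit
    omega
  -- the Cayley elements
  have hch : ∀ X : S, ∃ g : E ≃ₗ[F] E, g ∈ D.Cay ∧
      ∀ x, g (x + (X.1 : Module.End F E) x) = x - (X.1 : Module.End F E) x := fun X =>
    D.cayley X.1 X.1.2.1 X.2
  choose g hg hgx using hch
  have hgG : ∀ X, g X ∈ D.G := fun X => (hg X).1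
  have hgc : ∀ X, g X ∈ D.Gc := fun X => Subgroup.subset_closure (hg X)
  have hgj : ∀ X, ((g X : E ≃ₗ[F] E) : Module.End F E) * M F j = M F j * (g X : Module.End F E) :=
    fun X => Dat.cayley_comm X.1 X.2 j X.1.2.2 (g X) (hgx X)
  have hgi : Function.Injective g := by
    intro X Y h
    have h1 : ((X.1 : D.cen j) : Module.End F E) = Y.1 :=
      Dat.cayley_inj D X.1 Y.1 X.2 Y.2 (g X) (hgx X) (by rw [h]; exact hgx Y)
    exact Subtype.ext (Subtype.ext h1)
  let f : S → D.G ⧸ (⁅D.G, D.G⁆ : Subgroup (E ≃ₗ[F] E)).subgroupOf D.G :=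
    fun X => QuotientGroup.mk ⟨g X, hgG X⟩
  let _ : Fintype S := Fintype.ofFinite _
  let _ : Fintype (D.G ⧸ (⁅D.G, D.G⁆ : Subgroup (E ≃ₗ[F] E)).subgroupOf D.G) := Fintype.ofFinite _
  have hfib : ∀ c ∈ Finset.univ.image f,
      (Finset.univ.filter fun X => f X = c).card ≤ Nat.card (D.CJ j) := by
    intro c hc
    obtain ⟨Y, -, hY⟩ := Finset.mem_image.1 hc
    have hmem : ∀ X : {X // X ∈ Finset.univ.filter fun X => f X = c},
        (g Y)⁻¹ * g X.1 ∈ D.CJ j := by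
      rintro ⟨X, hX⟩
      rw [Finset.mem_filter] at hX
      have h1 : f Y = f X := by rw [hY, hX.2]
      have h2 := QuotientGroup.eq.1 h1
      rw [Subgroup.mem_subgroupOf] at h2
      have h3 : (g Y)⁻¹ * g X ∈ (⁅D.G, D.G⁆ : Subgroup (E ≃ₗ[F] E)) := h2
      refine ⟨Subgroup.mem_inf.2 ⟨h3, mul_mem (inv_mem (hgc Y)) (hgc X)⟩, ?_⟩
      have e1 : (((g Y)⁻¹ : E ≃ₗ[F] E) : Module.End F E) * (g Y : Module.End F E) = 1 := by
        ext x
        show ((g Y)⁻¹ * g Y : E ≃ₗ[F] E) x = x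
        rw [inv_mul_cancel]; rfl
      have e2 : (g Y : Module.End F E) * (((g Y)⁻¹ : E ≃ₗ[F] E) : Module.End F E) = 1 := by
        ext x
        show (g Y * (g Y)⁻¹ : E ≃ₗ[F] E) x = x
        rw [mul_inv_cancel]; rfl
      have e3 : (((g Y)⁻¹ : E ≃ₗ[F] E) : Module.End F E) * M F j =
          M F j * (((g Y)⁻¹ : E ≃ₗ[F] E) : Module.End F E) := by
        calc (((g Y)⁻¹ : E ≃ₗ[F] E) : Module.End F E) * M F j
            = (((g Y)⁻¹ : E ≃ₗ[F] E) : Module.End F E) * (M F j * (g Y : Module.End F E)) *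
              (((g Y)⁻¹ : E ≃ₗ[F] E) : Module.End F E) := by
              rw [mul_assoc, mul_assoc, e2, mul_one]
          _ = (((g Y)⁻¹ : E ≃ₗ[F] E) : Module.End F E) * ((g Y : Module.End F E) * M F j) *
              (((g Y)⁻¹ : E ≃ₗ[F] E) : Module.End F E) := by rw [hgj]
          _ = M F j * (((g Y)⁻¹ : E ≃ₗ[F] E) : Module.End F E) := by
              rw [← mul_assoc, e1, one_mul]
      have e4 : (((g Y)⁻¹ * g X : E ≃ₗ[F] E) : Module.End F E) =
          (((g Y)⁻¹ : E ≃ₗ[F] E) : Module.End F E) * (g X : Module.End F E) := rfl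
      rw [e4, mul_assoc, hgj, ← mul_assoc, e3, mul_assoc]
    have hinj : Function.Injective fun X : {X // X ∈ Finset.univ.filter fun X => f X = c} =>
        (⟨(g Y)⁻¹ * g X.1, hmem X⟩ : D.CJ j) := by
      intro X X' h
      have h1 : (g Y)⁻¹ * g X.1 = (g Y)⁻¹ * g X'.1 := congrArg Subtype.val h
      exact Subtype.ext (hgi (mul_left_cancel h1))
    have h1 := Nat.card_le_card_of_injective _ hinj
    rwa [Nat.card_eq_fintype_card, Fintype.card_coe] at h1
  have h5 : Nat.card S ≤ Nat.card (D.CJ j) * (C₁ * C₂) := by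
    have h6 := Finset.card_le_mul_card_image (Finset.univ : Finset S) (Nat.card (D.CJ j)) hfib
    rw [Finset.card_univ, ← Nat.card_eq_fintype_card] at h6
    refine h6.trans (Nat.mul_le_mul_left _ ?_)
    refine (Finset.card_le_univ _).trans ?_
    rw [← Nat.card_eq_fintype_card]
    exact hidx
  calc Nat.card F ^ m ≤ 2 * Nat.card S := hS2
    _ ≤ 2 * (Nat.card (D.CJ j) * (C₁ * C₂)) := Nat.mul_le_mul_left _ h5
    _ = _ := by ring

end Pool.Agent.H32.UD
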