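import Pool.Agent.H49.UDN.Basic

/-!
# UD.Cla : quadratic forms of minus type over a finite field of odd characteristic are isometric

PROOF. Induction on `m`. `m = 1`: `Q`, `Q'` are anisotropic on planes. There is `v` with `Q v = 1`: diagonalise `Q = α x² + β y²` (choose `v₀` with `Q v₀ ≠ 0` and the orthogonal vector), `FiniteField.exists_root_sum_quadratic` (or a counting argument) solves `α x² + β y² = 1`. Let `w ≠ 0` be orthogonal to `v`, `a = Q w ≠ 0`; `-a` is not a square (otherwise `Q (s v + w) = s² + a = 0`).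
The same for `Q'` with `v', w', a'`. The quotient of two nonsquares `-a, -a'` is a square (`quadraticChar`, or the squares have index two): `a = s² a'`; `v ↦ v'`, `w ↦ s w'`. Step `m ≥ 2`: `exists_singular` (dimension `2 m ≥ 3`) gives `u ≠ 0`, `Q u = 0`, and `v` with `polar u v = 1`, `Q v = 0` (replace `v` by `v - Q v u`). `P = ⟨u, v⟩`, `V = P ⊕ P^⊥`,
`P^⊥` has dimension `2 (m - 1)`, `Q` is nondegenerate on it, and it has no totally singular subspace of dimension `m - 1` (add `u`). The same for `V'`; combine the isometries `P → P'` and `P^⊥ → P'^⊥` (induction).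
-/

set_option autoImplicit false

namespace Pool.Agent.H32.UD

open Module QuadraticMap

private lemma cla_add {F V : Type} [Field F] [AddCommGroup V] [Module F V]
    (Q : QuadraticForm F V) (x y : V) : Q (x + y) = Q x + Q y + polar Q x y :=
  QuadraticMap.map_add Q x y

private lemma cla_smul {F V : Type} [Field F] [AddCommGroup V] [Module F V]
    (Q : QuadraticForm F V) (a : F) (x : V) : Q (a • x) = a * a * Q x := by
  rw [QuadraticMap.map_smul, smul_eq_mul]

private lemma cla_self {F V : Type} [Field F] [AddCommGroup V] [Module F V]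
    (Q : QuadraticForm F V) (x : V) : polar Q x x = 2 * Q x := by
  rw [QuadraticMap.polar_self, nsmul_eq_mul]
  norm_num

/-- an isometric linear map from a nondegenerate space is an isometry -/
private lemma cla_iso {F V V' : Type} [Field F] [AddCommGroup V] [Module F V]
    [FiniteDimensional F V] [AddCommGroup V'] [Module F V'] [FiniteDimensional F V']
    (Q : QuadraticForm F V) (Q' : QuadraticForm F V')
    (hnd : ∀ x, (∀ y, polar Q x y = 0) → x = 0) (hr : finrank F V = finrank F V')
    (f : V →ₗ[F] V') (hf : ∀ x, Q' (f x) = Q x) :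
    ∃ e : V ≃ₗ[F] V', ∀ x, Q' (e x) = Q x := by
  have hinj : Function.Injective f := by
    rw [injective_iff_map_eq_zero]
    intro x hx
    apply hnd
    intro y
    have h1 : polar Q' (f x) (f y) = polar Q x y := by
      simp only [polar, ← map_add, hf]
    rw [← h1, hx, polar_zero_left]
  refine ⟨LinearMap.linearEquivOfInjective f hinj hr, fun x => ?_⟩
  rw [LinearMap.linearEquivOfInjective_apply]
  exact hf x

section Hyp
variable {F V : Type} [Field F] [AddCommGroup V] [Module F V]

/-- a hyperbolic partner -/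
private lemma cla_partner (Q : QuadraticForm F V) (hnd : ∀ x, (∀ y, polar Q x y = 0) → x = 0)
    {u : V} (hu0 : u ≠ 0) (hu : Q u = 0) : ∃ v, Q v = 0 ∧ polar Q u v = 1 := by
  have h1 : ∃ y, polar Q u y ≠ 0 := by
    by_contra hcon
    push Not at hcon
    exact hu0 (hnd u hcon)
  obtain ⟨v₁, h2⟩ : ∃ v₁, polar Q u v₁ = 1 := by
    obtain ⟨y, hy⟩ := h1
    exact ⟨(polar Q u y)⁻¹ • y, by rw [polar_smul_right, smul_eq_mul, inv_mul_cancel₀ hy]⟩
  have h3 : polar Q v₁ u = 1 := by rw [polar_comm, h2]
  refine ⟨v₁ + (-(Q v₁)) • u, ?_, ?_⟩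
  · rw [cla_add, cla_smul, hu, polar_smul_right, h3, smul_eq_mul]
    ring
  · rw [polar_add_right, polar_smul_right, cla_self, hu, h2, smul_eq_mul]
    ring

/-- the orthogonal complement of two vectors -/
private def claW (Q : QuadraticForm F V) (u v : V) : Submodule F V :=
  LinearMap.ker ((polarBilin Q u).prod (polarBilin Q v))

private lemma mem_claW {Q : QuadraticForm F V} {u v x : V} :
    x ∈ claW Q u v ↔ polar Q u x = 0 ∧ polar Q v x = 0 := by
  unfold claW
  rw [LinearMap.mem_ker]
  change ((polarBilin Q u) x, (polarBilin Q v) x) = 0 ↔ _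
  rw [Prod.mk_eq_zero]
  rfl

private lemma cla_finrank [FiniteDimensional F V] {Q : QuadraticForm F V} {u v : V}
    (hu : Q u = 0) (hv : Q v = 0) (huv : polar Q u v = 1) :
    finrank F (claW Q u v) + 2 = finrank F V := by
  have h1 := LinearMap.finrank_range_add_finrank_ker ((polarBilin Q u).prod (polarBilin Q v))
  have h2 : LinearMap.range ((polarBilin Q u).prod (polarBilin Q v)) = ⊤ := by
    rw [LinearMap.range_eq_top]
    rintro ⟨a, b⟩
    refine ⟨b • u + a • v, ?_⟩
    refine Prod.ext ?_ ?_
    · change polar Q u (b • u + a • v) = a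
      rw [polar_add_right, polar_smul_right, polar_smul_right, cla_self, hu, huv]
      simp
    · change polar Q v (b • u + a • v) = b
      rw [polar_add_right, polar_smul_right, polar_smul_right, cla_self, hv, polar_comm Q v u, huv]
      simp
  rw [h2, finrank_top, Module.finrank_prod, Module.finrank_self] at h1
  unfold claW
  omega

private lemma cla_hyp {Q : QuadraticForm F V} {u v w : V} (hu : Q u = 0) (hv : Q v = 0)
    (huv : polar Q u v = 1) (huw : polar Q u w = 0) (hvw : polar Q v w = 0) (a b : F) :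
    Q (a • u + b • v + w) = a * b + Q w := by
  rw [cla_add, cla_add, cla_smul, cla_smul, hu, hv, polar_add_left, polar_smul_left,
    polar_smul_left, polar_smul_left, polar_smul_right, huv, huw, hvw]
  simp only [smul_eq_mul]
  ring

private lemma cla_proj_mem {Q : QuadraticForm F V} {u v : V} (hu : Q u = 0) (hv : Q v = 0)
    (huv : polar Q u v = 1) (x : V) :
    (LinearMap.id - (polarBilin Q v).smulRight u - (polarBilin Q u).smulRight v : V →ₗ[F] V) x ∈
      claW Q u v := by
  have h0 : (LinearMap.id - (polarBilin Q v).smulRight u - (polarBilin Q u).smulRight v :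
      V →ₗ[F] V) x = x - polar Q v x • u - polar Q u x • v := rfl
  rw [h0, mem_claW]
  constructor
  · rw [polar_sub_right, polar_sub_right, polar_smul_right, polar_smul_right, cla_self, hu, huv]
    simp
  · rw [polar_sub_right, polar_sub_right, polar_smul_right, polar_smul_right, cla_self, hv,
      polar_comm Q v u, huv]
    simp

/-- the orthogonal projection -/
private noncomputable def claP {Q : QuadraticForm F V} {u v : V} (hu : Q u = 0) (hv : Q v = 0)
    (huv : polar Q u v = 1) : V →ₗ[F] claW Q u v :=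
  LinearMap.codRestrict (claW Q u v)
    (LinearMap.id - (polarBilin Q v).smulRight u - (polarBilin Q u).smulRight v)
    (cla_proj_mem hu hv huv)

private lemma claP_apply {Q : QuadraticForm F V} {u v : V} (hu : Q u = 0) (hv : Q v = 0)
    (huv : polar Q u v = 1) (x : V) :
    (claP hu hv huv x : V) = x - polar Q v x • u - polar Q u x • v := rfl

private lemma cla_dec {Q : QuadraticForm F V} {u v : V} (hu : Q u = 0) (hv : Q v = 0)
    (huv : polar Q u v = 1) (x : V) :
    x = polar Q v x • u + polar Q u x • v + (claP hu hv huv x : V) := by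
  rw [claP_apply]
  abel

private lemma cla_nd {Q : QuadraticForm F V} {u v : V} (hu : Q u = 0) (hv : Q v = 0)
    (huv : polar Q u v = 1) (hnd : ∀ x, (∀ y, polar Q x y = 0) → x = 0) :
    ∀ x : claW Q u v, (∀ y : claW Q u v, polar (Q.comp (claW Q u v).subtype) x y = 0) →
      x = 0 := by
  intro x hx
  apply Subtype.ext
  apply hnd
  intro z
  obtain ⟨hxu, hxv⟩ := mem_claW.1 x.2
  have h1 : polar Q (x : V) (claP hu hv huv z : V) = 0 := hx (claP hu hv huv z)
  rw [cla_dec hu hv huv z, polar_add_right, polar_add_right, polar_smul_right, polar_smul_right,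
    h1, polar_comm Q (x : V) u, polar_comm Q (x : V) v, hxu, hxv]
  simp

private lemma cla_sing [FiniteDimensional F V] {Q : QuadraticForm F V} {u v : V} (hu : Q u = 0)
    (hv : Q v = 0) (huv : polar Q u v = 1) {m : ℕ}
    (hs : ∀ W : Submodule F V, (∀ x ∈ W, Q x = 0) → finrank F W < m + 1) :
    ∀ S : Submodule F (claW Q u v), (∀ x ∈ S, Q.comp (claW Q u v).subtype x = 0) →
      finrank F S < m := by
  intro S hS
  have hu0 : u ≠ 0 := by
    rintro rfl
    rw [polar_zero_left] at huv
    exact zero_ne_one huv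
  have h1 := hs (Submodule.span F {u} ⊔ S.map (claW Q u v).subtype) (by
    intro x hx
    rw [Submodule.mem_sup] at hx
    obtain ⟨y, hy, z, hz, rfl⟩ := hx
    rw [Submodule.mem_span_singleton] at hy
    obtain ⟨a, rfl⟩ := hy
    rw [Submodule.mem_map] at hz
    obtain ⟨w, hw, rfl⟩ := hz
    have h2 : Q (w : V) = 0 := hS w hw
    have h3 := (mem_claW.1 w.2).1
    rw [cla_add, cla_smul, hu, polar_smul_left]
    change a * a * 0 + Q (w : V) + a • polar Q u (w : V) = 0
    rw [h2, h3]
    simp)
  have h2 := Submodule.finrank_sup_add_finrank_inf_eq (Submodule.span F {u})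
    (S.map (claW Q u v).subtype)
  have h3 : Submodule.span F {u} ⊓ S.map (claW Q u v).subtype = ⊥ := by
    rw [eq_bot_iff]
    rintro x ⟨hx1, hx2⟩
    rw [SetLike.mem_coe, Submodule.mem_span_singleton] at hx1
    obtain ⟨a, rfl⟩ := hx1
    rw [SetLike.mem_coe, Submodule.mem_map] at hx2
    obtain ⟨w, -, hw⟩ := hx2
    have h4 := (mem_claW.1 w.2).2
    have h5 : (w : V) = a • u := hw
    rw [h5, polar_smul_right, polar_comm Q v u, huv, smul_eq_mul, mul_one] at h4
    rw [h4, zero_smul]
    exact Submodule.zero_mem _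
  rw [h3, finrank_bot, finrank_span_singleton hu0, Submodule.finrank_map_subtype_eq] at h2
  omega

/-- gluing -/
private lemma cla_glue {V' : Type} [AddCommGroup V'] [Module F V'] {Q : QuadraticForm F V}
    {u v : V} (hu : Q u = 0) (hv : Q v = 0) (huv : polar Q u v = 1) {Q' : QuadraticForm F V'}
    {u' v' : V'} (hu' : Q' u' = 0) (hv' : Q' v' = 0) (huv' : polar Q' u' v' = 1)
    (f : claW Q u v →ₗ[F] claW Q' u' v') (hf : ∀ x, Q' (f x : V') = Q (x : V)) :
    ∃ g : V →ₗ[F] V', ∀ x, Q' (g x) = Q x := by
  refine ⟨(polarBilin Q v).smulRight u' + (polarBilin Q u).smulRight v' +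
    (claW Q' u' v').subtype ∘ₗ f ∘ₗ claP hu hv huv, fun x => ?_⟩
  change Q' (polar Q v x • u' + polar Q u x • v' + (f (claP hu hv huv x) : V')) = Q x
  have h1 := mem_claW.1 (f (claP hu hv huv x)).2
  have h2 := mem_claW.1 (claP hu hv huv x).2
  rw [cla_hyp hu' hv' huv' h1.1 h1.2, hf]
  conv_rhs => rw [cla_dec hu hv huv x]
  rw [cla_hyp hu hv huv h2.1 h2.2]

end Hyp

section Plane
variable {F V : Type} [Field F] [AddCommGroup V] [Module F V]

/-- an orthogonal nonzero vector -/
private lemma cla_orth [FiniteDimensional F V] (Q : QuadraticForm F V) (hr : finrank F V = 2)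
    (v : V) : ∃ w, w ≠ 0 ∧ polar Q v w = 0 := by
  have h1 := LinearMap.finrank_range_add_finrank_ker (polarBilin Q v)
  have h2 : finrank F (LinearMap.range (polarBilin Q v)) ≤ 1 := by
    refine (Submodule.finrank_le _).trans ?_
    rw [Module.finrank_self]
  have h3 : 0 < finrank F (LinearMap.ker (polarBilin Q v)) := by omega
  rw [finrank_pos_iff_exists_ne_zero] at h3
  obtain ⟨w, hw⟩ := h3
  refine ⟨w, fun h => hw (Subtype.ext h), ?_⟩
  have := w.2
  rw [LinearMap.mem_ker] at this
  exact this

/-- normal form of an anisotropic plane -/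
private lemma cla_plane [Finite F] (h2 : (2 : F) ≠ 0) [FiniteDimensional F V]
    (Q : QuadraticForm F V) (hr : finrank F V = 2) (han : ∀ x, x ≠ 0 → Q x ≠ 0) :
    ∃ v w, Q v = 1 ∧ polar Q v w = 0 ∧ Q w ≠ 0 ∧ ¬ IsSquare (-(Q w)) := by
  have hF : Fintype F := Fintype.ofFinite F
  have h3 : ∃ v₀ : V, v₀ ≠ 0 := by
    rw [← finrank_pos_iff_exists_ne_zero (R := F)]
    omega
  obtain ⟨v₀, hv₀⟩ := h3
  obtain ⟨w₀, hw₀, hvw₀⟩ := cla_orth Q hr v₀
  have hα := han v₀ hv₀
  have hβ := han w₀ hw₀
  have hchar : ringChar F ≠ 2 := by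
    intro h
    apply h2
    have h4 := ringChar.Nat.cast_ringChar (R := F)
    rw [h] at h4
    exact_mod_cast h4
  have hcard := FiniteField.odd_card_of_char_ne_two hchar
  have hroot : ∃ x y : F, Q v₀ * x ^ 2 + (Q w₀ * y ^ 2 - 1) = 0 := by
    have hd1 : (Polynomial.C (Q v₀) * Polynomial.X ^ 2 : Polynomial F).degree = 2 := by
      rw [Polynomial.degree_C_mul_X_pow 2 hα]
      rfl
    have hd2 : (Polynomial.C (Q w₀) * Polynomial.X ^ 2 - 1 : Polynomial F).degree = 2 := by
      have h5 : (Polynomial.C (Q w₀) * Polynomial.X ^ 2 : Polynomial F).degree = 2 := by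
        rw [Polynomial.degree_C_mul_X_pow 2 hβ]
        rfl
      rw [Polynomial.degree_sub_eq_left_of_degree_lt, h5]
      rw [h5, Polynomial.degree_one]
      norm_num
    obtain ⟨x, y, hxy⟩ := FiniteField.exists_root_sum_quadratic hd1 hd2 hcard
    refine ⟨x, y, ?_⟩
    simpa using hxy
  obtain ⟨x, y, hxy⟩ := hroot
  have hv : Q (x • v₀ + y • w₀) = 1 := by
    rw [cla_add, cla_smul, cla_smul, polar_smul_left, polar_smul_right, hvw₀]
    simp only [smul_eq_mul, mul_zero, add_zero]
    linear_combination hxy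
  obtain ⟨w, hw, hvw⟩ := cla_orth Q hr (x • v₀ + y • w₀)
  refine ⟨x • v₀ + y • w₀, w, hv, hvw, han w hw, ?_⟩
  rintro ⟨s, hs⟩
  set v := x • v₀ + y • w₀ with hvdef
  have h6 : Q (s • v + w) = 0 := by
    rw [cla_add, cla_smul, polar_smul_left, hv, hvw]
    simp only [smul_eq_mul, mul_zero, add_zero, mul_one]
    rw [← hs]
    ring
  have h7 : s • v + w = 0 := by
    by_contra hcon
    exact han _ hcon h6
  have h8 : polar Q v (s • v + w) = 0 := by rw [h7, polar_zero_right]
  rw [polar_add_right, polar_smul_right, cla_self, hv, hvw] at h8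
  simp only [smul_eq_mul, mul_one, add_zero] at h8
  have h9 : s = 0 := by
    rcases mul_eq_zero.1 h8 with h | h
    · exact h
    · exact absurd h h2
  rw [h9, zero_smul, zero_add] at h7
  exact hw h7

end Plane

private lemma cla_base {F : Type} [Field F] [Finite F] (h2 : (2 : F) ≠ 0)
    (V V' : Type) [AddCommGroup V] [Module F V] [FiniteDimensional F V] [AddCommGroup V']
    [Module F V'] [FiniteDimensional F V'] (Q : QuadraticForm F V) (Q' : QuadraticForm F V')
    (hr : finrank F V = 2) (hr' : finrank F V' = 2) (han : ∀ x, x ≠ 0 → Q x ≠ 0)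
    (han' : ∀ x, x ≠ 0 → Q' x ≠ 0) : ∃ f : V →ₗ[F] V', ∀ x, Q' (f x) = Q x := by
  classical
  have hF : Fintype F := Fintype.ofFinite F
  obtain ⟨v, w, hv, hvw, ha, hsq⟩ := cla_plane h2 Q hr han
  obtain ⟨v', w', hv', hvw', ha', hsq'⟩ := cla_plane h2 Q' hr' han'
  -- the quotient is a square
  have hs : ∃ s : F, Q w = s * s * Q' w' := by
    have h3 : IsSquare ((-(Q w)) * (-(Q' w'))) := by
      have h4 : (-(Q w)) * (-(Q' w')) ≠ 0 := mul_ne_zero (neg_ne_zero.2 ha) (neg_ne_zero.2 ha')
      rw [← quadraticChar_one_iff_isSquare h4, map_mul,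
        quadraticChar_neg_one_iff_not_isSquare.2 hsq,
        quadraticChar_neg_one_iff_not_isSquare.2 hsq']
      norm_num
    obtain ⟨r, hr1⟩ := h3
    refine ⟨r / Q' w', ?_⟩
    field_simp
    linear_combination hr1
  obtain ⟨s, hs⟩ := hs
  set a := Q w with hadef
  refine ⟨(2 : F)⁻¹ • (polarBilin Q v).smulRight v' +
    (2 * a)⁻¹ • (polarBilin Q w).smulRight (s • w'), fun x => ?_⟩
  have hx : x = ((2 : F)⁻¹ * polar Q v x) • v + ((2 * a)⁻¹ * polar Q w x) • w := by
    have hinj : Function.Injective ((polarBilin Q v).prod (polarBilin Q w)) := by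
      rw [LinearMap.injective_iff_surjective_of_finrank_eq_finrank
        (by rw [hr, Module.finrank_prod, Module.finrank_self])]
      rintro ⟨c, d⟩
      refine ⟨((2 : F)⁻¹ * c) • v + ((2 * a)⁻¹ * d) • w, ?_⟩
      refine Prod.ext ?_ ?_
      · change polar Q v (((2 : F)⁻¹ * c) • v + ((2 * a)⁻¹ * d) • w) = c
        rw [polar_add_right, polar_smul_right, polar_smul_right, cla_self, hv, hvw]
        simp only [smul_eq_mul]
        field_simp
        ring
      · change polar Q w (((2 : F)⁻¹ * c) • v + ((2 * a)⁻¹ * d) • w) = d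
        rw [polar_add_right, polar_smul_right, polar_smul_right, cla_self, polar_comm Q w v,
          hvw]
        simp only [smul_eq_mul]
        field_simp
        ring
    apply hinj
    refine Prod.ext ?_ ?_
    · change polar Q v x = polar Q v (((2 : F)⁻¹ * polar Q v x) • v +
        ((2 * a)⁻¹ * polar Q w x) • w)
      rw [polar_add_right, polar_smul_right, polar_smul_right, cla_self, hv, hvw]
      simp only [smul_eq_mul]
      field_simp
      ring
    · change polar Q w x = polar Q w (((2 : F)⁻¹ * polar Q v x) • v +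
        ((2 * a)⁻¹ * polar Q w x) • w)
      rw [polar_add_right, polar_smul_right, polar_smul_right, cla_self, polar_comm Q w v,
        hvw]
      simp only [smul_eq_mul]
      field_simp
      ring
  change Q' ((2 : F)⁻¹ • (polar Q v x • v') + (2 * a)⁻¹ • (polar Q w x • (s • w'))) = Q x
  conv_rhs => rw [hx]
  rw [cla_add, cla_add, cla_smul, cla_smul, cla_smul, cla_smul, cla_smul, cla_smul, cla_smul,
    polar_smul_left, polar_smul_left, polar_smul_left, polar_smul_right, polar_smul_right,
    polar_smul_right, polar_smul_right, hv, hv', hvw, hvw']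
  simp only [smul_eq_mul]
  rw [← hadef, hs]
  ring

theorem minus_unique {F : Type} [Field F] [Finite F] (h2 : (2 : F) ≠ 0) (m : ℕ) (hm : 1 ≤ m) :
    ∀ (V V' : Type) [AddCommGroup V] [Module F V] [FiniteDimensional F V] [AddCommGroup V'] [Module F V']
    [FiniteDimensional F V'] (Q : QuadraticForm F V) (Q' : QuadraticForm F V'),
    (∀ x, (∀ y, polar Q x y = 0) → x = 0) → (∀ x, (∀ y, polar Q' x y = 0) → x = 0) →
    finrank F V = 2 * m → finrank F V' = 2 * m →
    (∀ W : Submodule F V, (∀ x ∈ W, Q x = 0) → finrank F W < m) →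
    (∀ W : Submodule F V', (∀ x ∈ W, Q' x = 0) → finrank F W < m) →
    ∃ e : V ≃ₗ[F] V', ∀ x, Q' (e x) = Q x := by
  induction m, hm using Nat.le_induction with
  | base =>
    intro V V' _ _ _ _ _ _ Q Q' hnd hnd' hr hr' hs hs'
    have han : ∀ x, x ≠ 0 → Q x ≠ 0 := by
      intro x hx hQ
      have h3 := hs (Submodule.span F {x}) (by
        intro y hy
        rw [Submodule.mem_span_singleton] at hy
        obtain ⟨a, rfl⟩ := hy
        rw [cla_smul, hQ, mul_zero])
      rw [finrank_span_singleton hx] at h3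
      omega
    have han' : ∀ x, x ≠ 0 → Q' x ≠ 0 := by
      intro x hx hQ
      have h3 := hs' (Submodule.span F {x}) (by
        intro y hy
        rw [Submodule.mem_span_singleton] at hy
        obtain ⟨a, rfl⟩ := hy
        rw [cla_smul, hQ, mul_zero])
      rw [finrank_span_singleton hx] at h3
      omega
    obtain ⟨f, hf⟩ := cla_base h2 V V' Q Q' (by omega) (by omega) han han'
    exact cla_iso Q Q' hnd (by omega) f hf
  | succ m hm ih =>
    intro V V' _ _ _ _ _ _ Q Q' hnd hnd' hr hr' hs hs'
    obtain ⟨u, -, hu0, hu⟩ := Pool.Agent.H49.UDN.exists_singular Q (⊤ : Submodule F V)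
      (by rw [finrank_top]; omega)
    obtain ⟨v, hv, huv⟩ := cla_partner Q hnd hu0 hu
    obtain ⟨u', -, hu0', hu'⟩ := Pool.Agent.H49.UDN.exists_singular Q' (⊤ : Submodule F V')
      (by rw [finrank_top]; omega)
    obtain ⟨v', hv', huv'⟩ := cla_partner Q' hnd' hu0' hu'
    have h3 := cla_finrank hu hv huv
    have h3' := cla_finrank hu' hv' huv'
    obtain ⟨e, he⟩ := ih (claW Q u v) (claW Q' u' v') (Q.comp (claW Q u v).subtype)
      (Q'.comp (claW Q' u' v').subtype) (cla_nd hu hv huv hnd) (cla_nd hu' hv' huv' hnd')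
      (by omega) (by omega) (cla_sing hu hv huv hs) (cla_sing hu' hv' huv' hs')
    obtain ⟨g, hg⟩ := cla_glue hu hv huv hu' hv' huv' e.toLinearMap (fun x => he x)
    exact cla_iso Q Q' hnd (by omega) g hg

end Pool.Agent.H32.UD
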