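import Mathlib

/-!
# UD.Cls : a set closed under all sums different from `t`, `2 t = 0`

PROOF. Let `C' = C ∪ {t}` if there are `u, v ∈ C` with `u + v = t`, otherwise `C' = C`. In the second case `C` is a subgroup (closed under all sums, contains `0`, symmetric). In the first case `C'` is a subgroup: it is symmetric (`-t = t`), sums of elements of `C` are in `C'`, and for `x ∈ C`: `x + t = (x + u) + v`. If `x + u ≠ t` then `x + u ∈ C` and
`(x + u) + v ∈ C'`. If `x + u = t` then `x = v` (as `u + v = t`) and `x + t = 2 v + u`; if `2 v ≠ t` then `2 v ∈ C` and `2 v + u ∈ C'`; if `2 v = t` then `v + u = 2 v`, `u = v = x`, `x + t = x + 2 x`.. `= x + t`, `-x = t - x - ..`: `2 x = t` gives `x + t = x - t = x - 2 x = -x ∈ C`. Finally `t + t = 0 ∈ C`. So the closure is contained in `C'`.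
-/

set_option autoImplicit false

namespace Pool.Agent.H32.UD

theorem closure_sub {A : Type} [AddCommGroup A] [Finite A] (C : Set A) (t : A) (ht : t + t = 0)
    (h0 : (0 : A) ∈ C) (hneg : ∀ x ∈ C, -x ∈ C)
    (hadd : ∀ x ∈ C, ∀ y ∈ C, x + y = t ∨ x + y ∈ C) :
    ∀ x ∈ AddSubgroup.closure C, x = t ∨ x ∈ C := by
  have hnt : -t = t := neg_eq_of_add_eq_zero_left ht
  by_cases hcase : ∃ u ∈ C, ∃ v ∈ C, u + v = t
  · obtain ⟨u, hu, v, hv, huv⟩ := hcase
    have hxt : ∀ x ∈ C, x + t = t ∨ x + t ∈ C := by
      intro x hx
      have e1 : x + t = (x + u) + v := by rw [← huv, add_assoc]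
      rcases hadd x hx u hu with h1 | h1
      · have hxv : x = v := by
          have : x + u = v + u := by rw [h1, ← huv, add_comm]
          exact add_right_cancel this
        have e2 : x + t = (v + v) + u := by
          rw [hxv, ← huv]
          abel
        rcases hadd v hv v hv with h2 | h2
        · right
          have e3 : x + t = -x := by
            have h3 : x + x = t := by rw [hxv]; exact h2
            have h4 : x + t + x = 0 := by
              rw [add_right_comm, h3, ht]
            exact eq_neg_of_add_eq_zero_left h4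
          rw [e3]
          exact hneg x hx
        · rw [e2]
          exact hadd _ h2 u hu
      · rw [e1]
        exact hadd _ h1 v hv
    intro x hx
    induction hx using AddSubgroup.closure_induction with
    | mem x hx => exact Or.inr hx
    | zero => exact Or.inr h0
    | add x y _ _ hx hy =>
      rcases hx with hx | hx
      · rcases hy with hy | hy
        · right
          rw [hx, hy, ht]
          exact h0
        · rw [hx, add_comm]
          exact hxt y hy
      · rcases hy with hy | hy
        · rw [hy]
          exact hxt x hx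
        · exact hadd x hx y hy
    | neg x _ hx =>
      rcases hx with hx | hx
      · left
        rw [hx, hnt]
      · exact Or.inr (hneg x hx)
  · intro x hx
    right
    induction hx using AddSubgroup.closure_induction with
    | mem x hx => exact hx
    | zero => exact h0
    | add x y _ _ hx hy =>
      rcases hadd x hx y hy with h1 | h1
      · exact absurd ⟨x, hx, y, hy, h1⟩ hcase
      · exact h1
    | neg x _ hx => exact hneg x hx

/-- proper subgroups of `ZMod m` consist of multiples of a prime divisor of `m` -/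
theorem exists_prime (m : ℕ) [NeZero m] (A : AddSubgroup (ZMod m)) (hA : A ≠ ⊤) :
    ∃ p : ℕ, p.Prime ∧ p ∣ m ∧ ∀ x ∈ A, p ∣ x.val := by
  obtain ⟨a, ha⟩ := Int.subgroup_cyclic (A.comap (Int.castAddHom (ZMod m)))
  have hmem : ∀ z : ℤ, ((z : ℤ) : ZMod m) ∈ A ↔ a ∣ z := by
    intro z
    have h1 : ((z : ℤ) : ZMod m) ∈ A ↔ z ∈ A.comap (Int.castAddHom (ZMod m)) := Iff.rfl
    rw [h1, ha, AddSubgroup.mem_closure_singleton]
    constructor
    · rintro ⟨n, rfl⟩
      exact ⟨n, by rw [smul_eq_mul, mul_comm]⟩
    · rintro ⟨n, rfl⟩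
      exact ⟨n, by rw [smul_eq_mul, mul_comm]⟩
  have hm : a ∣ (m : ℤ) := by
    rw [← hmem]
    have : (((m : ℤ) : ℤ) : ZMod m) = 0 := by
      rw [Int.cast_natCast, ZMod.natCast_self]
    rw [this]
    exact A.zero_mem
  have ha1 : a.natAbs ≠ 1 := by
    intro h1
    apply hA
    rw [eq_top_iff]
    intro x _
    have h2 : ((x.val : ℤ) : ZMod m) = x := by
      rw [Int.cast_natCast, ZMod.natCast_zmod_val]
    rw [← h2, hmem]
    exact (Int.isUnit_iff_natAbs_eq.2 h1).dvd
  refine ⟨a.natAbs.minFac, Nat.minFac_prime ha1, ?_, ?_⟩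
  · exact (Nat.minFac_dvd _).trans (Int.natAbs_dvd_natAbs.2 hm |>.trans (by simp))
  · intro x hx
    have h2 : ((x.val : ℤ) : ZMod m) = x := by
      rw [Int.cast_natCast, ZMod.natCast_zmod_val]
    have h3 : a ∣ (x.val : ℤ) := by
      rw [← hmem, h2]
      exact hx
    have h4 : a.natAbs ∣ x.val := by
      have h5 := Int.natAbs_dvd_natAbs.2 h3
      rwa [Int.natAbs_natCast] at h5
    exact (Nat.minFac_dvd _).trans h4

end Pool.Agent.H32.UD
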