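import Pool.Agent.H32.UD.Fin

/-!
# UD.Cls2 : the groups of the class `C` which are not of plus type
-/

set_option autoImplicit false

namespace Pool.Agent.H32.UD

open Module QuadraticMap Pool.Agent.H49.UDN

/-- The groups of the class `C` over the field `F` which are not of plus type: `PSp_{2r}(F)` for odd
`r ≥ 5`, and `PΩ⁻_{2r}(F)` for even `r ≥ 4`, that is `PΩ(Q)` for a quadratic form `Q` with
nondegenerate polar form on a space of dimension `2 r` which has no totally singular subspace of
dimension `r`. -/
inductive NotPlus (F : Type) [Field F] (r : ℕ) : (G : Type) → Group G → Prop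
  | psp : 5 ≤ r → Odd r → NotPlus F r (PSp F r) inferInstance
  | minus (V : Type) [AddCommGroup V] [Module F V] [FiniteDimensional F V] (Q : QuadraticForm F V) :
      4 ≤ r → Even r → (∀ x, (∀ y, polar Q x y = 0) → x = 0) → finrank F V = 2 * r →
      (∀ W : Submodule F V, (∀ x ∈ W, Q x = 0) → finrank F W < r) →
      NotPlus F r (POmegaForm Q) inferInstance

theorem notPlus (r : ℕ) : ∃ q₀ : ℕ, ∀ (F : Type) [Field F] [Finite F], Odd (Nat.card F) → q₀ ≤ Nat.card F →
    ∀ (G : Type) (hG : Group G), NotPlus F r G hG → gammaU G = 2 := by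
  by_cases hr : 4 ≤ r
  · obtain ⟨q₀, h⟩ := main r hr
    refine ⟨q₀, fun F _ _ hodd hq G hG hC => ?_⟩
    cases hC with
    | psp _ ho => exact (h F hodd hq).1 ho
    | minus V Q _ he hnd hV hts => exact (h F hodd hq).2 he V Q hnd hV hts
  · refine ⟨0, fun F _ _ hodd hq G hG hC => ?_⟩
    cases hC with
    | psp h5 _ => omega
    | minus V Q h4 _ _ _ _ => omega

end Pool.Agent.H32.UD
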