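import Pool.Agent.H32.UD.Tor

/-!
# UD.Sepx : an element of the torus that separates all weights

PROOF. Take `θ` from `torus_gen`. Put `λ = θ ^ 2`; `λ^m = 1` iff `(q^r + 1) ∣ 2 m`.
For `i : ZMod (2r)` let `i.val = i'` or `i.val = r + i'` with `i' < r`; `σ i λ = λ^(q^(i.val))` and `q^r ≡ -1` modulo `q^r + 1`, so `σ i λ = λ^(s q^(i'))` with the sign `s = ±1` (`s = -1` iff `i.val ≥ r`). The hypothesis gives, with `v(i) = s e_(i') ∈ ℤ^r`, that the integer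
`m = ∑_t b_t q^t`, `b = v(i) + v(j) - v(k) - v(l)`, satisfies `(q^r + 1) ∣ 2 m`. Since `∑ |b_t| ≤ 4`, `|2 m| ≤ 8 q^(r-1) < q^r + 1` (`q ≥ 10`), so `m = 0`; if `b ≠ 0` let `T` be the largest index with `b_T ≠ 0`: `q^T ≤ |b_T q^T| = |∑_{t<T} b_t q^t| ≤ 3 q^(T-1)`, contradiction. So `b = 0`:
`v(i) + v(j) = v(k) + v(l)`. The vectors `v(i)` are distinct up to sign, `v(i + r) = - v(i)`: if `v(i) + v(j) ≠ 0` then `{i, j} = {k, l}` (a sum of two signed unit vectors determines them), if it is `0` then `j = i + r`, `l = k + r`.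
(The lemma on sums of signed unit vectors: compare coordinates; or by cases on the equalities of `i', j', k', l'` and the signs, `omega`.)
-/

set_option autoImplicit false

namespace Pool.Agent.H32.UD

open Module

private theorem pair {q : ℤ} (hq : 5 ≤ q) {a b : ℤ} (ha : a = 1 ∨ a = -1) (hb : b = 1 ∨ b = -1)
    {e f : ℕ} (h : a * q ^ e + b * q ^ f = 0) : e = f ∧ a = -b := by
  have h1 : 0 < q ^ e := pow_pos (by linarith) _
  have h2 : 0 < q ^ f := pow_pos (by linarith) _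
  have hinj : q ^ e = q ^ f → e = f := fun hh =>
    (pow_right_strictMono₀ (by linarith : (1 : ℤ) < q)).injective hh
  rcases ha with rfl | rfl <;> rcases hb with rfl | rfl
  · exfalso
    linarith
  · exact ⟨hinj (by linarith), by norm_num⟩
  · exact ⟨hinj (by linarith), by norm_num⟩
  · exfalso
    linarith

private theorem low {q : ℤ} (hq : 5 ≤ q) {a b : ℤ} (ha : a = 1 ∨ a = -1) (hb : b = 1 ∨ b = -1)
    {e f : ℕ} (hef : f ≤ e) (h : ¬ (f = e ∧ b = -a)) : - q ^ e ≤ 5 * (a * (b * q ^ f)) := by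
  have h1 : 0 < q ^ e := pow_pos (by linarith) _
  have h2 : 0 < q ^ f := pow_pos (by linarith) _
  rcases hef.eq_or_lt with hef | hef
  · have hba : b = a := by
      rcases ha with rfl | rfl <;> rcases hb with rfl | rfl
      · rfl
      · exact absurd ⟨hef, rfl⟩ h
      · exact absurd ⟨hef, by norm_num⟩ h
      · rfl
    have haa : a * a = 1 := by rcases ha with rfl | rfl <;> norm_num
    have h3 : a * (b * q ^ f) = q ^ f := by
      rw [hba, ← mul_assoc, haa, one_mul]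
    rw [h3]
    linarith
  · have h3 : 5 * q ^ f ≤ q ^ e := by
      calc 5 * q ^ f ≤ q * q ^ f := mul_le_mul_of_nonneg_right hq h2.le
        _ = q ^ (f + 1) := by ring
        _ ≤ q ^ e := pow_le_pow_right₀ (by linarith) hef
    rcases ha with rfl | rfl <;> rcases hb with rfl | rfl <;> linarith

private theorem four {q : ℤ} (hq : 5 ≤ q) {a b c d : ℤ} (ha : a = 1 ∨ a = -1) (hb : b = 1 ∨ b = -1)
    (hc : c = 1 ∨ c = -1) (hd : d = 1 ∨ d = -1) {e f g k : ℕ} (hf : f ≤ e) (hg : g ≤ e) (hk : k ≤ e)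
    (h : a * q ^ e + b * q ^ f + c * q ^ g + d * q ^ k = 0) :
    ((f = e ∧ b = -a) ∧ (g = k ∧ c = -d)) ∨ ((g = e ∧ c = -a) ∧ (f = k ∧ b = -d)) ∨
      ((k = e ∧ d = -a) ∧ (f = g ∧ b = -c)) := by
  by_cases h2 : f = e ∧ b = -a
  · refine Or.inl ⟨h2, pair hq hc hd ?_⟩
    rw [h2.1, h2.2] at h
    linarith
  by_cases h3 : g = e ∧ c = -a
  · refine Or.inr (Or.inl ⟨h3, pair hq hb hd ?_⟩)
    rw [h3.1, h3.2] at h
    linarith
  by_cases h4 : k = e ∧ d = -a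
  · refine Or.inr (Or.inr ⟨h4, pair hq hb hc ?_⟩)
    rw [h4.1, h4.2] at h
    linarith
  exfalso
  have e1 := low hq ha hb hf h2
  have e2 := low hq ha hc hg h3
  have e3 := low hq ha hd hk h4
  have h1 : 0 < q ^ e := pow_pos (by linarith) _
  have haa : a * a = 1 := by rcases ha with rfl | rfl <;> norm_num
  have h5 : a * (a * q ^ e) = q ^ e := by rw [← mul_assoc, haa, one_mul]
  have h6 : a * (a * q ^ e) + a * (b * q ^ f) + a * (c * q ^ g) + a * (d * q ^ k) = 0 := by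
    have := congrArg (fun x => a * x) h
    simp only [mul_zero, mul_add] at this
    exact this
  linarith

/-- a vanishing signed sum of four powers splits into two cancelling pairs -/
private theorem match4 {q : ℤ} (hq : 5 ≤ q) {a b c d : ℤ} (ha : a = 1 ∨ a = -1)
    (hb : b = 1 ∨ b = -1) (hc : c = 1 ∨ c = -1) (hd : d = 1 ∨ d = -1) {e f g k : ℕ}
    (h : a * q ^ e + b * q ^ f + c * q ^ g + d * q ^ k = 0) :
    ((e = f ∧ a = -b) ∧ (g = k ∧ c = -d)) ∨ ((e = g ∧ a = -c) ∧ (f = k ∧ b = -d)) ∨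
      ((e = k ∧ a = -d) ∧ (f = g ∧ b = -c)) := by
  rcases le_total e f with h1 | h1 <;> rcases le_total g k with h2 | h2
  · rcases le_total f k with h3 | h3
    · rcases four hq hd ha hb hc (h1.trans h3) h3 h2 (by linarith) with
        ⟨⟨x1, y1⟩, x2, y2⟩ | ⟨⟨x1, y1⟩, x2, y2⟩ | ⟨⟨x1, y1⟩, x2, y2⟩
      · exact Or.inr (Or.inr ⟨⟨x1, y1⟩, x2, y2⟩)
      · exact Or.inr (Or.inl ⟨⟨x2, y2⟩, x1, y1⟩)
      · exact Or.inl ⟨⟨x2, y2⟩, x1, y1⟩
    · rcases four hq hb ha hc hd h1 (h2.trans h3) h3 (by linarith) with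
        ⟨⟨x1, y1⟩, x2, y2⟩ | ⟨⟨x1, y1⟩, x2, y2⟩ | ⟨⟨x1, y1⟩, x2, y2⟩
      · exact Or.inl ⟨⟨x1, y1⟩, x2, y2⟩
      · exact Or.inr (Or.inr ⟨⟨x2, y2⟩, x1.symm, by linarith⟩)
      · exact Or.inr (Or.inl ⟨⟨x2, y2⟩, x1.symm, by linarith⟩)
  · rcases le_total f g with h3 | h3
    · rcases four hq hc ha hb hd (h1.trans h3) h3 h2 (by linarith) with
        ⟨⟨x1, y1⟩, x2, y2⟩ | ⟨⟨x1, y1⟩, x2, y2⟩ | ⟨⟨x1, y1⟩, x2, y2⟩
      · exact Or.inr (Or.inl ⟨⟨x1, y1⟩, x2, y2⟩)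
      · exact Or.inr (Or.inr ⟨⟨x2, y2⟩, x1, y1⟩)
      · exact Or.inl ⟨⟨x2, y2⟩, x1.symm, by linarith⟩
    · rcases four hq hb ha hc hd h1 h3 (h2.trans h3) (by linarith) with
        ⟨⟨x1, y1⟩, x2, y2⟩ | ⟨⟨x1, y1⟩, x2, y2⟩ | ⟨⟨x1, y1⟩, x2, y2⟩
      · exact Or.inl ⟨⟨x1, y1⟩, x2, y2⟩
      · exact Or.inr (Or.inr ⟨⟨x2, y2⟩, x1.symm, by linarith⟩)
      · exact Or.inr (Or.inl ⟨⟨x2, y2⟩, x1.symm, by linarith⟩)
  · rcases le_total e k with h3 | h3
    · rcases four hq hd ha hb hc h3 (h1.trans h3) h2 (by linarith) with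
        ⟨⟨x1, y1⟩, x2, y2⟩ | ⟨⟨x1, y1⟩, x2, y2⟩ | ⟨⟨x1, y1⟩, x2, y2⟩
      · exact Or.inr (Or.inr ⟨⟨x1, y1⟩, x2, y2⟩)
      · exact Or.inr (Or.inl ⟨⟨x2, y2⟩, x1, y1⟩)
      · exact Or.inl ⟨⟨x2, y2⟩, x1, y1⟩
    · rcases four hq ha hb hc hd h1 (h2.trans h3) h3 (by linarith) with
        ⟨⟨x1, y1⟩, x2, y2⟩ | ⟨⟨x1, y1⟩, x2, y2⟩ | ⟨⟨x1, y1⟩, x2, y2⟩
      · exact Or.inl ⟨⟨x1.symm, by linarith⟩, x2, y2⟩
      · exact Or.inr (Or.inl ⟨⟨x1.symm, by linarith⟩, x2, y2⟩)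
      · exact Or.inr (Or.inr ⟨⟨x1.symm, by linarith⟩, x2, y2⟩)
  · rcases le_total e g with h3 | h3
    · rcases four hq hc ha hb hd h3 (h1.trans h3) h2 (by linarith) with
        ⟨⟨x1, y1⟩, x2, y2⟩ | ⟨⟨x1, y1⟩, x2, y2⟩ | ⟨⟨x1, y1⟩, x2, y2⟩
      · exact Or.inr (Or.inl ⟨⟨x1, y1⟩, x2, y2⟩)
      · exact Or.inr (Or.inr ⟨⟨x2, y2⟩, x1, y1⟩)
      · exact Or.inl ⟨⟨x2, y2⟩, x1.symm, by linarith⟩
    · rcases four hq ha hb hc hd h1 h3 (h2.trans h3) (by linarith) with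
        ⟨⟨x1, y1⟩, x2, y2⟩ | ⟨⟨x1, y1⟩, x2, y2⟩ | ⟨⟨x1, y1⟩, x2, y2⟩
      · exact Or.inl ⟨⟨x1.symm, by linarith⟩, x2, y2⟩
      · exact Or.inr (Or.inl ⟨⟨x1.symm, by linarith⟩, x2, y2⟩)
      · exact Or.inr (Or.inr ⟨⟨x1.symm, by linarith⟩, x2, y2⟩)

namespace Dat

variable {F E : Type} [Field F] [Field E] [Algebra F E] (D : Dat F E) [Finite F] [Finite E]

/-- separation of the weights -/
def Sep (u : E) : Prop :=
  ∀ i j k l : ZMod (2 * D.r), D.σ i u * D.σ j u = D.σ k u * D.σ l u →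
    (i = k ∧ j = l) ∨ (i = l ∧ j = k) ∨ (j = i + (D.r : ZMod (2 * D.r)) ∧ l = k + (D.r : ZMod (2 * D.r)))

private def sgn (i : ZMod (2 * D.r)) : ℤ := if i.val < D.r then 1 else -1

private def ex (i : ZMod (2 * D.r)) : ℕ := if i.val < D.r then i.val else i.val - D.r

omit [Finite F] [Finite E] in
private theorem sgn_or (i : ZMod (2 * D.r)) : D.sgn i = 1 ∨ D.sgn i = -1 := by
  unfold sgn
  split_ifs
  · exact Or.inl rfl
  · exact Or.inr rfl

omit [Finite F] [Finite E] in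
private theorem ex_lt (i : ZMod (2 * D.r)) : D.ex i < D.r := by
  unfold ex
  have h1 := ZMod.val_lt i
  split_ifs with h
  · exact h
  · omega

omit [Finite F] [Finite E] in
private theorem same {i j : ZMod (2 * D.r)} (h1 : D.ex i = D.ex j) (h2 : D.sgn i = D.sgn j) :
    i = j := by
  apply ZMod.val_injective
  unfold ex at h1
  unfold sgn at h2
  have e1 := ZMod.val_lt i
  have e2 := ZMod.val_lt j
  split_ifs at h1 h2 <;> omega

omit [Finite F] [Finite E] in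
private theorem opp {i j : ZMod (2 * D.r)} (h1 : D.ex i = D.ex j) (h2 : D.sgn i = -D.sgn j) :
    j = i + (D.r : ZMod (2 * D.r)) := by
  apply ZMod.val_injective
  have hr := D.four_le
  have e1 := ZMod.val_lt i
  have e2 := ZMod.val_lt j
  rw [ZMod.val_add, ZMod.val_natCast, Nat.mod_eq_of_lt (by omega : D.r < 2 * D.r)]
  unfold ex at h1
  unfold sgn at h2
  by_cases ha : i.val < D.r
  · by_cases hb : j.val < D.r
    · rw [if_pos ha, if_pos hb] at h2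
      omega
    · rw [if_pos ha, if_neg hb] at h1
      rw [Nat.mod_eq_of_lt (by omega)]
      omega
  · by_cases hb : j.val < D.r
    · rw [if_neg ha, if_pos hb] at h1
      have h3 : i.val + D.r = j.val + 2 * D.r := by omega
      rw [h3, Nat.add_mod_right, Nat.mod_eq_of_lt e2]
    · rw [if_neg ha, if_neg hb] at h2
      omega

private theorem fr_pow_apply (n : ℕ) (x : E) : (fr F E ^ n) x = x ^ (Nat.card F ^ n) := by
  induction n with
  | zero => simp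
  | succ n ih =>
    rw [pow_succ', AlgEquiv.mul_apply, ih, fr_apply, ← pow_mul, ← pow_succ]

private theorem σ_sq {θ : Eˣ} (hθ : θ ^ (Nat.card F ^ D.r + 1) = 1) (i : ZMod (2 * D.r)) :
    D.σ i ((θ : E) ^ 2) = ((θ ^ (2 * (D.sgn i * (Nat.card F : ℤ) ^ D.ex i)) : Eˣ) : E) := by
  have h0 : D.σ i ((θ : E) ^ 2) = ((θ ^ (2 * Nat.card F ^ i.val) : Eˣ) : E) := by
    unfold σ
    rw [fr_pow_apply, ← pow_mul, Units.val_pow_eq_pow_val]
  rw [h0]
  congr 1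
  unfold sgn ex
  split_ifs with h
  · rw [one_mul, ← zpow_natCast]
    congr 1
  · have h1 : i.val = D.r + (i.val - D.r) := by omega
    have h2 : θ ^ (Nat.card F ^ D.r) = θ⁻¹ := by
      rw [pow_succ] at hθ
      exact eq_inv_of_mul_eq_one_left hθ
    have h3 : 2 * Nat.card F ^ i.val = Nat.card F ^ D.r * (2 * Nat.card F ^ (i.val - D.r)) := by
      conv_lhs => rw [h1, pow_add]
      ring
    rw [h3, pow_mul, h2, inv_pow, ← zpow_natCast, ← zpow_neg]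
    congr 1
    push_cast
    ring

theorem exists_sep (hq : 10 ≤ Nat.card F) :
    ∃ θ : Eˣ, (θ : E) * D.bar θ = 1 ∧ D.Sep ((θ : E) ^ 2) ∧
      (∀ u : Eˣ, (u : E) * D.bar u = 1 → ∃ n : ℕ, u = θ ^ n) ∧
      orderOf θ = Nat.card F ^ D.r + 1 := by
  obtain ⟨θ, h1, h2, h3⟩ := D.torus_gen
  refine ⟨θ, h1, ?_, h3, h2⟩
  have hθ : θ ^ (Nat.card F ^ D.r + 1) = 1 := by
    rw [← h2]
    exact pow_orderOf_eq_one θ
  have hQ : (10 : ℤ) ≤ (Nat.card F : ℤ) := by exact_mod_cast hq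
  intro i j k l h
  rw [D.σ_sq hθ, D.σ_sq hθ, D.σ_sq hθ, D.σ_sq hθ, ← Units.val_mul, ← Units.val_mul] at h
  have h' := Units.ext h
  rw [← zpow_add, ← zpow_add] at h'
  set q : ℤ := (Nat.card F : ℤ) with hqdef
  have h4 : θ ^ (2 * (D.sgn i * q ^ D.ex i + D.sgn j * q ^ D.ex j + (-D.sgn k) * q ^ D.ex k +
      (-D.sgn l) * q ^ D.ex l)) = 1 := by
    have e : 2 * (D.sgn i * q ^ D.ex i + D.sgn j * q ^ D.ex j + (-D.sgn k) * q ^ D.ex k +
      (-D.sgn l) * q ^ D.ex l) = (2 * (D.sgn i * q ^ D.ex i) + 2 * (D.sgn j * q ^ D.ex j)) -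
        (2 * (D.sgn k * q ^ D.ex k) + 2 * (D.sgn l * q ^ D.ex l)) := by ring
    rw [e, zpow_sub, h', mul_inv_cancel]
  have h5 := orderOf_dvd_iff_zpow_eq_one.2 h4
  rw [h2] at h5
  have hr := D.four_le
  have hb : ∀ x : ZMod (2 * D.r), |D.sgn x * q ^ D.ex x| ≤ q ^ (D.r - 1) := by
    intro x
    have e1 : |D.sgn x| = 1 := by
      rcases D.sgn_or x with h | h <;> rw [h] <;> norm_num
    have e2 : D.ex x ≤ D.r - 1 := by
      have := D.ex_lt x
      omega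
    rw [abs_mul, e1, one_mul, abs_of_nonneg (pow_nonneg (by linarith) _)]
    exact pow_le_pow_right₀ (by linarith) e2
  have hlt : |2 * (D.sgn i * q ^ D.ex i + D.sgn j * q ^ D.ex j + (-D.sgn k) * q ^ D.ex k +
      (-D.sgn l) * q ^ D.ex l)| < ((Nat.card F ^ D.r + 1 : ℕ) : ℤ) := by
    have e1 := abs_le.1 (hb i)
    have e2 := abs_le.1 (hb j)
    have e3 := abs_le.1 (hb k)
    have e4 := abs_le.1 (hb l)
    have e5 : ((Nat.card F ^ D.r + 1 : ℕ) : ℤ) = q * q ^ (D.r - 1) + 1 := by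
      push_cast
      rw [← hqdef, ← pow_succ', Nat.sub_add_cancel (by omega)]
    have e6 : 0 < q ^ (D.r - 1) := pow_pos (by linarith) _
    have e7 : 10 * q ^ (D.r - 1) ≤ q * q ^ (D.r - 1) := mul_le_mul_of_nonneg_right hQ e6.le
    rw [e5, abs_lt]
    constructor <;> linarith
  have h6 := Int.eq_zero_of_abs_lt_dvd h5 hlt
  have h7 : D.sgn i * q ^ D.ex i + D.sgn j * q ^ D.ex j + (-D.sgn k) * q ^ D.ex k +
      (-D.sgn l) * q ^ D.ex l = 0 := by linarith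
  have hn : ∀ x : ZMod (2 * D.r), -D.sgn x = 1 ∨ -D.sgn x = -1 := by
    intro x
    rcases D.sgn_or x with h | h <;> rw [h]
    · exact Or.inr rfl
    · exact Or.inl (by norm_num)
  rcases match4 (by linarith) (D.sgn_or i) (D.sgn_or j) (hn k) (hn l) h7 with
    ⟨⟨x1, y1⟩, x2, y2⟩ | ⟨⟨x1, y1⟩, x2, y2⟩ | ⟨⟨x1, y1⟩, x2, y2⟩
  · refine Or.inr (Or.inr ⟨D.opp x1 y1, D.opp x2 (by linarith)⟩)
  · exact Or.inl ⟨D.same x1 (by linarith), D.same x2 (by linarith)⟩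
  · exact Or.inr (Or.inl ⟨D.same x1 (by linarith), D.same x2 (by linarith)⟩)

end Dat

end Pool.Agent.H32.UD
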