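import Pool.Agent.H32.UD.Dim0
import Pool.Agent.H32.UD.Sepx

/-!
# UD.CntA : many admissible `β` (odd `r`)

`AdmA j β`: the hypotheses of `two_odd`.

PROOF. `Ep` is a field with `q^r` elements (`dim_Ep`; closed under products and inverses). The solutions of `β² + w² = 4 j²` in `Ep × Ep`: at most `q^r + 1` (fix a solution `P`, or: `q^r - χ(-1)` points on a circle over a field with `q^r` elements; an easy bound: parametrise by lines through one point, or count with the two factors if `-1` is a square; if there is no solution nothing to do).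
Each `β` with `4 j² - β²` a square has two `w` (`w ≠ 0`: `β² = 4 j²` would give `β = ± 2 j`, `bar j = - j ≠ j`, not in `Ep`), so at most `(q^r + 1)/2` elements `β ∈ Ep` violate `hns`. `hgen`: on `Ep` the map `σ c` is `x ↦ x^(q^m)`, `m = c.val` or `c.val - r`, `0 < m < r` for `c ∉ {0, r}`, and also `x = x^(q^(r-m))`, so
`σ c x = x`, `x ∈ Ep` has at most `q^(r/2)` solutions (`r / 2` rounded down), hence at most `2 q^(r/2)` elements `β` for each of the `2 r - 2` values `c`. Total number of admissible `β` `≥ q^r - (q^r + 1)/2 - 4 r q^(r/2) ≥ q^r / 4` for `q ≥ q0(r)`, since `r/2 ≤ r - 2`.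
(Easy bound for the circle: let `(β₀, w₀)` be a solution; the other solutions are determined by the slope `s ∈ Ep ∪ {∞}` of the line through `(β₀, w₀)`, so at most `q^r + 2` solutions; then the total is still `≥ q^r / 4`.)
`finA`: if `M (2 j² - β'²)` is conjugate to `M (2 j² - β²)` in `GL(E)` then `2 j² - β'²` is a root of the minimal polynomial of `2 j² - β²` over `F`, so it is `σ c (2 j² - β²)` for some `c` (`minpoly` splits with roots the conjugates; `IsConjRoot`, the Galois group consists of the `σ c`), `j² ∈ F`, so `β'² = σ c (β)²`, `β' = ± σ c β`: at most `4 r` values.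
-/

set_option autoImplicit false

namespace Pool.Agent.H32.UD

open Module

namespace Dat

variable {F E : Type} [Field F] [Field E] [Algebra F E] (D : Dat F E) [Finite F] [Finite E]

/-- admissible parameters, odd `r` -/
def AdmA (j β : E) : Prop :=
  D.bar β = β ∧ (∀ c : ZMod (2 * D.r), D.σ c (β ^ 2) = β ^ 2 → c = 0 ∨ c = (D.r : ZMod (2 * D.r))) ∧
    ¬ ∃ w : E, D.bar w = w ∧ w ^ 2 = 4 * j ^ 2 - β ^ 2

private theorem CntA_conj {u u' : E} {a : E ≃ₗ[F] E}
    (h : M F u' * (a : Module.End F E) = (a : Module.End F E) * M F u) : ∃ c, D.σ c u = u' := by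
  have hpow : ∀ n : ℕ, M F (u' ^ n) * (a : Module.End F E) = (a : Module.End F E) * M F (u ^ n) := by
    intro n
    induction n with
    | zero => rw [pow_zero, pow_zero, M_one, one_mul, mul_one]
    | succ n ih => rw [pow_succ, pow_succ, M_mul, M_mul, mul_assoc, h, ← mul_assoc, ih, mul_assoc]
  have h1 : ∀ p : Polynomial F, M F (Polynomial.aeval u' p) * (a : Module.End F E) =
      (a : Module.End F E) * M F (Polynomial.aeval u p) := by
    intro p
    induction p using Polynomial.induction_on' with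
    | add p q hp hq => rw [map_add, map_add, M_add, M_add, add_mul, mul_add, hp, hq]
    | monomial n c =>
      rw [Polynomial.aeval_monomial, Polynomial.aeval_monomial, ← Algebra.smul_def,
        ← Algebra.smul_def, M_smul, M_smul, smul_mul_assoc, hpow, mul_smul_comm]
  have h2 : Polynomial.aeval u' (minpoly F u) = 0 := by
    have h3 := h1 (minpoly F u)
    rw [minpoly.aeval, M_zero, mul_zero] at h3
    have h4 := LinearMap.congr_fun h3 (a.symm 1)
    have h5 : (M F (Polynomial.aeval u' (minpoly F u)) * (a : Module.End F E)) (a.symm 1) =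
        Polynomial.aeval u' (minpoly F u) := by
      show Polynomial.aeval u' (minpoly F u) * a (a.symm 1) = _
      rw [LinearEquiv.apply_symm_apply, mul_one]
    rw [h5] at h4
    exact h4
  have hfd : Module.Finite F E := Module.Finite.of_finite
  have hint : IsIntegral F u := Algebra.IsIntegral.isIntegral u
  have hc := isConjRoot_of_aeval_eq_zero hint h2
  obtain ⟨s, hs⟩ := hc.symm.exists_algEquiv
  let _ := Fintype.ofFinite F
  obtain ⟨n, hn⟩ := (FiniteField.bijective_frobeniusAlgEquivOfAlgebraic_pow F E).2 s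
  refine ⟨((n : ℕ) : ZMod (2 * D.r)), ?_⟩
  rw [D.σ_natCast]
  have h6 : fr F E ^ (n : ℕ) = s := hn
  rw [h6, hs]

theorem finA (j β : E) (hj : fr F E j = -j) :
    Nat.card {β' : E // ∃ a : E ≃ₗ[F] E, M F (2 * j ^ 2 - β' ^ 2) * (a : Module.End F E) =
      (a : Module.End F E) * M F (2 * j ^ 2 - β ^ 2)} ≤ 4 * D.r := by
  classical
  have hj2 : ∀ c : ZMod (2 * D.r), D.σ c (j ^ 2) = j ^ 2 := by
    intro c
    unfold σ
    generalize c.val = n
    induction n with
    | zero => rfl
    | succ n ih =>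
      rw [pow_succ, AlgEquiv.mul_apply, map_pow, hj, neg_sq, ih]
  have h1 : ∀ β' : E, (∃ a : E ≃ₗ[F] E, M F (2 * j ^ 2 - β' ^ 2) * (a : Module.End F E) =
      (a : Module.End F E) * M F (2 * j ^ 2 - β ^ 2)) →
      ∃ x : ZMod (2 * D.r) × Bool, (if x.2 then D.σ x.1 β else - D.σ x.1 β) = β' := by
    rintro β' ⟨a, ha⟩
    obtain ⟨c, hc⟩ := D.CntA_conj ha
    rw [map_sub, map_mul, hj2, map_pow, map_ofNat] at hc
    have h2 : (β' - D.σ c β) * (β' + D.σ c β) = 0 := by linear_combination hc
    rcases mul_eq_zero.1 h2 with h3 | h3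
    · exact ⟨(c, true), by simp only [if_true]; exact (sub_eq_zero.1 h3).symm⟩
    · exact ⟨(c, false), by
        simp only [Bool.false_eq_true, if_false]
        exact (eq_neg_of_add_eq_zero_left h3).symm⟩
  choose! f hf using h1
  have h2 : Nat.card {β' : E // ∃ a : E ≃ₗ[F] E, M F (2 * j ^ 2 - β' ^ 2) * (a : Module.End F E) =
      (a : Module.End F E) * M F (2 * j ^ 2 - β ^ 2)} ≤ Nat.card (ZMod (2 * D.r) × Bool) := by
    refine Nat.card_le_card_of_injective (fun x => f x.1) ?_
    intro x y hxy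
    apply Subtype.ext
    have h3 := hf x.1 x.2
    have h4 := hf y.1 y.2
    have h5 : f x.1 = f y.1 := hxy
    rw [h5] at h3
    exact h3.symm.trans h4
  refine h2.trans (le_of_eq ?_)
  rw [Nat.card_prod, Nat.card_zmod, Nat.card_eq_fintype_card, Fintype.card_bool]
  ring

private theorem CntA_fr_pow (n : ℕ) (x : E) : (fr F E ^ n) x = x ^ (Nat.card F ^ n) := by
  induction n with
  | zero => simp
  | succ n ih => rw [pow_succ', AlgEquiv.mul_apply, ih, fr_apply, ← pow_mul, pow_succ]

/-- elements whose square is in a small field -/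
private theorem CntA_small [Fintype E] [DecidableEq E] (k : ℕ) (hk : 1 ≤ k) :
    (Finset.univ.filter fun β : E => (fr F E ^ k) (β ^ 2) = β ^ 2).card ≤ 2 * Nat.card F ^ k := by
  have hq : 2 ≤ Nat.card F := Finite.one_lt_card
  have hqk : 2 ≤ Nat.card F ^ k := hq.trans (Nat.le_self_pow (by omega) _)
  set P : Polynomial E := Polynomial.X ^ (2 * Nat.card F ^ k) - Polynomial.X ^ 2 with hP
  have hP0 : P ≠ 0 := by
    intro h0
    have h1 : P.coeff 2 = 0 := by rw [h0, Polynomial.coeff_zero]
    rw [hP, Polynomial.coeff_sub, Polynomial.coeff_X_pow, Polynomial.coeff_X_pow, if_pos rfl,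
      if_neg (by omega)] at h1
    simp at h1
  have h1 : (Finset.univ.filter fun β : E => (fr F E ^ k) (β ^ 2) = β ^ 2) ⊆ P.roots.toFinset := by
    intro β hβ
    have h2 := (Finset.mem_filter.1 hβ).2
    rw [CntA_fr_pow, ← pow_mul] at h2
    rw [Multiset.mem_toFinset, Polynomial.mem_roots hP0, Polynomial.IsRoot.def, hP]
    simp [h2]
  refine (Finset.card_le_card h1).trans ((Multiset.toFinset_card_le _).trans
    ((Polynomial.card_roots' _).trans ?_))
  rw [hP]
  refine (Polynomial.natDegree_sub_le _ _).trans ?_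
  rw [Polynomial.natDegree_X_pow, Polynomial.natDegree_X_pow]
  exact max_le le_rfl (by omega)

/-- for `c ≠ 0, r` the fixed points of `σ c` in the fixed field of `bar` are in a field with at most `q ^ (r/2)` elements -/
private theorem CntA_fix (c : ZMod (2 * D.r)) (h0 : c ≠ 0) (hr : c ≠ (D.r : ZMod (2 * D.r))) :
    ∃ k, 1 ≤ k ∧ 2 * k ≤ D.r ∧ ∀ x : E, D.bar x = x → D.σ c x = x → (fr F E ^ k) x = x := by
  have h4 := D.four_le
  have hc1 : c.val < 2 * D.r := ZMod.val_lt c
  have hc2 : c.val ≠ 0 := by rwa [Ne, ZMod.val_eq_zero]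
  have hc3 : c.val ≠ D.r := by
    intro h
    apply hr
    have h' : ((c.val : ℕ) : ZMod (2 * D.r)) = c := ZMod.natCast_zmod_val c
    exact h'.symm.trans (congrArg (fun n : ℕ => (n : ZMod (2 * D.r))) h)
  have hb : ∀ x : E, D.bar x = x → (fr F E ^ D.r) x = x := by
    intro x hx
    rw [bar_eq, σ_natCast] at hx
    exact hx
  -- an exponent below r
  obtain ⟨m, hm1, hm2, hm3⟩ : ∃ m, 1 ≤ m ∧ m < D.r ∧ ∀ x : E, D.bar x = x → D.σ c x = x →
      (fr F E ^ m) x = x := by
    by_cases h : c.val < D.r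
    · exact ⟨c.val, by omega, h, fun x _ hx => hx⟩
    · refine ⟨c.val - D.r, by omega, by omega, fun x hx1 hx2 => ?_⟩
      have h5 : D.σ c x = (fr F E ^ (c.val - D.r)) ((fr F E ^ D.r) x) := by
        rw [← AlgEquiv.mul_apply, ← pow_add, Nat.sub_add_cancel (by omega)]
        rfl
      rw [hx2, hb x hx1] at h5
      exact h5.symm
  by_cases h : 2 * m ≤ D.r
  · exact ⟨m, hm1, h, hm3⟩
  · refine ⟨D.r - m, by omega, by omega, fun x hx1 hx2 => ?_⟩
    have h5 : (fr F E ^ D.r) x = (fr F E ^ (D.r - m)) ((fr F E ^ m) x) := by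
      rw [← AlgEquiv.mul_apply, ← pow_add, Nat.sub_add_cancel (by omega)]
    rw [hb x hx1, hm3 x hx1 hx2] at h5
    exact h5.symm

/-- points on the circle -/
private theorem CntA_circle [Fintype E] [DecidableEq E] (d : E) (hd : d ≠ 0) (h2 : (2 : E) ≠ 0)
    (hsq : ∀ β : E, D.bar β = β → β ^ 2 ≠ d) :
    2 * (Finset.univ.filter fun β : E => D.bar β = β ∧ ∃ w : E, D.bar w = w ∧ w ^ 2 = d - β ^ 2).card ≤
      (Finset.univ.filter fun β : E => D.bar β = β).card + 2 := by
  set S := (Finset.univ.filter fun β : E => D.bar β = β ∧ ∃ w : E, D.bar w = w ∧ w ^ 2 = d - β ^ 2)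
    with hS
  rcases S.eq_empty_or_nonempty with h0 | ⟨β₀, hβ₀⟩
  · rw [h0]; simp
  obtain ⟨hb0, w₀, hw0, he0⟩ := (Finset.mem_filter.1 hβ₀).2
  have h1 : ∀ β : E, β ∈ S → ∃ w : E, D.bar w = w ∧ w ^ 2 = d - β ^ 2 := fun β hβ =>
    (Finset.mem_filter.1 hβ).2.2
  choose! w hw using h1
  have hwne : ∀ β ∈ S, w β ≠ 0 := by
    intro β hβ h
    have h3 := (hw β hβ).2
    rw [h] at h3
    exact hsq β (Finset.mem_filter.1 hβ).2.1 (by linear_combination h3)
  -- the slopes
  have h3 : ((S.erase β₀) ×ˢ (Finset.univ : Finset Bool)).card ≤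
      (Finset.univ.filter fun β : E => D.bar β = β).card := by
    refine Finset.card_le_card_of_injOn
      (fun x => ((if x.2 then w x.1 else - w x.1) - w₀) / (x.1 - β₀)) ?_ ?_
    · intro x hx
      have hx1 : x.1 ∈ S := Finset.mem_of_mem_erase (Finset.mem_product.1 (Finset.mem_coe.1 hx)).1
      have hx2 := (Finset.mem_filter.1 hx1).2.1
      have hx3 := (hw _ hx1).1
      refine Finset.mem_coe.2 (Finset.mem_filter.2 ⟨Finset.mem_univ _, ?_⟩)
      show D.bar (((if x.2 then w x.1 else - w x.1) - w₀) / (x.1 - β₀)) =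
        ((if x.2 then w x.1 else - w x.1) - w₀) / (x.1 - β₀)
      rw [map_div₀, map_sub, map_sub, hx2, hb0, hw0]
      split_ifs
      · rw [hx3]
      · rw [map_neg, hx3]
    · -- injectivity
      have key : ∀ s β v : E, β ≠ β₀ → v ^ 2 = d - β ^ 2 → s = (v - w₀) / (β - β₀) →
          1 + s ^ 2 ≠ 0 ∧ β * (1 + s ^ 2) = s ^ 2 * β₀ - 2 * s * w₀ - β₀ ∧
            v = w₀ + s * (β - β₀) := by
        intro s β v hne hv hs
        have hne' : β - β₀ ≠ 0 := sub_ne_zero.2 hne
        have h4 : v = w₀ + s * (β - β₀) := by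
          rw [hs, div_mul_cancel₀ _ hne']
          ring
        have h5 : (β - β₀) * (β * (1 + s ^ 2) - (s ^ 2 * β₀ - 2 * s * w₀ - β₀)) = 0 := by
          rw [h4] at hv
          linear_combination hv - he0
        have h6 := (mul_eq_zero.1 h5).resolve_left hne'
        have h7 : β * (1 + s ^ 2) = s ^ 2 * β₀ - 2 * s * w₀ - β₀ := sub_eq_zero.1 h6
        refine ⟨?_, h7, h4⟩
        intro h8
        have h9 : (2 : E) * (β₀ + s * w₀) = 0 := by
          linear_combination (β₀ - β) * h8 + h7
        have h10 := (mul_eq_zero.1 h9).resolve_left h2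
        apply hd
        have h11 : β₀ = - s * w₀ := by linear_combination h10
        have h12 : d = w₀ ^ 2 + β₀ ^ 2 := by linear_combination -he0
        rw [h12, h11]
        linear_combination w₀ ^ 2 * h8
      rintro ⟨β₁, b₁⟩ hx ⟨β₂, b₂⟩ hy hxy
      have hx1 : β₁ ∈ S.erase β₀ := (Finset.mem_product.1 (Finset.mem_coe.1 hx)).1
      have hy1 : β₂ ∈ S.erase β₀ := (Finset.mem_product.1 (Finset.mem_coe.1 hy)).1
      have hx2 := Finset.mem_of_mem_erase hx1
      have hy2 := Finset.mem_of_mem_erase hy1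
      have hx3 : (if b₁ then w β₁ else - w β₁) ^ 2 = d - β₁ ^ 2 := by
        split_ifs
        · exact (hw _ hx2).2
        · rw [neg_sq]; exact (hw _ hx2).2
      have hy3 : (if b₂ then w β₂ else - w β₂) ^ 2 = d - β₂ ^ 2 := by
        split_ifs
        · exact (hw _ hy2).2
        · rw [neg_sq]; exact (hw _ hy2).2
      simp only at hxy
      obtain ⟨k1, k2, k3⟩ := key _ β₁ _ (Finset.ne_of_mem_erase hx1) hx3 rfl
      obtain ⟨l1, l2, l3⟩ := key _ β₂ _ (Finset.ne_of_mem_erase hy1) hy3 hxy
      have e1 : β₁ = β₂ := by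
        apply mul_right_cancel₀ k1
        rw [k2, l2]
      subst e1
      have e2 : (if b₁ then w β₁ else - w β₁) = (if b₂ then w β₁ else - w β₁) := by
        rw [k3, l3]
      have hwn := hwne _ hx2
      have hne : w β₁ ≠ - w β₁ := by
        intro h
        have : (2 : E) * w β₁ = 0 := by linear_combination h
        exact hwn ((mul_eq_zero.1 this).resolve_left h2)
      cases b₁ <;> cases b₂ <;> simp at e2 ⊢
      · exact hne e2.symm
      · exact hne e2
  rw [Finset.card_product, Finset.card_univ, Fintype.card_bool, Finset.card_erase_of_mem hβ₀] at h3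
  omega

end Dat

theorem cntA (r : ℕ) (hr4 : 4 ≤ r) (hr : Odd r) : ∃ q0 : ℕ, ∀ (F E : Type) [Field F] [Field E] [Algebra F E]
    [Finite F] [Finite E] (D : Dat F E), D.r = r → q0 ≤ Nat.card F → ∀ j : E, fr F E j = -j → j ≠ 0 →
    Nat.card F ^ r ≤ 4 * Nat.card {β : E // D.AdmA j β} := by
  refine ⟨16 * r + 4, ?_⟩
  intro F E _ _ _ _ _ D hDr hq j hj hj0
  subst hDr
  classical
  let _ := Fintype.ofFinite E
  set q := Nat.card F with hqdef
  have h2 : (2 : E) ≠ 0 := by
    intro h
    apply D.two_ne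
    have h3 : algebraMap F E 2 = 0 := by rw [map_ofNat, h]
    exact (map_eq_zero _).1 h3
  have hbj : D.bar j = -j := by
    rw [Dat.bar_eq, Dat.σ_natCast]
    obtain ⟨t, ht⟩ := hr
    have h3 : ∀ n : ℕ, (fr F E ^ (2 * n)) j = j := by
      intro n
      induction n with
      | zero => rfl
      | succ n ih =>
        rw [show 2 * (n + 1) = 1 + (1 + 2 * n) by ring, pow_add, pow_add, AlgEquiv.mul_apply,
          AlgEquiv.mul_apply, ih, pow_one, hj, map_neg, hj, neg_neg]
    rw [ht, show 2 * t + 1 = 1 + 2 * t by ring, pow_add, AlgEquiv.mul_apply, h3, pow_one, hj]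
  set P := (Finset.univ.filter fun β : E => D.bar β = β) with hP
  have hPc : P.card = q ^ D.r := by
    have h3 : Nat.card D.Ep = q ^ D.r := by
      rw [Module.natCard_eq_pow_finrank (K := F), D.dim_Ep]
    rw [← h3, Nat.card_eq_fintype_card, hP]
    exact (Fintype.card_of_subtype _ (fun x => by simp [Dat.Ep])).symm
  -- circle
  have hd : 4 * j ^ 2 ≠ 0 := by
    rw [show (4 : E) * j ^ 2 = (2 * j) ^ 2 by ring]
    exact pow_ne_zero _ (mul_ne_zero h2 hj0)
  have hB1 := D.CntA_circle (4 * j ^ 2) hd h2 (by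
    intro β hβ h3
    have h4 : (β - 2 * j) * (β + 2 * j) = 0 := by linear_combination h3
    have h5 : ∀ s : E, s * s = 1 → D.bar s = s → β = 2 * s * j → False := by
      intro s hs1 hs2 h6
      rw [h6, map_mul, map_mul, map_ofNat, hs2, hbj] at hβ
      have h7 : (2 : E) * (2 * (s * j)) = 0 := by linear_combination -hβ
      rcases mul_eq_zero.1 h7 with h8 | h8
      · exact h2 h8
      · rcases mul_eq_zero.1 h8 with h9 | h9
        · exact h2 h9
        · rcases mul_eq_zero.1 h9 with h10 | h10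
          · rw [h10, mul_zero] at hs1
            exact zero_ne_one hs1
          · exact hj0 h10
    rcases mul_eq_zero.1 h4 with h6 | h6
    · exact h5 1 (one_mul 1) (map_one _) (by linear_combination h6)
    · exact h5 (-1) (by ring) (by rw [map_neg, map_one]) (by linear_combination h6))
  set B1 := (Finset.univ.filter fun β : E => D.bar β = β ∧ ∃ w : E, D.bar w = w ∧
    w ^ 2 = 4 * j ^ 2 - β ^ 2) with hB1def
  -- small fields
  set B2 := (Finset.univ.filter fun c : ZMod (2 * D.r) => c ≠ 0 ∧ c ≠ (D.r : ZMod (2 * D.r))).biUnion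
    (fun c => Finset.univ.filter fun β : E => D.bar β = β ∧ D.σ c (β ^ 2) = β ^ 2) with hB2def
  have hq1 : 1 ≤ q := by omega
  have hB2 : B2.card ≤ 2 * D.r * (2 * q ^ (D.r / 2)) := by
    refine Finset.card_biUnion_le.trans ((Finset.sum_le_card_nsmul _ _ (2 * q ^ (D.r / 2)) ?_).trans ?_)
    · intro c hc
      obtain ⟨hc0, hcr⟩ := (Finset.mem_filter.1 hc).2
      obtain ⟨k, hk1, hk2, hk3⟩ := D.CntA_fix c hc0 hcr
      have h3 : (Finset.univ.filter fun β : E => D.bar β = β ∧ D.σ c (β ^ 2) = β ^ 2) ⊆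
          (Finset.univ.filter fun β : E => (fr F E ^ k) (β ^ 2) = β ^ 2) := by
        intro β hβ
        obtain ⟨h4, h5⟩ := (Finset.mem_filter.1 hβ).2
        exact Finset.mem_filter.2 ⟨Finset.mem_univ _, hk3 _ (by rw [map_pow, h4]) h5⟩
      refine (Finset.card_le_card h3).trans ((Dat.CntA_small k hk1).trans ?_)
      exact Nat.mul_le_mul_left 2 (Nat.pow_le_pow_right hq1 (by omega))
    · rw [smul_eq_mul]
      refine Nat.mul_le_mul_right _ ?_
      calc _ ≤ (Finset.univ : Finset (ZMod (2 * D.r))).card := Finset.card_filter_le _ _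
        _ = 2 * D.r := by rw [Finset.card_univ, ZMod.card]
  -- the admissible ones
  have hA : P ⊆ (Finset.univ.filter fun β : E => D.AdmA j β) ∪ B1 ∪ B2 := by
    intro β hβ
    have h3 := (Finset.mem_filter.1 hβ).2
    rw [Finset.mem_union, Finset.mem_union]
    by_cases h4 : β ∈ B1
    · exact Or.inl (Or.inr h4)
    by_cases h5 : β ∈ B2
    · exact Or.inr h5
    refine Or.inl (Or.inl (Finset.mem_filter.2 ⟨Finset.mem_univ _, h3, ?_, ?_⟩))
    · intro c hc
      by_contra hne
      push Not at hne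
      apply h5
      rw [hB2def, Finset.mem_biUnion]
      exact ⟨c, Finset.mem_filter.2 ⟨Finset.mem_univ _, hne⟩,
        Finset.mem_filter.2 ⟨Finset.mem_univ _, h3, hc⟩⟩
    · intro hw
      exact h4 (Finset.mem_filter.2 ⟨Finset.mem_univ _, h3, hw⟩)
  have hA2 := (Finset.card_le_card hA).trans
    ((Finset.card_union_le _ _).trans (Nat.add_le_add_right (Finset.card_union_le _ _) _))
  have hA3 : Nat.card {β : E // D.AdmA j β} = (Finset.univ.filter fun β : E => D.AdmA j β).card := by
    rw [Nat.card_eq_fintype_card]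
    exact Fintype.card_subtype _
  rw [hA3]
  rw [hPc] at hA2 hB1
  have hpow : (16 * D.r + 4) * q ^ (D.r / 2) ≤ q ^ D.r := by
    have h4 := D.four_le
    calc (16 * D.r + 4) * q ^ (D.r / 2) ≤ q * q ^ (D.r / 2) := Nat.mul_le_mul_right _ hq
      _ = q ^ (D.r / 2 + 1) := by ring
      _ ≤ q ^ D.r := Nat.pow_le_pow_right hq1 (by omega)
  have h1 : 1 ≤ q ^ (D.r / 2) := Nat.one_le_pow _ _ hq1
  nlinarith [hA2, hB1, hB2, hpow, h1]

end Pool.Agent.H32.UD
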