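import Pool.Agent.H32.UD.Dim0
import Pool.Agent.H32.UD.Sepx

/-!
# UD.CntB : many admissible `w` (even `r`)

PROOF. `T2` = the squares of elements of norm one, `(q^r + 1)/2` elements (`card_T2`), an odd number as `q^r ≡ 1` mod `4`; so squaring is injective on `T2` (`u² = v²`, `u, v ∈ T2` gives `(u/v)² = 1`, `u/v ∈ T2` of odd order). `tt w = w² + w⁻² ∈ Ep`; `tt w = tt w'` iff `w'² = w^{±2}` iff `w' = w^{±1}`: at most `2` values `w ∈ T2` for each `t`.
`σ c t = t` or `σ c t = - t` with `t ∈ Ep`, `c ∉ {0, r}`: on `Ep` `σ c x = x^(q^m)`, `0 < m < r`, and `x = ± x^(q^(r - m))` as well: at most `q^(r/2)` solutions for each sign. `c ∈ {0, r}`: `t = - t` gives `t = 0`. So the number of bad `w ∈ T2` is at most `2 (2 r · 2 q^(r/2) + 1)`, and `(q^r + 1)/2 - 8 r q^(r/2) - 2 ≥ q^r / 4` for `q ≥ q0 (r)` (`r/2 ≤ r - 2`).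
`finB`: if `M (ν tt w')` is conjugate to `M (ν tt w)`, `ν = j² ∈ F`, then `ν tt w' = σ c (ν tt w)` (roots of the minimal polynomial), `tt w' = tt (σ c w)`, `w'² = (σ c w)^{±2}` as elements of `E`, `w' = (σ c w)^{±1}` (`T2` is stable under `σ c`): at most `4 r` values in `T2`.
-/

set_option autoImplicit false
set_option linter.unusedSectionVars false

namespace Pool.Agent.H32.UD

open Module

namespace Dat

variable {F E : Type} [Field F] [Field E] [Algebra F E] (D : Dat F E) [Finite F] [Finite E]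

/-- the trace of `w ^ 2` -/
def tt (w : Eˣ) : E := (w : E) ^ 2 + ((w⁻¹ : Eˣ) : E) ^ 2

/-- admissible parameters, even `r` -/
def AdmB (w : Eˣ) : Prop :=
  w ∈ D.T2 ∧ (∀ c : ZMod (2 * D.r), D.σ c (tt w) = tt w → c = 0 ∨ c = (D.r : ZMod (2 * D.r))) ∧
    ∀ c : ZMod (2 * D.r), D.σ c (tt w) ≠ -tt w

include D in
private theorem odd_q : Odd (Nat.card F) := by
  let _ := Fintype.ofFinite F
  rw [Nat.odd_iff, Nat.card_eq_fintype_card]
  apply FiniteField.odd_card_of_char_ne_two
  intro hc
  apply D.two_ne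
  have := ringChar.spec F 2
  rw [hc] at this
  exact_mod_cast this.2 dvd_rfl

private theorem half (hr : Even D.r) : ∃ k : ℕ, Nat.card F ^ D.r + 1 = 2 * (2 * k + 1) := by
  obtain ⟨s, hs⟩ := hr
  obtain ⟨a, ha⟩ := (D.odd_q).pow (n := s)
  refine ⟨a ^ 2 + a, ?_⟩
  rw [hs, pow_add, ha]; ring

private theorem sq_inj (hr : Even D.r) {u v : Eˣ} (hu : u ∈ D.T2) (hv : v ∈ D.T2) (h : u ^ 2 = v ^ 2) :
    u = v := by
  obtain ⟨k, hk⟩ := D.half hr
  have key : ∀ w ∈ D.T2, (w ^ 2) ^ k * w = 1 := by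
    rintro w ⟨x, hx, rfl⟩
    have hx' : x ^ (Nat.card F ^ D.r + 1) = 1 := by
      apply Units.ext
      rw [Units.val_pow_eq_pow_val, pow_succ', Units.val_one, ← bar_pow, hx]
    rw [hk] at hx'
    rw [← hx', ← pow_mul, ← pow_mul, ← pow_add]
    congr 1
  have h1 := key u hu
  have h2 := key v hv
  rw [← h, ← h1] at h2
  exact (mul_left_cancel h2).symm

private theorem T2_inv {w : Eˣ} (hw : w ∈ D.T2) : w⁻¹ ∈ D.T2 := by
  obtain ⟨v, hv, rfl⟩ := hw
  refine ⟨v⁻¹, ?_, by rw [inv_pow]⟩
  rw [Units.val_inv_eq_inv_val, map_inv₀, ← mul_inv, hv, inv_one]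

/-- the action on the units -/
private noncomputable def su (c : ZMod (2 * D.r)) : Eˣ →* Eˣ := Units.map (D.σ c : E →* E)

private theorem su_val (c : ZMod (2 * D.r)) (w : Eˣ) : ((D.su c w : Eˣ) : E) = D.σ c w := rfl

private theorem T2_su (c : ZMod (2 * D.r)) {w : Eˣ} (hw : w ∈ D.T2) : D.su c w ∈ D.T2 := by
  obtain ⟨v, hv, rfl⟩ := hw
  refine ⟨D.su c v, ?_, by rw [map_pow]⟩
  rw [su_val, bar_σ, ← map_mul, hv, map_one]

private theorem tt_su (c : ZMod (2 * D.r)) (w : Eˣ) : tt (D.su c w) = D.σ c (tt w) := by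
  unfold tt
  rw [← map_inv, su_val, su_val, map_add, map_pow, map_pow]

private theorem tt_eq (hr : Even D.r) {w w' : Eˣ} (hw : w ∈ D.T2) (hw' : w' ∈ D.T2) (h : tt w' = tt w) :
    w' = w ∨ w' = w⁻¹ := by
  unfold tt at h
  rw [Units.val_inv_eq_inv_val, Units.val_inv_eq_inv_val] at h
  have h1 : (w : E) ≠ 0 := w.ne_zero
  have h2 : (w' : E) ≠ 0 := w'.ne_zero
  field_simp at h
  have h3 : ((w' : E) ^ 2 - (w : E) ^ 2) * ((w' : E) ^ 2 * (w : E) ^ 2 - 1) = 0 := by
    linear_combination h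
  rcases mul_eq_zero.1 h3 with h4 | h4
  · left
    apply D.sq_inj hr hw' hw
    apply Units.ext
    rw [Units.val_pow_eq_pow_val, Units.val_pow_eq_pow_val]
    linear_combination h4
  · right
    apply D.sq_inj hr hw' (D.T2_inv hw)
    rw [inv_pow, eq_inv_iff_mul_eq_one]
    apply Units.ext
    rw [Units.val_mul, Units.val_pow_eq_pow_val, Units.val_pow_eq_pow_val, Units.val_one]
    linear_combination h4

private theorem conj_aeval {x x' : E} {a : E ≃ₗ[F] E} (h : ∀ y, x' * a y = a (x * y)) (p : Polynomial F) :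
    ∀ y, Polynomial.aeval x' p * a y = a (Polynomial.aeval x p * y) := by
  induction p using Polynomial.induction_on' with
  | add p q hp hq => intro y; rw [map_add, map_add, add_mul, add_mul, map_add, hp, hq]
  | monomial n c =>
    intro y
    have key : ∀ n : ℕ, ∀ y, x' ^ n * a y = a (x ^ n * y) := by
      intro n
      induction n with
      | zero => intro y; simp
      | succ n ih => intro y; rw [pow_succ, mul_assoc, h, ih, ← mul_assoc, ← pow_succ]
    rw [Polynomial.aeval_monomial, Polynomial.aeval_monomial, mul_assoc, key, mul_assoc,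
      ← Algebra.smul_def, ← Algebra.smul_def, map_smul]

private theorem σ_surj : Function.Surjective D.σ := by
  have h := (Nat.bijective_iff_injective_and_card D.σ).2 ⟨fun _ _ h => D.σ_inj h, by
    rw [Nat.card_zmod, IsGalois.card_aut_eq_finrank, D.fin]⟩
  exact h.2

private theorem exists_σ {x x' : E} {a : E ≃ₗ[F] E}
    (h : M F x' * (a : Module.End F E) = (a : Module.End F E) * M F x) :
    ∃ c : ZMod (2 * D.r), x' = D.σ c x := by
  have h1 : ∀ y, x' * a y = a (x * y) := fun y => LinearMap.congr_fun h y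
  have hint : IsIntegral F x := Algebra.IsIntegral.isIntegral x
  have h2 : Polynomial.aeval x' (minpoly F x) = 0 := by
    have := conj_aeval h1 (minpoly F x) 1
    rw [minpoly.aeval, zero_mul, map_zero] at this
    rcases mul_eq_zero.1 this with h | h
    · exact h
    · exact absurd h (by simp)
  have h3 : IsConjRoot F x x' := isConjRoot_of_aeval_eq_zero hint h2
  obtain ⟨s, hs⟩ := h3.symm.exists_algEquiv
  obtain ⟨c, hc⟩ := D.σ_surj s
  exact ⟨c, by rw [hc, hs]⟩

theorem finB (hr : Even D.r) (j : E) (hj : fr F E j = -j) (hj0 : j ≠ 0) (w : Eˣ) (hw : w ∈ D.T2) :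
    Nat.card {w' : Eˣ // w' ∈ D.T2 ∧ ∃ a : E ≃ₗ[F] E, M F (j ^ 2 * tt w') * (a : Module.End F E) =
      (a : Module.End F E) * M F (j ^ 2 * tt w)} ≤ 4 * D.r := by
  have hj2 : ∀ c : ZMod (2 * D.r), D.σ c (j ^ 2) = j ^ 2 := by
    intro c
    rw [← ZMod.natCast_zmod_val c, σ_natCast]
    generalize c.val = n
    induction n with
    | zero => simp
    | succ n ih => rw [pow_succ, AlgEquiv.mul_apply, map_pow, hj, neg_sq, ih]
  have hsub : {w' : Eˣ | w' ∈ D.T2 ∧ ∃ a : E ≃ₗ[F] E, M F (j ^ 2 * tt w') * (a : Module.End F E) =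
      (a : Module.End F E) * M F (j ^ 2 * tt w)} ⊆
      Set.range (fun cb : ZMod (2 * D.r) × Bool => if cb.2 then D.su cb.1 w else (D.su cb.1 w)⁻¹) := by
    rintro w' ⟨hw', a, ha⟩
    obtain ⟨c, hc⟩ := D.exists_σ ha
    rw [map_mul, hj2, ← tt_su] at hc
    have hc' := mul_left_cancel₀ (pow_ne_zero 2 hj0) hc
    rcases D.tt_eq hr (D.T2_su c hw) hw' hc' with h | h
    · exact ⟨(c, true), by simp [h]⟩
    · exact ⟨(c, false), by simp [h]⟩
  calc Nat.card {w' : Eˣ // w' ∈ D.T2 ∧ ∃ a : E ≃ₗ[F] E, M F (j ^ 2 * tt w') * (a : Module.End F E) =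
      (a : Module.End F E) * M F (j ^ 2 * tt w)} ≤ Nat.card (Set.range
        (fun cb : ZMod (2 * D.r) × Bool => if cb.2 then D.su cb.1 w else (D.su cb.1 w)⁻¹)) :=
        Nat.card_mono (Set.toFinite _) hsub
    _ ≤ Nat.card (ZMod (2 * D.r) × Bool) := Finite.card_range_le _
    _ = 4 * D.r := by
      rw [Nat.card_prod, Nat.card_zmod]
      simp
      ring

private theorem fr_pow_apply (n : ℕ) (x : E) : (fr F E ^ n) x = x ^ (Nat.card F ^ n) := by
  induction n with
  | zero => simp
  | succ n ih =>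
    rw [pow_succ', AlgEquiv.mul_apply, ih, fr_apply, ← pow_mul, ← pow_succ]

private theorem bad_t {s : ℕ} (hs : D.r = s + s) {t : E} (hb : D.bar t = t) (c : ZMod (2 * D.r))
    (h : (D.σ c t = t ∧ c ≠ 0 ∧ c ≠ (D.r : ZMod (2 * D.r))) ∨ D.σ c t = -t) :
    ∃ k, 1 ≤ k ∧ k ≤ s ∧ (t ^ (Nat.card F ^ k) = 1 * t ∨ t ^ (Nat.card F ^ k) = (-1) * t) := by
  have h4 := D.four_le
  have hcard : 0 < Nat.card F := Nat.card_pos
  have hrr : (fr F E ^ D.r) t = t := by rw [← D.σ_natCast, ← D.bar_eq, hb]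
  have hperiod : ∀ a j, (fr F E ^ (a + D.r * j)) t = (fr F E ^ a) t := by
    intro a j
    induction j with
    | zero => simp
    | succ j ih => rw [Nat.mul_succ, ← Nat.add_assoc, pow_add, AlgEquiv.mul_apply, hrr, ih]
  have hm : (fr F E ^ (c.val % D.r)) t = D.σ c t := by
    rw [← hperiod (c.val % D.r) (c.val / D.r), Nat.mod_add_div]; rfl
  by_cases h0 : t = 0
  · refine ⟨1, le_rfl, by omega, Or.inl ?_⟩
    rw [h0, zero_pow (by positivity), mul_zero]
  have h2 : (2 : E) ≠ 0 := by
    intro h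
    apply D.two_ne
    apply (algebraMap F E).injective
    rw [map_zero, map_ofNat, h]
  have hm0 : c.val % D.r ≠ 0 := by
    intro h00
    rw [h00, pow_zero] at hm
    rcases h with ⟨h1, h2', h3⟩ | h1
    · have hlt := ZMod.val_lt c
      obtain ⟨j, hj⟩ := Nat.dvd_of_mod_eq_zero h00
      have hj2 : j < 2 := by
        by_contra hcon
        have : D.r * 2 ≤ D.r * j := Nat.mul_le_mul_left _ (by omega)
        omega
      interval_cases j
      · exact h2' ((ZMod.val_eq_zero c).1 (by omega))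
      · apply h3
        rw [← ZMod.natCast_zmod_val c, hj, mul_one]
    · rw [h1] at hm
      have h5 : 2 * t = 0 := by
        have : t = -t := hm
        linear_combination this
      rcases mul_eq_zero.1 h5 with h6 | h6
      · exact h2 h6
      · exact h0 h6
  set m := c.val % D.r with hmdef
  have hmr : m < D.r := Nat.mod_lt _ (by omega)
  have key : (fr F E ^ m) t = t ∨ (fr F E ^ m) t = -t := by
    rw [hm]
    rcases h with h | h
    · exact Or.inl h.1
    · exact Or.inr h
  by_cases hms : m ≤ s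
  · refine ⟨m, by omega, hms, ?_⟩
    rw [← fr_pow_apply]
    simpa using key
  · refine ⟨D.r - m, by omega, by omega, ?_⟩
    have e : (fr F E ^ (D.r - m)) ((fr F E ^ m) t) = t := by
      rw [← AlgEquiv.mul_apply, ← pow_add, Nat.sub_add_cancel hmr.le, hrr]
    rcases key with k1 | k1
    · rw [k1] at e
      left
      rw [← fr_pow_apply, e, one_mul]
    · rw [k1, map_neg] at e
      right
      rw [← fr_pow_apply]
      linear_combination -e

private theorem card_root {E : Type} [Field E] [Fintype E] [DecidableEq E] (n : ℕ) (hn : 2 ≤ n) (s : E) :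
    (Finset.univ.filter (fun t : E => t ^ n = s * t)).card ≤ n := by
  set P : Polynomial E := Polynomial.X ^ n - Polynomial.C s * Polynomial.X with hP
  have hlt : (Polynomial.C s * Polynomial.X : Polynomial E).natDegree < (Polynomial.X ^ n : Polynomial E).natDegree := by
    rw [Polynomial.natDegree_X_pow]
    exact lt_of_le_of_lt ((Polynomial.natDegree_C_mul_le s Polynomial.X).trans Polynomial.natDegree_X_le) (by omega)
  have hdeg : P.natDegree = n := by
    rw [hP, Polynomial.natDegree_sub_eq_left_of_natDegree_lt hlt, Polynomial.natDegree_X_pow]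
  have hP0 : P ≠ 0 := by
    intro h
    rw [h, Polynomial.natDegree_zero] at hdeg
    omega
  have hsub : Finset.univ.filter (fun t : E => t ^ n = s * t) ⊆ P.roots.toFinset := by
    intro t ht
    rw [Finset.mem_filter] at ht
    rw [Multiset.mem_toFinset, Polynomial.mem_roots hP0, Polynomial.IsRoot, hP]
    simp [ht.2]
  calc _ ≤ P.roots.toFinset.card := Finset.card_le_card hsub
    _ ≤ Multiset.card P.roots := Multiset.toFinset_card_le _
    _ ≤ P.natDegree := Polynomial.card_roots' _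
    _ = n := hdeg

private theorem bar_tt {w : Eˣ} (hw : w ∈ D.T2) : D.bar (tt w) = tt w := by
  obtain ⟨v, hv, rfl⟩ := hw
  have h1 : D.bar (v : E) = (v : E)⁻¹ := by
    rw [eq_comm]
    exact inv_eq_of_mul_eq_one_right hv
  unfold tt
  rw [Units.val_inv_eq_inv_val, Units.val_pow_eq_pow_val]
  simp only [map_add, map_pow, map_inv₀, h1, inv_pow, inv_inv]
  rw [add_comm]

end Dat

theorem cntB (r : ℕ) (hr4 : 4 ≤ r) (hr : Even r) : ∃ q0 : ℕ, ∀ (F E : Type) [Field F] [Field E] [Algebra F E]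
    [Finite F] [Finite E] (D : Dat F E), D.r = r → q0 ≤ Nat.card F →
    Nat.card F ^ r ≤ 4 * Nat.card {w : Eˣ // D.AdmB w} := by
  refine ⟨8 * r, ?_⟩
  intro F E _ _ _ _ _ D hD hq
  classical
  let _ := Fintype.ofFinite E
  have hrD : Even D.r := by rw [hD]; exact hr
  obtain ⟨s, hs⟩ := hr
  have hsD : D.r = s + s := by rw [hD, hs]
  set q := Nat.card F with hqdef
  have hq1 : 1 < q := Finite.one_lt_card
  set BT : Finset E := (Finset.Icc 1 s).biUnion (fun k =>
    Finset.univ.filter (fun t : E => t ^ (q ^ k) = 1 * t) ∪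
      Finset.univ.filter (fun t : E => t ^ (q ^ k) = (-1) * t)) with hBT
  have hBTcard : BT.card ≤ s * (2 * q ^ s) := by
    calc BT.card ≤ ∑ k ∈ Finset.Icc 1 s, (Finset.univ.filter (fun t : E => t ^ (q ^ k) = 1 * t) ∪
      Finset.univ.filter (fun t : E => t ^ (q ^ k) = (-1) * t)).card := Finset.card_biUnion_le
      _ ≤ ∑ k ∈ Finset.Icc 1 s, 2 * q ^ s := by
        apply Finset.sum_le_sum
        intro k hk
        rw [Finset.mem_Icc] at hk
        have hqk : 2 ≤ q ^ k := by
          calc 2 ≤ q := hq1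
            _ = q ^ 1 := (pow_one q).symm
            _ ≤ q ^ k := Nat.pow_le_pow_right (by omega) hk.1
        have hks : q ^ k ≤ q ^ s := Nat.pow_le_pow_right (by omega) hk.2
        have h1 := Dat.card_root (E := E) (q ^ k) hqk 1
        have h2 := Dat.card_root (E := E) (q ^ k) hqk (-1)
        refine (Finset.card_union_le _ _).trans ?_
        omega
      _ = s * (2 * q ^ s) := by
        rw [Finset.sum_const, Nat.card_Icc, smul_eq_mul]
        congr 1
  set T : Finset Eˣ := Finset.univ.filter (fun w => w ∈ D.T2) with hT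
  set A : Finset Eˣ := Finset.univ.filter (fun w => D.AdmB w) with hA
  set B : Finset Eˣ := Finset.univ.filter (fun w => w ∈ D.T2 ∧ ¬ D.AdmB w) with hB
  have hTcard : 2 * T.card = q ^ r + 1 := by
    have h := D.card_T2
    rw [hD] at h
    rw [← h, hT]
    congr 1
    rw [Nat.card_eq_fintype_card, Fintype.card_subtype]
  have hAcard : Nat.card {w : Eˣ // D.AdmB w} = A.card := by
    rw [Nat.card_eq_fintype_card, Fintype.card_subtype]
  have hTAB : T.card ≤ A.card + B.card := by
    refine (Finset.card_le_card ?_).trans (Finset.card_union_le A B)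
    intro w hw
    rw [hT, Finset.mem_filter] at hw
    rw [Finset.mem_union, hA, hB, Finset.mem_filter, Finset.mem_filter]
    by_cases h : D.AdmB w
    · exact Or.inl ⟨Finset.mem_univ _, h⟩
    · exact Or.inr ⟨Finset.mem_univ _, hw.2, h⟩
  have hBmap : ∀ w ∈ B, Dat.tt w ∈ BT := by
    intro w hw
    rw [hB, Finset.mem_filter] at hw
    obtain ⟨-, hw2, hna⟩ := hw
    have hbt := D.bar_tt hw2
    have hex : ∃ c : ZMod (2 * D.r), (D.σ c (Dat.tt w) = Dat.tt w ∧ c ≠ 0 ∧ c ≠ (D.r : ZMod (2 * D.r))) ∨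
        D.σ c (Dat.tt w) = -Dat.tt w := by
      by_contra hcon
      push Not at hcon
      apply hna
      refine ⟨hw2, ?_, fun c => (hcon c).2⟩
      intro c hc
      by_contra hcc
      push Not at hcc
      exact hcc.2 ((hcon c).1 hc hcc.1)
    obtain ⟨c, hc⟩ := hex
    obtain ⟨k, hk1, hk2, hk3⟩ := D.bad_t hsD hbt c hc
    rw [hBT, Finset.mem_biUnion]
    refine ⟨k, Finset.mem_Icc.2 ⟨hk1, hk2⟩, ?_⟩
    rw [Finset.mem_union, Finset.mem_filter, Finset.mem_filter]
    rcases hk3 with h | h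
    · exact Or.inl ⟨Finset.mem_univ _, h⟩
    · exact Or.inr ⟨Finset.mem_univ _, h⟩
  have hBcard : B.card ≤ 2 * BT.card := by
    apply Finset.card_le_mul_card_image_of_maps_to hBmap 2
    intro t _
    by_cases hne : (B.filter (fun w => Dat.tt w = t)).Nonempty
    · obtain ⟨w0, hw0⟩ := hne
      rw [Finset.mem_filter, hB, Finset.mem_filter] at hw0
      have hsub : B.filter (fun w => Dat.tt w = t) ⊆ {w0, w0⁻¹} := by
        intro w hw
        rw [Finset.mem_filter, hB, Finset.mem_filter] at hw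
        rw [Finset.mem_insert, Finset.mem_singleton]
        exact D.tt_eq hrD hw0.1.2.1 hw.1.2.1 (by rw [hw.2, hw0.2])
      exact (Finset.card_le_card hsub).trans Finset.card_le_two
    · rw [Finset.not_nonempty_iff_eq_empty] at hne
      rw [hne]
      simp
  rw [hAcard]
  have hN : q ^ r = q ^ s * q ^ s := by rw [hs, pow_add]
  have hqs : 8 * r ≤ q ^ s := by
    calc 8 * r ≤ q := hq
      _ = q ^ 1 := (pow_one q).symm
      _ ≤ q ^ s := Nat.pow_le_pow_right (by omega) (by omega)
  have h1 : 8 * r * q ^ s ≤ q ^ r := by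
    rw [hN]
    exact Nat.mul_le_mul_right _ hqs
  have h2 : s * (2 * q ^ s) = r * q ^ s := by
    rw [hs]; ring
  rw [h2] at hBTcard
  have h3 : 8 * (r * q ^ s) ≤ q ^ r := by
    calc 8 * (r * q ^ s) = 8 * r * q ^ s := by ring
      _ ≤ _ := h1
  omega

end Pool.Agent.H32.UD
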