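import Pool.Agent.H32.UD.Sepx

/-!
# UD.HasT : the commutator subgroup contains the squares of the torus; small facts on the torus

PROOF. `normal_inv`: choose `a` with `a * bar a = (-1)^r` (the norm map `x ↦ x bar x = x^(q^r + 1)` from `Eˣ` onto `(Ep)ˣ`: for even `r` take `a = 1`; for odd `r` take `a = γ^((q^r - 1)/2)`, `γ` a generator of `Eˣ`: `a^(q^r + 1) = γ^((q^(2r) - 1)/2) = -1`). `w v = a bar v`: `B (w x, w y) = Tr (δ a bar a bar x y) = (-1)^r Tr (δ bar x y) = (-1)^r Tr (bar (δ) x bar y) = B (x, y)`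
(`trace_bar`, `bar_δ`). `w mu(v) w⁻¹ = mu (bar v) = mu (v⁻¹)` for `v bar v = 1`, so `mu (v²) = mu v * (w * mu v⁻¹.. )`: `⁅mu v, w⁆ = mu v * w * mu v⁻¹ * w⁻¹ = mu v * mu v = mu (v ^ 2)`. `hasT_comm` follows. `gen`: `θ` from `exists_sep`: every element of `T2` is a power of `θ ^ 2`. `big`: `card T2 ≥ 3` so `T2` is not contained in `{1, -1}`.
-/

set_option autoImplicit false
set_option linter.unusedSectionVars false

namespace Pool.Agent.H32.UD

open Module
open scoped commutatorElement

namespace Dat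

variable {F E : Type} [Field F] [Field E] [Algebra F E] (D : Dat F E) [Finite F] [Finite E]

theorem hasT_comm : D.HasT ⁅D.G, D.G⁆ := by
  intro u hu
  obtain ⟨a, ha⟩ := D.norm_onto ((-1 : Eˣ) ^ D.r) (by
    simp only [Units.val_pow_eq_pow_val, Units.val_neg, Units.val_one, map_pow, map_neg, map_one])
  have ha' : (a : E) * D.bar a = (-1) ^ D.r := by
    rw [ha]
    simp only [Units.val_pow_eq_pow_val, Units.val_neg, Units.val_one]
  set w : E ≃ₗ[F] E := mu F a * D.bar.toLinearEquiv with hw
  have hwv : ∀ v, w v = (a : E) * D.bar v := fun v => rfl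
  have hsq : ((-1 : E) ^ D.r) * (-1) ^ D.r = 1 := by
    rw [← pow_add, ← two_mul, pow_mul]
    norm_num
  have hwG : w ∈ D.G := by
    intro x y
    rw [hwv, hwv, B_apply, B_apply, map_mul D.bar, bar_bar]
    have e1 : D.δ * ((a : E) * D.bar x) * (D.bar a * y) = D.bar (D.δ * x * D.bar y) := by
      rw [map_mul D.bar, map_mul D.bar, bar_δ, bar_bar]
      linear_combination D.δ * D.bar x * y * ha'
    rw [e1, trace_bar]
  have huu : mu F u ∈ D.G := D.mu_mem_G hu
  have hbar : D.bar ((u⁻¹ : Eˣ) : E) = u := by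
    have h1 : D.bar ((u⁻¹ : Eˣ) : E) * D.bar (u : E) = 1 := by
      rw [← map_mul, Units.inv_mul, map_one]
    have h2 : D.bar (u : E) ≠ 0 := by
      intro h
      rw [h, mul_zero] at h1
      exact zero_ne_one h1
    exact mul_right_cancel₀ h2 (h1.trans hu.symm)
  have hconj : w * (mu F u)⁻¹ = mu F u * w := by
    rw [← map_inv]
    ext v
    show (a : E) * D.bar (((u⁻¹ : Eˣ) : E) * v) = (u : E) * ((a : E) * D.bar v)
    rw [map_mul, hbar]
    ring
  have h := Subgroup.commutator_mem_commutator huu hwG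
  have e : ⁅mu F u, w⁆ = mu F (u ^ 2) := by
    rw [commutatorElement_def, mul_assoc (mu F u) w, hconj, ← mul_assoc, mul_inv_cancel_right,
      ← map_mul, pow_two]
  rwa [e] at h

theorem hasT_G : D.HasT D.G := by
  intro u hu
  rw [map_pow]
  exact D.G.pow_mem (D.mu_mem_G hu) 2

/-- one element generates the squares of the torus -/
theorem exists_gen (hq : 10 ≤ Nat.card F) : ∃ s : Eˣ, (s : E) * D.bar s = 1 ∧
    ∀ H : Subgroup (E ≃ₗ[F] E), mu F s ∈ H → D.HasT H := by
  obtain ⟨θ, h1, -, h3⟩ := D.torus_gen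
  refine ⟨θ, h1, fun H hH u hu => ?_⟩
  obtain ⟨n, rfl⟩ := h3 u hu
  rw [map_pow, map_pow]
  exact H.pow_mem (H.pow_mem hH n) 2

theorem exists_gen_T2 (hq : 10 ≤ Nat.card F) : ∃ s : Eˣ, s ∈ D.T2 ∧
    ∀ H : Subgroup (E ≃ₗ[F] E), mu F s ∈ H → D.HasT H := by
  obtain ⟨θ, h1, -, h3⟩ := D.torus_gen
  refine ⟨θ ^ 2, ⟨θ, h1, rfl⟩, fun H hH u hu => ?_⟩
  obtain ⟨n, rfl⟩ := h3 u hu
  have e : (θ ^ n) ^ 2 = (θ ^ 2) ^ n := by
    rw [← pow_mul, ← pow_mul, mul_comm]
  rw [e, map_pow]
  exact H.pow_mem hH n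

/-- a subgroup of `± 1` does not contain the torus -/
theorem not_pm (hq : 10 ≤ Nat.card F) (H : Subgroup (E ≃ₗ[F] E)) (hT : D.HasT H) :
    ¬ ∀ x ∈ H, (∀ v, x v = v) ∨ ∀ v, x v = -v := by
  intro h
  obtain ⟨θ, h1, h2, -⟩ := D.torus_gen
  have h4 : θ ^ 4 = 1 := by
    have h5 : ((θ ^ 2 : Eˣ) : E) ^ 2 = 1 := by
      rcases h _ (hT θ h1) with h' | h'
      · have := h' 1
        rw [mu_apply, mul_one] at this
        rw [this, one_pow]
      · have := h' 1
        rw [mu_apply, mul_one] at this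
        rw [this]
        norm_num
    have h6 : (θ ^ 2) ^ 2 = (1 : Eˣ) := by
      ext
      rw [Units.val_pow_eq_pow_val, h5, Units.val_one]
    rw [← h6, ← pow_mul]
  have h7 : orderOf θ ≤ 4 := orderOf_le_of_pow_eq_one (by norm_num) h4
  have h8 : 10 ^ 1 ≤ Nat.card F ^ D.r := by
    calc 10 ^ 1 ≤ Nat.card F ^ 1 := Nat.pow_le_pow_left hq 1
      _ ≤ Nat.card F ^ D.r := Nat.pow_le_pow_right (by omega) (by have := D.four_le; omega)
  omega

/-- an element commuting with the squares of the torus is a multiplication -/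
theorem comm_torus (hq : 10 ≤ Nat.card F) (x : E ≃ₗ[F] E)
    (hx : ∀ u : Eˣ, (u : E) * D.bar u = 1 → x * mu F (u ^ 2) = mu F (u ^ 2) * x) (p : ℕ) :
    Nor p x := by
  obtain ⟨θ, h1, hsep, -, -⟩ := D.exists_sep hq
  set lam : E := (θ : E) ^ 2 with hlam
  have hne : lam ≠ 0 := pow_ne_zero 2 θ.ne_zero
  -- the conjugates of `lam` are distinct
  have hdist : ∀ i : ZMod (2 * D.r), D.σ i lam = lam → i = 0 := by
    intro i hi
    have := hsep i 0 0 0 (by rw [hi, σ_zero_apply])
    rcases this with h | h | h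
    · exact h.1
    · exact h.1
    · exact absurd (by simpa using h.2.symm) D.r_ne_zero
  have hfd : FiniteDimensional F E := FiniteDimensional.of_finrank_pos (by
    rw [D.fin]; have := D.four_le; omega)
  -- `lam` generates
  have htop : IntermediateField.adjoin F {lam} = ⊤ := by
    set K := IntermediateField.adjoin F {lam} with hK
    have hmem : lam ∈ K := IntermediateField.mem_adjoin_simple_self F lam
    set d := finrank F K with hd
    have hcard : Nat.card K = Nat.card F ^ d := Module.natCard_eq_pow_finrank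
    let _ := Fintype.ofFinite K
    have hpow : lam ^ Nat.card F ^ d = lam := by
      have h := FiniteField.pow_card (K := K) ⟨lam, hmem⟩
      rw [← Nat.card_eq_fintype_card, hcard] at h
      exact congrArg (fun y : K => (y : E)) h
    have hfr : ∀ n : ℕ, (fr F E ^ n) lam = lam ^ Nat.card F ^ n := by
      intro n
      induction n with
      | zero => simp
      | succ n ih =>
        rw [pow_succ', AlgEquiv.mul_apply, ih, fr_apply, ← pow_mul, ← pow_succ]
    have h0 : ((d : ℕ) : ZMod (2 * D.r)) = 0 := by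
      apply hdist
      rw [σ_natCast, hfr, hpow]
    rw [ZMod.natCast_eq_zero_iff] at h0
    have hdpos : 0 < d := Module.finrank_pos
    have hdle : 2 * D.r ≤ d := Nat.le_of_dvd hdpos h0
    apply IntermediateField.eq_of_le_of_finrank_eq le_top
    rw [IntermediateField.finrank_top', D.fin]
    refine le_antisymm ?_ hdle
    rw [← D.fin]
    exact Submodule.finrank_le (Subalgebra.toSubmodule K.toSubalgebra)
  have hx1 : (x : Module.End F E) * M F lam = M F lam * (x : Module.End F E) := by
    have h := hx θ h1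
    ext v
    have h' := congrArg (fun g : E ≃ₗ[F] E => g v) h
    simp only [LinearEquiv.mul_apply, mu_apply, Units.val_pow_eq_pow_val] at h'
    exact h'
  have hall : ∀ y : E, (x : Module.End F E) * M F y = M F y * (x : Module.End F E) := by
    intro y
    have hy : y ∈ Algebra.adjoin F ({lam} : Set E) := by
      have h2 : y ∈ (IntermediateField.adjoin F {lam}).toSubalgebra := by
        rw [htop]
        exact Set.mem_univ y
      rwa [IntermediateField.adjoin_simple_toSubalgebra_of_isAlgebraic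
        (Algebra.IsAlgebraic.isAlgebraic lam)] at h2
    induction hy using Algebra.adjoin_induction with
    | mem z hz =>
      rw [Set.mem_singleton_iff] at hz
      rw [hz]
      exact hx1
    | algebraMap c =>
      rw [M_algebraMap, mul_smul_comm, smul_mul_assoc, mul_one, one_mul]
    | add a b _ _ iha ihb => rw [M_add, mul_add, add_mul, iha, ihb]
    | mul a b _ _ iha ihb => rw [M_mul, ← mul_assoc, iha, mul_assoc, ihb, mul_assoc]
  intro a ha
  exact ⟨a, ha, hall a⟩

end Dat

end Pool.Agent.H32.UD
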