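import Pool.Agent.H32.UD.TwA0

/-!
# UD.TwoA : the pair (2, 2) for odd `r`

PROOF. `exists_hb` gives `h ∈ Cay`. Triv: let `x ∈ G`, `Nor 2 x`, `Nor 2 (h⁻¹ x h)`, `J = M j`, `J' = h J h⁻¹`, `ν = j² ∈ F`. `x M j = M b x` gives `b² = j²`, `b = ± j`: `x J = ± J x`, similarly `x J' = ± J' x`. By computation (apply both sides to `v`): `J J' + J' J = M t`, `t = 2 ν - β²`.
Mixed signs: `x M t = M (-t) x`. For `e ∈ E₀`, `e = P(t)` for a polynomial over `F` (the hypothesis on `β²`: `t` generates `E₀`), so `x M e x⁻¹ = M e'`; the map `e ↦ e'` is an automorphism of `E₀` over `F`, a power of `fr`: `σ c t = - t` for some `c` (the minimal polynomials of `t` and `-t` agree, conjugates are given by the `σ c`), so `σ (2c) t = t`, `2 c ∈ {0, r}`, `r` odd gives `2 c = 0`, `c ∈ {0, r}`, `t = -t`, `t = 0`,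
contradiction (`σ 1 t = t`). Equal signs: `x` commutes with `M t`, hence with `M e`, `e ∈ E₀`. So `co x c = 0` for `c ≠ 0, r` (`comm_M`), `x = M p + M s Fz r`. Signs `(+,+)`: commutes with `M j`: `s = 0`. `x = M p` commutes with `J'`, i.e. `h⁻¹ M p h` commutes with `M j`; the coefficient of `Fz r` of `M p J' - J' M p` gives `bar p = p` (as `β ≠ 0`), and `x ∈ G` gives `p bar p = 1`, `p² = 1`.
Signs `(-,-)`: `p = 0` and `x = M s Fz r` anticommutes with `J'`; the `E₀`-space of such maps is `E₀ (J J' - J' J)`; so `x = M u (J J' - J' J)`, `u ∈ E₀` (or compute the coefficients); `x² = u² (t² - 4 ν²) = - u² β² (4 ν - β²)` and `x ∈ G`, `x^* = x⁻¹`; `(J J' - J' J)^* = -(J J' - J' J)`, so `x^* = - x` (`u ∈ E₀` commutes), `1 = x^* x = - x² = u² β² (4 ν - β²)`: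
`4 ν - β² = (1/(u β))²` is a square in `E₀`, contradiction to `hns`.
-/

set_option autoImplicit false
set_option linter.unusedSectionVars false

namespace Pool.Agent.H32.UD

open Module

namespace Dat

variable {F E : Type} [Field F] [Field E] [Algebra F E] (D : Dat F E) [Finite F] [Finite E]

private theorem ta_bar_j (hr : Odd D.r) (j : E) (hj : fr F E j = -j) : D.bar j = -j := by
  have h : ∀ n : ℕ, (fr F E ^ n) j = (-1) ^ n * j := by
    intro n
    induction n with
    | zero => simp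
    | succ n ih =>
      rw [pow_succ, AlgEquiv.mul_apply, hj, map_neg, ih, pow_succ]
      ring
  rw [bar_eq, σ_natCast, h, hr.neg_one_pow]
  ring

include D in
private theorem ta_two : (2 : E) ≠ 0 := by
  intro h
  apply D.two_ne
  apply (algebraMap F E).injective
  rw [map_ofNat, map_zero]
  exact h

private theorem ta_σ_of_fr {ν : E} (h : fr F E ν = ν) (c : ZMod (2 * D.r)) : D.σ c ν = ν := by
  have h1 : c = ((c.val : ℕ) : ZMod (2 * D.r)) := (ZMod.natCast_zmod_val c).symm
  rw [h1, D.σ_natCast]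
  generalize c.val = m
  induction m with
  | zero => rfl
  | succ m ih => rw [pow_succ, AlgEquiv.mul_apply, h, ih]

include D in
private theorem ta_comm (X : Module.End F E) {ν : E} (h : fr F E ν = ν) : X * M F ν = M F ν * X := by
  apply D.ext_co
  intro c
  rw [D.co_mul_M, D.co_M_mul, D.ta_σ_of_fr h, mul_comm]

include D in
private theorem ta_sign (x : E ≃ₗ[F] E) (hx : Nor 2 x) {n : E} (hn : fr F E n = -n) :
    ∃ ε : E, (ε = 1 ∨ ε = -1) ∧ ∀ v, x (n * v) = ε * (n * x v) := by
  obtain ⟨b, -, hb⟩ := hx n (by rw [pow_two, AlgEquiv.mul_apply, hn, map_neg, hn, neg_neg])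
  have hb' : ∀ v, x (n * v) = b * x v := fun v => LinearMap.congr_fun hb v
  have hν : fr F E (n * n) = n * n := by rw [map_mul, hn]; ring
  have hc : ∀ v, x (n * n * v) = n * n * x v := fun v =>
    LinearMap.congr_fun (D.ta_comm (x : Module.End F E) hν) v
  have h1 : b * b = n * n := by
    have h2 := hc (x.symm 1)
    rw [mul_assoc, hb', hb', x.apply_symm_apply] at h2
    linear_combination h2
  have h3 : (b - n) * (b + n) = 0 := by linear_combination h1
  rcases mul_eq_zero.1 h3 with h | h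
  · refine ⟨1, Or.inl rfl, fun v => ?_⟩
    rw [hb', sub_eq_zero.1 h, one_mul]
  · refine ⟨-1, Or.inr rfl, fun v => ?_⟩
    rw [hb', eq_neg_of_add_eq_zero_left h]
    ring

private theorem ta_zr : (1 : ZMod (2 * D.r)) ≠ 0 ∧ (1 : ZMod (2 * D.r)) ≠ (D.r : ZMod (2 * D.r)) := by
  have h4 := D.four_le
  constructor
  · intro h
    have h1 : ((1 : ℕ) : ZMod (2 * D.r)) = ((0 : ℕ) : ZMod (2 * D.r)) := by
      rw [Nat.cast_one, Nat.cast_zero]; exact h
    rw [ZMod.natCast_eq_natCast_iff'] at h1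
    rw [Nat.mod_eq_of_lt (by omega), Nat.zero_mod] at h1
    exact one_ne_zero h1
  · intro h
    have h1 : ((1 : ℕ) : ZMod (2 * D.r)) = ((D.r : ℕ) : ZMod (2 * D.r)) := by
      rw [Nat.cast_one]; exact h
    rw [ZMod.natCast_eq_natCast_iff'] at h1
    rw [Nat.mod_eq_of_lt (by omega), Nat.mod_eq_of_lt (by omega)] at h1
    omega

/-- `2 c ∈ {0, r}` gives `c ∈ {0, r}` for odd `r` -/
private theorem ta_half (hr : Odd D.r) (c : ZMod (2 * D.r))
    (h : c + c = 0 ∨ c + c = (D.r : ZMod (2 * D.r))) : c = 0 ∨ c = (D.r : ZMod (2 * D.r)) := by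
  have h4 := D.four_le
  have hlt : c.val < 2 * D.r := ZMod.val_lt c
  have hc : c = ((c.val : ℕ) : ZMod (2 * D.r)) := (ZMod.natCast_zmod_val c).symm
  obtain ⟨m, hm⟩ := hr
  rcases h with h | h
  · rw [hc, ← Nat.cast_add, ZMod.natCast_eq_zero_iff] at h
    obtain ⟨k, hk⟩ := h
    have hk2 : c.val = D.r * k := by
      have : 2 * c.val = 2 * (D.r * k) := by linarith
      omega
    have hk3 : k < 2 := by
      by_contra hcon
      push Not at hcon
      have : D.r * 2 ≤ D.r * k := Nat.mul_le_mul_left _ hcon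
      omega
    interval_cases k
    · left
      rw [hc, hk2, mul_zero, Nat.cast_zero]
    · right
      rw [hc, hk2, mul_one]
  · exfalso
    rw [hc, ← Nat.cast_add, ZMod.natCast_eq_natCast_iff'] at h
    rw [Nat.mod_eq_of_lt (show D.r < 2 * D.r by omega)] at h
    have h2 : (c.val + c.val) % (2 * D.r) % 2 = (c.val + c.val) % 2 := Nat.mod_mul_right_mod _ _ _
    rw [h] at h2
    omega

theorem two_odd (hr : Odd D.r) (j β : E) (hj : fr F E j = -j) (hj0 : j ≠ 0) (hβ : D.bar β = β)
    (hgen : ∀ c : ZMod (2 * D.r), D.σ c (β ^ 2) = β ^ 2 → c = 0 ∨ c = (D.r : ZMod (2 * D.r)))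
    (hns : ¬ ∃ w : E, D.bar w = w ∧ w ^ 2 = 4 * j ^ 2 - β ^ 2) :
    ∃ h : E ≃ₗ[F] E, (h : Module.End F E) = D.hb j β ∧ h ∈ D.Cay ∧ D.Triv 2 2 h := by
  have h2E := D.ta_two
  have h4 := D.four_le
  have hbj := D.ta_bar_j hr j hj
  have hj2 : (2 : E) * j ≠ 0 := mul_ne_zero h2E hj0
  obtain ⟨h, hh, hC⟩ := D.exists_hb hr j β hj hj0 hβ
  refine ⟨h, hh, hC, ?_⟩
  have htr := D.tr_odd hr j β hj hj0 hβ h hh
  obtain ⟨c, hc⟩ : ∃ c, c = β / (2 * j) := ⟨_, rfl⟩
  have hcβ : β = c * (2 * j) := by rw [hc, div_mul_cancel₀ _ hj2]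
  have hbc : D.bar c = -c := by rw [hc, map_div₀, map_mul, hβ, hbj, map_ofNat, mul_neg, div_neg]
  have hβ0 : β ≠ 0 := by
    intro h0
    have h1 := hgen 1 (by rw [h0]; simp)
    rcases h1 with h1 | h1
    · exact D.ta_zr.1 h1
    · exact D.ta_zr.2 h1
  have hc0 : c ≠ 0 := by
    intro h0
    rw [h0, zero_mul] at hcβ
    exact hβ0 hcβ
  have hcne : ∀ e : E, (e = 1 ∨ e = -1) → c ≠ e := by
    intro e he h0
    have h1 : D.bar e = e := by
      rcases he with rfl | rfl
      · exact map_one _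
      · rw [map_neg, map_one]
    have h3 : 2 * c = 0 := by
      rw [h0, h1] at hbc
      rw [h0]
      linear_combination hbc
    exact hc0 ((mul_eq_zero.1 h3).resolve_left h2E)
  have hc1 : 1 + c ≠ 0 := by
    intro h0
    exact hcne (-1) (Or.inr rfl) (by linear_combination h0)
  have hc1' : 1 - c ≠ 0 := by
    intro h0
    exact hcne 1 (Or.inl rfl) (by linear_combination -h0)
  have hv : ∀ v, h v = v + c * (v - D.bar v) := by
    intro v
    have h1 : (h : Module.End F E) v = D.hb j β v := by rw [hh]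
    have h2 : h v = D.hb j β v := h1
    rw [h2, hc]
    unfold hb
    rw [LinearMap.add_apply, Module.End.mul_apply, LinearMap.sub_apply, M_apply, M_apply, Module.End.one_apply,
      one_mul, Fz_apply]
    rfl
  have hi : ∀ v, (h⁻¹ : E ≃ₗ[F] E) v = v - c * (v - D.bar v) := by
    intro v
    have h1 : h (v - c * (v - D.bar v)) = v := by
      rw [hv]
      simp only [map_sub, map_mul, hbc, bar_bar]
      ring
    have h3 : (h⁻¹ : E ≃ₗ[F] E) (h (v - c * (v - D.bar v))) = v - c * (v - D.bar v) := by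
      rw [← LinearEquiv.mul_apply, inv_mul_cancel]
      rfl
    rw [h1] at h3
    exact h3
  have hhi : ∀ v, h ((h⁻¹ : E ≃ₗ[F] E) v) = v := fun v => by
    rw [← LinearEquiv.mul_apply, mul_inv_cancel]; rfl
  have hih : ∀ v, (h⁻¹ : E ≃ₗ[F] E) (h v) = v := fun v => by
    rw [← LinearEquiv.mul_apply, inv_mul_cancel]; rfl
  -- the conjugate of multiplication by `j`
  have hJ' : ∀ v, h (j * (h⁻¹ : E ≃ₗ[F] E) v) = (j - 2 * c ^ 2 * j) * v + (2 * c * j + 2 * c ^ 2 * j) * D.bar v := by
    intro v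
    rw [hv, hi]
    simp only [map_sub, map_mul, hbc, hbj, bar_bar]
    ring
  intro x hxG hx1 hx2
  obtain ⟨ε, hε, hxj⟩ := D.ta_sign x hx1 hj
  obtain ⟨ε', hε', hxj'⟩ := D.ta_sign _ hx2 hj
  have hbε : ∀ e : E, (e = 1 ∨ e = -1) → D.bar e = e := by
    rintro e (rfl | rfl)
    · exact map_one _
    · rw [map_neg, map_one]
  have hsc : ∀ e : E, (e = 1 ∨ e = -1) → ∀ v, h (e * v) = e * h v := by
    rintro e (rfl | rfl) v
    · rw [one_mul, one_mul]
    · rw [neg_one_mul, neg_one_mul, map_neg]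
  have hxJ : ∀ v, x (h (j * (h⁻¹ : E ≃ₗ[F] E) v)) = ε' * h (j * (h⁻¹ : E ≃ₗ[F] E) (x v)) := by
    intro v
    have h1 := hxj' ((h⁻¹ : E ≃ₗ[F] E) v)
    have h2 : (h⁻¹ * x * h) (j * (h⁻¹ : E ≃ₗ[F] E) v) = (h⁻¹ : E ≃ₗ[F] E) (x (h (j * (h⁻¹ : E ≃ₗ[F] E) v))) := rfl
    have h3 : (h⁻¹ * x * h) ((h⁻¹ : E ≃ₗ[F] E) v) = (h⁻¹ : E ≃ₗ[F] E) (x v) := by
      show (h⁻¹ : E ≃ₗ[F] E) (x (h ((h⁻¹ : E ≃ₗ[F] E) v))) = _
      rw [hhi]
    rw [h2, h3] at h1
    have h4 := congrArg h h1
    rw [hhi, hsc ε' hε'] at h4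
    exact h4
  -- `x` commutes or anticommutes with `t`
  obtain ⟨t, ht⟩ : ∃ t : E, t = 2 * j ^ 2 - β ^ 2 := ⟨_, rfl⟩
  have htv : ∀ v, j * h (j * (h⁻¹ : E ≃ₗ[F] E) v) + h (j * (h⁻¹ : E ≃ₗ[F] E) (j * v)) = t * v := by
    intro v
    have h1 := LinearMap.congr_fun htr v
    rw [ht]
    exact h1
  have hxt : ∀ v, x (t * v) = ε * ε' * (t * x v) := by
    intro v
    rw [← htv v, map_add, hxj, hxJ, hxJ, hxj, ← htv (x v)]
    have h1 : (h⁻¹ : E ≃ₗ[F] E) (ε * (j * x v)) = ε * (h⁻¹ : E ≃ₗ[F] E) (j * x v) := by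
      rcases hε with rfl | rfl
      · rw [one_mul, one_mul]
      · rw [neg_one_mul, neg_one_mul, map_neg]
    have h2 : j * (ε * (h⁻¹ : E ≃ₗ[F] E) (j * x v)) = ε * (j * (h⁻¹ : E ≃ₗ[F] E) (j * x v)) := by ring
    rw [h1, h2, hsc ε hε]
    ring
  have hfj : fr F E (j ^ 2) = j ^ 2 := by rw [map_pow, hj]; ring
  have hσt : ∀ d, D.σ d t = 2 * j ^ 2 - D.σ d (β ^ 2) := by
    intro d
    rw [ht, map_sub, map_mul, D.ta_σ_of_fr hfj, map_ofNat]
  have hbt : D.σ (D.r : ZMod (2 * D.r)) t = t := by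
    rw [hσt, ← D.bar_eq, map_pow, hβ, ht]
  have ht0 : t ≠ 0 := by
    intro h0
    have h1 : β ^ 2 = 2 * j ^ 2 := by
      rw [ht] at h0
      linear_combination -h0
    have h2 := hgen 1 (by rw [h1, map_mul, D.ta_σ_of_fr hfj, map_ofNat])
    rcases h2 with h2 | h2
    · exact D.ta_zr.1 h2
    · exact D.ta_zr.2 h2
  have hfix : ∀ d, D.σ d t = t → d = 0 ∨ d = (D.r : ZMod (2 * D.r)) := by
    intro d hd
    apply hgen
    rw [hσt, ht] at hd
    linear_combination -hd
  have hneg : ∀ d, D.σ d t ≠ -t := by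
    intro d hd
    have h1 : D.σ (d + d) t = t := by
      rw [D.σ_add_apply, hd, map_neg, hd, neg_neg]
    have h2 := D.ta_half hr d (hfix _ h1)
    have h3 : D.σ d t = t := by
      rcases h2 with h2 | h2
      · rw [h2, D.σ_zero_apply]
      · rw [h2, hbt]
    rw [h3] at hd
    have h5 : 2 * t = 0 := by linear_combination hd
    exact ht0 ((mul_eq_zero.1 h5).resolve_left h2E)
  have hxc : ∀ a δ' : E, (∀ v, x (a * v) = δ' * (a * x v)) → ∀ d,
      D.co (x : Module.End F E) d * (D.σ d a - δ' * a) = 0 := by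
    intro a δ' h d
    have h1 : (x : Module.End F E) * M F a = M F (δ' * a) * (x : Module.End F E) := by
      apply LinearMap.ext
      intro v
      show x (a * v) = δ' * a * x v
      rw [h v]
      ring
    have h2 := congrArg (fun Y => D.co Y d) h1
    simp only [D.co_mul_M, D.co_M_mul] at h2
    linear_combination h2
  have hxne : (x : Module.End F E) ≠ 0 := by
    intro h
    have h1 := LinearMap.congr_fun h (x.symm 1)
    have h2 : x (x.symm 1) = 0 := h1
    rw [x.apply_symm_apply] at h2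
    exact one_ne_zero h2
  have hεε : ε = ε' := by
    by_contra hne
    have e1 : ε * ε' = -1 := by
      rcases hε with rfl | rfl <;> rcases hε' with rfl | rfl
      · exact absurd rfl hne
      · norm_num
      · norm_num
      · exact absurd rfl hne
    apply hxne
    apply D.ext_co
    intro d
    rw [D.co_zero]
    have h1 := hxc _ _ hxt d
    rw [e1] at h1
    rcases mul_eq_zero.1 h1 with h2 | h2
    · exact h2
    · exfalso
      apply hneg d
      linear_combination h2
  subst hεε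
  have e1 : ε * ε = 1 := by rcases hε with rfl | rfl <;> norm_num
  rw [e1] at hxt
  have hx0 : ∀ d, d ≠ 0 → d ≠ (D.r : ZMod (2 * D.r)) → D.co (x : Module.End F E) d = 0 := by
    intro d hd hdr
    have h1 := hxc _ _ hxt d
    rw [one_mul] at h1
    rcases mul_eq_zero.1 h1 with h2 | h2
    · exact h2
    · exfalso
      rcases hfix d (sub_eq_zero.1 h2) with h3 | h3
      · exact hd h3
      · exact hdr h3
  obtain ⟨p, s, hps⟩ : ∃ p s : E, ∀ v, x v = p * v + s * D.bar v := by
    refine ⟨D.co (x : Module.End F E) 0, D.co (x : Module.End F E) (D.r : ZMod (2 * D.r)), fun v => ?_⟩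
    have hr0 : (D.r : ZMod (2 * D.r)) ≠ 0 := D.r_ne_zero
    have h1 : (x : Module.End F E) = M F (D.co (x : Module.End F E) 0) +
        M F (D.co (x : Module.End F E) (D.r : ZMod (2 * D.r))) * D.Fz (D.r : ZMod (2 * D.r)) := by
      apply D.ext_co
      intro d
      rw [D.co_add, D.co_M, D.co_single]
      by_cases hd : d = 0
      · rw [if_pos hd, hd, if_neg (Ne.symm hr0), add_zero]
      · by_cases hdr : d = (D.r : ZMod (2 * D.r))
        · rw [if_neg hd, if_pos hdr, hdr, zero_add]
        · rw [if_neg hd, if_neg hdr, hx0 d hd hdr, add_zero]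
    exact LinearMap.congr_fun h1 v
  -- coefficients
  have hlin : ∀ a b : E, (∀ v, a * v + b * D.bar v = 0) → a = 0 ∧ b = 0 := by
    intro a b hab
    have h1 := hab 1
    have h2 := hab j
    rw [map_one, mul_one, mul_one] at h1
    rw [hbj] at h2
    have h3 : (2 * j) * a = 0 := by linear_combination h2 + j * h1
    have h5 : a = 0 := (mul_eq_zero.1 h3).resolve_left hj2
    refine ⟨h5, ?_⟩
    rw [h5, zero_add] at h1
    exact h1
  have hA : (p - ε * p) * j = 0 ∧ -(s + ε * s) * j = 0 := by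
    apply hlin
    intro v
    have h1 := hxj v
    rw [hps, hps, map_mul, hbj] at h1
    linear_combination h1
  have hB := hlin (p * (j - 2 * c ^ 2 * j) + s * D.bar (2 * c * j + 2 * c ^ 2 * j) -
      ε * ((j - 2 * c ^ 2 * j) * p + (2 * c * j + 2 * c ^ 2 * j) * D.bar s))
      (p * (2 * c * j + 2 * c ^ 2 * j) + s * D.bar (j - 2 * c ^ 2 * j) -
      ε * ((j - 2 * c ^ 2 * j) * s + (2 * c * j + 2 * c ^ 2 * j) * D.bar p)) (by
    intro v
    have h1 := hxJ v
    rw [hJ', hJ', hps, hps] at h1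
    simp only [map_add, map_mul, bar_bar] at h1 ⊢
    linear_combination h1)
  have hcj : 2 * c * j ≠ 0 := by
    rw [mul_comm (2 : E) c, mul_assoc]
    exact mul_ne_zero hc0 hj2
  have hδ : D.bar D.δ = -D.δ := by rw [bar_δ, hr.neg_one_pow]; ring
  rcases hε with rfl | rfl
  · -- both signs are plus
    have hs : s = 0 := by
      have h1 := hA.2
      have h2 : (2 * j) * s = 0 := by linear_combination -h1
      exact (mul_eq_zero.1 h2).resolve_left hj2
    have hp : D.bar p = p := by
      have h1 := hB.2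
      rw [hs] at h1
      have h2 : (2 * c * j) * ((1 + c) * (p - D.bar p)) = 0 := by linear_combination h1
      have h3 := (mul_eq_zero.1 h2).resolve_left hcj
      have h5 := (mul_eq_zero.1 h3).resolve_left hc1
      linear_combination -h5
    have hpb : p * p = 1 := by
      have h1 : ∀ v, D.B (p * p - 1) v = 0 := by
        intro v
        have h2 := hxG 1 v
        rw [hps, hps, hs, D.B_apply, D.B_apply] at h2
        rw [D.B_apply]
        have h3 : D.δ * (p * p - 1) * D.bar v =
            D.δ * (p * 1 + 0 * D.bar 1) * D.bar (p * v + 0 * D.bar v) - D.δ * 1 * D.bar v := by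
          rw [zero_mul, zero_mul, add_zero, add_zero, map_mul, hp]
          ring
        rw [h3, map_sub, h2, sub_self]
      exact sub_eq_zero.1 (D.B_nondeg h1)
    have h1 : (p - 1) * (p + 1) = 0 := by linear_combination hpb
    rcases mul_eq_zero.1 h1 with h2 | h2
    · left
      intro v
      rw [hps, hs, sub_eq_zero.1 h2]
      ring
    · right
      intro v
      rw [hps, hs, eq_neg_of_add_eq_zero_left h2]
      ring
  · -- both signs are minus
    exfalso
    have hp : p = 0 := by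
      have h1 := hA.1
      have h2 : (2 * j) * p = 0 := by linear_combination h1
      exact (mul_eq_zero.1 h2).resolve_left hj2
    have hs : s * (1 - c) = -(D.bar s * (1 + c)) := by
      have h1 := hB.1
      rw [hp] at h1
      simp only [map_add, map_mul, map_pow, hbc, hbj, map_ofNat] at h1
      have h2 : (2 * c * j) * (s * (1 - c) + D.bar s * (1 + c)) = 0 := by linear_combination h1
      have h3 := (mul_eq_zero.1 h2).resolve_left hcj
      linear_combination h3
    have hsb : s * D.bar s = -1 := by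
      have h1 : ∀ v, D.B (s * D.bar s + 1) v = 0 := by
        intro v
        have h2 := hxG (D.bar 1) v
        rw [hps, hps, hp, D.B_apply, D.B_apply] at h2
        rw [D.B_apply]
        have h3 : D.δ * (s * D.bar s + 1) * D.bar v =
            D.δ * D.bar 1 * D.bar v -
            D.bar (D.δ * (0 * D.bar 1 + s * D.bar (D.bar 1)) * D.bar (0 * v + s * D.bar v)) := by
          simp only [map_mul, map_add, map_one, map_zero, hδ, bar_bar]
          ring
        rw [h3, map_sub, D.trace_bar, h2, sub_self]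
      have h2 := D.B_nondeg h1
      linear_combination h2
    have hs0 : s ≠ 0 := by
      intro h0
      rw [h0, zero_mul] at hsb
      exact one_ne_zero (α := E) (by linear_combination hsb)
    obtain ⟨u, hu⟩ : ∃ u : E, u = s / (1 + c) := ⟨_, rfl⟩
    have hsu : s = u * (1 + c) := by rw [hu, div_mul_cancel₀ _ hc1]
    have hu0 : u ≠ 0 := by
      intro h0
      rw [h0, zero_mul] at hsu
      exact hs0 hsu
    have hbu : D.bar u = -u := by
      have h1 : D.bar s = D.bar u * (1 - c) := by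
        rw [hsu, map_mul, map_add, map_one, hbc]
        ring
      rw [h1, hsu] at hs
      have h2 : ((1 + c) * (1 - c)) * (D.bar u + u) = 0 := by linear_combination hs
      have h3 := (mul_eq_zero.1 h2).resolve_left (mul_ne_zero hc1 hc1')
      linear_combination h3
    have huu : u ^ 2 * (1 - c ^ 2) = 1 := by
      have h1 : D.bar s = -u * (1 - c) := by
        rw [hsu, map_mul, map_add, map_one, hbc, hbu]
        ring
      rw [h1, hsu] at hsb
      linear_combination -hsb
    apply hns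
    refine ⟨2 * j / u, ?_, ?_⟩
    · rw [map_div₀, map_mul, map_ofNat, hbj, hbu, mul_neg, neg_div_neg_eq]
    · rw [div_pow, div_eq_iff (pow_ne_zero 2 hu0), hcβ]
      linear_combination (-(4 * j ^ 2)) * huu

end Dat

end Pool.Agent.H32.UD
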