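import Pool.Agent.H32.UD.TwB0
import Pool.Agent.H32.UD.Sepx

/-!
# UD.TwoB : the pair (2, 2) for even `r`

PROOF. `th ∈ G`: `exists_th` gives an element of `G` with the same underlying map, so `th ∈ G`. `h = th (mu w) th⁻¹ ∈ G`; `h v = - v` means
`w y = - y`, `y = th⁻¹ v`, so `y = 0` or `w = -1`, but `w = ± 1` gives `t = 2 ∈ F`, contradiction to `hgen` with `c = 1` (`r ≥ 4`). Triv: let `n` be an element with `fr n = - n`, `n ≠ 0` (exists: `fr² ` has a fixed element not fixed by `fr`, `K₂`; it satisfies `bar n = n` as `r` is even), `ν = n² ∈ F`. `th⁻¹ M n th = M n * Fz r`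
(on `Ep`: `n v`, on `Em`: `fr⁻¹ (n fr v) = - n v`). Let `x ∈ G`, `Nor 2 x`, `Nor 2 (h⁻¹ x h)` and `y = th⁻¹ x th ∈ G`. As in TwoA `x` commutes or anticommutes with `M n` and with `h M n h⁻¹`, so `y` commutes or anticommutes with `J = M n Fz r` and with `J' = M w J M w⁻¹ = M (n z) Fz r`, `z = w²` (`bar w = w⁻¹`).
`J J' + J' J = M (ν t)`, `t = z + z⁻¹ ∈ Ep`, generating `Ep` over `F` by `hgen`. Mixed signs: `y M t = M (-t) y`, so `σ c t = - t` for some `c` (minimal polynomials of `t` and `-t` agree), contradiction to `hneg`. Equal signs: `y` commutes with `M e`, `e ∈ Ep` (polynomials in `t`), in particular with `M n`. `(+,+)`: `y` commutes with `Fz r` and with `M z Fz r`,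
so with `M z`, `z ∉ Ep` (`z = z⁻¹` gives `t = ± 2`), so `y = M p` (`comm_M`: `σ c` fixes `Ep` and `z` only for `c = 0`), commutes with `Fz r`: `bar p = p`, `y ∈ G`: `p bar p = 1`, `p = ± 1`. `(-,-)`: `y` anticommutes with `Fz r` and `M z Fz r`, so commutes with `M z`, `y = M p`, `bar p = - p`, `p bar p = 1`: `p² = -1`; but `-1` is a square in `Ep` (`q^r ≡ 1` mod `4`, `Ep` is a field with `q^r` elements:
`FiniteField.exists_sq_eq_neg_one_iff`-type or: `p² = -1` has the two solutions `± p`, `fr p = ± p`, so `bar p = p` as `r` is even), contradiction.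
-/

set_option autoImplicit false
set_option linter.unusedSectionVars false

namespace Pool.Agent.H32.UD

open Module

namespace Dat

variable {F E : Type} [Field F] [Field E] [Algebra F E] (D : Dat F E) [Finite F] [Finite E]

private theorem zr_ne : (1 : ZMod (2 * D.r)) ≠ 0 ∧ (1 : ZMod (2 * D.r)) ≠ (D.r : ZMod (2 * D.r)) := by
  have h4 := D.four_le
  constructor
  · intro h
    have h1 : ((1 : ℕ) : ZMod (2 * D.r)) = ((0 : ℕ) : ZMod (2 * D.r)) := by
      rw [Nat.cast_one, Nat.cast_zero]; exact h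
    rw [ZMod.natCast_eq_natCast_iff'] at h1
    rw [Nat.mod_eq_of_lt (by omega), Nat.zero_mod] at h1
    exact one_ne_zero h1
  · intro h
    have h1 : ((1 : ℕ) : ZMod (2 * D.r)) = ((D.r : ℕ) : ZMod (2 * D.r)) := by
      rw [Nat.cast_one]; exact h
    rw [ZMod.natCast_eq_natCast_iff'] at h1
    rw [Nat.mod_eq_of_lt (by omega), Nat.mod_eq_of_lt (by omega)] at h1
    omega

private theorem sgn_natCast (n : ℕ) : (-1 : E) ^ ((n : ZMod (2 * D.r)).val) = (-1) ^ n := by
  rw [ZMod.val_natCast]
  conv_rhs => rw [← Nat.div_add_mod n (2 * D.r), pow_add]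
  have : (-1 : E) ^ (2 * D.r * (n / (2 * D.r))) = 1 := by
    rw [mul_assoc, pow_mul]
    norm_num
  rw [this, one_mul]

private theorem sgn_add_one (c : ZMod (2 * D.r)) : (-1 : E) ^ ((c + 1).val) = -(-1) ^ (c.val) := by
  have h1 : c + 1 = ((c.val + 1 : ℕ) : ZMod (2 * D.r)) := by
    rw [Nat.cast_add, ZMod.natCast_zmod_val, Nat.cast_one]
  rw [h1, D.sgn_natCast, pow_succ]
  ring

include D in
private theorem exists_n : ∃ n : E, n ≠ 0 ∧ fr F E n = -n := by
  classical
  set X : Module.End F E := ∑ c : ZMod (2 * D.r), M F ((-1 : E) ^ c.val) * D.Fz c with hX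
  have h0 : D.co X 0 = 1 := by
    rw [hX, D.co_sum (fun c => (-1 : E) ^ c.val)]
    simp
  have hne : X ≠ 0 := by
    intro h
    rw [h, D.co_zero] at h0
    exact zero_ne_one h0
  obtain ⟨a, ha⟩ : ∃ a, X a ≠ 0 := by
    by_contra hcon
    push Not at hcon
    exact hne (LinearMap.ext fun a => by rw [hcon a]; rfl)
  refine ⟨X a, ha, ?_⟩
  have hXa : ∀ a : E, X a = ∑ c : ZMod (2 * D.r), (-1 : E) ^ c.val * D.σ c a := by
    intro a
    rw [hX, LinearMap.sum_apply]
    rfl
  rw [hXa, map_sum]
  have h1 : ∀ c : ZMod (2 * D.r), fr F E ((-1 : E) ^ c.val * D.σ c a) =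
      -((-1 : E) ^ (c + 1).val * D.σ (c + 1) a) := by
    intro c
    rw [map_mul, map_pow, map_neg, map_one, D.sgn_add_one, add_comm c 1, D.σ_add_apply, D.σ_one]
    ring
  rw [Finset.sum_congr rfl fun c _ => h1 c, Finset.sum_neg_distrib]
  congr 1
  exact Equiv.sum_comp (Equiv.addRight (1 : ZMod (2 * D.r))) (fun c => (-1 : E) ^ c.val * D.σ c a)

private theorem σ_of_fr {ν : E} (h : fr F E ν = ν) (c : ZMod (2 * D.r)) : D.σ c ν = ν := by
  have h1 : c = ((c.val : ℕ) : ZMod (2 * D.r)) := (ZMod.natCast_zmod_val c).symm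
  rw [h1, D.σ_natCast]
  generalize c.val = m
  induction m with
  | zero => rfl
  | succ m ih => rw [pow_succ, AlgEquiv.mul_apply, h, ih]

include D in
private theorem comm_of_fr (X : Module.End F E) {ν : E} (h : fr F E ν = ν) : X * M F ν = M F ν * X := by
  apply D.ext_co
  intro c
  rw [D.co_mul_M, D.co_M_mul, D.σ_of_fr h, mul_comm]

private theorem σ_of_fr_neg {p : E} (h : fr F E p = -p) (m : ℕ) : (fr F E ^ m) p = (-1) ^ m * p := by
  induction m with
  | zero => simp
  | succ m ih =>
    rw [pow_succ, AlgEquiv.mul_apply, h, map_neg, ih, pow_succ]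
    ring

private theorem bar_of_fr (hr : Even D.r) {p : E} (h : fr F E p = p ∨ fr F E p = -p) : D.bar p = p := by
  rcases h with h | h
  · exact D.σ_of_fr h _
  · rw [D.bar_eq, D.σ_natCast, σ_of_fr_neg h, hr.neg_one_pow, one_mul]

include D in
private theorem nor_sign (x : E ≃ₗ[F] E) (hx : Nor 2 x) {n : E} (hn : fr F E n = -n) :
    ∃ ε : E, (ε = 1 ∨ ε = -1) ∧ ∀ v, x (n * v) = ε * (n * x v) := by
  obtain ⟨b, -, hb⟩ := hx n (by rw [pow_two, AlgEquiv.mul_apply, hn, map_neg, hn, neg_neg])
  have hb' : ∀ v, x (n * v) = b * x v := fun v => LinearMap.congr_fun hb v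
  have hν : fr F E (n * n) = n * n := by rw [map_mul, hn]; ring
  have hc : ∀ v, x (n * n * v) = n * n * x v := fun v =>
    LinearMap.congr_fun (D.comm_of_fr (x : Module.End F E) hν) v
  have h1 : b * b = n * n := by
    have h2 := hc (x.symm 1)
    rw [mul_assoc, hb', hb', x.apply_symm_apply] at h2
    linear_combination h2
  have h3 : (b - n) * (b + n) = 0 := by linear_combination h1
  rcases mul_eq_zero.1 h3 with h | h
  · refine ⟨1, Or.inl rfl, fun v => ?_⟩
    rw [hb', sub_eq_zero.1 h, one_mul]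
  · refine ⟨-1, Or.inr rfl, fun v => ?_⟩
    rw [hb', eq_neg_of_add_eq_zero_left h]
    ring

theorem two_even (hr : Even D.r) (th : E ≃ₗ[F] E) (hth : (th : Module.End F E) = D.thE) (w : Eˣ)
    (hw : (w : E) * D.bar w = 1)
    (hgen : ∀ c : ZMod (2 * D.r), D.σ c ((w : E) ^ 2 + ((w⁻¹ : Eˣ) : E) ^ 2) = (w : E) ^ 2 + ((w⁻¹ : Eˣ) : E) ^ 2 →
      c = 0 ∨ c = (D.r : ZMod (2 * D.r)))
    (hneg : ∀ c : ZMod (2 * D.r), D.σ c ((w : E) ^ 2 + ((w⁻¹ : Eˣ) : E) ^ 2) ≠
      -((w : E) ^ 2 + ((w⁻¹ : Eˣ) : E) ^ 2)) :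
    th * mu F w * th⁻¹ ∈ D.Cay ∧ D.Triv 2 2 (th * mu F w * th⁻¹) := by
  have hthG : th ∈ D.G := by
    obtain ⟨th', h1, h2⟩ := D.exists_th hr
    have : th = th' := by
      apply LinearEquiv.toLinearMap_injective
      exact hth.trans h1.symm
    rw [this]
    exact h2
  have h2E : (2 : E) ≠ 0 := by
    intro h
    apply D.two_ne
    apply (algebraMap F E).injective
    rw [map_ofNat, map_zero]
    exact h
  have hww : (w : E) * ((w⁻¹ : Eˣ) : E) = 1 := by simp
  have hw2 : (w : E) ^ 2 ≠ 1 := by
    intro h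
    have h1 : (((w⁻¹ : Eˣ) : E)) ^ 2 = 1 := by
      have : (w : E) ^ 2 * ((w⁻¹ : Eˣ) : E) ^ 2 = 1 := by rw [← mul_pow, hww, one_pow]
      rw [h, one_mul] at this
      exact this
    have h2 := hgen 1 (by rw [h, h1, map_add, map_one])
    rcases h2 with h2 | h2
    · exact D.zr_ne.1 h2
    · exact D.zr_ne.2 h2
  have hbw : D.bar w = ((w⁻¹ : Eˣ) : E) := by
    have : (w : E) * D.bar w = (w : E) * ((w⁻¹ : Eˣ) : E) := by rw [hw, hww]
    exact mul_left_cancel₀ (Units.ne_zero w) this
  have hbwi : D.bar ((w⁻¹ : Eˣ) : E) = w := by rw [← hbw, D.bar_bar]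
  have hmem : th * mu F w * th⁻¹ ∈ D.G :=
    D.G.mul_mem (D.G.mul_mem hthG (D.mu_mem_G hw)) (D.G.inv_mem hthG)
  refine ⟨⟨hmem, ?_⟩, ?_⟩
  · intro v hv
    have h1 : th ((w : E) * th.symm v) = -v := hv
    have h2 : th ((w : E) * th.symm v) = th (-th.symm v) := by
      rw [h1, map_neg, th.apply_symm_apply]
    have h3 := th.injective h2
    have h4 : ((w : E) + 1) * th.symm v = 0 := by linear_combination h3
    rcases mul_eq_zero.1 h4 with h5 | h5
    · exfalso
      apply hw2
      rw [eq_neg_of_add_eq_zero_left h5]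
      norm_num
    · have h6 := th.apply_symm_apply v
      rw [h5, map_zero] at h6
      exact h6.symm
  · intro x hxG hx1 hx2
    obtain ⟨n, hn0, hn⟩ := D.exists_n
    have hbn : D.bar n = n := D.bar_of_fr hr (Or.inr hn)
    obtain ⟨ε, hε, hxn⟩ := D.nor_sign x hx1 hn
    obtain ⟨ε', hε', hxn'⟩ := D.nor_sign _ hx2 hn
    have hth_n : ∀ v, n * th v = th (n * D.bar v) := fun v =>
      LinearMap.congr_fun (D.th_conj hr th hth n hn) v
    set y : E ≃ₗ[F] E := th⁻¹ * x * th with hy
    have hyG : y ∈ D.G := D.G.mul_mem (D.G.mul_mem (D.G.inv_mem hthG) hxG) hthG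
    have hyv : ∀ v, th (y v) = x (th v) := fun v => th.apply_symm_apply (x (th v))
    -- the sign rules are linear over the prime field
    have hsc : ∀ (e : E), (e = 1 ∨ e = -1) → ∀ (g : E ≃ₗ[F] E) (v : E), g (e * v) = e * g v := by
      rintro e (rfl | rfl) g v
      · rw [one_mul, one_mul]
      · rw [neg_one_mul, neg_one_mul, map_neg]
    have hA : ∀ v, y (n * D.bar v) = ε * (n * D.bar (y v)) := by
      intro v
      apply th.injective
      rw [hyv, ← hth_n, hxn, ← hyv, hth_n, hsc ε hε]
    have hx' : ∀ v, ((th * mu F w * th⁻¹)⁻¹ * x * (th * mu F w * th⁻¹)) (th v) =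
        th (((w⁻¹ : Eˣ) : E) * y ((w : E) * v)) := by
      intro v
      have h1 : (th * mu F w * th⁻¹)⁻¹ = th * mu F w⁻¹ * th⁻¹ := by
        rw [mul_inv_rev, mul_inv_rev, inv_inv, map_inv, mul_assoc]
      rw [h1]
      show th (((w⁻¹ : Eˣ) : E) * th.symm (x (th ((w : E) * th.symm (th v))))) = _
      rw [th.symm_apply_apply]
      rfl
    have hB : ∀ v, y ((w : E) ^ 2 * n * D.bar v) = ε' * ((w : E) ^ 2 * n * D.bar (y v)) := by
      intro v
      have h1 := hxn' (th (((w⁻¹ : Eˣ) : E) * v))
      rw [hth_n, hx', hx', hth_n, ← hsc ε' hε'] at h1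
      have h2 := th.injective h1
      simp only [map_mul D.bar, hbwi] at h2
      have e1 : (w : E) * (n * ((w : E) * D.bar v)) = (w : E) ^ 2 * n * D.bar v := by ring
      have e2 : (w : E) * (((w⁻¹ : Eˣ) : E) * v) = v := by rw [← mul_assoc, hww, one_mul]
      rw [e1, e2] at h2
      have h3 : (w : E) * (((w⁻¹ : Eˣ) : E) * y ((w : E) ^ 2 * n * D.bar v)) =
          (w : E) * (ε' * (n * ((w : E) * D.bar (y v)))) := by rw [h2]
      rw [← mul_assoc, hww, one_mul] at h3
      rw [h3]
      ring
    have hν : fr F E (n * n) = n * n := by rw [map_mul, hn]; ring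
    have hyν : ∀ v, y (n * n * v) = n * n * y v := fun v =>
      LinearMap.congr_fun (D.comm_of_fr (y : Module.End F E) hν) v
    have hnn : n * n ≠ 0 := mul_ne_zero hn0 hn0
    have hbε : ∀ e : E, (e = 1 ∨ e = -1) → D.bar e = e := by
      rintro e (rfl | rfl)
      · exact map_one _
      · rw [map_neg, map_one]
    -- `y` commutes or anticommutes with `w ^ 2`
    have hz1 : ∀ v, y ((w : E) ^ 2 * v) = ε * ε' * ((w : E) ^ 2 * y v) := by
      intro v
      -- apply `J'` after `J`
      have h1 := hB (n * D.bar v)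
      rw [hA, map_mul D.bar, hbn, D.bar_bar] at h1
      have h2 : D.bar (ε * (n * D.bar (y v))) = ε * (n * y v) := by
        rw [map_mul D.bar, map_mul D.bar, hbε ε hε, hbn, D.bar_bar]
      rw [h2] at h1
      have e1 : (w : E) ^ 2 * n * (n * v) = n * n * ((w : E) ^ 2 * v) := by ring
      rw [e1, hyν] at h1
      apply mul_left_cancel₀ hnn
      rw [h1]
      ring
    have hz2 : ∀ v, y (((w⁻¹ : Eˣ) : E) ^ 2 * v) = ε * ε' * (((w⁻¹ : Eˣ) : E) ^ 2 * y v) := by
      intro v
      have h1 := hz1 (((w⁻¹ : Eˣ) : E) ^ 2 * v)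
      have e1 : (w : E) ^ 2 * (((w⁻¹ : Eˣ) : E) ^ 2 * v) = v := by
        rw [← mul_assoc, ← mul_pow, hww, one_pow, one_mul]
      rw [e1] at h1
      have e2 : ε * ε' * (ε * ε') = 1 := by
        rcases hε with rfl | rfl <;> rcases hε' with rfl | rfl <;> norm_num
      have e3 : ((w⁻¹ : Eˣ) : E) ^ 2 * (w : E) ^ 2 = 1 := by
        rw [← mul_pow, mul_comm _ (w : E), hww, one_pow]
      rw [h1]
      linear_combination (-(y (((w⁻¹ : Eˣ) : E) ^ 2 * v))) * e2 -
        (ε * ε' * (ε * ε') * y (((w⁻¹ : Eˣ) : E) ^ 2 * v)) * e3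
    have ht : ∀ v, y (((w : E) ^ 2 + ((w⁻¹ : Eˣ) : E) ^ 2) * v) =
        ε * ε' * (((w : E) ^ 2 + ((w⁻¹ : Eˣ) : E) ^ 2) * y v) := by
      intro v
      rw [add_mul, map_add, hz1, hz2]
      ring
    have hyc : ∀ a δ' : E, (∀ v, y (a * v) = δ' * (a * y v)) → ∀ c,
        D.co (y : Module.End F E) c * (D.σ c a - δ' * a) = 0 := by
      intro a δ' h c
      have h1 : (y : Module.End F E) * M F a = M F (δ' * a) * (y : Module.End F E) := by
        apply LinearMap.ext
        intro v
        show y (a * v) = δ' * a * y v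
        rw [h v]
        ring
      have h2 := congrArg (fun Y => D.co Y c) h1
      simp only [D.co_mul_M, D.co_M_mul] at h2
      linear_combination h2
    have hyne : (y : Module.End F E) ≠ 0 := by
      intro h
      have h1 := LinearMap.congr_fun h (y.symm 1)
      have h2 : y (y.symm 1) = 0 := h1
      rw [y.apply_symm_apply] at h2
      exact one_ne_zero h2
    -- mixed signs are impossible
    have hεε : ε = ε' := by
      by_contra hne
      have e1 : ε * ε' = -1 := by
        rcases hε with rfl | rfl <;> rcases hε' with rfl | rfl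
        · exact absurd rfl hne
        · norm_num
        · norm_num
        · exact absurd rfl hne
      apply hyne
      apply D.ext_co
      intro c
      rw [D.co_zero]
      have h1 := hyc _ _ ht c
      rw [e1] at h1
      rcases mul_eq_zero.1 h1 with h2 | h2
      · exact h2
      · exfalso
        apply hneg c
        linear_combination h2
    subst hεε
    have e1 : ε * ε = 1 := by rcases hε with rfl | rfl <;> norm_num
    rw [e1] at ht hz1
    have hy0 : ∀ c, c ≠ 0 → D.co (y : Module.End F E) c = 0 := by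
      intro c hc
      by_cases hcr : c = (D.r : ZMod (2 * D.r))
      · have h1 := hyc _ _ hz1 c
        rcases mul_eq_zero.1 h1 with h2 | h2
        · exact h2
        · exfalso
          rw [hcr, ← D.bar_eq, map_pow, hbw, one_mul] at h2
          -- `w⁻² = w²`
          have h3 : (w : E) ^ 2 * (w : E) ^ 2 = 1 := by
            have h4 : ((w⁻¹ : Eˣ) : E) ^ 2 = (w : E) ^ 2 := sub_eq_zero.1 h2
            calc (w : E) ^ 2 * (w : E) ^ 2 = (w : E) ^ 2 * ((w⁻¹ : Eˣ) : E) ^ 2 := by rw [h4]
              _ = 1 := by rw [← mul_pow, hww, one_pow]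
          have h5 : ((w : E) ^ 2 - 1) * ((w : E) ^ 2 + 1) = 0 := by linear_combination h3
          rcases mul_eq_zero.1 h5 with h6 | h6
          · exact hw2 (sub_eq_zero.1 h6)
          · have h7 : (w : E) ^ 2 = -1 := eq_neg_of_add_eq_zero_left h6
            have h8 : ((w⁻¹ : Eˣ) : E) ^ 2 = -1 := by rw [sub_eq_zero.1 h2, h7]
            have h9 := hgen 1 (by rw [h7, h8, map_add, map_neg, map_one])
            rcases h9 with h9 | h9
            · exact D.zr_ne.1 h9
            · exact D.zr_ne.2 h9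
      · have h1 := hyc _ _ ht c
        rw [one_mul] at h1
        rcases mul_eq_zero.1 h1 with h2 | h2
        · exact h2
        · exfalso
          rcases hgen c (sub_eq_zero.1 h2) with h3 | h3
          · exact hc h3
          · exact hcr h3
    obtain ⟨p, hp⟩ : ∃ p : E, ∀ v, y v = p * v := by
      refine ⟨D.co (y : Module.End F E) 0, fun v => ?_⟩
      have h1 : (y : Module.End F E) = M F (D.co (y : Module.End F E) 0) := by
        apply D.ext_co
        intro c
        rw [D.co_M]
        split_ifs with h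
        · rw [h]
        · exact hy0 c h
      exact LinearMap.congr_fun h1 v
    have hpp : p = ε * D.bar p := by
      have h1 := hA 1
      rw [hp, hp, map_one, mul_one, mul_one] at h1
      apply mul_right_cancel₀ hn0
      linear_combination h1
    have hpb : p * D.bar p = 1 := by
      have h1 : ∀ v, D.B (p * D.bar p - 1) v = 0 := by
        intro v
        have h2 := hyG 1 v
        rw [hp, hp, D.B_apply, D.B_apply, map_mul D.bar] at h2
        rw [D.B_apply]
        have h3 : D.δ * (p * D.bar p - 1) * D.bar v =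
            D.δ * (p * 1) * (D.bar p * D.bar v) - D.δ * 1 * D.bar v := by ring
        rw [h3, map_sub, h2, sub_self]
      have h2 := D.B_nondeg h1
      exact sub_eq_zero.1 h2
    have hfin : p = 1 ∨ p = -1 := by
      rcases hε with rfl | rfl
      · rw [one_mul] at hpp
        rw [← hpp] at hpb
        have h1 : (p - 1) * (p + 1) = 0 := by linear_combination hpb
        rcases mul_eq_zero.1 h1 with h2 | h2
        · exact Or.inl (sub_eq_zero.1 h2)
        · exact Or.inr (eq_neg_of_add_eq_zero_left h2)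
      · exfalso
        have h1 : D.bar p = -p := by linear_combination hpp
        have h2 : p * p = -1 := by
          rw [h1] at hpb
          linear_combination -hpb
        have h3 : fr F E p * fr F E p = -1 := by rw [← map_mul, h2, map_neg, map_one]
        have h4 : (fr F E p - p) * (fr F E p + p) = 0 := by linear_combination h3 - h2
        have h5 : D.bar p = p := by
          apply D.bar_of_fr hr
          rcases mul_eq_zero.1 h4 with h | h
          · exact Or.inl (sub_eq_zero.1 h)
          · exact Or.inr (eq_neg_of_add_eq_zero_left h)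
        have h6 : 2 * p = 0 := by linear_combination h1 - h5
        rcases mul_eq_zero.1 h6 with h | h
        · exact h2E h
        · rw [h] at h2
          norm_num at h2
    rcases hfin with h | h
    · left
      intro v
      have h1 := hyv (th.symm v)
      rw [hp, h, one_mul, th.apply_symm_apply] at h1
      exact h1.symm
    · right
      intro v
      have h1 := hyv (th.symm v)
      rw [hp, h, neg_one_mul, map_neg, th.apply_symm_apply] at h1
      exact h1.symm

end Dat

end Pool.Agent.H32.UD
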