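import Pool.Agent.H32.UD.Dim0
import Pool.Agent.H32.UD.Adj

/-!
# UD.Dim : the dimension of the Lie algebra

PROOF. By `mem_iff` an element of `𝔤` is given by: `co X 0 ∈ Em` (`bar_co_zero`), and free `co X c ∈ E` for one `c` from each pair `{c, -c}`, `c ≠ 0, r` (choose `c = 1, .., r - 1`), and at `c = r`: free in `E` if `r` is odd (the condition `co = -(sg r • σ r (bar co)) = co` is empty since `sg r = -1`, `σ (-r) = σ r = bar`), zero if `r` is even (`co_r_even`).
So the dimension is `r + 2 r (r - 1) + (2 r or 0) = nn r`. Build a linear equivalence `𝔤 ≃ Em × (Fin (r-1) → E) (× E)`, inverse `(e, a, a') ↦ M e + ∑ S (i+1) (a i) + (1/2) S r a'` (`ext_co`, `co_S`), or prove both inequalities with injective maps.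
-/

set_option autoImplicit false
set_option linter.unusedSectionVars false

namespace Pool.Agent.H32.UD

open Module

namespace Dat

variable {F E : Type} [Field F] [Field E] [Algebra F E] (D : Dat F E) [Finite F] [Finite E]

private theorem dim_cast_ne (m : ℕ) (h0 : 0 < m) (h1 : m < 2 * D.r) :
    ((m : ℕ) : ZMod (2 * D.r)) ≠ 0 := by
  rw [Ne, ZMod.natCast_eq_zero_iff]
  intro h
  have := Nat.le_of_dvd h0 h
  omega

private theorem dim_cast_inj (m k : ℕ) (h0 : m < 2 * D.r) (h1 : k < 2 * D.r)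
    (h : ((m : ℕ) : ZMod (2 * D.r)) = (k : ZMod (2 * D.r))) : m = k := by
  have h2 := congrArg ZMod.val h
  rwa [ZMod.val_natCast_of_lt h0, ZMod.val_natCast_of_lt h1] at h2

private theorem dim_cast_add (m k : ℕ) (h0 : 0 < m + k) (h1 : m + k < 2 * D.r) :
    ((m : ℕ) : ZMod (2 * D.r)) ≠ -(k : ZMod (2 * D.r)) := by
  intro h
  have h2 : ((m + k : ℕ) : ZMod (2 * D.r)) = 0 := by
    rw [Nat.cast_add, h, neg_add_cancel]
  exact D.dim_cast_ne (m + k) h0 h1 h2

open Classical in
/-- the possible values at `c = r` -/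
private noncomputable def dimQ : Submodule F E := if Odd D.r then ⊤ else ⊥

private theorem dim_finrank_Q : finrank F D.dimQ = if Even D.r then 0 else 2 * D.r := by
  unfold dimQ
  by_cases h : Odd D.r
  · rw [if_pos h, if_neg (Nat.not_even_iff_odd.2 h), finrank_top, D.fin]
  · rw [if_neg h, if_pos (Nat.not_odd_iff_even.1 h), finrank_bot]

private theorem dim_memQ {X : Module.End F E} (hX : X ∈ D.𝔤) :
    D.co X (D.r : ZMod (2 * D.r)) ∈ D.dimQ := by
  unfold dimQ
  by_cases h : Odd D.r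
  · rw [if_pos h]
    exact Submodule.mem_top
  · rw [if_neg h, Submodule.mem_bot]
    exact D.co_r_even hX (Nat.not_odd_iff_even.1 h)

/-- the coordinates -/
private noncomputable def dimF : D.𝔤 →ₗ[F] D.Em × (Fin (D.r - 1) → E) × D.dimQ where
  toFun X := (⟨D.co X.1 0, D.bar_co_zero X.2⟩,
    fun i => D.co X.1 (((i : ℕ) + 1 : ℕ) : ZMod (2 * D.r)), ⟨D.co X.1 (D.r : ZMod (2 * D.r)), D.dim_memQ X.2⟩)
  map_add' X Y := by
    refine Prod.ext (Subtype.ext ?_) (Prod.ext (funext fun i => ?_) (Subtype.ext ?_))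
    · exact D.co_add _ _ _
    · exact D.co_add _ _ _
    · exact D.co_add _ _ _
  map_smul' a X := by
    refine Prod.ext (Subtype.ext ?_) (Prod.ext (funext fun i => ?_) (Subtype.ext ?_))
    · exact D.co_smul _ _ _
    · exact D.co_smul _ _ _
    · exact D.co_smul _ _ _

private theorem dim_inj : Function.Injective D.dimF := by
  rw [injective_iff_map_eq_zero]
  rintro ⟨X, hX⟩ h0
  have h1 : D.co X 0 = 0 := congrArg (fun t => (t.1 : E)) h0
  have h2 : ∀ i : Fin (D.r - 1), D.co X (((i : ℕ) + 1 : ℕ) : ZMod (2 * D.r)) = 0 := fun i =>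
    congrFun (congrArg (fun t => t.2.1) h0) i
  have h3 : D.co X (D.r : ZMod (2 * D.r)) = 0 := congrArg (fun t => (t.2.2 : E)) h0
  have h4 : ∀ m : ℕ, 0 < m → m < D.r → D.co X (m : ZMod (2 * D.r)) = 0 := by
    intro m hm hm'
    have := h2 ⟨m - 1, by omega⟩
    rwa [show ((⟨m - 1, by omega⟩ : Fin (D.r - 1)) : ℕ) + 1 = m by simp only; omega] at this
  apply Subtype.ext
  change X = 0
  apply D.ext_co
  intro c
  rw [D.co_zero]
  have hc : c = ((c.val : ℕ) : ZMod (2 * D.r)) := (ZMod.natCast_zmod_val c).symm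
  have hlt := ZMod.val_lt c
  rcases Nat.eq_zero_or_pos c.val with h5 | h5
  · rw [hc, h5, Nat.cast_zero]
    exact h1
  · rcases lt_trichotomy c.val D.r with h6 | h6 | h6
    · rw [hc]
      exact h4 _ h5 h6
    · rw [hc, h6]
      exact h3
    · have h7 := h4 (2 * D.r - c.val) (by omega) (by omega)
      have h8 : c = -((2 * D.r - c.val : ℕ) : ZMod (2 * D.r)) := by
        rw [eq_neg_iff_add_eq_zero]
        conv_lhs => rw [hc]
        rw [ZMod.val_natCast_of_lt hlt, ← Nat.cast_add, show c.val + (2 * D.r - c.val) = 2 * D.r by omega]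
        exact ZMod.natCast_self _
      rw [h8, (D.mem_iff X).1 hX, h7]
      simp

private theorem dim_surj : Function.Surjective D.dimF := by
  rintro ⟨⟨e, he⟩, a, ⟨a', ha'⟩⟩
  have hr := D.four_le
  have h2 : (2 : F) ≠ 0 := D.two_ne
  set X : Module.End F E := M F e + ∑ i : Fin (D.r - 1),
    D.S (((i : ℕ) + 1 : ℕ) : ZMod (2 * D.r)) (a i) + (2 : F)⁻¹ • D.S (D.r : ZMod (2 * D.r)) a' with hXd
  have hX : X ∈ D.𝔤 := by
    rw [hXd]
    refine add_mem (add_mem (D.M_mem_𝔤 he) (sum_mem fun i _ => D.S_mem _ _)) ?_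
    exact D.𝔤.smul_mem _ (D.S_mem _ _)
  have hco_sum : ∀ (f : Fin (D.r - 1) → Module.End F E) (c : ZMod (2 * D.r)),
      D.co (∑ i, f i) c = ∑ i, D.co (f i) c := by
    intro f c
    have h := map_sum (AddMonoidHom.mk' (fun Y : Module.End F E => D.co Y c)
      (fun Y Z => D.co_add Y Z c)) f Finset.univ
    exact h
  have hco : ∀ c, D.co X c = (if c = 0 then e else 0) +
      ∑ i : Fin (D.r - 1), ((if c = (((i : ℕ) + 1 : ℕ) : ZMod (2 * D.r)) then a i else 0) -
        (if c = -(((i : ℕ) + 1 : ℕ) : ZMod (2 * D.r)) then D.sg (((i : ℕ) + 1 : ℕ) : ZMod (2 * D.r)) •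
          D.σ (-(((i : ℕ) + 1 : ℕ) : ZMod (2 * D.r))) (D.bar (a i)) else 0)) +
      (2 : F)⁻¹ • ((if c = (D.r : ZMod (2 * D.r)) then a' else 0) -
        (if c = -(D.r : ZMod (2 * D.r)) then D.sg (D.r : ZMod (2 * D.r)) •
          D.σ (-(D.r : ZMod (2 * D.r))) (D.bar a') else 0)) := by
    intro c
    rw [hXd, D.co_add, D.co_add, D.co_M, hco_sum, D.co_smul, D.co_S]
    congr 2
    exact Finset.sum_congr rfl fun i _ => D.co_S _ _ _
  refine ⟨⟨X, hX⟩, Prod.ext (Subtype.ext ?_) (Prod.ext (funext fun j => ?_) (Subtype.ext ?_))⟩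
  · change D.co X 0 = e
    rw [hco, if_pos rfl, if_neg (D.r_ne_zero).symm, D.neg_r, if_neg (D.r_ne_zero).symm, sub_zero,
      smul_zero, add_zero, Finset.sum_eq_zero, add_zero]
    intro i _
    have hi := i.2
    have h3 := D.dim_cast_ne ((i : ℕ) + 1) (by omega) (by omega)
    rw [if_neg h3.symm, if_neg (fun h => h3 (neg_eq_zero.1 h.symm)), sub_zero]
  · change D.co X (((j : ℕ) + 1 : ℕ) : ZMod (2 * D.r)) = a j
    have hj := j.2
    have h3 := D.dim_cast_ne ((j : ℕ) + 1) (by omega) (by omega)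
    have h4 : (((j : ℕ) + 1 : ℕ) : ZMod (2 * D.r)) ≠ (D.r : ZMod (2 * D.r)) := by
      intro h
      have := D.dim_cast_inj _ _ (by omega) (by omega) h
      omega
    rw [hco, if_neg h3, D.neg_r, if_neg h4, if_neg h4, sub_zero, smul_zero, add_zero, zero_add,
      Finset.sum_eq_single j]
    · rw [if_pos rfl, if_neg (D.dim_cast_add _ _ (by omega) (by omega)), sub_zero]
    · intro i _ hij
      have hi := i.2
      rw [if_neg, if_neg (D.dim_cast_add _ _ (by omega) (by omega)), sub_zero]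
      intro h
      have := D.dim_cast_inj _ _ (by omega) (by omega) h
      exact hij (Fin.ext (by omega))
    · intro h
      exact absurd (Finset.mem_univ j) h
  · change D.co X (D.r : ZMod (2 * D.r)) = a'
    rw [hco, if_neg D.r_ne_zero, D.neg_r, if_pos rfl, if_pos rfl, zero_add, Finset.sum_eq_zero, zero_add]
    · have h5 : D.σ (D.r : ZMod (2 * D.r)) (D.bar a') = a' := by
        rw [← D.bar_eq, D.bar_bar]
      rw [h5, D.sg_r]
      by_cases h : Odd D.r
      · rw [h.neg_one_pow, neg_one_smul, sub_neg_eq_add, ← two_smul F a', smul_smul,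
          inv_mul_cancel₀ h2, one_smul]
      · unfold dimQ at ha'
        rw [if_neg h, Submodule.mem_bot] at ha'
        rw [ha']
        simp
    · intro i _
      have hi := i.2
      rw [if_neg, if_neg (D.dim_cast_add _ _ (by omega) (by omega)), sub_zero]
      intro h
      have := D.dim_cast_inj _ _ (by omega) (by omega) h
      omega

theorem dim_𝔤 : finrank F D.𝔤 = nn D.r := by
  have h1 := (LinearEquiv.ofBijective D.dimF ⟨D.dim_inj, D.dim_surj⟩).finrank_eq
  rw [h1, finrank_prod, finrank_prod, D.dim_Em, finrank_pi_fintype, D.dim_finrank_Q]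
  simp only [D.fin, Finset.sum_const, Finset.card_univ, Fintype.card_fin, smul_eq_mul]
  have hr := D.four_le
  unfold nn
  obtain ⟨k, hk⟩ : ∃ k, D.r = k + 1 := ⟨D.r - 1, by omega⟩
  rw [hk]
  simp only [Nat.add_sub_cancel]
  by_cases h : Even (k + 1)
  · rw [if_pos h, if_pos h]
    have : 2 * (k + 1) ^ 2 = (k + 1 + (k * (2 * (k + 1)) + 0)) + (k + 1) := by ring
    omega
  · rw [if_neg h, if_neg h]
    ring

end Dat

end Pool.Agent.H32.UD
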