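import Pool.Agent.H32.UD.Ct
import Pool.Agent.H32.UD.Dim

/-!
# UD.Upp : upper bound for the order of `G`

PROOF. `upper`: `pmap_card` with `V = W = End_F E`, `P X = (adjoint of X) * X - 1` (the adjoint `star` with respect to `B` is `F`-linear: `LinearMap.BilinForm.leftAdjointOfNondegenerate` or the formula of UD.Adj), degree `2`, derivative `Y ↦ star Y X + star X Y`. At `g ∈ G` (`star g = g⁻¹`): the kernel of the derivative is `g 𝔤` (`Y = g Z`: `star Z + Z`), so the rank is
`(2r)^2 - nn r`, and `card G ≤ C q^(nn r)`.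
-/

set_option autoImplicit false

namespace Pool.Agent.H32.UD

open Module

namespace Dat

variable {F E : Type} [Field F] [Field E] [Algebra F E] (D : Dat F E) [Finite F] [Finite E]

include D in
private theorem upp_fin : FiniteDimensional F E := by
  apply FiniteDimensional.of_finrank_pos
  rw [D.fin]
  have := D.four_le
  omega

private theorem upp_inj : Function.Injective D.B.flip := by
  rw [injective_iff_map_eq_zero]
  intro y hy
  apply D.B_nondeg'
  intro x
  have := LinearMap.congr_fun hy x
  simpa using this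

private theorem upp_star : ∃ st : Module.End F E →ₗ[F] Module.End F E,
    ∀ X x y, D.B (X x) y = D.B x (st X y) := by
  haveI := D.upp_fin
  let Φ : E ≃ₗ[F] Module.Dual F E := LinearMap.linearEquivOfInjective D.B.flip D.upp_inj
    (Subspace.dual_finrank_eq (K := F) (V := E)).symm
  have hΦ : ∀ x y, Φ y x = D.B x y := fun x y => rfl
  refine ⟨{ toFun := fun X => Φ.symm.toLinearMap ∘ₗ (Module.Dual.transpose (R := F) X) ∘ₗ Φ.toLinearMap
            map_add' := ?_
            map_smul' := ?_ }, ?_⟩
  · intro X Y
    ext x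
    simp
  · intro c X
    ext x
    simp
  · intro X x y
    rw [← hΦ x]
    simp only [LinearMap.coe_mk, AddHom.coe_mk, LinearMap.comp_apply, LinearEquiv.coe_coe,
      LinearEquiv.apply_symm_apply, Module.Dual.transpose_apply]
    exact (hΦ _ _).symm

/-- the derivative at `g` -/
private noncomputable def uppL (st : Module.End F E →ₗ[F] Module.End F E) (g : Module.End F E) :
    Module.End F E →ₗ[F] Module.End F E where
  toFun Y := st Y * g + st g * Y
  map_add' := by intro a b; simp only [map_add]; noncomm_ring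
  map_smul' := by
    intro c a
    simp only [map_smul, smul_mul_assoc, mul_smul_comm, RingHom.id_apply, smul_add]

private theorem upp_rank {st : Module.End F E →ₗ[F] Module.End F E}
    (hst : ∀ X x y, D.B (X x) y = D.B x (st X y)) {g : E ≃ₗ[F] E} (hg : g ∈ D.G) :
    (2 * D.r) ^ 2 - nn D.r ≤ finrank F (LinearMap.range (uppL st (g : Module.End F E))) := by
  haveI := D.upp_fin
  have hsg : st (g : Module.End F E) * (g : Module.End F E) = 1 := by
    ext y
    rw [← sub_eq_zero]
    apply D.B_nondeg'
    intro x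
    rw [map_sub, Module.End.mul_apply, ← hst]
    have := hg x y
    show D.B (g x) (g y) - D.B x y = 0
    rw [this, sub_self]
  have hgg : ∀ Y : Module.End F E, (g : Module.End F E) * (((g⁻¹ : E ≃ₗ[F] E) : Module.End F E) * Y) = Y := by
    intro Y
    ext x
    show g ((g⁻¹ : E ≃ₗ[F] E) (Y x)) = Y x
    rw [← LinearEquiv.mul_apply, mul_inv_cancel]
    rfl
  have hmul : ∀ X Y, st (X * Y) = st Y * st X := by
    intro X Y
    ext y
    rw [← sub_eq_zero]
    apply D.B_nondeg'
    intro x
    rw [map_sub, ← hst, Module.End.mul_apply, Module.End.mul_apply, ← hst, ← hst, sub_self]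
  have hker : ∀ Y ∈ LinearMap.ker (uppL st (g : Module.End F E)),
      ((g⁻¹ : E ≃ₗ[F] E) : Module.End F E) * Y ∈ D.𝔤 := by
    intro Y hY
    rw [LinearMap.mem_ker] at hY
    have hY' : st Y * (g : Module.End F E) + st (g : Module.End F E) * Y = 0 := hY
    set Z := ((g⁻¹ : E ≃ₗ[F] E) : Module.End F E) * Y with hZ
    have hYZ : Y = (g : Module.End F E) * Z := (hgg Y).symm
    rw [hYZ, hmul, mul_assoc, hsg, mul_one, ← mul_assoc, hsg, one_mul] at hY'
    intro x y
    rw [hst Z x y, ← map_add, ← LinearMap.add_apply, hY']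
    simp
  have h1 : finrank F (LinearMap.ker (uppL st (g : Module.End F E))) ≤ finrank F D.𝔤 := by
    let f : LinearMap.ker (uppL st (g : Module.End F E)) →ₗ[F] D.𝔤 :=
      { toFun := fun Y => ⟨((g⁻¹ : E ≃ₗ[F] E) : Module.End F E) * (Y : Module.End F E), hker Y Y.2⟩
        map_add' := by intro a b; ext1; simp [mul_add]
        map_smul' := by intro c a; ext1; simp }
    refine LinearMap.finrank_le_finrank_of_injective (f := f) ?_
    intro a b hab
    have h2 : ((g⁻¹ : E ≃ₗ[F] E) : Module.End F E) * (a : Module.End F E) =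
        ((g⁻¹ : E ≃ₗ[F] E) : Module.End F E) * (b : Module.End F E) := congrArg Subtype.val hab
    apply Subtype.ext
    rw [← hgg a, h2, hgg]
  have h3 := LinearMap.finrank_range_add_finrank_ker (uppL st (g : Module.End F E))
  have h5 : finrank F (Module.End F E) = finrank F E * finrank F E := Module.finrank_linearMap F F E E
  rw [h5, D.fin, ← sq] at h3
  rw [D.dim_𝔤] at h1
  omega

end Dat

theorem upper (r : ℕ) : ∃ C : ℕ, ∀ (F E : Type) [Field F] [Field E] [Algebra F E] [Finite F] [Finite E]
    (D : Dat F E), D.r = r → Nat.card D.G ≤ C * Nat.card F ^ nn r := by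
  obtain ⟨C, hC⟩ := pmap_card ((2 * r) ^ 2) ((2 * r) ^ 2) ((2 * r) ^ 2 - nn r) 2
  refine ⟨C, ?_⟩
  intro F E _ _ _ _ _ D hr
  subst hr
  haveI := D.upp_fin
  obtain ⟨st, hst⟩ := D.upp_star
  have hd : finrank F (Module.End F E) = (2 * D.r) ^ 2 := by
    have h5 : finrank F (Module.End F E) = finrank F E * finrank F E := Module.finrank_linearMap F F E E
    rw [h5, D.fin, ← sq]
  have hP := ((PMap.lin st).mul (PMap.lin (LinearMap.id : Module.End F E →ₗ[F] Module.End F E))).sub
    ((PMap.const (F := F) (V := Module.End F E) (1 : Module.End F E)).mono (Nat.zero_le (1 + 1)))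
  have h := hC F (Module.End F E) (Module.End F E) _ _ hd hd hP
  have hle : nn D.r ≤ (2 * D.r) ^ 2 := by
    have h4 := D.four_le
    unfold nn
    split_ifs <;> nlinarith [Nat.sub_le (2 * D.r ^ 2) D.r]
  rw [Nat.sub_sub_self hle] at h
  refine le_trans ?_ h
  haveI : Finite (Module.End F E) := Module.finite_of_finite F
  have hz : ∀ g ∈ D.G, st (g : Module.End F E) * (g : Module.End F E) - 1 = 0 := by
    intro g hg
    ext y
    apply D.B_nondeg'
    intro x
    rw [LinearMap.sub_apply, map_sub, Module.End.mul_apply, ← hst]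
    have := hg x y
    show D.B (g x) (g y) - D.B x y = 0
    rw [this, sub_self]
  refine Nat.card_le_card_of_injective (fun g : D.G => ⟨((g : E ≃ₗ[F] E) : Module.End F E), ?_, ?_⟩) ?_
  · exact hz g g.2
  · refine (D.upp_rank hst g.2).trans ?_
    apply Submodule.finrank_mono
    rintro _ ⟨Y, rfl⟩
    apply Submodule.subset_span
    refine ⟨Y, ?_⟩
    simp [Dat.uppL]
  · intro a b hab
    have h1 := congrArg Subtype.val hab
    apply Subtype.ext
    apply LinearEquiv.toLinearMap_injective
    exact h1

end Pool.Agent.H32.UD
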