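import Pool.Agent.H32.UD.Low
import Pool.Agent.H32.UD.Upp
import Pool.Agent.H32.UD.Bad
import Pool.Agent.H32.UD.HasT
import Pool.Agent.H32.UD.TwoA
import Pool.Agent.H32.UD.TwoB
import Pool.Agent.H32.UD.CntA
import Pool.Agent.H32.UD.CntB

/-!
# UD.Com : the commutator subgroup has order at least `q^(nn r) / C`

PROOF. `exists_triv`: for every prime `p ∣ 2 r` there is `g ∈ G` with `Triv p p g` if `q` is large: for `p ≠ 2` by `bad_small` (the bad elements of `Gc` are less than `card Gc` if `q > C`; `Gc ≤ G`); for `p = 2`: choose `j ≠ 0` with `fr j = - j` (`exists_j`); odd `r`: `cntA` gives an admissible `β`, `two_odd`; even `r`: `cntB`, `exists_th`, `two_even`.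
`exists_j`: the fixed field of `fr²` is bigger than the fixed field of `fr` (`σ_inj`: `fr ≠ 1` on it; e.g. it is `x ↦ x^(q²) = x` with `q²` solutions since `2 ∣ 2 r`), take `j = x - fr x`. Let `H = ⁅G, G⁆`, `H ≤ G`, `HasT H` (`hasT_comm`). If all `h ∈ H` satisfy `Nor p h`, take `g ∈ G` with `Triv p p g`; `H` is normal in `G`, so for `x ∈ H` also `g⁻¹ x g ∈ H`,
`Nor p x`, `Nor p (g⁻¹ x g)`, so `x = ± 1`: contradiction to `not_pm`. So by `dichotomy` `Wsp H = 𝔤` and `lower` gives the bound.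
-/

set_option autoImplicit false

namespace Pool.Agent.H32.UD

open Module
open scoped commutatorElement

theorem exists_j {F E : Type} [Field F] [Field E] [Algebra F E] [Finite F] [Finite E] (D : Dat F E) :
    ∃ j : E, fr F E j = -j ∧ j ≠ 0 := by
  have hord : orderOf (fr F E) = 2 * D.r := by rw [orderOf_fr, D.fin]
  have hr := D.four_le
  have hli := linearIndependent_monoidHom E E
  let χ : Fin (2 * D.r) → (E →* E) := fun i => MonoidHomClass.toMonoidHom (fr F E ^ (i : ℕ))
  have hχ : Function.Injective χ := by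
    intro i k h
    have h1 : fr F E ^ (i : ℕ) = fr F E ^ (k : ℕ) := by
      ext x
      exact DFunLike.congr_fun h x
    have h2 := pow_injOn_Iio_orderOf (x := fr F E) (by rw [Set.mem_Iio, hord]; exact i.2)
      (by rw [Set.mem_Iio, hord]; exact k.2) h1
    exact Fin.ext h2
  have hli2 := hli.comp χ hχ
  rw [Fintype.linearIndependent_iff] at hli2
  by_contra hno
  push Not at hno
  have key : ∀ y : E, ∑ i ∈ Finset.range (2 * D.r), (-1 : E) ^ i * (fr F E ^ i) y = 0 := by
    intro y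
    apply hno
    rw [map_sum]
    have e1 : ∀ i, fr F E ((-1 : E) ^ i * (fr F E ^ i) y) = -((-1 : E) ^ (i + 1) * (fr F E ^ (i + 1)) y) := by
      intro i
      rw [map_mul, map_pow, map_neg, map_one, pow_succ' (fr F E) i, AlgEquiv.mul_apply]
      ring
    rw [Finset.sum_congr rfl fun i _ => e1 i, Finset.sum_neg_distrib]
    congr 1
    have e2 := Finset.sum_range_succ (fun i => (-1 : E) ^ i * (fr F E ^ i) y) (2 * D.r)
    have e3 := Finset.sum_range_succ' (fun i => (-1 : E) ^ i * (fr F E ^ i) y) (2 * D.r)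
    have e4 : (-1 : E) ^ (2 * D.r) * (fr F E ^ (2 * D.r)) y = (-1 : E) ^ 0 * (fr F E ^ 0) y := by
      rw [D.fr_pow, pow_mul, pow_zero, pow_zero]
      simp
    rw [e2] at e3
    rw [e4] at e3
    exact (add_right_cancel e3).symm
  have h0 := hli2 (fun i => (-1 : E) ^ (i : ℕ)) (by
    funext y
    have := key y
    rw [Finset.sum_range] at this
    rw [Finset.sum_apply]
    exact this) ⟨0, by omega⟩
  simp at h0

theorem exists_triv (r : ℕ) : ∃ q0 : ℕ, ∀ (F E : Type) [Field F] [Field E] [Algebra F E] [Finite F]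
    [Finite E] (D : Dat F E), D.r = r → q0 ≤ Nat.card F → ∀ p : ℕ, p.Prime → p ∣ 2 * r →
    ∃ g ∈ D.G, D.Triv p p g := by
  obtain ⟨C, q1, hbad⟩ := bad_small r
  have h2 : ∃ q2 : ℕ, ∀ (F E : Type) [Field F] [Field E] [Algebra F E] [Finite F]
      [Finite E] (D : Dat F E), D.r = r → q2 ≤ Nat.card F → ∃ g ∈ D.G, D.Triv 2 2 g := by
    by_cases hr4 : 4 ≤ r
    · rcases Nat.even_or_odd r with hev | hod
      · obtain ⟨q2, hq2⟩ := cntB r hr4 hev
        refine ⟨q2, ?_⟩
        intro F E _ _ _ _ _ D hD hq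
        have h := hq2 F E D hD hq
        have hpos : 0 < Nat.card {w : Eˣ // D.AdmB w} := by
          have : 0 < Nat.card F ^ r := pow_pos Nat.card_pos _
          omega
        obtain ⟨w, hw⟩ := (Nat.card_pos_iff.1 hpos).1
        obtain ⟨th, hth, hthG⟩ := D.exists_th (hD ▸ hev)
        obtain ⟨v, hv, hwv⟩ := hw.1
        have hww : (w : E) * D.bar w = 1 := by
          rw [hwv, Units.val_pow_eq_pow_val, map_pow, ← mul_pow, hv, one_pow]
        have ht := D.two_even (hD ▸ hev) th hth w hww hw.2.1 hw.2.2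
        exact ⟨_, ht.1.1, ht.2⟩
      · obtain ⟨q2, hq2⟩ := cntA r hr4 hod
        refine ⟨q2, ?_⟩
        intro F E _ _ _ _ _ D hD hq
        obtain ⟨j, hj, hj0⟩ := exists_j D
        have h := hq2 F E D hD hq j hj hj0
        have hpos : 0 < Nat.card {β : E // D.AdmA j β} := by
          have : 0 < Nat.card F ^ r := pow_pos Nat.card_pos _
          omega
        obtain ⟨β, hβ⟩ := (Nat.card_pos_iff.1 hpos).1
        obtain ⟨g, _, hg, ht⟩ := D.two_odd (hD ▸ hod) j β hj hj0 hβ.1 hβ.2.1 hβ.2.2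
        exact ⟨g, hg.1, ht⟩
    · refine ⟨0, ?_⟩
      intro F E _ _ _ _ _ D hD hq
      exact absurd (hD ▸ D.four_le) hr4
  obtain ⟨q2, hq2⟩ := h2
  refine ⟨max (max q1 q2) (C + 1), ?_⟩
  intro F E _ _ _ _ _ D hD hq p hp hpr
  by_cases hp2 : p = 2
  · subst hp2
    exact hq2 F E D hD (le_trans (le_trans (le_max_right _ _) (le_max_left _ _)) hq)
  · have h := hbad F E D hD (le_trans (le_trans (le_max_left _ _) (le_max_left _ _)) hq) p p hp hp hpr hpr
      (fun h => hp2 h.1)
    by_contra hno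
    push Not at hno
    have e : Nat.card {g : E ≃ₗ[F] E // g ∈ D.Gc ∧ ¬ D.Triv p p g} = Nat.card D.Gc := by
      apply Nat.card_congr
      exact Equiv.subtypeEquivRight fun g => ⟨fun h => h.1, fun h => ⟨h, hno g (D.Gc_le h)⟩⟩
    rw [e] at h
    have : Finite (E ≃ₗ[F] E) := Finite.of_injective (fun g : E ≃ₗ[F] E => (g : E → E)) DFunLike.coe_injective
    have hpos : 0 < Nat.card D.Gc := Nat.card_pos
    have hCq : C + 1 ≤ Nat.card F := le_trans (le_max_right _ _) hq
    have : Nat.card D.Gc * (C + 1) ≤ C * Nat.card D.Gc := le_trans (Nat.mul_le_mul_left _ hCq) h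
    nlinarith

theorem comm_card (r : ℕ) : ∃ C q0 : ℕ, ∀ (F E : Type) [Field F] [Field E] [Algebra F E] [Finite F]
    [Finite E] (D : Dat F E), D.r = r → q0 ≤ Nat.card F →
    Nat.card F ^ nn r ≤ C * Nat.card (⁅D.G, D.G⁆ : Subgroup (E ≃ₗ[F] E)) := by
  obtain ⟨C, q1, hlow⟩ := lower r
  obtain ⟨q2, htr⟩ := exists_triv r
  refine ⟨C, max (max q1 q2) 10, ?_⟩
  intro F E _ _ _ _ _ D hD hq
  have hq10 : 10 ≤ Nat.card F := le_trans (le_max_right _ _) hq
  have hHG : ⁅D.G, D.G⁆ ≤ D.G := by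
    rw [Subgroup.commutator_le]
    intro a ha b hb
    exact D.G.mul_mem (D.G.mul_mem (D.G.mul_mem ha hb) (D.G.inv_mem ha)) (D.G.inv_mem hb)
  have hT : D.HasT ⁅D.G, D.G⁆ := D.hasT_comm
  rcases D.dichotomy hq10 _ hHG hT with hW | ⟨p, hp, hpr, hN⟩
  · exact hlow F E D hD (le_trans (le_trans (le_max_left _ _) (le_max_left _ _)) hq) _ hHG hT hW
  · exfalso
    rw [hD] at hpr
    obtain ⟨g, hg, ht⟩ := htr F E D hD (le_trans (le_trans (le_max_right _ _) (le_max_left _ _)) hq) p hp hpr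
    refine D.not_pm hq10 _ hT fun x hx => ht x (hHG hx) (hN x hx) (hN _ ?_)
    have h1 := Subgroup.commutator_mem_commutator (D.G.inv_mem hg) (hHG hx)
    have h2 := (⁅D.G, D.G⁆ : Subgroup (E ≃ₗ[F] E)).mul_mem h1 hx
    have e : ⁅g⁻¹, x⁆ * x = g⁻¹ * x * g := by
      rw [commutatorElement_def, inv_inv, inv_mul_cancel_right]
    rwa [e] at h2

end Pool.Agent.H32.UD
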