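import Pool.Agent.H32.UD.Pm

/-!
# UD.PmB : products of polynomial maps

PROOF. `mul`: let `c` be a basis of the finite dimensional algebra `A` with coordinates `c.coord i`; `ℓ (P Q) = ∑_{i,j} coord_i (P) coord_j (Q) ℓ (c_i c_j)`, product rule for `pderiv` (`Derivation.leibniz`), degrees add.
`listProd`: induction on `n` with `List.ofFn_succ` (`Function.update` of `Fin.cons`: the term `i = 0` replaces the head, the terms `i = j.succ` keep it; `Fin.sum_univ_succ`), `mul`, `const` for `n = 0`.
-/

set_option autoImplicit false

namespace Pool.Agent.H32.UD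

open Module

variable {F V : Type} [Field F] [AddCommGroup V] [Module F V]

section alg

variable {A : Type} [Ring A] [Algebra F A] [FiniteDimensional F A]

omit [FiniteDimensional F A] in
private lemma bil {n : ℕ} (c : Basis (Fin n) F A) (ℓ : A →ₗ[F] F) (u v : A) :
    ∑ i, ∑ j, ℓ (c i * c j) * (c.coord i u * c.coord j v) = ℓ (u * v) := by
  conv_rhs => rw [← c.sum_repr u, ← c.sum_repr v]
  rw [Finset.sum_mul_sum, map_sum]
  refine Finset.sum_congr rfl fun i _ => ?_
  rw [map_sum]
  refine Finset.sum_congr rfl fun j _ => ?_
  rw [smul_mul_smul_comm, map_smul, smul_eq_mul, Basis.coord_apply, Basis.coord_apply]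
  ring

theorem PMap.mul {d d' : ℕ} {P Q : V → A} {P' Q' : V → V → A} (hP : PMap F d P P') (hQ : PMap F d' Q Q') :
    PMap F (d + d') (fun x => P x * Q x) (fun x v => P' x v * Q x + P x * Q' x v) := by
  intro N b ℓ
  set c := Module.finBasis F A with hc
  choose p hp1 hp2 hp3 using fun i => hP N b (c.coord i)
  choose q hq1 hq2 hq3 using fun j => hQ N b (c.coord j)
  refine ⟨∑ i, ∑ j, MvPolynomial.C (ℓ (c i * c j)) * (p i * q j), ?_, ?_, ?_⟩
  · refine MvPolynomial.totalDegree_finsetSum_le fun i _ => ?_
    refine MvPolynomial.totalDegree_finsetSum_le fun j _ => ?_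
    refine (MvPolynomial.totalDegree_mul _ _).trans ?_
    rw [MvPolynomial.totalDegree_C, zero_add]
    exact (MvPolynomial.totalDegree_mul _ _).trans (Nat.add_le_add (hp1 i) (hq1 j))
  · intro x
    rw [← bil c ℓ (P x) (Q x), map_sum]
    refine Finset.sum_congr rfl fun i _ => ?_
    rw [map_sum]
    refine Finset.sum_congr rfl fun j _ => ?_
    rw [RingHom.map_mul, RingHom.map_mul, MvPolynomial.eval_C, hp2, hq2]
  · intro x v
    rw [map_add, ← bil c ℓ (P' x v) (Q x), ← bil c ℓ (P x) (Q' x v)]
    have e : ∀ t, MvPolynomial.eval (fun i => b.repr x i) (MvPolynomial.pderiv t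
        (∑ i, ∑ j, MvPolynomial.C (ℓ (c i * c j)) * (p i * q j))) =
        ∑ i, ∑ j, ℓ (c i * c j) * (MvPolynomial.eval (fun i => b.repr x i)
          (MvPolynomial.pderiv t (p i)) * c.coord j (Q x) + c.coord i (P x) *
          MvPolynomial.eval (fun i => b.repr x i) (MvPolynomial.pderiv t (q j))) := by
      intro t
      rw [map_sum, map_sum]
      refine Finset.sum_congr rfl fun i _ => ?_
      rw [map_sum, map_sum]
      refine Finset.sum_congr rfl fun j _ => ?_
      rw [MvPolynomial.pderiv_C_mul, RingHom.map_mul, MvPolynomial.eval_C, MvPolynomial.pderiv_mul,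
        RingHom.map_add, RingHom.map_mul, RingHom.map_mul, hp2, hq2]
    simp only [e]
    rw [← Finset.sum_add_distrib]
    simp only [Finset.mul_sum]
    rw [Finset.sum_comm]
    refine Finset.sum_congr rfl fun i _ => ?_
    rw [Finset.sum_comm, ← Finset.sum_add_distrib]
    refine Finset.sum_congr rfl fun j _ => ?_
    rw [← hp3 i x v, ← hq3 j x v, Finset.sum_mul, Finset.mul_sum, Finset.mul_sum, Finset.mul_sum,
      ← Finset.sum_add_distrib]
    refine Finset.sum_congr rfl fun t _ => ?_
    ring

theorem PMap.listProd (n d : ℕ) (P : Fin n → V → A) (P' : Fin n → V → V → A)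
    (hP : ∀ i, PMap F d (P i) (P' i)) :
    PMap F (n * d) (fun x => (List.ofFn fun i => P i x).prod)
      (fun x v => ∑ i, (List.ofFn (Function.update (fun j => P j x) i (P' i x v))).prod) := by
  induction n with
  | zero =>
    have h := PMap.const (F := F) (V := V) (1 : A)
    have h2 := h.mono (Nat.zero_le (0 * d))
    convert h2 using 2
    · simp
    · ext v
      simp
  | succ n ih =>
    have h1 := ih (fun i => P i.succ) (fun i => P' i.succ) (fun i => hP i.succ)
    have h2 := (hP 0).mul h1
    have h3 := h2.mono (show d + n * d ≤ (n + 1) * d by rw [Nat.succ_mul, Nat.add_comm])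
    convert h3 using 2 with x x
    · rw [List.ofFn_succ, List.prod_cons]
    · ext v
      rw [Fin.sum_univ_succ, Finset.mul_sum]
      congr 1
      · rw [List.ofFn_succ, List.prod_cons, Function.update_self]
        congr 3
      · refine Finset.sum_congr rfl fun i _ => ?_
        rw [List.ofFn_succ, List.prod_cons, Function.update_of_ne (Fin.succ_ne_zero i).symm]
        congr 3
        ext j
        by_cases hij : j = i
        · rw [hij, Function.update_self, Function.update_self]
        · rw [Function.update_of_ne hij, Function.update_of_ne (fun h => hij (Fin.succ_injective _ h))]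

end alg

end Pool.Agent.H32.UD
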