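import Pool.Agent.H32.UD.Rk
import Pool.Agent.H32.UD.PmB

/-!
# UD.Ct : counting zeros of polynomial maps at which the derivative has rank at least `ρ`

PROOF. Take `C` from `rank_zeros b a ρ d`. Choose bases `b : Basis (Fin a) F V` and `c : Basis (Fin b) F W` (`Module.finBasisOfFinrankEq`) and the polynomials `f_i` of the functionals `c.coord i`. `P x = 0` iff all `f_i (b.repr x) = 0`.
The matrix `J = (pderiv j f_i (x))` satisfies `J.mulVec (b.repr v) = c.repr (P' x v)`, so `c.repr` maps the span of the range of `P' x` onto the range of `J.mulVecLin` and the rank of `J` is `finrank (span (range (P' x)))`. The map `x ↦ b.repr x` is a bijection from `V` onto `Fin a → F`.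
-/

set_option autoImplicit false

namespace Pool.Agent.H32.UD

open Module

theorem pmap_card (a b ρ d : ℕ) : ∃ C : ℕ, ∀ (F V W : Type) [Field F] [Finite F] [AddCommGroup V]
    [Module F V] [FiniteDimensional F V] [AddCommGroup W] [Module F W] [FiniteDimensional F W]
    (P : V → W) (P' : V → V → W), finrank F V = a → finrank F W = b → PMap F d P P' →
    Nat.card {x : V // P x = 0 ∧ ρ ≤ finrank F (Submodule.span F (Set.range (P' x)))} ≤
      C * Nat.card F ^ (a - ρ) := by
  obtain ⟨C, hC⟩ := rank_zeros b a ρ d
  refine ⟨C, ?_⟩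
  intro F V W _ _ _ _ _ _ _ _ P P' hV hW hP
  let bV : Basis (Fin a) F V := Module.finBasisOfFinrankEq F V hV
  let bW : Basis (Fin b) F W := Module.finBasisOfFinrankEq F W hW
  choose f hf1 hf2 hf3 using fun i => hP a bV (bW.coord i)
  refine le_trans ?_ (hC F f hf1)
  have hmem : ∀ x : V, (P x = 0 ∧ ρ ≤ finrank F (Submodule.span F (Set.range (P' x)))) →
      (∀ i, MvPolynomial.eval (fun i => bV.repr x i) (f i) = 0) ∧
      ρ ≤ (Matrix.of fun i j => MvPolynomial.eval (fun i => bV.repr x i)
        (MvPolynomial.pderiv j (f i))).rank := by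
    intro x hx
    refine ⟨fun i => by rw [hf2, hx.1, map_zero], hx.2.trans ?_⟩
    set J : Matrix (Fin b) (Fin a) F := Matrix.of fun i j => MvPolynomial.eval (fun i => bV.repr x i)
        (MvPolynomial.pderiv j (f i)) with hJ
    let Φ : (Fin a → F) →ₗ[F] W := bW.equivFun.symm.toLinearMap ∘ₗ J.mulVecLin
    have hΦ : ∀ v : V, Φ (fun j => bV.repr v j) = P' x v := by
      intro v
      have h1 : J.mulVec (fun j => bV.repr v j) = bW.equivFun (P' x v) := by
        funext i
        have h2 := hf3 i x v
        rw [Basis.equivFun_apply]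
        rw [Basis.coord_apply] at h2
        rw [← h2, Matrix.mulVec, dotProduct]
        refine Finset.sum_congr rfl fun j _ => ?_
        rw [hJ, Matrix.of_apply, mul_comm]
      show bW.equivFun.symm (J.mulVecLin (fun j => bV.repr v j)) = P' x v
      rw [Matrix.mulVecLin_apply, h1, LinearEquiv.symm_apply_apply]
    have hle : Submodule.span F (Set.range (P' x)) ≤ LinearMap.range Φ := by
      rw [Submodule.span_le]
      rintro _ ⟨v, rfl⟩
      exact ⟨_, hΦ v⟩
    have h3 : LinearMap.range Φ = (LinearMap.range J.mulVecLin).map bW.equivFun.symm.toLinearMap :=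
      LinearMap.range_comp _ _
    calc finrank F (Submodule.span F (Set.range (P' x))) ≤ finrank F (LinearMap.range Φ) :=
          Submodule.finrank_mono hle
      _ ≤ finrank F (LinearMap.range J.mulVecLin) := by
          rw [h3]
          exact Submodule.finrank_map_le _ _
      _ = J.rank := rfl
  refine Nat.card_le_card_of_injective
    (fun x => ⟨fun i => bV.repr x.1 i, hmem x.1 x.2⟩) ?_
  intro x y hxy
  have h1 : (fun i => bV.repr x.1 i) = fun i => bV.repr y.1 i := congrArg Subtype.val hxy
  apply Subtype.ext
  apply bV.repr.injective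
  ext i
  exact congrFun h1 i

end Pool.Agent.H32.UD
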