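import Mathlib

/-!
# UD.Dbl : counting double cosets

PROOF. Consider `Φ : C × ι × C → G`, `(a, i, b) ↦ a h_i b`, with image the set `X` of the right side. Let `g = a₀ h_i b₀` be in the image. If `a h_i' b = g` then `h_i' = (a⁻¹ a₀) h_i (b₀ b⁻¹)`, so `i'` is one of at most `K` values (`h2`). For a fixed `i'`: if also `a' h_i' b' = g` then `h_i'⁻¹ (a⁻¹ a') h_i' = b b'⁻¹ ∈ C`,
so `y = a⁻¹ a' ∈ C` with `h_i'⁻¹ y h_i' ∈ C`: at most `2` values (`h1`), and `b'` is determined by `a'`. So every fibre has at most `2 K` elements and `card C ^ 2 * card ι ≤ 2 K card X`.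
-/

set_option autoImplicit false

namespace Pool.Agent.H32.UD

theorem double_coset {G : Type} [Group G] [Finite G] (C : Subgroup G) {ι : Type} [Finite ι] (h : ι → G) (K : ℕ)
    (h1 : ∀ i, Nat.card {y : G // y ∈ C ∧ (h i)⁻¹ * y * h i ∈ C} ≤ 2)
    (h2 : ∀ i, Nat.card {i' : ι // ∃ a ∈ C, ∃ b ∈ C, h i' = a * h i * b} ≤ K) :
    Nat.card ι * Nat.card C ^ 2 ≤ 2 * K * Nat.card {g : G // ∃ i, ∃ a ∈ C, ∃ b ∈ C, g = a * h i * b} := by
  classical
  have := Fintype.ofFinite G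
  have := Fintype.ofFinite ι
  set s : Finset (C × ι × C) := Finset.univ with hs
  set Φ : C × ι × C → G := fun p => (p.1 : G) * h p.2.1 * (p.2.2 : G) with hΦ
  have hc : s.card = Nat.card ι * Nat.card C ^ 2 := by
    rw [hs, Finset.card_univ, Fintype.card_prod, Fintype.card_prod, Nat.card_eq_fintype_card,
      Nat.card_eq_fintype_card]
    ring
  have himg : (s.image Φ).card ≤ Nat.card {g : G // ∃ i, ∃ a ∈ C, ∃ b ∈ C, g = a * h i * b} := by
    rw [Nat.card_eq_fintype_card, Fintype.card_subtype]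
    refine Finset.card_le_card fun g hg => ?_
    obtain ⟨p, -, rfl⟩ := Finset.mem_image.1 hg
    exact Finset.mem_filter.2 ⟨Finset.mem_univ _, p.2.1, p.1, p.1.2, p.2.2, p.2.2.2, rfl⟩
  have key : s.card ≤ (2 * K) * (s.image Φ).card := by
    refine Finset.card_le_mul_card_image _ _ fun g hg => ?_
    obtain ⟨p0, -, hp0⟩ := Finset.mem_image.1 hg
    have h3 : (s.filter fun p => Φ p = g).card ≤
        2 * ((s.filter fun p => Φ p = g).image fun p => p.2.1).card := by
      refine Finset.card_le_mul_card_image _ _ fun i' hi' => ?_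
      obtain ⟨p1, hp1, hp1i⟩ := Finset.mem_image.1 hi'
      have hp1g : (p1.1 : G) * h i' * (p1.2.2 : G) = g := by
        rw [← hp1i]
        exact (Finset.mem_filter.1 hp1).2
      refine le_trans ?_ (h1 i')
      rw [Nat.card_eq_fintype_card, Fintype.card_subtype]
      have hmem : ∀ p : C × ι × C, p ∈ (s.filter fun p => Φ p = g).filter (fun p => p.2.1 = i') →
          (p.1 : G) * h i' * (p.2.2 : G) = g ∧ p.2.1 = i' := by
        intro p hp
        obtain ⟨hp2, hp3⟩ := Finset.mem_filter.1 hp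
        refine ⟨?_, hp3⟩
        rw [← hp3]
        exact (Finset.mem_filter.1 hp2).2
      refine Finset.card_le_card_of_injOn (fun p => (p1.1 : G)⁻¹ * p.1) ?_ ?_
      · intro p hp
        obtain ⟨hp2, -⟩ := hmem p (Finset.mem_coe.1 hp)
        refine Finset.mem_coe.2 (Finset.mem_filter.2 ⟨Finset.mem_univ _, C.mul_mem (C.inv_mem p1.1.2) p.1.2, ?_⟩)
        have e : (h i')⁻¹ * ((p1.1 : G)⁻¹ * p.1) * h i' = (p1.2.2 : G) * (p.2.2 : G)⁻¹ := by
          have e1 : (p.1 : G) * h i' = (p1.1 : G) * h i' * (p1.2.2 : G) * (p.2.2 : G)⁻¹ := by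
            rw [hp1g, ← hp2]
            group
          have e2 : (h i')⁻¹ * ((p1.1 : G)⁻¹ * p.1) * h i' = (h i')⁻¹ * (p1.1 : G)⁻¹ * ((p.1 : G) * h i') := by
            group
          rw [e2, e1]
          group
        rw [e]
        exact C.mul_mem p1.2.2.2 (C.inv_mem p.2.2.2)
      · intro p hp p' hp' hpp
        obtain ⟨hp2, hp3⟩ := hmem p (Finset.mem_coe.1 hp)
        obtain ⟨hp2', hp3'⟩ := hmem p' (Finset.mem_coe.1 hp')
        have e1 : (p.1 : G) = p'.1 := mul_left_cancel hpp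
        have e2 : (p.2.2 : G) = p'.2.2 := by
          have e3 : (p.1 : G) * h i' * (p.2.2 : G) = (p.1 : G) * h i' * (p'.2.2 : G) := by
            rw [hp2, e1, hp2']
          exact mul_left_cancel e3
        exact Prod.ext (Subtype.ext e1) (Prod.ext (hp3.trans hp3'.symm) (Subtype.ext e2))
    refine h3.trans (Nat.mul_le_mul_left 2 (le_trans ?_ (h2 p0.2.1)))
    rw [Nat.card_eq_fintype_card, Fintype.card_subtype]
    refine Finset.card_le_card fun i' hi' => ?_
    obtain ⟨p, hp, rfl⟩ := Finset.mem_image.1 hi'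
    have hpg : (p.1 : G) * h p.2.1 * (p.2.2 : G) = g := (Finset.mem_filter.1 hp).2
    have hpg0 : (p0.1 : G) * h p0.2.1 * (p0.2.2 : G) = g := hp0
    refine Finset.mem_filter.2 ⟨Finset.mem_univ _, (p.1 : G)⁻¹ * p0.1, C.mul_mem (C.inv_mem p.1.2) p0.1.2,
      (p0.2.2 : G) * (p.2.2 : G)⁻¹, C.mul_mem p0.2.2.2 (C.inv_mem p.2.2.2), ?_⟩
    have e1 : (p.1 : G)⁻¹ * p0.1 * h p0.2.1 * ((p0.2.2 : G) * (p.2.2 : G)⁻¹) =
        (p.1 : G)⁻¹ * ((p0.1 : G) * h p0.2.1 * (p0.2.2 : G)) * (p.2.2 : G)⁻¹ := by group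
    rw [e1, hpg0, ← hpg]
    group
  rw [← hc]
  exact key.trans (Nat.mul_le_mul_left _ himg)

end Pool.Agent.H32.UD
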