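import Pool.Agent.H32.UD.CJ
import Pool.Agent.H32.UD.Dbl

/-!
# UD.Dcx : double cosets of the centraliser of `M j`

PROOF. `nor_two`: an element `a` with `fr^2 a = a` is `s + t j`, `s, t ∈ F` (`s = (a + fr a)/2`, `t = (a - fr a)/(2 j)` are fixed by `fr`, hence in `F`: `FiniteField` / `fr a = a^q = a` has exactly the `q` solutions of `F`), so `M a` is a combination of `1` and `M j` and commutes with `x`; take `b = a`.
`dcx`: `double_coset` in `E ≃ₗ[F] E` with `C = CJ j`. `h1`: `y ∈ C`, `h⁻¹ y h ∈ C` commute with `M j`, so `Nor 2 y`, `Nor 2 (h⁻¹ y h)`, `y ∈ G`; by `Triv 2 2 (h i)` `y` is `1` or `-1` (as a linear map): at most two. `h2` is `hfib`. Every `g = a * h i * b` lies in `⁅G, G⁆ ⊓ Gc` and satisfies `Triv 2 2 g`: let `x ∈ G`, `Nor 2 x`, `Nor 2 (g⁻¹ x g)`, `x' = a⁻¹ x a ∈ G`.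
`Nor 2 x'`: for `fr^2 c = c`, `x M c = M c' x`, and `a` commutes with `M c`, `M c'` (`nor_two` argument). `h⁻¹ x' h = b (g⁻¹ x g) b⁻¹`: `Nor 2` as well. So `x' = ± 1` and `x = ± 1`.
-/

set_option autoImplicit false

namespace Pool.Agent.H32.UD

open Module

private theorem Dcx_fixed {F E : Type} [Field F] [Field E] [Algebra F E] [Finite F] [Finite E] {c : E}
    (hc : fr F E c = c) : ∃ s : F, algebraMap F E s = c := by
  classical
  let _ := Fintype.ofFinite F
  have hq : 1 < Nat.card F := Finite.one_lt_card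
  have hne : (Polynomial.X ^ Nat.card F - Polynomial.X : Polynomial E) ≠ 0 :=
    FiniteField.X_pow_card_sub_X_ne_zero E hq
  have hsub : (Finset.univ : Finset F).image (algebraMap F E) ⊆
      (Polynomial.X ^ Nat.card F - Polynomial.X : Polynomial E).roots.toFinset := by
    intro x hx
    obtain ⟨s, -, rfl⟩ := Finset.mem_image.1 hx
    rw [Multiset.mem_toFinset, Polynomial.mem_roots hne, Polynomial.IsRoot.def, Polynomial.eval_sub,
      Polynomial.eval_pow, Polynomial.eval_X, ← map_pow, Nat.card_eq_fintype_card, FiniteField.pow_card,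
      sub_self]
  have hcard : (Polynomial.X ^ Nat.card F - Polynomial.X : Polynomial E).roots.toFinset.card ≤
      ((Finset.univ : Finset F).image (algebraMap F E)).card := by
    rw [Finset.card_image_of_injective _ (algebraMap F E).injective, Finset.card_univ,
      ← Nat.card_eq_fintype_card]
    refine (Multiset.toFinset_card_le _).trans ?_
    refine (Polynomial.card_roots' _).trans ?_
    rw [FiniteField.X_pow_card_sub_X_natDegree_eq E hq]
  have heq := Finset.eq_of_subset_of_card_le hsub hcard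
  have hmem : c ∈ (Polynomial.X ^ Nat.card F - Polynomial.X : Polynomial E).roots.toFinset := by
    rw [Multiset.mem_toFinset, Polynomial.mem_roots hne, Polynomial.IsRoot.def, Polynomial.eval_sub,
      Polynomial.eval_pow, Polynomial.eval_X, ← fr_apply, hc, sub_self]
  rw [← heq] at hmem
  obtain ⟨s, -, hs⟩ := Finset.mem_image.1 hmem
  exact ⟨s, hs⟩

theorem nor_two {F E : Type} [Field F] [Field E] [Algebra F E] [Finite F] [Finite E] (D : Dat F E) (j : E)
    (hj : fr F E j = -j) (hj0 : j ≠ 0) (x : E ≃ₗ[F] E)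
    (hx : (x : Module.End F E) * M F j = M F j * (x : Module.End F E)) :
    ∀ a : E, (fr F E ^ 2) a = a → (x : Module.End F E) * M F a = M F a * (x : Module.End F E) := by
  intro a ha
  have ha' : fr F E (fr F E a) = a := ha
  have h2 : (2 : E) ≠ 0 := by
    have h := D.two_ne
    intro h0
    apply h
    apply (algebraMap F E).injective
    rw [map_ofNat, map_zero, h0]
  have h2j : (2 * j : E) ≠ 0 := mul_ne_zero h2 hj0
  obtain ⟨s, hs⟩ := Dcx_fixed (F := F) (c := (a + fr F E a) / 2) (by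
    rw [map_div₀, map_add, ha', map_ofNat, add_comm])
  obtain ⟨t, ht⟩ := Dcx_fixed (F := F) (c := (a - fr F E a) / (2 * j)) (by
    rw [map_div₀, map_sub, ha', map_mul, map_ofNat, hj, ← neg_sub, mul_neg, neg_div_neg_eq])
  have e : M F a = s • (1 : Module.End F E) + t • M F j := by
    rw [← M_algebraMap, hs]
    have e1 : t • M F j = M F ((a - fr F E a) / (2 * j) * j) := by
      rw [← ht, ← M_smul, Algebra.smul_def]
    rw [e1, ← M_add]
    congr 1
    field_simp
    ring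
  rw [e, mul_add, add_mul, mul_smul_comm, mul_smul_comm, smul_mul_assoc, smul_mul_assoc, hx, mul_one,
    one_mul]

private theorem Dcx_conj {F E : Type} [Field F] [Field E] [Algebra F E] [Finite F] [Finite E] (D : Dat F E)
    (j : E) (hj : fr F E j = -j) (hj0 : j ≠ 0) {u x : E ≃ₗ[F] E} (hu : u ∈ D.CJ j) (hx : Dat.Nor 2 x) :
    Dat.Nor 2 (u⁻¹ * x * u) := by
  intro c hc
  obtain ⟨b, hb, hxb⟩ := hx c hc
  refine ⟨b, hb, ?_⟩
  have h1 := nor_two D j hj hj0 u hu.2 c hc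
  have h2 := nor_two D j hj hj0 u⁻¹ (inv_mem hu).2 b hb
  have e : ((u⁻¹ * x * u : E ≃ₗ[F] E) : Module.End F E) =
      ((u⁻¹ : E ≃ₗ[F] E) : Module.End F E) * (x : Module.End F E) * (u : Module.End F E) := rfl
  rw [e, mul_assoc, h1, ← mul_assoc, mul_assoc _ (x : Module.End F E), hxb, ← mul_assoc, h2]
  simp only [mul_assoc]

private theorem Dcx_nor {F E : Type} [Field F] [Field E] [Algebra F E] [Finite F] [Finite E] (D : Dat F E)
    (j : E) (hj : fr F E j = -j) (hj0 : j ≠ 0) {u : E ≃ₗ[F] E} (hu : u ∈ D.CJ j) : Dat.Nor 2 u :=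
  fun a ha => ⟨a, ha, nor_two D j hj hj0 u hu.2 a ha⟩

theorem dcx {F E : Type} [Field F] [Field E] [Algebra F E] [Finite F] [Finite E] (D : Dat F E) (j : E)
    (hj : fr F E j = -j) (hj0 : j ≠ 0) {ι : Type} [Finite ι] (h : ι → (E ≃ₗ[F] E)) (K : ℕ)
    (hmem : ∀ i, h i ∈ (⁅D.G, D.G⁆ ⊓ D.Gc : Subgroup (E ≃ₗ[F] E))) (htriv : ∀ i, D.Triv 2 2 (h i))
    (hfib : ∀ i, Nat.card {i' : ι // ∃ a ∈ D.CJ j, ∃ b ∈ D.CJ j, h i' = a * h i * b} ≤ K) :
    Nat.card ι * Nat.card (D.CJ j) ^ 2 ≤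
      2 * K * Nat.card {g : E ≃ₗ[F] E // g ∈ (⁅D.G, D.G⁆ ⊓ D.Gc : Subgroup (E ≃ₗ[F] E)) ∧ D.Triv 2 2 g} := by
  classical
  have hfin : Finite (E ≃ₗ[F] E) :=
    Finite.of_injective (fun g : E ≃ₗ[F] E => (g : E → E)) DFunLike.coe_injective
  have hG : ∀ u ∈ D.CJ j, u ∈ D.G := fun u hu => D.Gc_le (Subgroup.mem_inf.1 hu.1).2
  have h1 : ∀ i, Nat.card {y : E ≃ₗ[F] E // y ∈ D.CJ j ∧ (h i)⁻¹ * y * h i ∈ D.CJ j} ≤ 2 := by
    intro i
    have hpm : ∀ y : {y : E ≃ₗ[F] E // y ∈ D.CJ j ∧ (h i)⁻¹ * y * h i ∈ D.CJ j},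
        (∀ v, y.1 v = v) ∨ ∀ v, y.1 v = -v := fun y =>
      htriv i y.1 (hG _ y.2.1) (Dcx_nor D j hj hj0 y.2.1) (Dcx_nor D j hj hj0 y.2.2)
    have hinj : Function.Injective
        fun y : {y : E ≃ₗ[F] E // y ∈ D.CJ j ∧ (h i)⁻¹ * y * h i ∈ D.CJ j} =>
          (decide (∀ v, y.1 v = v) : Bool) := by
      intro y z hyz
      have hyz' : (∀ v, y.1 v = v) ↔ (∀ v, z.1 v = v) := by
        have := hyz
        simpa using this
      apply Subtype.ext
      by_cases hy : ∀ v, y.1 v = v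
      · have hz := hyz'.1 hy
        exact LinearEquiv.ext fun v => by rw [hy, hz]
      · have hz : ¬ ∀ v, z.1 v = v := fun hz => hy (hyz'.2 hz)
        have hy' := (hpm y).resolve_left hy
        have hz' := (hpm z).resolve_left hz
        exact LinearEquiv.ext fun v => by rw [hy', hz']
    have := Nat.card_le_card_of_injective _ hinj
    rwa [Nat.card_eq_fintype_card (α := Bool), Fintype.card_bool] at this
  have key := double_coset (D.CJ j) h K h1 hfib
  refine key.trans (Nat.mul_le_mul_left _ ?_)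
  have hsub : ∀ g : E ≃ₗ[F] E, (∃ i, ∃ a ∈ D.CJ j, ∃ b ∈ D.CJ j, g = a * h i * b) →
      g ∈ (⁅D.G, D.G⁆ ⊓ D.Gc : Subgroup (E ≃ₗ[F] E)) ∧ D.Triv 2 2 g := by
    rintro g ⟨i, a, ha, b, hb, rfl⟩
    refine ⟨mul_mem (mul_mem ha.1 (hmem i)) hb.1, ?_⟩
    intro x hxG hx hx2
    have hx' : Dat.Nor 2 (a⁻¹ * x * a) := Dcx_conj D j hj hj0 ha hx
    have hxG' : a⁻¹ * x * a ∈ D.G := mul_mem (mul_mem (inv_mem (hG a ha)) hxG) (hG a ha)
    have hx'' : Dat.Nor 2 ((h i)⁻¹ * (a⁻¹ * x * a) * h i) := by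
      have h3 := Dcx_conj D j hj hj0 (inv_mem hb) hx2
      have e : b⁻¹⁻¹ * ((a * h i * b)⁻¹ * x * (a * h i * b)) * b⁻¹ =
          (h i)⁻¹ * (a⁻¹ * x * a) * h i := by group
      rwa [e] at h3
    have hax : ∀ v, x v = a ((a⁻¹ * x * a) (a⁻¹ v)) := by
      intro v
      rw [← LinearEquiv.mul_apply, ← LinearEquiv.mul_apply]
      congr 1
      group
    have haa : ∀ v, a (a⁻¹ v) = v := fun v => by
      rw [← LinearEquiv.mul_apply, mul_inv_cancel]; rfl
    rcases htriv i _ hxG' hx' hx'' with h4 | h4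
    · left
      intro v
      rw [hax, h4, haa]
    · right
      intro v
      rw [hax, h4, map_neg, haa]
  exact Nat.card_le_card_of_injective (fun g => ⟨g.1, hsub g.1 g.2⟩)
    fun g g' hgg => Subtype.ext (Subtype.mk.inj hgg)

end Pool.Agent.H32.UD
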