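import Pool.Agent.H32.UD.Bas

/-!
# UD.Dec : `End_F E = ⨁ E Fz c`

PROOF. The map `a ↦ ∑ c, M (a c) * Fz c` from `ZMod (2 r) → E` to `End_F E` is `F`-linear, both sides have dimension `4 r ^ 2` over `F` (`Module.finrank_linearMap`, `D.fin`, `ZMod.card`). It is injective: if `∑ c, a c * σ c x = 0` for all `x` then all `a c = 0` by linear independence of the
distinct characters `σ c : E →* E` (`linearIndependent_monoidHom`, distinct by `σ_inj`; or `linearIndependent_toLinearMap`). So it is bijective (`LinearMap.injective_iff_surjective_of_finrank_eq_finrank`).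
Product formula: `M a * Fz d * (M b * Fz e) = M (a * σ d b) * Fz (d + e)` (`Fz_M`, `Fz_add`, `M_mul`), compare coefficients by uniqueness (reindex `c = d + e`).
-/

set_option autoImplicit false

namespace Pool.Agent.H32.UD

open Module

namespace Dat

variable {F E : Type} [Field F] [Field E] [Algebra F E] (D : Dat F E) [Finite F] [Finite E]

/-- the map from the coefficients to the endomorphisms -/
private noncomputable def Phi : (ZMod (2 * D.r) → E) →ₗ[F] Module.End F E where
  toFun a := ∑ c, M F (a c) * D.Fz c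
  map_add' a b := by
    rw [← Finset.sum_add_distrib]
    exact Finset.sum_congr rfl fun c _ => by rw [Pi.add_apply, M_add, add_mul]
  map_smul' t a := by
    rw [RingHom.id_apply, Finset.smul_sum]
    exact Finset.sum_congr rfl fun c _ => by rw [Pi.smul_apply, M_smul, smul_mul_assoc]

private theorem Phi_apply (a : ZMod (2 * D.r) → E) : D.Phi a = ∑ c, M F (a c) * D.Fz c := rfl

private theorem Phi_inj : Function.Injective D.Phi := by
  rw [← LinearMap.ker_eq_bot, LinearMap.ker_eq_bot']
  intro a ha
  have hli := linearIndependent_monoidHom E E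
  have hinj : Function.Injective fun c : ZMod (2 * D.r) => ((D.σ c : E ≃ₐ[F] E) : E →* E) := by
    intro c d h
    apply D.σ_inj
    ext x
    exact DFunLike.congr_fun h x
  have hli2 := hli.comp _ hinj
  rw [Fintype.linearIndependent_iff] at hli2
  have h1 : ∑ c, a c • (((fun f : E →* E => (f : E → E)) ∘ fun c : ZMod (2 * D.r) =>
      ((D.σ c : E ≃ₐ[F] E) : E →* E)) c) = 0 := by
    ext x
    have h2 := LinearMap.congr_fun ha x
    rw [Phi_apply, LinearMap.sum_apply, LinearMap.zero_apply] at h2
    rw [Finset.sum_apply]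
    exact h2
  ext c
  exact hli2 a h1 c

private theorem Phi_surj : Function.Surjective D.Phi := by
  have h1 : Module.Finite F E := Module.Finite.of_finite
  have h2 : finrank F (ZMod (2 * D.r) → E) = finrank F (Module.End F E) := by
    rw [Module.finrank_pi_fintype, Finset.sum_const, Finset.card_univ, ZMod.card,
      Module.finrank_linearMap, D.fin, smul_eq_mul]
  exact (LinearMap.injective_iff_surjective_of_finrank_eq_finrank h2).1 D.Phi_inj

theorem exists_coeff (X : Module.End F E) :
    ∃ a : ZMod (2 * D.r) → E, X = ∑ c, M F (a c) * D.Fz c := by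
  obtain ⟨a, ha⟩ := D.Phi_surj X
  exact ⟨a, ha.symm⟩

/-- the coefficient of `X` at `Fz c` -/
noncomputable def co (X : Module.End F E) : ZMod (2 * D.r) → E := (D.exists_coeff X).choose

theorem eq_sum (X : Module.End F E) : X = ∑ c, M F (D.co X c) * D.Fz c :=
  (D.exists_coeff X).choose_spec

theorem co_sum (a : ZMod (2 * D.r) → E) (c : ZMod (2 * D.r)) :
    D.co (∑ c, M F (a c) * D.Fz c) c = a c := by
  have h1 : D.Phi (D.co (∑ c, M F (a c) * D.Fz c)) = D.Phi a := (D.eq_sum _).symm
  exact congrFun (D.Phi_inj h1) c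

private theorem co_eq {X : Module.End F E} {a : ZMod (2 * D.r) → E}
    (h : X = ∑ c, M F (a c) * D.Fz c) (c : ZMod (2 * D.r)) : D.co X c = a c := by
  subst h
  exact D.co_sum a c

theorem ext_co {X Y : Module.End F E} (h : ∀ c, D.co X c = D.co Y c) : X = Y := by
  rw [D.eq_sum X, D.eq_sum Y]
  exact Finset.sum_congr rfl fun c _ => by rw [h c]

theorem co_add (X Y : Module.End F E) (c : ZMod (2 * D.r)) : D.co (X + Y) c = D.co X c + D.co Y c := by
  refine D.co_eq (a := fun c => D.co X c + D.co Y c) ?_ c
  conv_lhs => rw [D.eq_sum X, D.eq_sum Y, ← Finset.sum_add_distrib]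
  exact Finset.sum_congr rfl fun c _ => by rw [M_add, add_mul]

theorem co_sub (X Y : Module.End F E) (c : ZMod (2 * D.r)) : D.co (X - Y) c = D.co X c - D.co Y c := by
  refine D.co_eq (a := fun c => D.co X c - D.co Y c) ?_ c
  conv_lhs => rw [D.eq_sum X, D.eq_sum Y, ← Finset.sum_sub_distrib]
  exact Finset.sum_congr rfl fun c _ => by rw [M_sub, sub_mul]

theorem co_zero (c : ZMod (2 * D.r)) : D.co (0 : Module.End F E) c = 0 := by
  refine D.co_eq (a := fun _ => 0) ?_ c
  rw [Finset.sum_eq_zero]
  intro c _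
  rw [M_zero, zero_mul]

theorem co_smul (a : F) (X : Module.End F E) (c : ZMod (2 * D.r)) : D.co (a • X) c = a • D.co X c := by
  refine D.co_eq (a := fun c => a • D.co X c) ?_ c
  conv_lhs => rw [D.eq_sum X, Finset.smul_sum]
  exact Finset.sum_congr rfl fun c _ => by rw [M_smul, smul_mul_assoc]

theorem co_single (a : E) (d c : ZMod (2 * D.r)) :
    D.co (M F a * D.Fz d) c = if c = d then a else 0 := by
  refine D.co_eq (a := fun c => if c = d then a else 0) ?_ c
  rw [Finset.sum_eq_single d]
  · rw [if_pos rfl]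
  · intro e _ he
    rw [if_neg he, M_zero, zero_mul]
  · intro h
    exact absurd (Finset.mem_univ d) h

theorem co_M (a : E) (c : ZMod (2 * D.r)) : D.co (M F a) c = if c = 0 then a else 0 := by
  have h := D.co_single a 0 c
  rw [Fz_zero, mul_one] at h
  exact h

theorem co_M_mul (a : E) (X : Module.End F E) (c : ZMod (2 * D.r)) :
    D.co (M F a * X) c = a * D.co X c := by
  refine D.co_eq (a := fun c => a * D.co X c) ?_ c
  conv_lhs => rw [D.eq_sum X, Finset.mul_sum]
  exact Finset.sum_congr rfl fun c _ => by rw [M_mul, mul_assoc]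

theorem co_mul_M (a : E) (X : Module.End F E) (c : ZMod (2 * D.r)) :
    D.co (X * M F a) c = D.co X c * D.σ c a := by
  refine D.co_eq (a := fun c => D.co X c * D.σ c a) ?_ c
  conv_lhs => rw [D.eq_sum X, Finset.sum_mul]
  exact Finset.sum_congr rfl fun c _ => by rw [mul_assoc, Fz_M, M_mul, mul_assoc]

theorem co_mul (X Y : Module.End F E) (c : ZMod (2 * D.r)) :
    D.co (X * Y) c = ∑ d, D.co X d * D.σ d (D.co Y (c - d)) := by
  refine D.co_eq (a := fun c => ∑ d, D.co X d * D.σ d (D.co Y (c - d))) ?_ c
  have hM : ∀ (s : Finset (ZMod (2 * D.r))) (f : ZMod (2 * D.r) → E),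
      M F (∑ i ∈ s, f i) = ∑ i ∈ s, M F (f i) := by
    intro s f
    ext x
    rw [M_apply, LinearMap.sum_apply, Finset.sum_mul]
    rfl
  conv_lhs => rw [D.eq_sum X, Finset.sum_mul]
  have h1 : ∀ d, M F (D.co X d) * D.Fz d * Y =
      ∑ c, M F (D.co X d * D.σ d (D.co Y (c - d))) * D.Fz c := by
    intro d
    conv_lhs => rw [D.eq_sum Y, Finset.mul_sum]
    rw [← Equiv.sum_comp (Equiv.addRight d)
      (fun c => M F (D.co X d * D.σ d (D.co Y (c - d))) * D.Fz c)]
    refine Finset.sum_congr rfl fun e _ => ?_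
    show M F (D.co X d) * D.Fz d * (M F (D.co Y e) * D.Fz e) =
      M F (D.co X d * D.σ d (D.co Y (e + d - d))) * D.Fz (e + d)
    rw [add_sub_cancel_right, add_comm e d, Fz_add, M_mul]
    rw [mul_assoc, ← mul_assoc (D.Fz d), Fz_M, mul_assoc, mul_assoc]
  rw [Finset.sum_congr rfl fun d _ => h1 d, Finset.sum_comm]
  refine Finset.sum_congr rfl fun c _ => ?_
  rw [hM, Finset.sum_mul]

/-- `X` commutes with all multiplications if and only if it is a multiplication -/
theorem comm_M {X : Module.End F E} {a : E} (h : X * M F a = M F a * X) (c : ZMod (2 * D.r))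
    (hc : D.σ c a ≠ a) : D.co X c = 0 := by
  have h1 := congrArg (fun Y => D.co Y c) h
  simp only [co_mul_M, co_M_mul] at h1
  have h2 : D.co X c * (D.σ c a - a) = 0 := by linear_combination h1
  rcases mul_eq_zero.1 h2 with h3 | h3
  · exact h3
  · exact absurd (sub_eq_zero.1 h3) hc

end Dat

end Pool.Agent.H32.UD
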