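import Mathlib

/-!
# UD.Defs : the field model

`F` a finite field with `q` elements, `q` odd, `E` the extension of degree `2 r`, `r ≥ 4`, `fr x = x ^ q`, `bar = fr ^ r`,
`B (x, y) = Tr (δ x bar y)` with `δ ^ q = (-1) ^ r δ`. For even `r` the form is symmetric (of minus type), for odd `r` alternating.
`End_F E = ⨁ E Fz c`, `c ∈ ZMod (2 r)`, `Fz c = fr ^ c`.
-/

set_option autoImplicit false

namespace Pool.Agent.H32.UD

open Module

/-- the data -/
structure Dat (F E : Type) [Field F] [Field E] [Algebra F E] where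
  /-- half the degree -/
  r : ℕ
  four_le : 4 ≤ r
  fin : finrank F E = 2 * r
  /-- the scalar in the form -/
  δ : E
  δ_ne : δ ≠ 0
  δ_q : δ ^ Nat.card F = (-1) ^ r * δ
  two_ne : (2 : F) ≠ 0

/-- the Frobenius automorphism `x ↦ x ^ q` of `E` over `F` -/
noncomputable def fr (F E : Type) [Field F] [Finite F] [Field E] [Finite E] [Algebra F E] : E ≃ₐ[F] E :=
  letI := Fintype.ofFinite F
  FiniteField.frobeniusAlgEquivOfAlgebraic F E

theorem fr_apply (F : Type) {E : Type} [Field F] [Finite F] [Field E] [Finite E] [Algebra F E] (x : E) :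
    fr F E x = x ^ Nat.card F := by
  let _ := Fintype.ofFinite F
  unfold fr
  rw [FiniteField.coe_frobeniusAlgEquivOfAlgebraic, Nat.card_eq_fintype_card]

theorem orderOf_fr (F E : Type) [Field F] [Finite F] [Field E] [Finite E] [Algebra F E] :
    orderOf (fr F E) = finrank F E := by
  let _ := Fintype.ofFinite F
  unfold fr
  exact FiniteField.orderOf_frobeniusAlgEquivOfAlgebraic F E

/-- multiplication by `a` -/
noncomputable def M (F : Type) {E : Type} [Field F] [Field E] [Algebra F E] (a : E) : Module.End F E :=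
  LinearMap.mulLeft F a

/-- multiplication by a unit -/
noncomputable def mu (F : Type) {E : Type} [Field F] [Field E] [Algebra F E] : Eˣ →* (E ≃ₗ[F] E) where
  toFun u := LinearEquiv.ofLinearMap (M F (u : E)) (M F ((u⁻¹ : Eˣ) : E))
    (by ext x; simp [M]) (by ext x; simp [M])
  map_one' := by ext x; simp [M]
  map_mul' u v := by ext x; simp [M]

@[simp] theorem M_apply (F : Type) {E : Type} [Field F] [Field E] [Algebra F E] (a x : E) : M F a x = a * x := rfl

@[simp] theorem mu_apply (F : Type) {E : Type} [Field F] [Field E] [Algebra F E] (u : Eˣ) (x : E) :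
    mu F u x = u * x := rfl

theorem mu_coe (F : Type) {E : Type} [Field F] [Field E] [Algebra F E] (u : Eˣ) :
    (mu F u : E →ₗ[F] E) = M F (u : E) := rfl

namespace Dat

variable {F E : Type} [Field F] [Field E] [Algebra F E] (D : Dat F E)

instance : NeZero (2 * D.r) := ⟨by have := D.four_le; omega⟩

variable [Finite F] [Finite E]

/-- the power of the Frobenius automorphism -/
noncomputable def σ (c : ZMod (2 * D.r)) : E ≃ₐ[F] E := fr F E ^ c.val

/-- the power of the Frobenius automorphism as a linear map -/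
noncomputable def Fz (c : ZMod (2 * D.r)) : Module.End F E := (D.σ c).toLinearMap

/-- the automorphism of order two -/
noncomputable def bar : E ≃ₐ[F] E := D.σ (D.r : ZMod (2 * D.r))

/-- the sign `(-1) ^ (r c)` -/
def sg (c : ZMod (2 * D.r)) : F := (-1) ^ (D.r * c.val)

/-- the form -/
noncomputable def B : LinearMap.BilinForm F E :=
  LinearMap.mk₂ F (fun x y => Algebra.trace F E (D.δ * x * D.bar y))
    (by intro x y z; rw [mul_add, add_mul, map_add])
    (by intro c x y; rw [mul_smul_comm, smul_mul_assoc, map_smul])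
    (by intro x y z; rw [map_add, mul_add, map_add])
    (by intro c x y; rw [map_smul, mul_smul_comm, map_smul])

theorem B_apply (x y : E) : D.B x y = Algebra.trace F E (D.δ * x * D.bar y) := rfl

/-- the isometry group -/
noncomputable def G : Subgroup (E ≃ₗ[F] E) where
  carrier := {g | ∀ x y, D.B (g x) (g y) = D.B x y}
  mul_mem' := by
    intro a b ha hb x y
    rw [LinearEquiv.mul_apply, LinearEquiv.mul_apply, ha, hb]
  one_mem' := by
    intro x y
    rfl
  inv_mem' := by
    intro a ha x y
    have h := ha (a⁻¹ x) (a⁻¹ y)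
    rw [← h, ← LinearEquiv.mul_apply, ← LinearEquiv.mul_apply, mul_inv_cancel]
    rfl

theorem mem_G {g : E ≃ₗ[F] E} : g ∈ D.G ↔ ∀ x y, D.B (g x) (g y) = D.B x y := Iff.rfl

/-- the Lie algebra -/
noncomputable def 𝔤 : Submodule F (Module.End F E) where
  carrier := {X | ∀ x y, D.B (X x) y + D.B x (X y) = 0}
  add_mem' := by
    intro a b ha hb x y
    simp only [LinearMap.add_apply, map_add]
    have h1 := ha x y
    have h2 := hb x y
    linear_combination h1 + h2
  zero_mem' := by
    intro x y
    simp
  smul_mem' := by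
    intro c a ha x y
    simp only [LinearMap.smul_apply, map_smul, smul_eq_mul]
    have h1 := ha x y
    linear_combination c * h1

theorem mem_𝔤 {X : Module.End F E} : X ∈ D.𝔤 ↔ ∀ x y, D.B (X x) y + D.B x (X y) = 0 := Iff.rfl

/-- the typical element `a Fz c - (a Fz c)^*` of the Lie algebra -/
noncomputable def S (c : ZMod (2 * D.r)) (a : E) : Module.End F E :=
  M F a * D.Fz c - D.sg c • (D.Fz (-c) * M F (D.bar a))

/-- `g` normalises the subfield with `q ^ p` elements -/
def Nor (p : ℕ) (g : E ≃ₗ[F] E) : Prop :=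
  ∀ a : E, (fr F E ^ p) a = a → ∃ b : E, (fr F E ^ p) b = b ∧
    (g : Module.End F E) * M F a = M F b * (g : Module.End F E)

/-- `H` contains the squares of the elements of norm one -/
def HasT (H : Subgroup (E ≃ₗ[F] E)) : Prop :=
  ∀ u : Eˣ, (u : E) * D.bar u = 1 → mu F (u ^ 2) ∈ H

/-- the span of the conjugates of the Lie algebra of the torus -/
noncomputable def Wsp (H : Subgroup (E ≃ₗ[F] E)) : Submodule F (Module.End F E) :=
  Submodule.span F {Y | ∃ h ∈ H, ∃ e : E, D.bar e = -e ∧
    Y = (h : Module.End F E) * M F e * ((h⁻¹ : E ≃ₗ[F] E) : Module.End F E)}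

end Dat

/-- the dimension of the Lie algebra -/
def nn (r : ℕ) : ℕ := if Even r then 2 * r ^ 2 - r else 2 * r ^ 2 + r

end Pool.Agent.H32.UD
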