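import Pool.Agent.H32.UD.LieC
import Pool.Agent.H32.UD.Cls

/-!
# UD.Dich : the dichotomy

If `H ≤ G` contains the squares of the elements of norm one then either the conjugates of the Lie algebra of the torus span `𝔤`, or `H` normalises a subfield of prime degree.

PROOF. Let `θ` from `exists_sep`, `u = θ ^ 2`, `mu u ∈ H`, `W = Wsp H`. `Good W u`: `le` is `Wsp_le`; `tor`: `h = 1`; `ad`: `Ad (mu u)` permutes the generators (`h ↦ mu u * h`). `lie`: for a generator `Y = h M e h⁻¹` and `X ∈ W`: `[Y, X] = h [M e, h⁻¹ X h] h⁻¹`, `W` is stable under `Ad H`, so it is enough that `[M e, X] ∈ W` for `X ∈ W`, `bar e = -e`: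
`[M e, X]` has coefficients `(e - σ c e) co X c` (`co_M_mul`, `co_mul_M`), it lies in `𝔤`, and by `decomp` `2 [M e, X] = 2 M 0 + ∑_{c ≠ 0} S c ((e - σ c e) co X c) ∈ W` by `grade`. Then extend to spans (`Submodule.span_induction` twice).
Let `C = {c ∈ Ty W | c ≠ r}` if `r` is even and `C = Ty W` if `r` is odd. By `zero_ty, neg_ty, add_ty` it satisfies `closure_sub` with `t = r`. Let `A` = the additive subgroup generated by `C`. If `A = ⊤` then every `c ≠ r` is in `C`, hence in `Ty W`, and `r ∈ Ty W` too (`r` even: `S_r_even`; `r` odd: `C = Ty W` is closed under all sums so it is a subgroup: `add_ty`), so `decomp` and `tor` (`bar_co_zero`) give `𝔤 ≤ W`.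
If `A ≠ ⊤`: `p` from `exists_prime`, `m = 2 r`. `Nor p h` for `h ∈ H`: let `fr^p a = a`. `X := h M a h⁻¹` commutes with all elements of `W`: `W` is `Ad H`-stable and `M a` commutes with `W`: by `decomp` (for `X ∈ W`: `co X c ≠ 0`, `c ≠ 0` implies `c ∈ Ty W` by `ty_of`, and `c ≠ r` if `r` is even by `co_r_even`, so `c ∈ C ⊆ A`, `p ∣ c.val` and `σ c a = a`), so `M a X = X M a`
(compare coefficients). So `X` commutes with `M e`, `bar e = -e`; such `e` generate: if `σ c e = e` for all `e ∈ Em` then `c = 0` (take `e = x - bar x`, `σ c = 1` or `σ c = σ (c + r)`-type relation: `σ c (x - bar x) = x - bar x` for all `x`, i.e. `σ c - σ (c + r) = σ 0 - σ r` as functions, linear independence of characters gives `c = 0`), so `comm_M` gives `X = M b`.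
`X` commutes with `S c a'` for `c ∈ C`, so `σ c b = b` for `c ∈ C`; in fact we need `fr^p b = b`: `fr^p b = b^(q^p)` and `b` satisfies the same polynomial equation `x^(q^p) = x` as `a` (`X^(q^p) = h M a^(q^p) h⁻¹ = X`, `M_pow`, `M_inj`). Finally `h * M a = M b * h`.
-/

set_option autoImplicit false

namespace Pool.Agent.H32.UD

open Module

namespace Dat

variable {F E : Type} [Field F] [Field E] [Algebra F E] (D : Dat F E) [Finite F] [Finite E]

omit [Finite F] [Finite E] in
private theorem dich_coe_mul (g h : E ≃ₗ[F] E) :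
    ((g * h : E ≃ₗ[F] E) : Module.End F E) = (g : Module.End F E) * (h : Module.End F E) := rfl

omit [Finite F] [Finite E] in
private theorem dich_mul_inv (h : E ≃ₗ[F] E) :
    (h : Module.End F E) * ((h⁻¹ : E ≃ₗ[F] E) : Module.End F E) = 1 := by
  rw [← dich_coe_mul, mul_inv_cancel]
  rfl

omit [Finite F] [Finite E] in
private theorem dich_inv_mul (h : E ≃ₗ[F] E) :
    ((h⁻¹ : E ≃ₗ[F] E) : Module.End F E) * (h : Module.End F E) = 1 := by
  rw [← dich_coe_mul, inv_mul_cancel]
  rfl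

omit [Finite F] [Finite E] in
private theorem dich_conj_pow (h : E ≃ₗ[F] E) (Y : Module.End F E) (n : ℕ) :
    ((h : Module.End F E) * Y * ((h⁻¹ : E ≃ₗ[F] E) : Module.End F E)) ^ n =
      (h : Module.End F E) * Y ^ n * ((h⁻¹ : E ≃ₗ[F] E) : Module.End F E) := by
  induction n with
  | zero => rw [pow_zero, pow_zero, mul_one, dich_mul_inv]
  | succ n ih =>
    rw [pow_succ, ih, pow_succ]
    calc (h : Module.End F E) * Y ^ n * ((h⁻¹ : E ≃ₗ[F] E) : Module.End F E) *
          ((h : Module.End F E) * Y * ((h⁻¹ : E ≃ₗ[F] E) : Module.End F E))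
        = (h : Module.End F E) * Y ^ n * (((h⁻¹ : E ≃ₗ[F] E) : Module.End F E) *
          (h : Module.End F E)) * Y * ((h⁻¹ : E ≃ₗ[F] E) : Module.End F E) := by
          simp only [mul_assoc]
      _ = _ := by
          rw [dich_inv_mul, mul_one]
          simp only [mul_assoc]

private theorem dich_fr_pow (n : ℕ) (x : E) : (fr F E ^ n) x = x ^ (Nat.card F ^ n) := by
  induction n with
  | zero => simp
  | succ n ih =>
    rw [pow_succ', AlgEquiv.mul_apply, ih, fr_apply, ← pow_mul, pow_succ]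

/-- `W` is stable under conjugation by `H` -/
private theorem dich_stable (H : Subgroup (E ≃ₗ[F] E)) {h : E ≃ₗ[F] E} (hh : h ∈ H)
    {X : Module.End F E} (hX : X ∈ D.Wsp H) :
    (h : Module.End F E) * X * ((h⁻¹ : E ≃ₗ[F] E) : Module.End F E) ∈ D.Wsp H := by
  unfold Wsp at hX ⊢
  induction hX using Submodule.span_induction with
  | mem Y hY =>
    obtain ⟨g, hg, e, he, rfl⟩ := hY
    refine Submodule.subset_span ⟨h * g, H.mul_mem hh hg, e, he, ?_⟩
    rw [dich_coe_mul, mul_inv_rev, dich_coe_mul]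
    simp only [mul_assoc]
  | zero => simp
  | add Y Z _ _ ihY ihZ =>
    rw [mul_add, add_mul]
    exact Submodule.add_mem _ ihY ihZ
  | smul a Y _ ih =>
    rw [mul_smul_comm, smul_mul_assoc]
    exact Submodule.smul_mem _ _ ih

private theorem dich_stable' (H : Subgroup (E ≃ₗ[F] E)) {h : E ≃ₗ[F] E} (hh : h ∈ H)
    {X : Module.End F E} (hX : X ∈ D.Wsp H) :
    ((h⁻¹ : E ≃ₗ[F] E) : Module.End F E) * X * (h : Module.End F E) ∈ D.Wsp H := by
  have := D.dich_stable H (H.inv_mem hh) hX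
  rwa [inv_inv] at this

private theorem dich_tor (H : Subgroup (E ≃ₗ[F] E)) (e : E) (he : D.bar e = -e) :
    M F e ∈ D.Wsp H := by
  unfold Wsp
  refine Submodule.subset_span ⟨1, H.one_mem, e, he, ?_⟩
  rw [inv_one]
  rfl

omit [Finite F] [Finite E] in
private theorem dich_half (h2F : (2 : F) ≠ 0) (W : Submodule F (Module.End F E))
    (X : Module.End F E) (h : (2 : F) • X ∈ W) : X ∈ W := by
  have h2 := W.smul_mem (2 : F)⁻¹ h
  rwa [smul_smul, inv_mul_cancel₀ h2F, one_smul] at h2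

private theorem dich_lieM (H : Subgroup (E ≃ₗ[F] E)) (hH : H ≤ D.G) (u : Eˣ)
    (hu : (u : E) * D.bar u = 1) (hs : D.Sep (u : E))
    (had : ∀ X ∈ D.Wsp H, M F (u : E) * X * M F ((u⁻¹ : Eˣ) : E) ∈ D.Wsp H)
    (e : E) (he : D.bar e = -e) {X : Module.End F E} (hX : X ∈ D.Wsp H) :
    M F e * X - X * M F e ∈ D.Wsp H := by
  have hXg := D.Wsp_le H hH hX
  have hZ := D.bracket_mem (D.M_mem_𝔤 he) hXg
  have hco : ∀ c, D.co (M F e * X - X * M F e) c = (e - D.σ c e) * D.co X c := by
    intro c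
    rw [co_sub, co_M_mul, co_mul_M]
    ring
  apply dich_half D.two_ne
  rw [D.decomp hZ, hco, σ_zero_apply, sub_self, zero_mul, M_zero, smul_zero, zero_add]
  refine Submodule.sum_mem _ fun c hc => ?_
  rw [hco]
  exact D.grade u hu hs (D.Wsp H) had X hX hXg c (Finset.ne_of_mem_erase hc) _

private theorem dich_lie (H : Subgroup (E ≃ₗ[F] E)) (hH : H ≤ D.G) (u : Eˣ)
    (hu : (u : E) * D.bar u = 1) (hs : D.Sep (u : E))
    (had : ∀ X ∈ D.Wsp H, M F (u : E) * X * M F ((u⁻¹ : Eˣ) : E) ∈ D.Wsp H)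
    {Y X : Module.End F E} (hY : Y ∈ D.Wsp H) (hX : X ∈ D.Wsp H) :
    Y * X - X * Y ∈ D.Wsp H := by
  unfold Wsp at hY
  induction hY using Submodule.span_induction with
  | mem Y hY =>
    obtain ⟨h, hh, e, he, rfl⟩ := hY
    have h1 := D.dich_lieM H hH u hu hs had e he (D.dich_stable' H hh hX)
    have h2 := D.dich_stable H hh h1
    have h3 : (h : Module.End F E) * (M F e * (((h⁻¹ : E ≃ₗ[F] E) : Module.End F E) * X *
        (h : Module.End F E)) - ((h⁻¹ : E ≃ₗ[F] E) : Module.End F E) * X *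
        (h : Module.End F E) * M F e) * ((h⁻¹ : E ≃ₗ[F] E) : Module.End F E) =
        (h : Module.End F E) * M F e * ((h⁻¹ : E ≃ₗ[F] E) : Module.End F E) * X *
          ((h : Module.End F E) * ((h⁻¹ : E ≃ₗ[F] E) : Module.End F E)) -
        ((h : Module.End F E) * ((h⁻¹ : E ≃ₗ[F] E) : Module.End F E)) * X *
          ((h : Module.End F E) * M F e * ((h⁻¹ : E ≃ₗ[F] E) : Module.End F E)) := by
      simp only [mul_sub, sub_mul, mul_assoc]
    rw [h3, dich_mul_inv, mul_one, one_mul] at h2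
    exact h2
  | zero => simp
  | add Y Z _ _ ihY ihZ =>
    have h3 : (Y + Z) * X - X * (Y + Z) = (Y * X - X * Y) + (Z * X - X * Z) := by
      rw [add_mul, mul_add]
      abel
    rw [h3]
    exact Submodule.add_mem _ ihY ihZ
  | smul a Y _ ih =>
    have h3 : (a • Y) * X - X * (a • Y) = a • (Y * X - X * Y) := by
      rw [smul_mul_assoc, mul_smul_comm, smul_sub]
    rw [h3]
    exact Submodule.smul_mem _ _ ih

private theorem dich_good (hq : 10 ≤ Nat.card F) (H : Subgroup (E ≃ₗ[F] E)) (hH : H ≤ D.G)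
    (hT : D.HasT H) : ∃ u : Eˣ, D.Good (D.Wsp H) u := by
  obtain ⟨θ, h1, h2, -, -⟩ := D.exists_sep hq
  have hu : ((θ ^ 2 : Eˣ) : E) * D.bar ((θ ^ 2 : Eˣ) : E) = 1 := by
    rw [Units.val_pow_eq_pow_val, map_pow, ← mul_pow, h1, one_pow]
  have hs : D.Sep ((θ ^ 2 : Eˣ) : E) := by
    rw [Units.val_pow_eq_pow_val]
    exact h2
  have had : ∀ X ∈ D.Wsp H, M F ((θ ^ 2 : Eˣ) : E) * X * M F (((θ ^ 2)⁻¹ : Eˣ) : E) ∈ D.Wsp H := by
    intro X hX
    have h3 := D.dich_stable H (hT θ h1) hX
    have h4 : (mu F (θ ^ 2))⁻¹ = mu F ((θ ^ 2)⁻¹ : Eˣ) := (map_inv (mu F) (θ ^ 2)).symm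
    rw [h4, mu_coe, mu_coe] at h3
    exact h3
  exact ⟨θ ^ 2, D.Wsp_le H hH, hu, hs, had, fun e he => D.dich_tor H e he,
    fun X hX Y hY => D.dich_lie H hH (θ ^ 2) hu hs had hX hY⟩

private theorem dich_sep (c : ZMod (2 * D.r)) (hc : c ≠ 0) : ∃ e : E, D.bar e = -e ∧ D.σ c e ≠ e := by
  by_contra hcon
  push Not at hcon
  have h1 : ∀ x : E, D.σ c (x - D.bar x) = x - D.bar x := by
    intro x
    refine hcon _ ?_
    rw [map_sub, bar_bar]
    ring
  have h2 : M F (1 : E) * D.Fz c - M F (1 : E) * D.Fz (c + (D.r : ZMod (2 * D.r))) =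
      M F (1 : E) * D.Fz 0 - M F (1 : E) * D.Fz (D.r : ZMod (2 * D.r)) := by
    refine LinearMap.ext fun x => ?_
    have h3 := h1 x
    rw [map_sub, bar_eq] at h3
    rw [LinearMap.sub_apply, LinearMap.sub_apply, Module.End.mul_apply, Module.End.mul_apply,
      Module.End.mul_apply, Module.End.mul_apply, M_apply, M_apply, M_apply, M_apply, Fz_apply,
      Fz_apply, Fz_apply, Fz_apply, one_mul, one_mul, one_mul, one_mul, σ_zero_apply,
      σ_add_apply]
    exact h3
  have h3 := congrArg (fun Z => D.co Z 0) h2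
  simp only [co_sub, co_single] at h3
  have e1 : (0 : ZMod (2 * D.r)) ≠ c := fun h => hc h.symm
  have e2 : (0 : ZMod (2 * D.r)) ≠ (D.r : ZMod (2 * D.r)) := fun h => D.r_ne_zero h.symm
  rw [if_neg e1, if_neg e2, if_pos trivial] at h3
  have h2E : (2 : E) ≠ 0 := by
    intro h
    apply D.two_ne
    apply (algebraMap F E).injective
    rw [map_zero, map_ofNat, h]
  split at h3
  · apply h2E
    linear_combination -h3
  · exact one_ne_zero (show (1 : E) = 0 by linear_combination -h3)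

theorem dichotomy (hq : 10 ≤ Nat.card F) (H : Subgroup (E ≃ₗ[F] E)) (hH : H ≤ D.G) (hT : D.HasT H) :
    D.Wsp H = D.𝔤 ∨ ∃ p : ℕ, p.Prime ∧ p ∣ 2 * D.r ∧ ∀ h ∈ H, Nor p h := by
  obtain ⟨u, hG⟩ := D.dich_good hq H hH hT
  obtain ⟨C, hC⟩ : ∃ C : Set (ZMod (2 * D.r)),
      C = {c | c ∈ D.Ty (D.Wsp H) ∧ (Even D.r → c ≠ (D.r : ZMod (2 * D.r)))} := ⟨_, rfl⟩
  have memC : ∀ c, c ∈ C ↔ c ∈ D.Ty (D.Wsp H) ∧ (Even D.r → c ≠ (D.r : ZMod (2 * D.r))) := by
    intro c
    rw [hC]
    rfl
  have h0 : (0 : ZMod (2 * D.r)) ∈ C := (memC 0).2 ⟨hG.zero_ty, fun _ h => D.r_ne_zero h.symm⟩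
  have hneg : ∀ x ∈ C, -x ∈ C := by
    intro x hx
    obtain ⟨h1, h2⟩ := (memC x).1 hx
    refine (memC _).2 ⟨hG.neg_ty h1, fun he h => h2 he ?_⟩
    rw [← D.neg_r, ← h, neg_neg]
  have hadd : ∀ x ∈ C, ∀ y ∈ C, x + y = (D.r : ZMod (2 * D.r)) ∨ x + y ∈ C := by
    intro x hx y hy
    obtain ⟨h1, h2⟩ := (memC x).1 hx
    obtain ⟨h3, h4⟩ := (memC y).1 hy
    by_cases hxy : x + y = (D.r : ZMod (2 * D.r))
    · exact Or.inl hxy
    · exact Or.inr ((memC _).2 ⟨hG.add_ty h1 h3 fun he => ⟨h2 he, h4 he, hxy⟩, fun _ => hxy⟩)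
  have hcl := closure_sub C (D.r : ZMod (2 * D.r)) D.two_r h0 hneg hadd
  by_cases hA : AddSubgroup.closure C = ⊤
  · left
    refine le_antisymm (D.Wsp_le H hH) ?_
    have all1 : ∀ c, c ≠ (D.r : ZMod (2 * D.r)) → c ∈ D.Ty (D.Wsp H) := by
      intro c hc
      rcases hcl c (by rw [hA]; trivial) with h | h
      · exact absurd h hc
      · exact ((memC c).1 h).1
    have all : ∀ c, c ∈ D.Ty (D.Wsp H) := by
      intro c
      by_cases hc : c = (D.r : ZMod (2 * D.r))
      · rw [hc]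
        by_cases he : Even D.r
        · intro a
          rw [D.S_r_even he]
          exact Submodule.zero_mem _
        · have h4 := D.four_le
          have one_ne : (1 : ZMod (2 * D.r)) ≠ 0 := by
            intro h
            have h5 : ((1 : ℕ) : ZMod (2 * D.r)) = 0 := by exact_mod_cast h
            rw [ZMod.natCast_eq_zero_iff] at h5
            have := Nat.le_of_dvd one_pos h5
            omega
          have one_ne_r : (1 : ZMod (2 * D.r)) ≠ (D.r : ZMod (2 * D.r)) := by
            intro h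
            have h5 : ((D.r - 1 : ℕ) : ZMod (2 * D.r)) = 0 := by
              rw [Nat.cast_sub (by omega), ← h]
              simp
            rw [ZMod.natCast_eq_zero_iff] at h5
            have := Nat.le_of_dvd (by omega) h5
            omega
          have h1 := all1 1 one_ne_r
          have h2 := all1 ((D.r : ZMod (2 * D.r)) - 1) (fun h => one_ne (by
            have h6 : (1 : ZMod (2 * D.r)) = (D.r : ZMod (2 * D.r)) -
              ((D.r : ZMod (2 * D.r)) - 1) := by ring
            rw [h6, h, sub_self]))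
          have h3 := hG.add_ty h1 h2 (fun h => absurd h he)
          have h7 : (1 : ZMod (2 * D.r)) + ((D.r : ZMod (2 * D.r)) - 1) =
            (D.r : ZMod (2 * D.r)) := by ring
          rwa [h7] at h3
      · exact all1 c hc
    intro X hX
    apply dich_half D.two_ne
    rw [D.decomp hX]
    refine Submodule.add_mem _ (Submodule.smul_mem _ _ (hG.tor _ (D.bar_co_zero hX))) ?_
    exact Submodule.sum_mem _ fun c _ => all c _
  · right
    obtain ⟨p, hp, hdvd, hpA⟩ := exists_prime (2 * D.r) (AddSubgroup.closure C) hA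
    refine ⟨p, hp, hdvd, fun h hh a ha => ?_⟩
    -- the elements of the subfield are fixed by the types
    have fixC : ∀ c ∈ C, D.σ c a = a := by
      intro c hc
      obtain ⟨k, hk⟩ := hpA c (AddSubgroup.subset_closure hc)
      unfold σ
      rw [hk, pow_mul]
      clear hk
      induction k with
      | zero => simp
      | succ k ih => rw [pow_succ, AlgEquiv.mul_apply, ha, ih]
    -- they commute with `W`
    have comW : ∀ X ∈ D.Wsp H, M F a * X = X * M F a := by
      intro X hX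
      refine D.ext_co fun c => ?_
      rw [co_M_mul, co_mul_M]
      by_cases hc0 : D.co X c = 0
      · rw [hc0, mul_zero, zero_mul]
      · by_cases hc : c = 0
        · rw [hc, σ_zero_apply, mul_comm]
        · have h1 := hG.ty_of hX hc hc0
          have h2 : c ∈ C := (memC c).2 ⟨h1, fun he hcr => hc0 (by
            rw [hcr]
            exact D.co_r_even (D.Wsp_le H hH hX) he)⟩
          rw [fixC c h2, mul_comm]
    obtain ⟨X₀, hX₀⟩ : ∃ X₀ : Module.End F E, X₀ = (h : Module.End F E) * M F a *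
      ((h⁻¹ : E ≃ₗ[F] E) : Module.End F E) := ⟨_, rfl⟩
    have com0 : ∀ Y ∈ D.Wsp H, X₀ * Y = Y * X₀ := by
      intro Y hY
      have h1 := comW _ (D.dich_stable' H hh hY)
      have h2 : (h : Module.End F E) * (M F a * (((h⁻¹ : E ≃ₗ[F] E) : Module.End F E) * Y *
          (h : Module.End F E))) * ((h⁻¹ : E ≃ₗ[F] E) : Module.End F E) =
          (h : Module.End F E) * (((h⁻¹ : E ≃ₗ[F] E) : Module.End F E) * Y *
          (h : Module.End F E) * M F a) * ((h⁻¹ : E ≃ₗ[F] E) : Module.End F E) := by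
        rw [h1]
      have e1 : (h : Module.End F E) * (M F a * (((h⁻¹ : E ≃ₗ[F] E) : Module.End F E) * Y *
          (h : Module.End F E))) * ((h⁻¹ : E ≃ₗ[F] E) : Module.End F E) =
          X₀ * Y * ((h : Module.End F E) * ((h⁻¹ : E ≃ₗ[F] E) : Module.End F E)) := by
        rw [hX₀]
        simp only [mul_assoc]
      have e2 : (h : Module.End F E) * (((h⁻¹ : E ≃ₗ[F] E) : Module.End F E) * Y *
          (h : Module.End F E) * M F a) * ((h⁻¹ : E ≃ₗ[F] E) : Module.End F E) =
          ((h : Module.End F E) * ((h⁻¹ : E ≃ₗ[F] E) : Module.End F E)) * Y * X₀ := by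
        rw [hX₀]
        simp only [mul_assoc]
      rw [e1, e2, dich_mul_inv, mul_one, one_mul] at h2
      exact h2
    have co0 : ∀ c, c ≠ 0 → D.co X₀ c = 0 := by
      intro c hc
      obtain ⟨e, he, hne⟩ := D.dich_sep c hc
      exact D.comm_M (com0 _ (hG.tor e he)) c hne
    have hb : X₀ = M F (D.co X₀ 0) := by
      refine D.ext_co fun c => ?_
      rw [co_M]
      split
      · rename_i hc
        rw [hc]
      · rename_i hc
        exact co0 c hc
    refine ⟨D.co X₀ 0, ?_, ?_⟩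
    · apply M_inj F
      rw [dich_fr_pow, M_pow, ← hb, hX₀, dich_conj_pow, ← M_pow, ← dich_fr_pow, ha]
    · rw [← hb, hX₀, mul_assoc, dich_inv_mul, mul_one]

end Dat

end Pool.Agent.H32.UD
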