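import Pool.Agent.H32.UD.Dim0
import Pool.Agent.H32.UD.Adj

/-!
# UD.DimC : the dimension of the centraliser of `M j` in the Lie algebra

PROOF. As in UD.Dim with the additional condition `co X c = 0` for odd `c` (`σ c j = (-1)^(c.val) j`; `X` commutes with `M j` iff `co X c (σ c j - j) = 0` for all `c`, `2 j ≠ 0`): the even `c` in `1..r-1` number `(r-1)/2` for odd `r` and `(r-2)/2` for even `r`; `c = r` is odd for odd `r` and gives zero for even `r`. So the dimension is `r + 2 r ((r-1)/2) = r ^ 2` for odd `r`,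
`r + 2 r ((r-2)/2) = r ^ 2 - r` for even `r`, and `2 m + r = nn r`.
-/

set_option autoImplicit false
set_option linter.unusedSectionVars false

namespace Pool.Agent.H32.UD

open Module

namespace Dat

variable {F E : Type} [Field F] [Field E] [Algebra F E] (D : Dat F E) [Finite F] [Finite E]

/-- the centraliser of `M j` in the Lie algebra -/
noncomputable def cen (j : E) : Submodule F (Module.End F E) where
  carrier := {X | X ∈ D.𝔤 ∧ X * M F j = M F j * X}
  add_mem' := by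
    rintro a b ⟨ha, ha'⟩ ⟨hb, hb'⟩
    exact ⟨add_mem ha hb, by rw [add_mul, mul_add, ha', hb']⟩
  zero_mem' := ⟨zero_mem _, by simp⟩
  smul_mem' := by
    rintro c a ⟨ha, ha'⟩
    exact ⟨D.𝔤.smul_mem c ha, by rw [smul_mul_assoc, mul_smul_comm, ha']⟩

private theorem dimC_cast_ne (m : ℕ) (h0 : 0 < m) (h1 : m < 2 * D.r) :
    ((m : ℕ) : ZMod (2 * D.r)) ≠ 0 := by
  rw [Ne, ZMod.natCast_eq_zero_iff]
  intro h
  have := Nat.le_of_dvd h0 h
  omega

private theorem dimC_cast_inj (m k : ℕ) (h0 : m < 2 * D.r) (h1 : k < 2 * D.r)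
    (h : ((m : ℕ) : ZMod (2 * D.r)) = (k : ZMod (2 * D.r))) : m = k := by
  have h2 := congrArg ZMod.val h
  rwa [ZMod.val_natCast_of_lt h0, ZMod.val_natCast_of_lt h1] at h2

private theorem dimC_cast_add (m k : ℕ) (h0 : 0 < m + k) (h1 : m + k < 2 * D.r) :
    ((m : ℕ) : ZMod (2 * D.r)) ≠ -(k : ZMod (2 * D.r)) := by
  intro h
  have h2 : ((m + k : ℕ) : ZMod (2 * D.r)) = 0 := by
    rw [Nat.cast_add, h, neg_add_cancel]
  exact D.dimC_cast_ne (m + k) h0 h1 h2

/-- the action of the powers of the Frobenius on `j` -/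
private theorem dimC_pow (j : E) (hj : fr F E j = -j) (n : ℕ) : (fr F E ^ n) j = (-1) ^ n * j := by
  induction n with
  | zero => simp
  | succ n ih =>
    rw [pow_succ', AlgEquiv.mul_apply, ih, map_mul, map_pow, map_neg, map_one, hj, pow_succ']
    ring

private theorem dimC_σ_even (j : E) (hj : fr F E j = -j) (k : ℕ) :
    D.σ ((2 * k : ℕ) : ZMod (2 * D.r)) j = j := by
  rw [D.σ_natCast, dimC_pow j hj, pow_mul]
  simp

include D in
private theorem dimC_σ_odd (j : E) (hj : fr F E j = -j) (hj0 : j ≠ 0) (k : ℕ) :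
    D.σ ((2 * k + 1 : ℕ) : ZMod (2 * D.r)) j ≠ j := by
  rw [D.σ_natCast, dimC_pow j hj, pow_succ, pow_mul]
  intro h
  have h2 : (2 : E) ≠ 0 := by
    have h : algebraMap F E 2 ≠ 0 := by
      rw [Ne, map_eq_zero]
      exact D.two_ne
    rwa [map_ofNat] at h
  have h3 : (2 : E) * j = 0 := by
    have h4 : ((-1 : E) ^ 2) ^ k * -1 * j = -j := by simp
    rw [h4] at h
    linear_combination -h
  rcases mul_eq_zero.1 h3 with h4 | h4
  · exact h2 h4
  · exact hj0 h4

private theorem dimC_S_comm (j : E) (c : ZMod (2 * D.r)) (hc : D.σ c j = j) (a : E) :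
    D.S c a * M F j = M F j * D.S c a := by
  have hc' : D.σ (-c) j = j := by
    conv_lhs => rw [← hc]
    exact D.σ_neg_apply c j
  have h1 : M F a * D.Fz c * M F j = M F j * (M F a * D.Fz c) := by
    rw [mul_assoc, D.Fz_M c j, hc, ← mul_assoc, M_comm F a j, mul_assoc]
  have h2 : D.Fz (-c) * M F (D.bar a) * M F j = M F j * (D.Fz (-c) * M F (D.bar a)) := by
    rw [mul_assoc, M_comm F (D.bar a) j, ← mul_assoc, D.Fz_M (-c) j, hc', mul_assoc]
  unfold S
  rw [sub_mul, mul_sub, smul_mul_assoc, mul_smul_comm, h1, h2]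

/-- the coordinates -/
private noncomputable def dimCF (j : E) : D.cen j →ₗ[F] D.Em × (Fin ((D.r - 1) / 2) → E) where
  toFun X := (⟨D.co X.1 0, D.bar_co_zero X.2.1⟩,
    fun i => D.co X.1 ((2 * ((i : ℕ) + 1) : ℕ) : ZMod (2 * D.r)))
  map_add' X Y := by
    refine Prod.ext (Subtype.ext ?_) (funext fun i => ?_)
    · exact D.co_add _ _ _
    · exact D.co_add _ _ _
  map_smul' a X := by
    refine Prod.ext (Subtype.ext ?_) (funext fun i => ?_)
    · exact D.co_smul _ _ _
    · exact D.co_smul _ _ _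

private theorem dimC_inj (j : E) (hj : fr F E j = -j) (hj0 : j ≠ 0) :
    Function.Injective (D.dimCF j) := by
  rw [injective_iff_map_eq_zero]
  rintro ⟨X, hX, hXc⟩ h0
  have h1 : D.co X 0 = 0 := congrArg (fun t => (t.1 : E)) h0
  have h2 : ∀ i : Fin ((D.r - 1) / 2), D.co X ((2 * ((i : ℕ) + 1) : ℕ) : ZMod (2 * D.r)) = 0 :=
    fun i => congrFun (congrArg (fun t => t.2) h0) i
  have hodd : ∀ k : ℕ, D.co X ((2 * k + 1 : ℕ) : ZMod (2 * D.r)) = 0 := fun k =>
    D.comm_M hXc _ (D.dimC_σ_odd j hj hj0 k)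
  have h4 : ∀ m : ℕ, 0 < m → m < D.r → D.co X (m : ZMod (2 * D.r)) = 0 := by
    intro m hm hm'
    obtain ⟨k, hk | hk⟩ := Nat.even_or_odd' m
    · have := h2 ⟨k - 1, by omega⟩
      rwa [show 2 * (((⟨k - 1, by omega⟩ : Fin ((D.r - 1) / 2)) : ℕ) + 1) = m by simp only; omega] at this
    · rw [hk]
      exact hodd k
  have h3 : D.co X (D.r : ZMod (2 * D.r)) = 0 := by
    obtain ⟨k, hk | hk⟩ := Nat.even_or_odd' D.r
    · exact D.co_r_even hX ⟨k, by omega⟩
    · have h5 := hodd k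
      rwa [← hk] at h5
  apply Subtype.ext
  change X = 0
  apply D.ext_co
  intro c
  rw [D.co_zero]
  have hc : c = ((c.val : ℕ) : ZMod (2 * D.r)) := (ZMod.natCast_zmod_val c).symm
  have hlt := ZMod.val_lt c
  rcases Nat.eq_zero_or_pos c.val with h5 | h5
  · rw [hc, h5, Nat.cast_zero]
    exact h1
  · rcases lt_trichotomy c.val D.r with h6 | h6 | h6
    · rw [hc]
      exact h4 _ h5 h6
    · rw [hc, h6]
      exact h3
    · have h7 := h4 (2 * D.r - c.val) (by omega) (by omega)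
      have h8 : c = -((2 * D.r - c.val : ℕ) : ZMod (2 * D.r)) := by
        rw [eq_neg_iff_add_eq_zero]
        conv_lhs => rw [hc]
        rw [ZMod.val_natCast_of_lt hlt, ← Nat.cast_add, show c.val + (2 * D.r - c.val) = 2 * D.r by omega]
        exact ZMod.natCast_self _
      rw [h8, (D.mem_iff X).1 hX, h7]
      simp

private theorem dimC_surj (j : E) (hj : fr F E j = -j) : Function.Surjective (D.dimCF j) := by
  rintro ⟨⟨e, he⟩, a⟩
  have hr := D.four_le
  set X : Module.End F E := M F e + ∑ i : Fin ((D.r - 1) / 2),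
    D.S ((2 * ((i : ℕ) + 1) : ℕ) : ZMod (2 * D.r)) (a i) with hXd
  have hX : X ∈ D.𝔤 := by
    rw [hXd]
    exact add_mem (D.M_mem_𝔤 he) (sum_mem fun i _ => D.S_mem _ _)
  have hXc : X * M F j = M F j * X := by
    rw [hXd, add_mul, mul_add, Finset.sum_mul, Finset.mul_sum, M_comm F e j]
    congr 1
    exact Finset.sum_congr rfl fun i _ => D.dimC_S_comm j _ (D.dimC_σ_even j hj _) _
  have hco_sum : ∀ (f : Fin ((D.r - 1) / 2) → Module.End F E) (c : ZMod (2 * D.r)),
      D.co (∑ i, f i) c = ∑ i, D.co (f i) c := by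
    intro f c
    have h := map_sum (AddMonoidHom.mk' (fun Y : Module.End F E => D.co Y c)
      (fun Y Z => D.co_add Y Z c)) f Finset.univ
    exact h
  have hco : ∀ c, D.co X c = (if c = 0 then e else 0) +
      ∑ i : Fin ((D.r - 1) / 2), ((if c = ((2 * ((i : ℕ) + 1) : ℕ) : ZMod (2 * D.r)) then a i else 0) -
        (if c = -((2 * ((i : ℕ) + 1) : ℕ) : ZMod (2 * D.r)) then
          D.sg ((2 * ((i : ℕ) + 1) : ℕ) : ZMod (2 * D.r)) •
          D.σ (-((2 * ((i : ℕ) + 1) : ℕ) : ZMod (2 * D.r))) (D.bar (a i)) else 0)) := by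
    intro c
    rw [hXd, D.co_add, D.co_M, hco_sum]
    congr 1
    exact Finset.sum_congr rfl fun i _ => D.co_S _ _ _
  refine ⟨⟨X, hX, hXc⟩, Prod.ext (Subtype.ext ?_) (funext fun i0 => ?_)⟩
  · change D.co X 0 = e
    rw [hco, if_pos rfl, Finset.sum_eq_zero, add_zero]
    intro i _
    have hi := i.2
    have h3 := D.dimC_cast_ne (2 * ((i : ℕ) + 1)) (by omega) (by omega)
    rw [if_neg h3.symm, if_neg (fun h => h3 (neg_eq_zero.1 h.symm)), sub_zero]
  · change D.co X ((2 * ((i0 : ℕ) + 1) : ℕ) : ZMod (2 * D.r)) = a i0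
    have hj0 := i0.2
    have h3 := D.dimC_cast_ne (2 * ((i0 : ℕ) + 1)) (by omega) (by omega)
    rw [hco, if_neg h3, zero_add, Finset.sum_eq_single i0]
    · rw [if_pos rfl, if_neg (D.dimC_cast_add _ _ (by omega) (by omega)), sub_zero]
    · intro i _ hij
      have hi := i.2
      rw [if_neg, if_neg (D.dimC_cast_add _ _ (by omega) (by omega)), sub_zero]
      intro h
      have := D.dimC_cast_inj _ _ (by omega) (by omega) h
      exact hij (Fin.ext (by omega))
    · intro h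
      exact absurd (Finset.mem_univ i0) h

theorem dim_cent (j : E) (hj : fr F E j = -j) (hj0 : j ≠ 0) :
    2 * finrank F (D.cen j) + D.r = nn D.r := by
  have h1 := (LinearEquiv.ofBijective (D.dimCF j) ⟨D.dimC_inj j hj hj0, D.dimC_surj j hj⟩).finrank_eq
  rw [h1, finrank_prod, D.dim_Em, finrank_pi_fintype]
  simp only [D.fin, Finset.sum_const, Finset.card_univ, Fintype.card_fin, smul_eq_mul]
  have hr := D.four_le
  unfold nn
  obtain ⟨k, hk | hk⟩ := Nat.even_or_odd' D.r
  · rw [if_pos ⟨k, by omega⟩, hk, show (2 * k - 1) / 2 = k - 1 by omega]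
    obtain ⟨l, rfl⟩ : ∃ l, k = l + 1 := ⟨k - 1, by omega⟩
    rw [Nat.add_sub_cancel]
    have : 2 * (2 * (l + 1)) ^ 2 = 2 * (2 * (l + 1) + l * (2 * (2 * (l + 1)))) + 2 * (l + 1) + 2 * (l + 1) := by ring
    omega
  · rw [if_neg (by rw [Nat.not_even_iff_odd]; exact ⟨k, hk⟩), hk, show (2 * k + 1 - 1) / 2 = k by omega]
    ring

end Dat

end Pool.Agent.H32.UD
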