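import Pool.Agent.H32.UD.Gcd
import Pool.Agent.H24.UD.Fin

/-!
# UD.Idx : subgroups of bounded index (block E, helper24)
-/

set_option autoImplicit false

namespace Pool.Agent.H32.UD

open Module

theorem bounded_index (r C : ℕ) : ∃ q0 : ℕ, ∀ (F E : Type) [Field F] [Field E] [Algebra F E] [Finite F]
    [Finite E] (D : Dat F E), D.r = r → q0 ≤ Nat.card F → ∀ H : Subgroup (E ≃ₗ[F] E), H ≤ D.G →
    Nat.card D.G ≤ C * Nat.card H → ⁅D.G, D.G⁆ ≤ H ∧ (Odd D.r → H = D.G) :=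
  Pool.Agent.H24.UD.bounded_index r C

end Pool.Agent.H32.UD
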