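import Pool.Agent.H32.UD.Low
import Pool.Agent.H32.UD.Upp
import Pool.Agent.H32.UD.Idx

/-!
# UD.Ovg : the overgroups of the torus

PROOF. `dichotomy` (for `q ≥ 10`): either `H` normalises a subfield or `Wsp H = 𝔤`. In the second case `lower` gives `q^(nn r) ≤ C₁ card H`, `upper` gives `card G ≤ C₂ q^(nn r)`, so `card G ≤ C₁ C₂ card H` and `bounded_index r (C₁ C₂)` applies. `q0` = maximum of the bounds.
-/

set_option autoImplicit false

namespace Pool.Agent.H32.UD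

open Module

theorem overgroups (r : ℕ) : ∃ q0 : ℕ, ∀ (F E : Type) [Field F] [Field E] [Algebra F E] [Finite F]
    [Finite E] (D : Dat F E), D.r = r → q0 ≤ Nat.card F → ∀ H : Subgroup (E ≃ₗ[F] E), H ≤ D.G → D.HasT H →
    (∃ p : ℕ, p.Prime ∧ p ∣ 2 * r ∧ ∀ h ∈ H, Dat.Nor p h) ∨ (⁅D.G, D.G⁆ ≤ H ∧ (Odd D.r → H = D.G)) := by
  obtain ⟨C1, q1, h1⟩ := lower r
  obtain ⟨C2, h2⟩ := upper r
  obtain ⟨q2, h3⟩ := bounded_index r (C2 * C1)
  refine ⟨max 10 (max q1 q2), fun F E _ _ _ _ _ D hr hq H hH hT => ?_⟩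
  have hq10 : 10 ≤ Nat.card F := (le_max_left _ _).trans hq
  have hq1 : q1 ≤ Nat.card F := ((le_max_left _ _).trans (le_max_right _ _)).trans hq
  have hq2 : q2 ≤ Nat.card F := ((le_max_right _ _).trans (le_max_right _ _)).trans hq
  rcases D.dichotomy hq10 H hH hT with hW | ⟨p, hp, hd, hN⟩
  · refine Or.inr (h3 F E D hr hq2 H hH ?_)
    have a1 := h1 F E D hr hq1 H hH hT hW
    have a2 := h2 F E D hr
    calc Nat.card D.G ≤ C2 * Nat.card F ^ nn r := a2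
      _ ≤ C2 * (C1 * Nat.card H) := Nat.mul_le_mul_left _ a1
      _ = C2 * C1 * Nat.card H := (mul_assoc _ _ _).symm
  · exact Or.inl ⟨p, hp, hr ▸ hd, hN⟩

end Pool.Agent.H32.UD
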