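import Pool.Agent.H32.UD.Dcx
import Pool.Agent.H32.UD.Ovg

/-!
# UD.ExA : many good elements, odd `r`

PROOF. `comm_eq`: `H = ⁅G, G⁆` has order `≥ q^(nn r) / C₁` (`comm_card`) and `card G ≤ C₂ q^(nn r)` (`upper`), so `bounded_index` gives `H = G` for odd `r`. `good_odd`: `j` from `exists_j`; `ι = {β // AdmA j β}`, `h β` from `two_odd` (`(h β : End) = hb j β`, `h β ∈ Cay`, so in `G = ⁅G, G⁆` and in `Gc`). `hfib` with `K = 4 r`: `h β' = a h β b` with `a, b` commuting with `M j`; then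
`tr (h β') = a tr (h β) a⁻¹` for `tr h = M j (h M j h⁻¹) + (h M j h⁻¹) M j`, and `tr_odd` gives `M (2 j² - β'²) a = a M (2 j² - β²)`: `finA` (the map `i' ↦ β'` is injective). `dcx`, `cntA`, `cj_card`, `dim_cent`: `(q^r / 4) (q^m / C₃)² ≤ 8 r card`, `2 m + r = nn r`.
-/

set_option autoImplicit false

namespace Pool.Agent.H32.UD

open Module

theorem comm_eq (r : ℕ) : ∃ q0 : ℕ, ∀ (F E : Type) [Field F] [Field E] [Algebra F E] [Finite F]
    [Finite E] (D : Dat F E), D.r = r → q0 ≤ Nat.card F → Odd r → ⁅D.G, D.G⁆ = D.G := by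
  obtain ⟨C₁, q1, h1⟩ := comm_card r
  obtain ⟨C₂, h2⟩ := upper r
  obtain ⟨q2, h3⟩ := bounded_index r (C₂ * C₁)
  refine ⟨max q1 q2, ?_⟩
  intro F E _ _ _ _ _ D hDr hq hr
  have e1 := h1 F E D hDr ((le_max_left _ _).trans hq)
  have e2 := h2 F E D hDr
  have e3 : Nat.card D.G ≤ C₂ * C₁ * Nat.card (⁅D.G, D.G⁆ : Subgroup (E ≃ₗ[F] E)) := by
    rw [mul_assoc]
    exact e2.trans (Nat.mul_le_mul_left _ e1)
  have hle : (⁅D.G, D.G⁆ : Subgroup (E ≃ₗ[F] E)) ≤ D.G := by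
    rw [Subgroup.commutator_le]
    intro a ha b hb
    exact D.G.mul_mem (D.G.mul_mem (D.G.mul_mem ha hb) (D.G.inv_mem ha)) (D.G.inv_mem hb)
  exact (h3 F E D hDr ((le_max_right _ _).trans hq) _ hle e3).2 (hDr ▸ hr)

private theorem exA_ring {R : Type} [Ring R] (J a a' h h' b b' g g' : R) (ha'a : a' * a = 1)
    (hbb' : b * b' = 1) (hg : g = a * h * b) (hg' : g' = b' * h' * a')
    (haJ : a * J = J * a) (hbJ : b * J = J * b) :
    (J * (g * J * g') + (g * J * g') * J) * a = a * (J * (h * J * h') + (h * J * h') * J) := by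
  have e1 : g * J * g' = a * (h * J * h') * a' := by
    calc g * J * g' = a * h * (b * J) * b' * h' * a' := by rw [hg, hg']; noncomm_ring
      _ = a * h * J * (b * b') * h' * a' := by rw [hbJ]; noncomm_ring
      _ = a * (h * J * h') * a' := by rw [hbb']; noncomm_ring
  rw [e1]
  calc (J * (a * (h * J * h') * a') + a * (h * J * h') * a' * J) * a
      = (J * a) * (h * J * h') * (a' * a) + a * (h * J * h') * a' * (J * a) := by noncomm_ring
    _ = (a * J) * (h * J * h') * 1 + a * (h * J * h') * a' * (a * J) := by rw [ha'a, haJ]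
    _ = (a * J) * (h * J * h') + a * (h * J * h') * (a' * a) * J := by noncomm_ring
    _ = a * (J * (h * J * h') + (h * J * h') * J) := by rw [ha'a]; noncomm_ring

private theorem exA_coe {F E : Type} [Field F] [Field E] [Algebra F E] (a b : E ≃ₗ[F] E) :
    ((a * b : E ≃ₗ[F] E) : Module.End F E) = (a : Module.End F E) * (b : Module.End F E) := rfl

private theorem exA_inv {F E : Type} [Field F] [Field E] [Algebra F E] (a : E ≃ₗ[F] E) :
    (a : Module.End F E) * ((a⁻¹ : E ≃ₗ[F] E) : Module.End F E) = 1 := by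
  rw [← exA_coe, mul_inv_cancel]
  rfl

private theorem exA_inv' {F E : Type} [Field F] [Field E] [Algebra F E] (a : E ≃ₗ[F] E) :
    ((a⁻¹ : E ≃ₗ[F] E) : Module.End F E) * (a : Module.End F E) = 1 := by
  rw [← exA_coe, inv_mul_cancel]
  rfl

theorem good_odd (r : ℕ) (hr4 : 4 ≤ r) (hr : Odd r) : ∃ C q0 : ℕ, ∀ (F E : Type) [Field F] [Field E]
    [Algebra F E] [Finite F] [Finite E] (D : Dat F E), D.r = r → q0 ≤ Nat.card F →
    Nat.card F ^ nn r ≤ C * Nat.card {g : E ≃ₗ[F] E //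
      g ∈ (⁅D.G, D.G⁆ ⊓ D.Gc : Subgroup (E ≃ₗ[F] E)) ∧ D.Triv 2 2 g} := by
  obtain ⟨qa, ha⟩ := cntA r hr4 hr
  obtain ⟨C₃, qb, hb⟩ := cj_card r
  obtain ⟨qc, hc⟩ := comm_eq r
  refine ⟨32 * r * C₃ ^ 2, max qa (max qb qc), ?_⟩
  intro F E _ _ _ _ _ D hDr hq
  obtain ⟨j, hj, hj0⟩ := exists_j D
  have hcnt := ha F E D hDr ((le_max_left _ _).trans hq) j hj hj0
  have hcj := hb F E D hDr (((le_max_left _ _).trans (le_max_right _ _)).trans hq) j hj hj0
  have hG := hc F E D hDr (((le_max_right _ _).trans (le_max_right _ _)).trans hq) hr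
  have hdim := D.dim_cent j hj hj0
  rw [hDr] at hdim
  have hr' : Odd D.r := hDr ▸ hr
  have hex : ∀ β : {β : E // D.AdmA j β}, ∃ h : E ≃ₗ[F] E,
      (h : Module.End F E) = D.hb j β ∧ h ∈ D.Cay ∧ D.Triv 2 2 h := fun β =>
    D.two_odd hr' j β hj hj0 β.2.1 β.2.2.1 β.2.2.2
  choose h hh hCay hTriv using hex
  have hmem : ∀ i, h i ∈ (⁅D.G, D.G⁆ ⊓ D.Gc : Subgroup (E ≃ₗ[F] E)) := by
    intro i
    refine ⟨?_, Subgroup.subset_closure (hCay i)⟩
    rw [hG]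
    exact (hCay i).1
  have hfib : ∀ i, Nat.card {i' : {β : E // D.AdmA j β} //
      ∃ a ∈ D.CJ j, ∃ b ∈ D.CJ j, h i' = a * h i * b} ≤ 4 * D.r := by
    intro i
    have hinj : ∀ i' : {β : E // D.AdmA j β}, (∃ a ∈ D.CJ j, ∃ b ∈ D.CJ j, h i' = a * h i * b) →
        ∃ a : E ≃ₗ[F] E, M F (2 * j ^ 2 - (i' : E) ^ 2) * (a : Module.End F E) =
          (a : Module.End F E) * M F (2 * j ^ 2 - (i : E) ^ 2) := by
      rintro i' ⟨a, ha1, b, hb1, hab⟩
      refine ⟨a, ?_⟩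
      rw [← D.tr_odd hr' j i' hj hj0 i'.2.1 (h i') (hh i'),
        ← D.tr_odd hr' j i hj hj0 i.2.1 (h i) (hh i)]
      refine exA_ring _ _ ((a⁻¹ : E ≃ₗ[F] E) : Module.End F E) _ _ (b : Module.End F E)
        ((b⁻¹ : E ≃ₗ[F] E) : Module.End F E) _ _ (exA_inv' a) (exA_inv b) ?_ ?_ ha1.2 hb1.2
      · rw [hab, exA_coe, exA_coe]
      · rw [hab, mul_inv_rev, mul_inv_rev, exA_coe, exA_coe, mul_assoc]
    refine le_trans ?_ (D.finA j i hj)
    refine Nat.card_le_card_of_injective (fun i' => ⟨((i' : {β : E // D.AdmA j β}) : E), hinj i'.1 i'.2⟩) ?_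
    intro x y hxy
    apply Subtype.ext
    apply Subtype.ext
    exact congrArg (fun z => (z.1 : E)) hxy
  have key := dcx D j hj hj0 h (4 * D.r) hmem hTriv hfib
  rw [hDr] at key
  set X := Nat.card {g : E ≃ₗ[F] E //
    g ∈ (⁅D.G, D.G⁆ ⊓ D.Gc : Subgroup (E ≃ₗ[F] E)) ∧ D.Triv 2 2 g} with hX
  set m := finrank F (D.cen j) with hm
  have e1 : Nat.card F ^ nn r = Nat.card F ^ r * (Nat.card F ^ m) ^ 2 := by
    rw [← pow_mul, ← pow_add]
    congr 1
    omega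
  rw [e1]
  calc Nat.card F ^ r * (Nat.card F ^ m) ^ 2
      ≤ (4 * Nat.card {β : E // D.AdmA j β}) * (C₃ * Nat.card (D.CJ j)) ^ 2 :=
        Nat.mul_le_mul hcnt (Nat.pow_le_pow_left hcj 2)
    _ = 4 * C₃ ^ 2 * (Nat.card {β : E // D.AdmA j β} * Nat.card (D.CJ j) ^ 2) := by ring
    _ ≤ 4 * C₃ ^ 2 * (2 * (4 * r) * X) := Nat.mul_le_mul_left _ key
    _ = 32 * r * C₃ ^ 2 * X := by ring

end Pool.Agent.H32.UD
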