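import Pool.Agent.H32.UD.Dcx

/-!
# UD.ExB : many good elements, even `r`

PROOF. `j` from `exists_j`, `th` from `exists_th`; `ι = {w // AdmB w}`, `h w = th * mu F w * th⁻¹`. `w = v²` with `v bar v = 1`, so `mu w ∈ ⁅G, G⁆` (`hasT_comm`) and `h w ∈ ⁅G, G⁆` as `⁅G, G⁆` is normal in `G ∋ th`; `h w ∈ Cay ⊆ Gc` and `Triv 2 2 (h w)` by `two_even`. `hfib` with `K = 4 r`: `h w' = a h w b` with `a, b` commuting with `M j`: `tr (h w') = a tr (h w) a⁻¹`,
and by `tr_even` `M (j² tt w')` and `M (j² tt w)` are conjugate by `th⁻¹ a th`: `finB`. `dcx`, `cntB`, `cj_card`, `dim_cent`: `(q^r / 4) (q^m / C₃)² ≤ 8 r card`, `2 m + r = nn r`.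
-/

set_option autoImplicit false

namespace Pool.Agent.H32.UD

open Module

private theorem ExB_coe_mul {F E : Type} [Field F] [Field E] [Algebra F E] (a b : E ≃ₗ[F] E) :
    ((a * b : E ≃ₗ[F] E) : Module.End F E) = (a : Module.End F E) * (b : Module.End F E) := rfl

private theorem ExB_mul_inv {F E : Type} [Field F] [Field E] [Algebra F E] (a : E ≃ₗ[F] E) :
    (a : Module.End F E) * ((a⁻¹ : E ≃ₗ[F] E) : Module.End F E) = 1 := by
  rw [← ExB_coe_mul, mul_inv_cancel]; rfl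

private theorem ExB_inv_mul {F E : Type} [Field F] [Field E] [Algebra F E] (a : E ≃ₗ[F] E) :
    ((a⁻¹ : E ≃ₗ[F] E) : Module.End F E) * (a : Module.End F E) = 1 := by
  rw [← ExB_coe_mul, inv_mul_cancel]; rfl

/-- pure algebra: the trace of `a h b` when `a`, `b` commute with `J` -/
private theorem ExB_alg {R : Type} [Ring R] (J A A' B B' H H' : R) (hA : A * A' = 1)
    (hA' : A' * A = 1) (hB : B * B' = 1) (hAJ : A * J = J * A) (hBJ : B * J = J * B) :
    J * ((A * H * B) * J * (B' * H' * A')) + ((A * H * B) * J * (B' * H' * A')) * J =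
      A * (J * (H * J * H') + (H * J * H') * J) * A' := by
  have h1 : (A * H * B) * J * (B' * H' * A') = A * (H * J * H') * A' := by
    calc (A * H * B) * J * (B' * H' * A') = A * H * (B * J) * B' * H' * A' := by noncomm_ring
      _ = A * H * J * (B * B') * H' * A' := by rw [hBJ]; noncomm_ring
      _ = _ := by rw [hB]; noncomm_ring
  have h2 : A' * J = J * A' := by
    calc A' * J = A' * J * (A * A') := by rw [hA, mul_one]
      _ = A' * (J * A) * A' := by noncomm_ring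
      _ = A' * A * J * A' := by rw [← hAJ]; noncomm_ring
      _ = J * A' := by rw [hA', one_mul]
  rw [h1]
  calc J * (A * (H * J * H') * A') + A * (H * J * H') * A' * J
      = (J * A) * (H * J * H') * A' + A * (H * J * H') * (A' * J) := by noncomm_ring
    _ = A * (J * (H * J * H') + (H * J * H') * J) * A' := by rw [← hAJ, h2]; noncomm_ring

private theorem ExB_conj {F E : Type} [Field F] [Field E] [Algebra F E] [Finite F] [Finite E] (D : Dat F E)
    (hr : Even D.r) (j : E) (hj : fr F E j = -j) (th : E ≃ₗ[F] E) (hth : (th : Module.End F E) = D.thE)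
    (w w' : Eˣ) (hw : (w : E) * D.bar w = 1) (hw' : (w' : E) * D.bar w' = 1) (a b : E ≃ₗ[F] E)
    (ha : (a : Module.End F E) * M F j = M F j * (a : Module.End F E))
    (hb : (b : Module.End F E) * M F j = M F j * (b : Module.End F E))
    (h : th * mu F w' * th⁻¹ = a * (th * mu F w * th⁻¹) * b) :
    M F (j ^ 2 * Dat.tt w') * ((th⁻¹ * a * th : E ≃ₗ[F] E) : Module.End F E) =
      ((th⁻¹ * a * th : E ≃ₗ[F] E) : Module.End F E) * M F (j ^ 2 * Dat.tt w) := by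
  have t1 := D.tr_even hr th hth w hw j hj _ rfl
  have t2 := D.tr_even hr th hth w' hw' j hj _ rfl
  rw [h] at t2
  set H := th * mu F w * th⁻¹ with hH
  have e1 : ((a * H * b : E ≃ₗ[F] E) : Module.End F E) =
      (a : Module.End F E) * (H : Module.End F E) * (b : Module.End F E) := rfl
  have e2 : (((a * H * b)⁻¹ : E ≃ₗ[F] E) : Module.End F E) =
      ((b⁻¹ : E ≃ₗ[F] E) : Module.End F E) * ((H⁻¹ : E ≃ₗ[F] E) : Module.End F E) *
        ((a⁻¹ : E ≃ₗ[F] E) : Module.End F E) := by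
    rw [mul_inv_rev, mul_inv_rev, ← mul_assoc]; rfl
  rw [e1, e2, ExB_alg _ _ _ _ _ _ _ (ExB_mul_inv a) (ExB_inv_mul a) (ExB_mul_inv b) ha hb, t1] at t2
  have e3 : ((th⁻¹ * a * th : E ≃ₗ[F] E) : Module.End F E) =
      ((th⁻¹ : E ≃ₗ[F] E) : Module.End F E) * (a : Module.End F E) * (th : Module.End F E) := rfl
  have hT := ExB_mul_inv th
  have hT' := ExB_inv_mul th
  have hA := ExB_inv_mul a
  rw [e3]
  show M F (j ^ 2 * ((w' : E) ^ 2 + ((w'⁻¹ : Eˣ) : E) ^ 2)) * _ = _ * M F (j ^ 2 * ((w : E) ^ 2 + ((w⁻¹ : Eˣ) : E) ^ 2))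
  generalize M F (j ^ 2 * ((w' : E) ^ 2 + ((w'⁻¹ : Eˣ) : E) ^ 2)) = X' at t2 ⊢
  generalize M F (j ^ 2 * ((w : E) ^ 2 + ((w⁻¹ : Eˣ) : E) ^ 2)) = X at t2 ⊢
  generalize (th : Module.End F E) = T at t2 hT hT' ⊢
  generalize ((th⁻¹ : E ≃ₗ[F] E) : Module.End F E) = T' at t2 hT hT' ⊢
  generalize (a : Module.End F E) = A at t2 hA ⊢
  generalize ((a⁻¹ : E ≃ₗ[F] E) : Module.End F E) = A' at t2 hA
  calc X' * (T' * A * T) = (T' * T) * X' * T' * A * T := by rw [hT']; noncomm_ring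
    _ = T' * (T * X' * T') * A * T := by noncomm_ring
    _ = T' * (A * (T * X * T') * A') * A * T := by rw [← t2]
    _ = T' * A * T * X * T' * (A' * A) * T := by noncomm_ring
    _ = T' * A * T * X * (T' * T) := by rw [hA]; noncomm_ring
    _ = T' * A * T * X := by rw [hT', mul_one]

private theorem ExB_T2 {F E : Type} [Field F] [Field E] [Algebra F E] [Finite F] [Finite E] (D : Dat F E)
    {w : Eˣ} (hw : w ∈ D.T2) : (w : E) * D.bar w = 1 := by
  obtain ⟨v, hv, rfl⟩ := hw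
  rw [Units.val_pow_eq_pow_val, map_pow, ← mul_pow, hv, one_pow]

theorem good_even (r : ℕ) (hr4 : 4 ≤ r) (hr : Even r) : ∃ C q0 : ℕ, ∀ (F E : Type) [Field F] [Field E]
    [Algebra F E] [Finite F] [Finite E] (D : Dat F E), D.r = r → q0 ≤ Nat.card F →
    Nat.card F ^ nn r ≤ C * Nat.card {g : E ≃ₗ[F] E //
      g ∈ (⁅D.G, D.G⁆ ⊓ D.Gc : Subgroup (E ≃ₗ[F] E)) ∧ D.Triv 2 2 g} := by
  obtain ⟨q1, hq1⟩ := cntB r hr4 hr
  obtain ⟨C3, q2, hq2⟩ := cj_card r
  refine ⟨32 * r * C3 ^ 2, max q1 q2, ?_⟩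
  intro F E _ _ _ _ _ D hD hq
  have hrD : Even D.r := by rw [hD]; exact hr
  obtain ⟨j, hj, hj0⟩ := exists_j D
  obtain ⟨th, hth, hthG⟩ := D.exists_th hrD
  have c1 := hq1 F E D hD ((le_max_left _ _).trans hq)
  have c2 := hq2 F E D hD ((le_max_right _ _).trans hq) j hj hj0
  have c3 := D.dim_cent j hj hj0
  have hfin : Finite Eˣ := inferInstance
  have c4 := dcx D j hj hj0 (ι := {w : Eˣ // D.AdmB w}) (fun w => th * mu F w.1 * th⁻¹) (4 * D.r) ?_ ?_ ?_
  · set G := Nat.card {g : E ≃ₗ[F] E // g ∈ (⁅D.G, D.G⁆ ⊓ D.Gc : Subgroup (E ≃ₗ[F] E)) ∧ D.Triv 2 2 g}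
    set I := Nat.card {w : Eˣ // D.AdmB w}
    set J := Nat.card (D.CJ j)
    rw [hD] at c3 c4
    calc Nat.card F ^ nn r = (Nat.card F ^ finrank F (D.cen j)) ^ 2 * Nat.card F ^ r := by
          rw [← c3, pow_add, ← pow_mul, mul_comm (finrank F (D.cen j)) 2]
      _ ≤ (C3 * J) ^ 2 * (4 * I) := Nat.mul_le_mul (Nat.pow_le_pow_left c2 2) c1
      _ = 4 * C3 ^ 2 * (I * J ^ 2) := by ring
      _ ≤ 4 * C3 ^ 2 * (2 * (4 * r) * G) := Nat.mul_le_mul le_rfl c4
      _ = 32 * r * C3 ^ 2 * G := by ring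
  · rintro ⟨w, hw⟩
    refine Subgroup.mem_inf.2 ⟨?_, ?_⟩
    · have hwT := hw.1
      obtain ⟨v, hv, rfl⟩ := hw.1
      have hm : mu F (v ^ 2) ∈ (⁅D.G, D.G⁆ : Subgroup (E ≃ₗ[F] E)) := D.hasT_comm v hv
      have hm' : mu F (v ^ 2) ∈ D.G := D.mu_mem_G (ExB_T2 D hwT)
      have hc : th * mu F (v ^ 2) * th⁻¹ * (mu F (v ^ 2))⁻¹ ∈ (⁅D.G, D.G⁆ : Subgroup (E ≃ₗ[F] E)) :=
        Subgroup.commutator_mem_commutator hthG hm'
      have he : th * mu F (v ^ 2) * th⁻¹ = th * mu F (v ^ 2) * th⁻¹ * (mu F (v ^ 2))⁻¹ * mu F (v ^ 2) := by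
        group
      show th * mu F (v ^ 2) * th⁻¹ ∈ _
      rw [he]
      exact mul_mem hc hm
    · exact Subgroup.subset_closure (D.two_even hrD th hth w (ExB_T2 D hw.1) hw.2.1 hw.2.2).1
  · rintro ⟨w, hw⟩
    exact (D.two_even hrD th hth w (ExB_T2 D hw.1) hw.2.1 hw.2.2).2
  · rintro ⟨w, hw⟩
    refine le_trans ?_ (D.finB hrD j hj hj0 w hw.1)
    refine Nat.card_le_card_of_injective (fun x => ⟨x.1.1, x.1.2.1, ?_⟩) ?_
    · obtain ⟨a, ha, b, hb, h⟩ := x.2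
      exact ⟨th⁻¹ * a * th, ExB_conj D hrD j hj th hth w x.1.1 (ExB_T2 D hw.1) (ExB_T2 D x.1.2.1)
        a b ha.2 hb.2 h⟩
    · intro x y hxy
      apply Subtype.ext
      apply Subtype.ext
      have h := congrArg Subtype.val hxy
      exact h

end Pool.Agent.H32.UD
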