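import Pool.Agent.H32.UD.Bas

/-!
# UD.Exd : existence of the field model

PROOF. `E` = an extension of `F` of degree `2 r` (`FiniteField.Extension` in `Mathlib.FieldTheory.Finite.Extension`, or a splitting field of `X^(q^(2r)) - X`; it has to be a `Type`). Even `r`: `δ = 1`. Odd `r`: `δ = x - x^q` for an `x` in the subfield with `q²` elements outside `F` (`x^(q²) = x`, `x^q ≠ x`; exists because the polynomial `X^(q²) - X` divides
`X^(q^(2r)) - X` and has `q²` roots; or with a generator `γ` of `Eˣ`: `δ = γ^((q^(2r) - 1)/(2 (q - 1)))`, `δ^(q-1) = γ^((q^(2r) - 1)/2) = -1`, where `2 (q - 1) ∣ q^(2r) - 1`). `2 ≠ 0` as `q` is odd.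
-/

set_option autoImplicit false

namespace Pool.Agent.H32.UD

open Module

private lemma exd_two {F : Type} [Field F] [Finite F] (hodd : Odd (Nat.card F)) : (2 : F) ≠ 0 := by
  intro h
  have h1 : addOrderOf (1 : F) ∣ 2 := by
    rw [addOrderOf_dvd_iff_nsmul_eq_zero, nsmul_eq_mul, mul_one]
    exact_mod_cast h
  have h2 : addOrderOf (1 : F) ≠ 1 := by
    rw [Ne, AddMonoid.addOrderOf_eq_one_iff]
    exact one_ne_zero
  have h3 : addOrderOf (1 : F) = 2 := ((Nat.dvd_prime Nat.prime_two).1 h1).resolve_left h2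
  have h4 : addOrderOf (1 : F) ∣ Nat.card F := addOrderOf_dvd_natCard _
  rw [h3] at h4
  exact (Nat.not_even_iff_odd.2 hodd) (even_iff_two_dvd.2 h4)

private lemma exd_dvd {q r : ℕ} (hq : Odd q) : 2 * (q - 1) ∣ q ^ (2 * r) - 1 := by
  have h1 : q ^ 2 - 1 ∣ q ^ (2 * r) - 1 := by
    rw [pow_mul]
    have := Nat.sub_dvd_pow_sub_pow (q ^ 2) 1 r
    rwa [one_pow] at this
  have h2 : q ^ 2 - 1 = (q + 1) * (q - 1) := by
    have := Nat.sq_sub_sq q 1
    rwa [one_pow] at this
  have h3 : 2 ∣ q + 1 := (hq.add_odd odd_one).two_dvd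
  refine dvd_trans ?_ h1
  rw [h2]
  exact Nat.mul_dvd_mul_right h3 _

private lemma exd_delta {E : Type} [Field E] [Finite E] {q r : ℕ} (hq : Odd q) (hq1 : 1 < q) (hr : 0 < r)
    (hc : Nat.card E = q ^ (2 * r)) : ∃ δ : E, δ ≠ 0 ∧ δ ^ q = -δ := by
  obtain ⟨g, hg⟩ := IsCyclic.exists_generator (α := Eˣ)
  have ho : orderOf g = q ^ (2 * r) - 1 := by
    rw [orderOf_eq_card_of_forall_mem_zpowers hg, Nat.card_units, hc]
  obtain ⟨s, hs⟩ := exd_dvd (r := r) hq
  have hq2 : 0 < q - 1 := by omega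
  have hN : 0 < q ^ (2 * r) - 1 := by
    have : 1 < q ^ (2 * r) := Nat.one_lt_pow (by omega) hq1
    omega
  have h1 : ((g : E) ^ (s * (q - 1))) ^ 2 = 1 := by
    rw [← pow_mul]
    have e : s * (q - 1) * 2 = q ^ (2 * r) - 1 := by rw [hs]; ring
    rw [e, ← ho, ← Units.val_pow_eq_pow_val, pow_orderOf_eq_one, Units.val_one]
  have h2 : (g : E) ^ (s * (q - 1)) ≠ 1 := by
    intro h
    have h3 : g ^ (s * (q - 1)) = 1 := by
      apply Units.ext
      rw [Units.val_pow_eq_pow_val, h, Units.val_one]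
    have h4 := orderOf_dvd_of_pow_eq_one h3
    rw [ho] at h4
    have h5 : 0 < s * (q - 1) := by
      rcases Nat.eq_zero_or_pos (s * (q - 1)) with h0 | h0
      · exfalso
        have : q ^ (2 * r) - 1 = 0 := by
          rw [hs]
          calc 2 * (q - 1) * s = 2 * (s * (q - 1)) := by ring
            _ = 0 := by rw [h0]
        omega
      · exact h0
    have h6 := Nat.le_of_dvd h5 h4
    have h7 : q ^ (2 * r) - 1 = 2 * (s * (q - 1)) := by rw [hs]; ring
    omega
  have h3 : (g : E) ^ (s * (q - 1)) = -1 := by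
    rcases sq_eq_one_iff.1 h1 with h | h
    · exact absurd h h2
    · exact h
  refine ⟨(g : E) ^ s, pow_ne_zero _ g.ne_zero, ?_⟩
  have e : q = (q - 1) + 1 := by omega
  calc ((g : E) ^ s) ^ q = ((g : E) ^ s) ^ ((q - 1) + 1) := by rw [← e]
    _ = (g : E) ^ (s * (q - 1)) * (g : E) ^ s := by rw [pow_succ, ← pow_mul]
    _ = -(g : E) ^ s := by rw [h3]; ring

theorem exists_dat (F : Type) [Field F] [Finite F] (hodd : Odd (Nat.card F)) (r : ℕ) (hr : 4 ≤ r) :
    ∃ (E : Type) (_ : Field E) (_ : Algebra F E) (_ : Finite E) (D : Dat F E), D.r = r := by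
  let p := ringChar F
  have : CharP F p := ringChar.charP F
  have : Fact p.Prime := ⟨CharP.char_is_prime F p⟩
  have : NeZero (2 * r) := ⟨by omega⟩
  have hq1 : 1 < Nat.card F := Finite.one_lt_card
  have hc : Nat.card (FiniteField.Extension F p (2 * r)) = Nat.card F ^ (2 * r) :=
    FiniteField.natCard_extension F p (2 * r)
  have hδ : ∃ δ : FiniteField.Extension F p (2 * r), δ ≠ 0 ∧ δ ^ Nat.card F = (-1) ^ r * δ := by
    rcases Nat.even_or_odd r with h | h
    · refine ⟨1, one_ne_zero, ?_⟩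
      rw [one_pow, h.neg_one_pow, one_mul]
    · obtain ⟨δ, h1, h2⟩ := exd_delta hodd hq1 (by omega) hc
      refine ⟨δ, h1, ?_⟩
      rw [h2, h.neg_one_pow, neg_one_mul]
  obtain ⟨δ, h1, h2⟩ := hδ
  exact ⟨FiniteField.Extension F p (2 * r), inferInstance, inferInstance, inferInstance,
    { r := r
      four_le := hr
      fin := FiniteField.finrank_extension F p (2 * r)
      δ := δ
      δ_ne := h1
      δ_q := h2
      two_ne := exd_two hodd }, rfl⟩

end Pool.Agent.H32.UD
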