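import Pool.Agent.H32.UD.ExA
import Pool.Agent.H32.UD.ExB

/-!
# UD.Exg : existence of a good conjugating element

PROOF. By `good_odd` or `good_even` the set `𝒢` of `g ∈ ⁅G, G⁆ ⊓ Gc` with `Triv 2 2 g` has at least `q^(nn r) / C` elements. The elements of `Gc` which do not satisfy `Triv k l` for some pair of primes `k, l ∣ 2 r`, `(k, l) ≠ (2, 2)`, are at most `(2 r + 1)² C' card Gc / q ≤ (2 r + 1)² C' C'' q^(nn r) / q` (`bad_small`, `Gc_le`, `upper`). For `q > (2 r + 1)² C C' C''` (and `≥` the other bounds)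
this is less than `q^(nn r) / C`.
-/

set_option autoImplicit false

namespace Pool.Agent.H32.UD

open Module

private theorem good_any (r : ℕ) (hr4 : 4 ≤ r) : ∃ C q0 : ℕ, ∀ (F E : Type) [Field F] [Field E]
    [Algebra F E] [Finite F] [Finite E] (D : Dat F E), D.r = r → q0 ≤ Nat.card F →
    Nat.card F ^ nn r ≤ C * Nat.card {g : E ≃ₗ[F] E //
      g ∈ (⁅D.G, D.G⁆ ⊓ D.Gc : Subgroup (E ≃ₗ[F] E)) ∧ D.Triv 2 2 g} := by
  rcases Nat.even_or_odd r with h | h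
  · exact good_even r hr4 h
  · exact good_odd r hr4 h

theorem exists_good (r : ℕ) (hr : 4 ≤ r) : ∃ q0 : ℕ, ∀ (F E : Type) [Field F] [Field E] [Algebra F E] [Finite F]
    [Finite E] (D : Dat F E), D.r = r → q0 ≤ Nat.card F →
    ∃ g ∈ (⁅D.G, D.G⁆ : Subgroup (E ≃ₗ[F] E)), ∀ k l : ℕ, k.Prime → l.Prime → k ∣ 2 * r → l ∣ 2 * r →
      D.Triv k l g := by
  classical
  obtain ⟨C, q1, h1⟩ := good_any r hr
  obtain ⟨C', q2, h2⟩ := bad_small r
  obtain ⟨C'', h3⟩ := upper r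
  refine ⟨q1 + q2 + (C * ((2 * r + 1) * (2 * r + 1) * (C' * C'')) + 1), ?_⟩
  intro F E _ _ _ _ _ D hD hq
  have : Finite (E ≃ₗ[F] E) :=
    Finite.of_injective (fun g : E ≃ₗ[F] E => (g : E → E)) DFunLike.coe_injective
  have g1 := h1 F E D hD (by omega)
  have g2 := h2 F E D hD (by omega)
  have g3 := h3 F E D hD
  by_contra hcon
  push Not at hcon
  have hGc : Nat.card D.Gc ≤ Nat.card D.G := Subgroup.card_le_of_le D.Gc_le
  have hsub : {g : E ≃ₗ[F] E | g ∈ (⁅D.G, D.G⁆ ⊓ D.Gc : Subgroup (E ≃ₗ[F] E)) ∧ D.Triv 2 2 g} ⊆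
      ⋃ p ∈ ((Finset.range (2 * r + 1) ×ˢ Finset.range (2 * r + 1)).filter fun p : ℕ × ℕ =>
        p.1.Prime ∧ p.2.Prime ∧ p.1 ∣ 2 * r ∧ p.2 ∣ 2 * r ∧ ¬ (p.1 = 2 ∧ p.2 = 2)),
        {g : E ≃ₗ[F] E | g ∈ D.Gc ∧ ¬ D.Triv p.1 p.2 g} := by
    rintro g ⟨hg, ht⟩
    obtain ⟨hg1, hg2⟩ := Subgroup.mem_inf.1 hg
    obtain ⟨k, l, hk, hl, hkr, hlr, hn⟩ := hcon g hg1
    have hne : ¬ (k = 2 ∧ l = 2) := by
      rintro ⟨rfl, rfl⟩
      exact hn ht
    have hkle : k ≤ 2 * r := Nat.le_of_dvd (by omega) hkr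
    have hlle : l ≤ 2 * r := Nat.le_of_dvd (by omega) hlr
    refine Set.mem_iUnion₂.2 ⟨(k, l), ?_, hg2, hn⟩
    refine Finset.mem_filter.2 ⟨Finset.mem_product.2 ⟨Finset.mem_range.2 (by omega),
      Finset.mem_range.2 (by omega)⟩, hk, hl, hkr, hlr, hne⟩
  have hcard := (Set.ncard_le_ncard hsub (Set.toFinite _)).trans (Finset.set_ncard_biUnion_le _ _)
  have hmul : {g : E ≃ₗ[F] E | g ∈ (⁅D.G, D.G⁆ ⊓ D.Gc : Subgroup (E ≃ₗ[F] E)) ∧
      D.Triv 2 2 g}.ncard * Nat.card F ≤ ((2 * r + 1) * (2 * r + 1)) * (C' * Nat.card D.Gc) := by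
    refine (Nat.mul_le_mul_right _ hcard).trans ?_
    rw [Finset.sum_mul]
    refine (Finset.sum_le_card_nsmul _ _ (C' * Nat.card D.Gc) ?_).trans ?_
    · intro p hp
      obtain ⟨-, hk, hl, hkr, hlr, hne⟩ := Finset.mem_filter.1 hp
      exact g2 p.1 p.2 hk hl hkr hlr hne
    · rw [smul_eq_mul]
      refine Nat.mul_le_mul_right _ ((Finset.card_filter_le _ _).trans (le_of_eq ?_))
      rw [Finset.card_product, Finset.card_range]
  have e1 : Nat.card {g : E ≃ₗ[F] E //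
      g ∈ (⁅D.G, D.G⁆ ⊓ D.Gc : Subgroup (E ≃ₗ[F] E)) ∧ D.Triv 2 2 g} =
      {g : E ≃ₗ[F] E | g ∈ (⁅D.G, D.G⁆ ⊓ D.Gc : Subgroup (E ≃ₗ[F] E)) ∧
        D.Triv 2 2 g}.ncard := rfl
  rw [e1] at g1
  have hFpos : 0 < Nat.card F := Nat.card_pos
  have hN : 0 < Nat.card F ^ nn r := Nat.pow_pos hFpos
  have hfin : Nat.card F ^ nn r * Nat.card F ≤
      (C * ((2 * r + 1) * (2 * r + 1) * (C' * C''))) * Nat.card F ^ nn r := by
    calc Nat.card F ^ nn r * Nat.card F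
        ≤ (C * _) * Nat.card F := Nat.mul_le_mul_right _ g1
      _ = C * (_ * Nat.card F) := by rw [mul_assoc]
      _ ≤ C * (((2 * r + 1) * (2 * r + 1)) * (C' * Nat.card D.Gc)) := Nat.mul_le_mul_left _ hmul
      _ ≤ C * (((2 * r + 1) * (2 * r + 1)) * (C' * (C'' * Nat.card F ^ nn r))) :=
          Nat.mul_le_mul_left _ (Nat.mul_le_mul_left _ (Nat.mul_le_mul_left _ (hGc.trans g3)))
      _ = _ := by ring
  rw [mul_comm] at hfin
  have := Nat.le_of_mul_le_mul_right hfin hN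
  omega

end Pool.Agent.H32.UD
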