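import Pool.Agent.H32.UD.Nd
import Pool.Agent.H32.UD.Ct
import Pool.Agent.H32.UD.Dim

/-!
# UD.Fib : the fibres of the product map

PROOF. Apply `pmap_card` with `V = Fin n → E` (dimension `2 r n`), `W = (Fin n → E) × End_F E` (dimension `2 r n + (2 r)^2`), `P t = ((t i * bar (t i) - 1)_i, ∏ fac (h i) (t i) - g)`, degree `n + 2`: `PMap.pi`, `PMap.mul` in the algebra `E`, `PMap.lin` (coordinates, `bar`), `PMap.listProd` with the linear maps `t ↦ fac (h i) (t i)` in the algebra `End_F E`, `PMap.sub`, `PMap.prod`, `PMap.mono`.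
The derivative at `t` in the direction `v` is `((t i bar (v i) + v i bar (t i))_i, ∑ i, (List.ofFn (update .. i (fac (h i) (v i)))).prod)`. Let `t` be a point of the fibre with independent `dfac`. For `v = (t i * w i)`: first component `(w i + bar (w i))` (since `t i bar (t i) = 1`), second component linear in `w`. With `w = e i` at the place `i`, zero elsewhere
(`bar (e i) = - e i`): `(0, dfac h e t i)`: `n` linearly independent vectors in the second factor. The first components of the whole span are all `(x_i)`, `x_i ∈ Ep` (`x = w + bar w`, `w = x / 2`), dimension `r n` (`dim_Ep`). So the span has dimension `≥ r n + n`, `ρ = r n + n`, and the number of points is `≤ C q^(2 r n - (r n + n)) = C q^(r n - n)`.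
-/

set_option autoImplicit false

namespace Pool.Agent.H32.UD

open Module

private theorem fib_dim {F V W : Type} [Field F] [AddCommGroup V] [Module F V] [FiniteDimensional F V]
    [AddCommGroup W] [Module F W] [FiniteDimensional F W] (S : Submodule F (V × W)) (T : Submodule F V)
    (hT : ∀ x ∈ T, ∃ y : W, (x, y) ∈ S) {n : ℕ} (z : Fin n → W) (hz : LinearIndependent F z)
    (hzS : ∀ i, ((0 : V), z i) ∈ S) : finrank F T + n ≤ finrank F S := by
  let f : S →ₗ[F] V := (LinearMap.fst F V W) ∘ₗ S.subtype
  have hrk := LinearMap.finrank_range_add_finrank_ker f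
  have h1 : finrank F T ≤ finrank F (LinearMap.range f) := by
    refine Submodule.finrank_mono ?_
    intro x hx
    obtain ⟨y, hy⟩ := hT x hx
    exact ⟨⟨(x, y), hy⟩, rfl⟩
  have h2 : n ≤ finrank F (LinearMap.ker f) := by
    let w : Fin n → LinearMap.ker f := fun i => ⟨⟨(0, z i), hzS i⟩, by
      rw [LinearMap.mem_ker]
      rfl⟩
    have hw : LinearIndependent F w := by
      refine LinearIndependent.of_comp ((LinearMap.snd F V W) ∘ₗ S.subtype ∘ₗ (LinearMap.ker f).subtype) ?_
      exact hz
    have h4 := hw.fintype_card_le_finrank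
    rwa [Fintype.card_fin] at h4
  rw [← hrk]
  exact add_le_add h1 h2

private theorem fib_pi {F V : Type} [Field F] [AddCommGroup V] [Module F V] [FiniteDimensional F V]
    (T : Submodule F V) {n : ℕ} :
    finrank F (Fin n → T) ≤ finrank F (Submodule.pi Set.univ fun _ : Fin n => T) := by
  refine LinearMap.finrank_le_finrank_of_injective
    (f := LinearMap.codRestrict (Submodule.pi Set.univ fun _ : Fin n => T)
      (LinearMap.pi fun i => T.subtype ∘ₗ LinearMap.proj i : (Fin n → T) →ₗ[F] (Fin n → V))
      (fun x i _ => (x i).2)) ?_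
  intro x y hxy
  have h4 := congrArg Subtype.val hxy
  funext i
  exact Subtype.ext (congrFun h4 i)

section

variable {F E : Type} [Field F] [Field E] [Algebra F E]

private theorem fib_fac_add (h : E ≃ₗ[F] E) (a b : E) : Dat.fac h (a + b) = Dat.fac h a + Dat.fac h b := by
  unfold Dat.fac
  rw [M_add, mul_add, add_mul]

private theorem fib_fac_smul (h : E ≃ₗ[F] E) (c : F) (a : E) : Dat.fac h (c • a) = c • Dat.fac h a := by
  unfold Dat.fac
  rw [M_smul, mul_smul_comm, smul_mul_assoc]

private theorem fib_fac_zero (h : E ≃ₗ[F] E) : Dat.fac h (0 : E) = 0 := by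
  unfold Dat.fac
  rw [M_zero, mul_zero, zero_mul]

/-- `fac` as a linear map -/
private noncomputable def fibL (h : E ≃ₗ[F] E) : E →ₗ[F] Module.End F E where
  toFun := Dat.fac h
  map_add' := fib_fac_add h
  map_smul' := fib_fac_smul h

private theorem fib_list_zero {n : ℕ} (f : Fin n → Module.End F E) (k : Fin n) :
    (List.ofFn (Function.update f k 0)).prod = 0 := by
  apply List.prod_eq_zero
  rw [List.mem_ofFn]
  exact ⟨k, Function.update_self k 0 f⟩

variable [Finite F] [Finite E] (D : Dat F E)

/-- the map -/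
private noncomputable def fibP {n : ℕ} (h : Fin n → (E ≃ₗ[F] E)) (g : Module.End F E) (x : Fin n → E) :
    (Fin n → E) × Module.End F E :=
  (fun i => x i * D.bar (x i) - 1, (List.ofFn fun i => Dat.fac (h i) (x i)).prod - g)

/-- its derivative -/
private noncomputable def fibP' {n : ℕ} (h : Fin n → (E ≃ₗ[F] E)) (x v : Fin n → E) :
    (Fin n → E) × Module.End F E :=
  (fun i => v i * D.bar (x i) + x i * D.bar (v i),
    ∑ i, (List.ofFn (Function.update (fun j => Dat.fac (h j) (x j)) i (Dat.fac (h i) (v i)))).prod)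

private theorem fib_pmap [FiniteDimensional F E] {n : ℕ} (h : Fin n → (E ≃ₗ[F] E)) (g : Module.End F E) :
    PMap F (n + 2) (fibP D h g) (fibP' D h) := by
  have h1 : ∀ i : Fin n, PMap F (n + 2) (fun x : Fin n → E => x i * D.bar (x i) - 1)
      (fun x v => v i * D.bar (x i) + x i * D.bar (v i)) := by
    intro i
    have a1 := PMap.lin (F := F) (LinearMap.proj i : (Fin n → E) →ₗ[F] E)
    have a2 := PMap.lin (F := F) (D.bar.toLinearMap ∘ₗ (LinearMap.proj i : (Fin n → E) →ₗ[F] E))
    have a3 := (PMap.mul a1 a2).mono (show 1 + 1 ≤ n + 2 by omega)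
    have a4 := (PMap.const (F := F) (V := Fin n → E) (1 : E)).mono (show 0 ≤ n + 2 by omega)
    have a5 := a3.sub a4
    simpa using a5
  have h2 : PMap F (n + 2) (fun x : Fin n → E => (List.ofFn fun i => Dat.fac (h i) (x i)).prod - g)
      (fun x v => ∑ i, (List.ofFn (Function.update (fun j => Dat.fac (h j) (x j)) i
        (Dat.fac (h i) (v i)))).prod) := by
    have a1 := PMap.listProd (F := F) (V := Fin n → E) (A := Module.End F E) n 1
      (fun i x => Dat.fac (h i) (x i)) (fun i _ v => Dat.fac (h i) (v i))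
      (fun i => PMap.lin (F := F) (fibL (h i) ∘ₗ (LinearMap.proj i : (Fin n → E) →ₗ[F] E)))
    have a3 := a1.mono (show n * 1 ≤ n + 2 by omega)
    have a4 := (PMap.const (F := F) (V := Fin n → E) g).mono (show 0 ≤ n + 2 by omega)
    have a5 := a3.sub a4
    simpa using a5
  exact (PMap.pi h1).prod h2

private theorem fib_rank [FiniteDimensional F E] {n : ℕ} (h : Fin n → (E ≃ₗ[F] E)) (e : Fin n → E)
    (he : ∀ i, D.bar (e i) = -e i) (t : Fin n → E) (ht : ∀ i, t i * D.bar (t i) = 1)
    (hli : LinearIndependent F (fun i => Dat.dfac h e t i)) :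
    D.r * n + n ≤ finrank F (Submodule.span F (Set.range (fibP' D h t))) := by
  have h2 : (2 : F) ≠ 0 := D.two_ne
  have hr : n * D.r ≤ finrank F (Submodule.pi Set.univ fun _ : Fin n => D.Ep) := by
    have h5 : finrank F (Fin n → D.Ep) = n * D.r := by
      rw [Module.finrank_pi_fintype]
      simp [D.dim_Ep]
    rw [← h5]
    exact fib_pi D.Ep
  have h3 := fib_dim (Submodule.span F (Set.range (fibP' D h t)))
    (Submodule.pi Set.univ fun _ : Fin n => D.Ep) (fun x hx => ?_) (fun i => Dat.dfac h e t i) hli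
    (fun i => ?_)
  · rw [mul_comm D.r n]
    exact (Nat.add_le_add_right hr n).trans h3
  · refine ⟨(fibP' D h t (fun i => t i * ((2 : F)⁻¹ • x i))).2, ?_⟩
    have h4 : fibP' D h t (fun i => t i * ((2 : F)⁻¹ • x i)) =
        (x, (fibP' D h t (fun i => t i * ((2 : F)⁻¹ • x i))).2) := by
      refine Prod.ext ?_ rfl
      funext i
      show t i * ((2 : F)⁻¹ • x i) * D.bar (t i) + t i * D.bar (t i * ((2 : F)⁻¹ • x i)) = x i
      have hx : D.bar (x i) = x i := hx i (Set.mem_univ i)
      rw [map_mul, map_smul, hx]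
      have e1 : t i * ((2 : F)⁻¹ • x i) * D.bar (t i) + t i * (D.bar (t i) * ((2 : F)⁻¹ • x i)) =
          (t i * D.bar (t i)) * ((2 : F)⁻¹ • x i + (2 : F)⁻¹ • x i) := by ring
      rw [e1, ht, one_mul, ← add_smul]
      have e2 : (2 : F)⁻¹ + (2 : F)⁻¹ = 1 := by
        rw [← two_mul, mul_inv_cancel₀ h2]
      rw [e2, one_smul]
    rw [← h4]
    exact Submodule.subset_span ⟨_, rfl⟩
  · have hv : fibP' D h t (Pi.single i (t i * e i)) = (0, Dat.dfac h e t i) := by
      unfold fibP'
      refine Prod.ext ?_ ?_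
      · funext j
        show (Pi.single i (t i * e i) : Fin n → E) j * D.bar (t j) +
          t j * D.bar ((Pi.single i (t i * e i) : Fin n → E) j) = 0
        by_cases hij : j = i
        · subst hij
          rw [Pi.single_eq_same, map_mul, he]
          ring
        · rw [Pi.single_eq_of_ne hij, map_zero, zero_mul, mul_zero, add_zero]
      · show ∑ k, (List.ofFn (Function.update (fun j => Dat.fac (h j) (t j)) k
          (Dat.fac (h k) ((Pi.single i (t i * e i) : Fin n → E) k)))).prod = Dat.dfac h e t i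
        rw [Finset.sum_eq_single i]
        · rw [Pi.single_eq_same]
          rfl
        · intro k _ hk
          rw [Pi.single_eq_of_ne hk, fib_fac_zero, fib_list_zero]
        · intro hi
          exact absurd (Finset.mem_univ i) hi
    rw [← hv]
    exact Submodule.subset_span ⟨_, rfl⟩

end

theorem fibre (r n : ℕ) : ∃ C : ℕ, ∀ (F E : Type) [Field F] [Field E] [Algebra F E] [Finite F] [Finite E]
    (D : Dat F E), D.r = r → ∀ (h : Fin n → (E ≃ₗ[F] E)) (e : Fin n → E), (∀ i, D.bar (e i) = -e i) →
    ∀ g : Module.End F E,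
    Nat.card {t : Fin n → D.T2 // LinearIndependent F (fun i => Dat.dfac h e (fun j => ((t j : Eˣ) : E)) i) ∧
      (List.ofFn fun i => Dat.fac (h i) ((t i : Eˣ) : E)).prod = g} ≤ C * Nat.card F ^ (r * n - n) := by
  obtain ⟨C, hC⟩ := pmap_card (n * (2 * r)) (n * (2 * r) + 2 * r * (2 * r)) (r * n + n) (n + 2)
  refine ⟨C, ?_⟩
  intro F E _ _ _ _ _ D hD h e he g
  have hfin : FiniteDimensional F E := Module.Finite.of_finite
  have hE : finrank F E = 2 * r := by rw [D.fin, hD]
  have hV : finrank F (Fin n → E) = n * (2 * r) := by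
    rw [Module.finrank_pi_fintype]
    simp [hE]
  have hW : finrank F ((Fin n → E) × Module.End F E) = n * (2 * r) + 2 * r * (2 * r) := by
    rw [Module.finrank_prod, hV, Module.finrank_linearMap, hE]
  have key := hC F (Fin n → E) ((Fin n → E) × Module.End F E) (fibP D h g) (fibP' D h) hV hW
    (fib_pmap D h g)
  have e1 : n * (2 * r) - (r * n + n) = r * n - n := by
    have : n * (2 * r) = 2 * (r * n) := by ring
    rw [this]
    omega
  rw [e1] at key
  refine le_trans ?_ key
  have hT : ∀ u : D.T2, ((u : Eˣ) : E) * D.bar ((u : Eˣ) : E) = 1 := by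
    rintro ⟨u, v, hv, rfl⟩
    show ((v ^ 2 : Eˣ) : E) * D.bar ((v ^ 2 : Eˣ) : E) = 1
    rw [Units.val_pow_eq_pow_val, map_pow, ← mul_pow, hv, one_pow]
  refine Nat.card_le_card_of_injective (fun t : {t : Fin n → D.T2 //
      LinearIndependent F (fun i => Dat.dfac h e (fun j => ((t j : Eˣ) : E)) i) ∧
      (List.ofFn fun i => Dat.fac (h i) ((t i : Eˣ) : E)).prod = g} =>
      (⟨fun i => ((t.1 i : Eˣ) : E), ?_, ?_⟩ : {x : Fin n → E // fibP D h g x = 0 ∧
        r * n + n ≤ finrank F (Submodule.span F (Set.range (fibP' D h x)))})) ?_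
  · refine Prod.ext ?_ ?_
    · funext i
      show ((t.1 i : Eˣ) : E) * D.bar ((t.1 i : Eˣ) : E) - 1 = 0
      rw [hT, sub_self]
    · show (List.ofFn fun i => Dat.fac (h i) ((t.1 i : Eˣ) : E)).prod - g = 0
      rw [t.2.2, sub_self]
  · have h3 := fib_rank D h e he (fun i => ((t.1 i : Eˣ) : E)) (fun i => hT (t.1 i)) t.2.1
    rw [hD] at h3
    exact h3
  · intro t t' htt
    have h4 := congrArg Subtype.val htt
    apply Subtype.ext
    funext i
    exact Subtype.ext (Units.ext (congrFun h4 i))

end Pool.Agent.H32.UD
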