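import Pool.Agent.H32.UD.Cla
import Pool.Agent.H32.UD.Dim0
import Pool.Agent.H32.UD.Sepx
import Pool.Agent.H49.UDN.EMain

/-!
# UD.IsoO : the isometry group for even `r` is the orthogonal group of minus type

PROOF. `QE x = B x x`, `polar QE x y = 2 B x y`, nondegenerate. `no_ts`: suppose `U` is totally singular of dimension `≥ r` (take a subspace of dimension exactly `r`). Then `U^⊥ = U` (dimension). Count the singular vectors: in `U`: `q^r`; for `x ∉ U` the function `u ↦ QE (x + u) = QE x + 2 B x u` on `U` is affine and not constant, so `x + U` has exactly `q^(r-1)` singular vectors.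
Total `q^r + (q^r - 1) q^(r-1) = q^(2r-1) + q^r - q^(r-1)`. On the other hand `B x x = Tr_{E/F} (δ x bar x)`, `x bar x = x^(q^r + 1) ∈ Ep`, `e ↦ Tr_{E/F} (δ e)` is a nonzero `F`-linear form on `Ep` (`δ ∈ F`, `bar e = e`; if it vanished on `Ep`, it would vanish on `E`, as it vanishes on `Em`), with kernel of `q^(r-1)` elements; every nonzero `e ∈ Ep` is `x bar x` for exactly
`q^r + 1` elements `x` (the norm map `Eˣ → Epˣ` is a homomorphism with kernel of order `q^r + 1` (`card_torus`), image of order `(q^(2r)-1)/(q^r+1) = q^r - 1`). So the number of singular vectors is `1 + (q^r + 1)(q^(r-1) - 1) = q^(2r-1) - q^r + q^(r-1)`, which is different. Contradiction.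
`iso_orth`: `minus_unique` with `m = r` gives `e`; `g ↦ e g e⁻¹` is an isomorphism from `orth Q` onto `D.G` (isometries of `QE` = isometries of `B`, `2 ≠ 0`).
-/

set_option autoImplicit false

namespace Pool.Agent.H32.UD

open Module QuadraticMap Pool.Agent.H49.UDN

/-- the fibres of a nonzero linear form -/
private theorem card_fib {F U : Type} [Field F] [AddCommGroup U] [Module F U] [Finite F] [Finite U]
    (l : U →ₗ[F] F) (hl : ∃ u, l u ≠ 0) (c : F) :
    Nat.card U = Nat.card F * Nat.card {u : U // l u = c} := by
  obtain ⟨u, hu⟩ := hl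
  obtain ⟨u₀, hu₀⟩ : ∃ u₀, l u₀ = 1 := ⟨(l u)⁻¹ • u, by rw [map_smul, smul_eq_mul, inv_mul_cancel₀ hu]⟩
  rw [← Nat.card_prod]
  apply Nat.card_congr
  exact
    { toFun := fun x => (l x, ⟨x + (c - l x) • u₀, by
        rw [map_add, map_smul, hu₀, smul_eq_mul]; ring⟩)
      invFun := fun p => p.2.1 + (p.1 - c) • u₀
      left_inv := by
        intro x
        show (x + (c - l x) • u₀) + (l x - c) • u₀ = x
        module
      right_inv := by
        rintro ⟨t, v, hv⟩
        have h1 : l (v + (t - c) • u₀) = t := by
          rw [map_add, map_smul, hu₀, hv, smul_eq_mul]; ring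
        apply Prod.ext
        · exact h1
        · apply Subtype.ext
          show (v + (t - c) • u₀) + (c - l (v + (t - c) • u₀)) • u₀ = v
          rw [h1]
          module }

private theorem B_symm_even {F E : Type} [Field F] [Field E] [Algebra F E] [Finite F] [Finite E] (D : Dat F E)
    (hr : Even D.r) (x y : E) : D.B y x = D.B x y := by
  rw [D.B_symm, hr.neg_one_pow, one_mul]

private theorem B_add {F E : Type} [Field F] [Field E] [Algebra F E] [Finite F] [Finite E] (D : Dat F E)
    (hr : Even D.r) (x y : E) : D.B (x + y) (x + y) = D.B x x + D.B y y + 2 * D.B x y := by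
  have h1 : D.B (x + y) (x + y) = D.B x x + D.B x y + (D.B y x + D.B y y) := by
    simp only [map_add, LinearMap.add_apply]
    ring
  rw [h1, B_symm_even D hr x y]
  ring

/-- first count -/
private theorem count1 {F E : Type} [Field F] [Field E] [Algebra F E] [Finite F] [Finite E] (D : Dat F E)
    (hr : Even D.r) (U : Submodule F E) (hU : ∀ x ∈ U, D.B x x = 0) (hf : finrank F U = D.r) :
    Nat.card F * Nat.card {x : E // D.B x x = 0} + Nat.card F ^ D.r =
      Nat.card F * Nat.card F ^ D.r + Nat.card F ^ (2 * D.r) := by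
  classical
  let _ := Fintype.ofFinite E
  have h2 := D.two_ne
  have hUU : ∀ x ∈ U, ∀ y ∈ U, D.B x y = 0 := by
    intro x hx y hy
    have h := B_add D hr x y
    rw [hU _ (U.add_mem hx hy), hU x hx, hU y hy, zero_add, zero_add] at h
    exact (mul_eq_zero.1 h.symm).resolve_left h2
  have hnd : D.B.Nondegenerate := ⟨fun x hx => D.B_nondeg hx, fun x hx => D.B_nondeg' hx⟩
  have horth : U = D.B.orthogonal U := by
    apply Submodule.eq_of_le_of_finrank_le
    · intro x hx y hy
      exact hUU y hy x hx
    · rw [LinearMap.BilinForm.finrank_orthogonal hnd, D.fin, hf]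
      omega
  have hout : ∀ x, x ∉ U → ∃ u : U, D.B x u ≠ 0 := by
    intro x hx
    by_contra hcon
    push Not at hcon
    apply hx
    rw [horth]
    intro u hu
    show D.B u x = 0
    rw [B_symm_even D hr]
    exact hcon ⟨u, hu⟩
  have hcU : Nat.card U = Nat.card F ^ D.r := by
    rw [Module.natCard_eq_pow_finrank (K := F) (V := U), hf]
  have hcE : Nat.card E = Nat.card F ^ (2 * D.r) := by
    rw [Module.natCard_eq_pow_finrank (K := F) (V := E), D.fin]
  -- the fibres
  have hn : ∀ x : E, Nat.card F * Nat.card {u : U // D.B (x + u) (x + u) = 0} =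
      Nat.card U * (if x ∈ U then Nat.card F else 1) := by
    intro x
    split_ifs with hx
    · have : Nat.card {u : U // D.B (x + u) (x + u) = 0} = Nat.card U := by
        apply Nat.card_congr
        exact Equiv.subtypeUnivEquiv fun u => hU _ (U.add_mem hx u.2)
      rw [this, mul_comm]
    · rw [mul_one]
      obtain ⟨u, hu⟩ := hout x hx
      have h := card_fib ((2 : F) • ((D.B x).comp U.subtype)) ⟨u, by
        show 2 * D.B x u ≠ 0
        exact mul_ne_zero h2 hu⟩ (- D.B x x)
      rw [h]
      congr 1
      apply Nat.card_congr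
      apply Equiv.subtypeEquivRight
      intro v
      rw [B_add D hr, hU v v.2]
      show _ ↔ 2 * D.B x v = - D.B x x
      constructor
      · intro h3
        linear_combination h3
      · intro h3
        linear_combination h3
  -- double counting
  have hP1 : Nat.card {p : E × U // D.B (p.1 + p.2) (p.1 + p.2) = 0} =
      Nat.card {x : E // D.B x x = 0} * Nat.card U := by
    rw [← Nat.card_prod]
    apply Nat.card_congr
    exact
      { toFun := fun p => (⟨p.1.1 + p.1.2, p.2⟩, p.1.2)
        invFun := fun y => ⟨(y.1.1 - y.2, y.2), by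
          show D.B (y.1.1 - y.2 + y.2) (y.1.1 - y.2 + y.2) = 0
          rw [sub_add_cancel]
          exact y.1.2⟩
        left_inv := by
          rintro ⟨⟨x, u⟩, h⟩
          apply Subtype.ext
          apply Prod.ext
          · show x + (u : E) - u = x
            rw [add_sub_cancel_right]
          · rfl
        right_inv := by
          rintro ⟨⟨x, h⟩, u⟩
          apply Prod.ext
          · apply Subtype.ext
            show x - (u : E) + u = x
            rw [sub_add_cancel]
          · rfl }
  have hP2 : Nat.card {p : E × U // D.B (p.1 + p.2) (p.1 + p.2) = 0} =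
      ∑ x : E, Nat.card {u : U // D.B (x + u) (x + u) = 0} := by
    rw [← Nat.card_sigma]
    apply Nat.card_congr
    exact
      { toFun := fun p => ⟨p.1.1, ⟨p.1.2, p.2⟩⟩
        invFun := fun y => ⟨(y.1, y.2.1), y.2.2⟩
        left_inv := fun p => rfl
        right_inv := fun y => rfl }
  have hS : (∑ x : E, (if x ∈ U then Nat.card F else 1)) + Nat.card U =
      Nat.card F * Nat.card U + Nat.card E := by
    have e1 : ∀ x : E, (if x ∈ U then Nat.card F else 1) + (if x ∈ U then 1 else 0) =
        (if x ∈ U then Nat.card F else 0) + 1 := by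
      intro x
      split_ifs <;> simp
    have e2 : (∑ x : E, (if x ∈ U then 1 else 0)) = Nat.card U := by
      rw [Finset.sum_boole]
      rw [Nat.card_eq_fintype_card, Fintype.card_subtype]
      rfl
    have e3 : (∑ x : E, (if x ∈ U then Nat.card F else 0)) = Nat.card F * Nat.card U := by
      rw [← e2, Finset.mul_sum]
      apply Finset.sum_congr rfl
      intro x _
      split_ifs <;> simp
    have e4 : (∑ _x : E, 1) = Nat.card E := by
      rw [Finset.sum_const, smul_eq_mul, mul_one, Nat.card_eq_fintype_card]
      rfl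
    rw [← e2, ← Finset.sum_add_distrib, Finset.sum_congr rfl (fun x _ => e1 x),
      Finset.sum_add_distrib, e3, e4, e2]
  have hmul : Nat.card U * (Nat.card F * Nat.card {x : E // D.B x x = 0}) =
      Nat.card U * (∑ x : E, (if x ∈ U then Nat.card F else 1)) := by
    calc Nat.card U * (Nat.card F * Nat.card {x : E // D.B x x = 0})
        = Nat.card F * (Nat.card {x : E // D.B x x = 0} * Nat.card U) := by ring
      _ = Nat.card F * ∑ x : E, Nat.card {u : U // D.B (x + u) (x + u) = 0} := by
          rw [← hP1, hP2]
      _ = _ := by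
          rw [Finset.mul_sum, Finset.mul_sum]
          exact Finset.sum_congr rfl fun x _ => hn x
  have hpos : 0 < Nat.card U := Nat.card_pos
  have h3 := Nat.eq_of_mul_eq_mul_left hpos hmul
  rw [← hcU, ← hcE, h3, hS]

/-- second count -/
private theorem count2 {F E : Type} [Field F] [Field E] [Algebra F E] [Finite F] [Finite E] (D : Dat F E)
    (hr : Even D.r) :
    Nat.card F * Nat.card {x : E // D.B x x = 0} + Nat.card F * Nat.card F ^ D.r =
      Nat.card F ^ D.r + Nat.card F ^ (2 * D.r) := by
  classical
  have h2 := D.two_ne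
  have hδ : D.bar D.δ = D.δ := by
    rw [D.bar_δ, hr.neg_one_pow, one_mul]
  have hB : ∀ x, D.B x x = Algebra.trace F E (D.δ * (x * D.bar x)) := by
    intro x
    rw [D.B_apply, mul_assoc]
  -- the linear form
  let L : D.Ep →ₗ[F] F := (Algebra.trace F E) ∘ₗ (M F D.δ) ∘ₗ D.Ep.subtype
  have hL : ∀ e : D.Ep, L e = Algebra.trace F E (D.δ * (e : E)) := fun e => rfl
  have hL0 : ∃ e, L e ≠ 0 := by
    obtain ⟨t, ht⟩ := Algebra.trace_surjective F E 1
    have hm : D.δ⁻¹ * t + D.bar (D.δ⁻¹ * t) ∈ D.Ep := by
      show D.bar _ = _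
      rw [map_add, D.bar_bar, add_comm]
    refine ⟨⟨_, hm⟩, ?_⟩
    rw [hL]
    show Algebra.trace F E (D.δ * (D.δ⁻¹ * t + D.bar (D.δ⁻¹ * t))) ≠ 0
    have e1 : D.δ * (D.δ⁻¹ * t + D.bar (D.δ⁻¹ * t)) = t + D.bar t := by
      rw [mul_add, ← mul_assoc, mul_inv_cancel₀ D.δ_ne, one_mul, map_mul, map_inv₀, hδ,
        ← mul_assoc, mul_inv_cancel₀ D.δ_ne, one_mul]
    rw [e1, map_add, D.trace_bar, ht]
    intro h
    apply h2
    rw [← h]
    norm_num
  have hk := card_fib L hL0 0
  have hcEp : Nat.card D.Ep = Nat.card F ^ D.r := by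
    rw [Module.natCard_eq_pow_finrank (K := F) (V := D.Ep), D.dim_Ep]
  have hcE : Nat.card E = Nat.card F ^ (2 * D.r) := by
    rw [Module.natCard_eq_pow_finrank (K := F) (V := E), D.fin]
  -- nonzero elements
  have hS1 : Nat.card {x : E // D.B x x = 0} = 1 + Nat.card {x : Eˣ // D.B (x : E) (x : E) = 0} := by
    have e : {x : E // D.B x x = 0} ≃ Option {x : Eˣ // D.B (x : E) (x : E) = 0} :=
      { toFun := fun x => if h : x.1 = 0 then none else some ⟨Units.mk0 x.1 h, x.2⟩
        invFun := fun y => match y with
          | none => ⟨0, by simp⟩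
          | some u => ⟨(u.1 : E), u.2⟩
        left_inv := by
          rintro ⟨x, hx⟩
          by_cases h : x = 0
          · subst h
            simp
          · simp [h]
        right_inv := by
          rintro (_ | ⟨u, hu⟩)
          · simp
          · simp }
    rw [Nat.card_congr e, Finite.card_option, add_comm]
  have hK1 : Nat.card {e : D.Ep // L e = 0} = 1 + Nat.card {e : D.Ep // L e = 0 ∧ e ≠ 0} := by
    have e : {e : D.Ep // L e = 0} ≃ Option {e : D.Ep // L e = 0 ∧ e ≠ 0} :=
      { toFun := fun x => if h : x.1 = 0 then none else some ⟨x.1, x.2, h⟩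
        invFun := fun y => match y with
          | none => ⟨0, by simp⟩
          | some u => ⟨u.1, u.2.1⟩
        left_inv := by
          rintro ⟨x, hx⟩
          by_cases h : x = 0
          · subst h
            simp
          · simp [h]
        right_inv := by
          rintro (_ | ⟨u, hu⟩)
          · simp
          · simp [hu.2] }
    rw [Nat.card_congr e, Finite.card_option, add_comm]
  -- the norm
  have hbar : ∀ x : E, D.bar (x * D.bar x) = x * D.bar x := by
    intro x
    rw [map_mul, D.bar_bar, mul_comm]
  have hsec : ∀ e : {e : D.Ep // L e = 0 ∧ e ≠ 0}, ∃ a : Eˣ, (a : E) * D.bar a = e.1 := by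
    intro e
    have hne : ((e.1 : D.Ep) : E) ≠ 0 := by
      intro h
      exact e.2.2 (Subtype.ext h)
    have := D.norm_onto (Units.mk0 _ hne) (by exact e.1.2)
    exact this
  choose s hs using hsec
  have hprod : Nat.card {x : Eˣ // D.B (x : E) (x : E) = 0} =
      Nat.card {e : D.Ep // L e = 0 ∧ e ≠ 0} * Nat.card {u : Eˣ // (u : E) * D.bar u = 1} := by
    rw [← Nat.card_prod]
    apply Nat.card_congr
    let nm : {x : Eˣ // D.B (x : E) (x : E) = 0} → {e : D.Ep // L e = 0 ∧ e ≠ 0} := fun x =>
      ⟨⟨(x.1 : E) * D.bar x.1, hbar _⟩, by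
        rw [hL]
        show Algebra.trace F E (D.δ * ((x.1 : E) * D.bar x.1)) = 0
        rw [← hB]
        exact x.2, by
        intro h
        have h1 : (x.1 : E) * D.bar x.1 = 0 := congrArg Subtype.val h
        rcases mul_eq_zero.1 h1 with h3 | h3
        · exact x.1.ne_zero h3
        · exact x.1.ne_zero ((map_eq_zero D.bar).1 h3)⟩
    have hnm : ∀ x, (((nm x).1 : D.Ep) : E) = (x.1 : E) * D.bar x.1 := fun x => rfl
    exact
      { toFun := fun x => (nm x, ⟨x.1 * (s (nm x))⁻¹, by
          have h1 := hs (nm x)
          rw [hnm] at h1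
          have h3 : (s (nm x) : E) ≠ 0 := (s (nm x)).ne_zero
          have h4 : D.bar (s (nm x) : E) ≠ 0 := fun h => h3 ((map_eq_zero D.bar).1 h)
          rw [Units.val_mul, map_mul, Units.val_inv_eq_inv_val, map_inv₀]
          field_simp
          rw [h1]⟩)
        invFun := fun p => ⟨p.2.1 * s p.1, by
          rw [hB, Units.val_mul, map_mul D.bar]
          have h1 := hs p.1
          have h3 := p.2.2
          have e1 : (p.2.1 : E) * (s p.1 : E) * (D.bar p.2.1 * D.bar (s p.1)) = p.1.1 := by
            rw [← h1]
            linear_combination ((s p.1 : E) * D.bar (s p.1)) * h3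
          rw [e1]
          exact p.1.2.1⟩
        left_inv := by
          intro x
          apply Subtype.ext
          show x.1 * (s (nm x))⁻¹ * s (nm x) = x.1
          rw [inv_mul_cancel_right]
        right_inv := by
          rintro ⟨e, u, hu⟩
          have key : ∀ y : {x : Eˣ // D.B (x : E) (x : E) = 0}, y.1 = u * s e → nm y = e := by
            intro y hy
            apply Subtype.ext
            apply Subtype.ext
            rw [hnm, hy, Units.val_mul, map_mul, ← hs e]
            linear_combination ((s e : E) * D.bar (s e)) * hu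
          have hk := key ⟨u * s e, by
            rw [hB, Units.val_mul, map_mul D.bar]
            have h1 := hs e
            have e1 : (u : E) * (s e : E) * (D.bar u * D.bar (s e)) = e.1 := by
              rw [← h1]
              linear_combination ((s e : E) * D.bar (s e)) * hu
            rw [e1]
            exact e.2.1⟩ rfl
          apply Prod.ext
          · exact hk
          · apply Subtype.ext
            show u * s e * (s (nm _))⁻¹ = u
            rw [hk, mul_inv_cancel_right] }
  rw [D.card_torus] at hprod
  rw [hcEp] at hk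
  set k := Nat.card {e : D.Ep // L e = 0} with hkdef
  set k' := Nat.card {e : D.Ep // L e = 0 ∧ e ≠ 0} with hk'def
  set q := Nat.card F with hq
  have hS2 : Nat.card {x : E // D.B x x = 0} = 1 + k' * (q ^ D.r + 1) := by rw [hS1, hprod]
  rw [hS2, pow_mul', hk, hK1]
  ring

theorem no_ts {F E : Type} [Field F] [Field E] [Algebra F E] [Finite F] [Finite E] (D : Dat F E)
    (hr : Even D.r) (U : Submodule F E) (hU : ∀ x ∈ U, D.B x x = 0) : finrank F U < D.r := by
  have h2 := D.two_ne
  have hUU : ∀ x ∈ U, ∀ y ∈ U, D.B x y = 0 := by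
    intro x hx y hy
    have h := B_add D hr x y
    rw [hU _ (U.add_mem hx hy), hU x hx, hU y hy, zero_add, zero_add] at h
    exact (mul_eq_zero.1 h.symm).resolve_left h2
  have hnd : D.B.Nondegenerate := ⟨fun x hx => D.B_nondeg hx, fun x hx => D.B_nondeg' hx⟩
  have hle : finrank F U ≤ D.r := by
    have h1 : U ≤ D.B.orthogonal U := fun x hx y hy => hUU y hy x hx
    have h3 := Submodule.finrank_mono h1
    rw [LinearMap.BilinForm.finrank_orthogonal hnd, D.fin] at h3
    omega
  by_contra hcon
  have hf : finrank F U = D.r := by omega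
  have c1 := count1 D hr U hU hf
  have c2 := count2 D hr
  have h4 : Nat.card F ^ D.r = Nat.card F * Nat.card F ^ D.r := by omega
  have h5 : 0 < Nat.card F ^ D.r := Nat.pow_pos Nat.card_pos
  have h6 : 1 < Nat.card F := Finite.one_lt_card
  have h7 : 1 * Nat.card F ^ D.r < Nat.card F * Nat.card F ^ D.r :=
    Nat.mul_lt_mul_of_pos_right h6 h5
  omega

theorem iso_orth {F E : Type} [Field F] [Field E] [Algebra F E] [Finite F] [Finite E] (D : Dat F E)
    (hr : Even D.r) (V : Type) [AddCommGroup V] [Module F V] [FiniteDimensional F V] (Q : QuadraticForm F V)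
    (hQ : ∀ x, (∀ y, polar Q x y = 0) → x = 0) (hV : finrank F V = 2 * D.r)
    (hts : ∀ W : Submodule F V, (∀ x ∈ W, Q x = 0) → finrank F W < D.r) :
    Nonempty (OrthGroup Q ≃* D.G) := by
  have h2 := D.two_ne
  have h4 := D.four_le
  let QE : QuadraticForm F E := D.B.toQuadraticMap
  have hQE : ∀ x, QE x = D.B x x := fun x => rfl
  have hpol : ∀ x y, polar QE x y = 2 * D.B x y := by
    intro x y
    have h := QuadraticMap.map_add QE x y
    rw [hQE, hQE, hQE, B_add D hr] at h
    linear_combination -h
  obtain ⟨e, he⟩ := minus_unique h2 D.r (by omega) V E Q QE hQ (by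
    intro x hx
    apply D.B_nondeg
    intro y
    have h := hx y
    rw [hpol] at h
    exact (mul_eq_zero.1 h).resolve_left h2) hV D.fin hts (fun W hW => no_ts D hr W hW)
  have hB : ∀ g : E ≃ₗ[F] E, (∀ x, QE (g x) = QE x) ↔ g ∈ D.G := by
    intro g
    rw [D.mem_G]
    constructor
    · intro h x y
      have h1 := polar_of_isom QE (fun x y => map_add g x y) h x y
      rw [hpol, hpol] at h1
      exact mul_left_cancel₀ h2 h1
    · intro h x
      rw [hQE, hQE, h]
  have hes : ∀ x, Q (e.symm x) = QE x := by
    intro x
    rw [← he, LinearEquiv.apply_symm_apply]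
  refine ⟨?_⟩
  exact
    { toFun := fun g => ⟨(e.symm.trans (g.1 : V ≃ₗ[F] V)).trans e, by
        rw [← hB]
        intro x
        show QE (e (g.1 (e.symm x))) = QE x
        rw [he, g.2, hes]⟩
      invFun := fun g => ⟨(e.trans (g.1 : E ≃ₗ[F] E)).trans e.symm, by
        intro x
        show Q (e.symm (g.1 (e x))) = Q x
        rw [hes, (hB g.1).2 g.2, he]⟩
      left_inv := by
        intro g
        apply Subtype.ext
        apply LinearEquiv.ext
        intro x
        show e.symm (e (g.1 (e.symm (e x)))) = g.1 x
        rw [e.symm_apply_apply, e.symm_apply_apply]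
      right_inv := by
        intro g
        apply Subtype.ext
        apply LinearEquiv.ext
        intro x
        show e (e.symm (g.1 (e (e.symm x)))) = g.1 x
        rw [e.apply_symm_apply, e.apply_symm_apply]
      map_mul' := by
        intro g h
        apply Subtype.ext
        apply LinearEquiv.ext
        intro x
        show e (g.1 (h.1 (e.symm x))) = e (g.1 (e.symm (e (h.1 (e.symm x)))))
        rw [e.symm_apply_apply] }

end Pool.Agent.H32.UD
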