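import Pool.Agent.H32.UD.Bas

/-!
# UD.IsoS : the isometry group for odd `r` is the symplectic group

PROOF. `exists_std`: induction on `m`. `m = 0`: trivial. Step: choose `u ≠ 0` and `v` with `B (u, v) = 1`; the plane `P = ⟨u, v⟩` is nondegenerate, `V = P ⊕ P^⊥` (`x = (B (x, v) u - B (x, u) v) + rest`), `P^⊥` has dimension `2 m` and `B` restricted to it is alternating and nondegenerate. The form of the statement is `B x y = ∑ i, (e x (inl i) * e y (inr i) - e x (inr i) * e y (inl i))`.
`iso_sp`: for odd `r` `B` is alternating (`B_symm` with `y = x`, `2 ≠ 0`) and nondegenerate (`B_nondeg`); transport `g` to the matrix `A` of `e g e⁻¹`; `g ∈ G` iff `Aᵀ * J * A = J` (`SymplecticGroup.mem_iff'`, `Matrix.J`).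
-/

set_option autoImplicit false

namespace Pool.Agent.H32.UD

open Module

private theorem isoS_step {F : Type} [Field F] (m : ℕ) (V : Type) [AddCommGroup V] [Module F V]
    [FiniteDimensional F V] (B : LinearMap.BilinForm F V) (halt : ∀ x, B x x = 0)
    (hnd : ∀ x, (∀ y, B x y = 0) → x = 0) (hdim : finrank F V = 2 * (m + 1))
    (IH : ∀ (V : Type) [AddCommGroup V] [Module F V] [FiniteDimensional F V]
      (B : LinearMap.BilinForm F V), (∀ x, B x x = 0) → (∀ x, (∀ y, B x y = 0) → x = 0) →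
      finrank F V = 2 * m →
      ∃ e : V ≃ₗ[F] (Fin m ⊕ Fin m → F), ∀ x y, B x y =
        ∑ i, (e x (Sum.inl i) * e y (Sum.inr i) - e x (Sum.inr i) * e y (Sum.inl i))) :
    ∃ e : V ≃ₗ[F] (Fin (m + 1) ⊕ Fin (m + 1) → F), ∀ x y, B x y =
      ∑ i, (e x (Sum.inl i) * e y (Sum.inr i) - e x (Sum.inr i) * e y (Sum.inl i)) := by
  classical
  have hskew : ∀ x y, B y x = -B x y := by
    intro x y
    have h := halt (x + y)
    rw [map_add, map_add, LinearMap.add_apply, LinearMap.add_apply, halt, halt, zero_add,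
      add_zero] at h
    exact eq_neg_of_add_eq_zero_left h
  have hpos : 0 < finrank F V := by rw [hdim]; omega
  have : Nontrivial V := Module.nontrivial_of_finrank_pos hpos
  obtain ⟨u, hu⟩ := exists_ne (0 : V)
  obtain ⟨v0, hv0⟩ : ∃ v0, B u v0 ≠ 0 := by
    by_contra h
    push Not at h
    exact hu (hnd u h)
  set v : V := (B u v0)⁻¹ • v0 with hv
  have huv : B u v = 1 := by
    rw [hv, map_smul, smul_eq_mul, inv_mul_cancel₀ hv0]
  have hvu : B v u = -1 := by rw [hskew u v, huv]
  let φ : V →ₗ[F] F × F := (LinearMap.flip B v).prod (LinearMap.flip B u)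
  have hφ : ∀ x, φ x = (B x v, B x u) := fun x => rfl
  let W : Submodule F V := LinearMap.ker φ
  have hW : ∀ x, x ∈ W ↔ B x v = 0 ∧ B x u = 0 := by
    intro x
    rw [LinearMap.mem_ker, hφ, Prod.mk_eq_zero]
  have hsurj : LinearMap.range φ = ⊤ := by
    rw [LinearMap.range_eq_top]
    rintro ⟨a, b⟩
    refine ⟨a • u - b • v, ?_⟩
    rw [hφ]
    simp only [map_sub, map_smul, LinearMap.sub_apply, LinearMap.smul_apply, smul_eq_mul, huv, hvu,
      halt]
    ext <;> simp
  have hWdim : finrank F W = 2 * m := by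
    have h := LinearMap.finrank_range_add_finrank_ker φ
    rw [hsurj, finrank_top, Module.finrank_prod, Module.finrank_self, hdim] at h
    change 1 + 1 + finrank F W = _ at h
    omega
  let pr : V →ₗ[F] V := LinearMap.id - (LinearMap.flip B v).smulRight u + (LinearMap.flip B u).smulRight v
  have hpr : ∀ x, pr x = x - B x v • u + B x u • v := fun x => rfl
  have hprW : ∀ x, pr x ∈ W := by
    intro x
    rw [hW, hpr]
    simp only [map_add, map_sub, map_smul, LinearMap.add_apply, LinearMap.sub_apply,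
      LinearMap.smul_apply, smul_eq_mul, huv, hvu, halt]
    constructor <;> ring
  let π : V →ₗ[F] W := pr.codRestrict W hprW
  have hπ : ∀ x, (π x : V) = x - B x v • u + B x u • v := fun x => rfl
  have hdec : ∀ x, x = B x v • u - B x u • v + (π x : V) := by
    intro x
    rw [hπ]
    abel
  have hWB : ∀ (x y : W), (B.restrict W) x y = B (x : V) (y : V) := fun x y => rfl
  obtain ⟨e', he'⟩ := IH W (B.restrict W) (fun x => halt _) (by
    intro w hw
    have h0 : (w : V) = 0 := by
      apply hnd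
      intro y
      have hwW := (hW w).1 w.2
      have h1 := hw (π y)
      rw [hWB] at h1
      rw [hdec y]
      simp only [map_add, map_sub, map_smul, smul_eq_mul]
      rw [h1, hwW.1, hwW.2]
      ring
    exact Subtype.ext h0) hWdim
  let Φ : V →ₗ[F] (Fin (m + 1) ⊕ Fin (m + 1) → F) := LinearMap.pi (Sum.elim
    (Fin.cons (LinearMap.flip B v) fun j => (LinearMap.proj (Sum.inl j)) ∘ₗ e'.toLinearMap ∘ₗ π)
    (Fin.cons (-(LinearMap.flip B u)) fun j => (LinearMap.proj (Sum.inr j)) ∘ₗ e'.toLinearMap ∘ₗ π))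
  have hΦ1 : ∀ x, Φ x (Sum.inl 0) = B x v := fun x => rfl
  have hΦ2 : ∀ x, Φ x (Sum.inr 0) = -B x u := fun x => rfl
  have hΦ3 : ∀ x (j : Fin m), Φ x (Sum.inl j.succ) = e' (π x) (Sum.inl j) := fun x j => rfl
  have hΦ4 : ∀ x (j : Fin m), Φ x (Sum.inr j.succ) = e' (π x) (Sum.inr j) := fun x j => rfl
  have hinj : Function.Injective Φ := by
    rw [injective_iff_map_eq_zero]
    intro x hx
    have h1 : B x v = 0 := by rw [← hΦ1, hx]; rfl
    have h2 : B x u = 0 := by
      have := hΦ2 x
      rw [hx] at this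
      have h3 : (0 : F) = -B x u := this
      rw [eq_comm, neg_eq_zero] at h3
      exact h3
    have h3 : e' (π x) = 0 := by
      ext s
      rcases s with j | j
      · rw [← hΦ3, hx]; rfl
      · rw [← hΦ4, hx]; rfl
    have h4 : π x = 0 := by
      rwa [LinearEquiv.map_eq_zero_iff] at h3
    rw [hdec x, h1, h2, h4]
    simp
  have hfr : finrank F V = finrank F (Fin (m + 1) ⊕ Fin (m + 1) → F) := by
    rw [hdim, Module.finrank_fintype_fun_eq_card, Fintype.card_sum, Fintype.card_fin]
    ring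
  refine ⟨LinearEquiv.ofInjectiveOfFinrankEq Φ hinj hfr, ?_⟩
  intro x y
  have hco : ∀ z, (LinearEquiv.ofInjectiveOfFinrankEq Φ hinj hfr) z = Φ z := fun z => rfl
  rw [Fin.sum_univ_succ, hco, hco, hΦ1, hΦ1, hΦ2, hΦ2]
  simp only [hΦ3, hΦ4]
  rw [← he' (π x) (π y), hWB]
  have hx := (hW _).1 (π x).2
  have hy := (hW _).1 (π y).2
  have hy1 : B v (π y : V) = 0 := by rw [hskew (π y : V) v, hy.1, neg_zero]
  have hy2 : B u (π y : V) = 0 := by rw [hskew (π y : V) u, hy.2, neg_zero]
  conv_lhs => rw [hdec x, hdec y]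
  simp only [map_add, map_sub, map_smul, LinearMap.add_apply, LinearMap.sub_apply,
    LinearMap.smul_apply, smul_eq_mul, huv, hvu, halt, hx.1, hx.2, hy1, hy2]
  ring

theorem exists_std {F : Type} [Field F] (m : ℕ) : ∀ (V : Type) [AddCommGroup V] [Module F V] [FiniteDimensional F V]
    (B : LinearMap.BilinForm F V), (∀ x, B x x = 0) → (∀ x, (∀ y, B x y = 0) → x = 0) → finrank F V = 2 * m →
    ∃ e : V ≃ₗ[F] (Fin m ⊕ Fin m → F), ∀ x y, B x y =
      ∑ i, (e x (Sum.inl i) * e y (Sum.inr i) - e x (Sum.inr i) * e y (Sum.inl i)) := by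
  induction m with
  | zero =>
    intro V _ _ _ B _ _ hdim
    have hdim' : finrank F V = finrank F (Fin 0 ⊕ Fin 0 → F) := by
      rw [hdim, Module.finrank_fintype_fun_eq_card]
      simp
    refine ⟨LinearEquiv.ofFinrankEq V _ hdim', ?_⟩
    intro x y
    have hs : Subsingleton V := Module.finrank_zero_iff.1 (by simpa using hdim)
    have hx : x = 0 := Subsingleton.elim _ _
    rw [hx]
    simp
  | succ m IH =>
    intro V _ _ _ B halt hnd hdim
    exact isoS_step m V B halt hnd hdim IH

theorem iso_sp {F E : Type} [Field F] [Field E] [Algebra F E] [Finite F] [Finite E] (D : Dat F E)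
    (hr : Odd D.r) : Nonempty (D.G ≃* Matrix.symplecticGroup (Fin D.r) F) := by
  classical
  have halt : ∀ x, D.B x x = 0 := by
    intro x
    have h := D.B_symm x x
    rw [hr.neg_one_pow] at h
    have h2 : (2 : F) * D.B x x = 0 := by linear_combination h
    exact (mul_eq_zero.1 h2).resolve_left D.two_ne
  obtain ⟨e, he⟩ := exists_std D.r E D.B halt (fun x h => D.B_nondeg h) D.fin
  let Mt : (E ≃ₗ[F] E) → Matrix (Fin D.r ⊕ Fin D.r) (Fin D.r ⊕ Fin D.r) F :=
    fun g => LinearMap.toMatrix' (e.toLinearMap ∘ₗ g.toLinearMap ∘ₗ e.symm.toLinearMap)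
  have hMt : ∀ g a, Matrix.mulVec (Mt g) a = e (g (e.symm a)) := by
    intro g a
    rw [← Matrix.toLin'_apply, Matrix.toLin'_toMatrix']
    rfl
  have hω : ∀ a b : Fin D.r ⊕ Fin D.r → F,
      ∑ i, (a (Sum.inl i) * b (Sum.inr i) - a (Sum.inr i) * b (Sum.inl i)) =
        -(dotProduct a (Matrix.mulVec (Matrix.J (Fin D.r) F) b)) := by
    intro a b
    rw [Matrix.J, Matrix.fromBlocks_mulVec, dotProduct, Fintype.sum_sum_type, ← neg_add_eq_zero]
    simp only [Sum.elim_inl, Sum.elim_inr, Matrix.zero_mulVec, Matrix.neg_mulVec,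
      Matrix.one_mulVec, Pi.neg_apply, Function.comp_apply, zero_add,
      add_zero, Finset.sum_sub_distrib, mul_neg, Finset.sum_neg_distrib]
    ring
  have hB : ∀ x y, D.B x y = -(dotProduct (e x) (Matrix.mulVec (Matrix.J (Fin D.r) F) (e y))) := by
    intro x y
    rw [he, hω]
  have hq : ∀ (A : Matrix (Fin D.r ⊕ Fin D.r) (Fin D.r ⊕ Fin D.r) F) (a b : Fin D.r ⊕ Fin D.r → F),
      dotProduct a (Matrix.mulVec (A.transpose * Matrix.J (Fin D.r) F * A) b) =
        dotProduct (Matrix.mulVec A a) (Matrix.mulVec (Matrix.J (Fin D.r) F) (Matrix.mulVec A b)) := by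
    intro A a b
    rw [← Matrix.mulVec_mulVec, ← Matrix.mulVec_mulVec, Matrix.dotProduct_mulVec,
      Matrix.vecMul_transpose]
  have hmem : ∀ g, g ∈ D.G ↔ Mt g ∈ Matrix.symplecticGroup (Fin D.r) F := by
    intro g
    rw [SymplecticGroup.mem_iff', D.mem_G]
    constructor
    · intro h
      have h' : ∀ a b : Fin D.r ⊕ Fin D.r → F,
          dotProduct a (Matrix.mulVec ((Mt g).transpose * Matrix.J (Fin D.r) F * Mt g) b) =
            dotProduct a (Matrix.mulVec (Matrix.J (Fin D.r) F) b) := by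
        intro a b
        have h1 := h (e.symm a) (e.symm b)
        rw [hB, hB, LinearEquiv.apply_symm_apply, LinearEquiv.apply_symm_apply, neg_inj] at h1
        rw [hq, hMt, hMt, h1]
      ext i j
      have := h' (Pi.single i 1) (Pi.single j 1)
      simpa using this
    · intro h x y
      have h1 := hq (Mt g) (e x) (e y)
      rw [h, hMt, hMt, LinearEquiv.symm_apply_apply, LinearEquiv.symm_apply_apply] at h1
      rw [hB, hB, h1]
  have hmul : ∀ g h : E ≃ₗ[F] E, Mt (g * h) = Mt g * Mt h := by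
    intro g h
    have h1 : e.toLinearMap ∘ₗ (g * h).toLinearMap ∘ₗ e.symm.toLinearMap =
        (e.toLinearMap ∘ₗ g.toLinearMap ∘ₗ e.symm.toLinearMap) ∘ₗ
          (e.toLinearMap ∘ₗ h.toLinearMap ∘ₗ e.symm.toLinearMap) := by
      refine LinearMap.ext fun a => ?_
      simp only [LinearMap.comp_apply, LinearEquiv.coe_coe, LinearEquiv.symm_apply_apply]
      rfl
    change LinearMap.toMatrix' _ = LinearMap.toMatrix' _ * LinearMap.toMatrix' _
    rw [h1, LinearMap.toMatrix'_comp]
  let f : D.G →* Matrix.symplecticGroup (Fin D.r) F :=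
    MonoidHom.mk' (fun g => ⟨Mt g, (hmem g).1 g.2⟩) (by
      intro g h
      apply Subtype.ext
      exact hmul g h)
  refine ⟨MulEquiv.ofBijective f ⟨?_, ?_⟩⟩
  · intro g h hgh
    have h1 : Mt g = Mt h := congrArg Subtype.val hgh
    apply Subtype.ext
    refine LinearEquiv.ext fun x => ?_
    have h2 := hMt g (e x)
    rw [h1, hMt, LinearEquiv.symm_apply_apply] at h2
    exact (e.injective h2).symm
  · rintro ⟨A, hA⟩
    have hu : IsUnit A.det := SymplecticGroup.symplectic_det hA
    let g : E ≃ₗ[F] E := e.trans ((Matrix.toLin'OfInv (A.nonsing_inv_mul hu)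
      (A.mul_nonsing_inv hu)).trans e.symm)
    have hg : Mt g = A := by
      apply Matrix.toLin'.injective
      refine LinearMap.ext fun a => ?_
      rw [Matrix.toLin'_apply, hMt]
      change e (e.symm (Matrix.toLin' A (e (e.symm a)))) = Matrix.toLin' A a
      rw [LinearEquiv.apply_symm_apply, LinearEquiv.apply_symm_apply]
    refine ⟨⟨g, (hmem g).2 (by rw [hg]; exact hA)⟩, ?_⟩
    apply Subtype.ext
    exact hg

end Pool.Agent.H32.UD
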