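import Pool.Agent.H32.UD.Gam
import Pool.Agent.H32.UD.Exg
import Pool.Agent.H32.UD.Exd
import Pool.Agent.H32.UD.IsoS
import Pool.Agent.H32.UD.IsoO

/-!
# UD.Fin : the theorem

PROOF. `model`: `overgroups`, `exists_good`, `comm_eq`, `gamma_eq_two` with `Γ = ⁅G, G⁆` (`hover`: if `⁅G, G⁆ ≤ H ≤ Γ` then `H = Γ`; `hT`: `hasT_comm`). For odd `r` `⁅G, G⁆ = G`. Then `exists_dat`, `iso_sp`, `iso_orth` and the transport lemmas of UD.GamL.
-/

set_option autoImplicit false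

namespace Pool.Agent.H32.UD

open Module QuadraticMap Pool.Agent.H49.UDN

/-- the projective symplectic group `PSp_{2r}(F)` -/
def PSp (F : Type) [Field F] (r : ℕ) : Type := ModCenter (Matrix.symplecticGroup (Fin r) F)

instance (F : Type) [Field F] (r : ℕ) : Group (PSp F r) :=
  inferInstanceAs (Group (ModCenter (Matrix.symplecticGroup (Fin r) F)))

theorem model (r : ℕ) (hr : 4 ≤ r) : ∃ q0 : ℕ, ∀ (F E : Type) [Field F] [Field E] [Algebra F E] [Finite F]
    [Finite E] (D : Dat F E), D.r = r → q0 ≤ Nat.card F →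
    gammaU (ModCenter (⁅D.G, D.G⁆ : Subgroup (E ≃ₗ[F] E))) = 2 ∧ (Odd r → ⁅D.G, D.G⁆ = D.G) := by
  obtain ⟨q1, h1⟩ := overgroups r
  obtain ⟨q2, h2⟩ := exists_good r hr
  obtain ⟨q3, h3⟩ := comm_eq r
  refine ⟨max 10 (max q1 (max q2 q3)), ?_⟩
  intro F E _ _ _ _ _ D hD hq
  have g0 : 10 ≤ Nat.card F := (le_max_left _ _).trans hq
  have g1 : q1 ≤ Nat.card F := (le_max_left _ _).trans ((le_max_right _ _).trans hq)
  have g2 : q2 ≤ Nat.card F :=
    (le_max_left _ _).trans ((le_max_right _ _).trans ((le_max_right _ _).trans hq))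
  have g3 : q3 ≤ Nat.card F :=
    (le_max_right _ _).trans ((le_max_right _ _).trans ((le_max_right _ _).trans hq))
  refine ⟨?_, fun hodd => h3 F E D hD g3 hodd⟩
  have hle : (⁅D.G, D.G⁆ : Subgroup (E ≃ₗ[F] E)) ≤ D.G := Subgroup.commutator_le_self D.G
  refine gamma_eq_two D g0 ⁅D.G, D.G⁆ hle D.hasT_comm ?_ ?_
  · intro H hH hT
    rcases h1 F E D hD g1 H (hH.trans hle) hT with ⟨p, hp, hp2, hp3⟩ | ⟨hp, -⟩
    · left
      exact ⟨p, hp, by rw [hD]; exact hp2, hp3⟩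
    · right
      exact le_antisymm hH hp
  · obtain ⟨g, hg, hg'⟩ := h2 F E D hD g2
    refine ⟨g, hg, fun k l hk hl hkr hlr => hg' k l hk hl ?_ ?_⟩
    · rw [← hD]; exact hkr
    · rw [← hD]; exact hlr

theorem main (r : ℕ) (hr : 4 ≤ r) : ∃ q₀ : ℕ, ∀ (F : Type) [Field F] [Finite F], Odd (Nat.card F) →
    q₀ ≤ Nat.card F →
    (Odd r → gammaU (PSp F r) = 2) ∧
    (Even r → ∀ (V : Type) [AddCommGroup V] [Module F V] [FiniteDimensional F V] (Q : QuadraticForm F V),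
      (∀ x, (∀ y, polar Q x y = 0) → x = 0) → finrank F V = 2 * r →
      (∀ W : Submodule F V, (∀ x ∈ W, Q x = 0) → finrank F W < r) → gammaU (POmegaForm Q) = 2) := by
  obtain ⟨q0, h0⟩ := model r hr
  refine ⟨q0, ?_⟩
  intro F _ _ hodd hq
  obtain ⟨E, _, _, _, D, hD⟩ := exists_dat F hodd r hr
  obtain ⟨h1, h2⟩ := h0 F E D hD hq
  subst hD
  constructor
  · intro hro
    rw [h2 hro] at h1
    obtain ⟨e⟩ := iso_sp D hro
    obtain ⟨e'⟩ := modCenter_congr e
    have h3 := gammaU_congr e'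
    rw [h1] at h3
    exact h3.symm
  · intro hre V _ _ _ Q hQ hV hts
    obtain ⟨e⟩ := iso_orth D hre V Q hQ hV hts
    obtain ⟨e1⟩ := derived_congr e
    obtain ⟨e2⟩ := derived_sub D.G
    obtain ⟨e3⟩ := modCenter_congr (e1.trans e2)
    have h3 := gammaU_congr e3
    rw [h1] at h3
    exact h3

end Pool.Agent.H32.UD
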