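import Pool.Agent.H32.UD.Dim
import Pool.Agent.H32.UD.DimC

/-!
# UD.Gcd : the group generated by the Cayley elements; trivial intersection
-/

set_option autoImplicit false
set_option linter.unusedSectionVars false

namespace Pool.Agent.H32.UD

open Module

namespace Dat

variable {F E : Type} [Field F] [Field E] [Algebra F E] (D : Dat F E) [Finite F] [Finite E]

/-- the isometries without eigenvalue `-1` -/
def Cay : Set (E ≃ₗ[F] E) := {g | g ∈ D.G ∧ ∀ x, g x = -x → x = 0}

/-- the group generated by them -/
def Gc : Subgroup (E ≃ₗ[F] E) := Subgroup.closure D.Cay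

theorem Gc_le : D.Gc ≤ D.G := by
  unfold Gc
  rw [Subgroup.closure_le]
  exact fun g hg => hg.1

/-- the normaliser of the subfield with `q ^ k` elements and the conjugate by `g` of the normaliser of the subfield with
`q ^ l` elements have only `± 1` in common -/
def Triv (k l : ℕ) (g : E ≃ₗ[F] E) : Prop :=
  ∀ x ∈ D.G, Nor k x → Nor l (g⁻¹ * x * g) → (∀ v, x v = v) ∨ ∀ v, x v = -v

end Dat

end Pool.Agent.H32.UD
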