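import Pool.Agent.H49.UDN.EMain

/-!
# UD.GamL : general facts on the uniform domination number

PROOF. `two_le`: let `S` be a finite total dominating set with `card ≤ 1`. If `S = ∅` then `G` has no element `≠ 1`, so it is trivial, hence cyclic. If `S = {a}`: if `a ≠ 1` apply the property to `x = a`: `closure {a} = ⊤`; if `a = 1` and `x ≠ 1` exists: `closure {x, 1} = ⊤`; in all cases `G` is cyclic. `le_two`: the set `{s, g s g⁻¹}` (one or two elements) is a total dominating
set in one conjugacy class. `congr`: transport of total dominating sets by an isomorphism (both inequalities; `Finset.map`). `modCenter_congr`, `derived_congr`: an isomorphism maps the centre onto the centre (`Subgroup.centerCongr`, `QuotientGroup.congr`), the commutator subgroup onto the commutator subgroup (`Subgroup.map_commutator`, `MulEquiv.subgroupMap`).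
`derived_sub`: for a subgroup `K` of a group the commutator subgroup of the type `K` is isomorphic to `⁅K, K⁆` (`Subgroup.map_subtype_commutator`).
-/

set_option autoImplicit false

namespace Pool.Agent.H32.UD

open Pool.Agent.H49.UDN

private lemma gl_cyclic {G : Type} [Group G] {x a : G} (ha : a = x ∨ a = 1)
    (h : Subgroup.closure {x, a} = ⊤) : IsCyclic G := by
  refine ⟨x, fun y => ?_⟩
  have h1 : Subgroup.closure {x, a} ≤ Subgroup.zpowers x := by
    rw [Subgroup.closure_le]
    intro z hz
    rcases hz with hz | hz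
    · rw [hz]
      exact Subgroup.mem_zpowers x
    · rw [Set.mem_singleton_iff] at hz
      rcases ha with ha | ha
      · rw [hz, ha]
        exact Subgroup.mem_zpowers x
      · rw [hz, ha]
        exact (Subgroup.zpowers x).one_mem
  rw [h] at h1
  exact h1 (Subgroup.mem_top y)

theorem two_le_gammaU (G : Type) [Group G] (h : ¬ IsCyclic G) : 2 ≤ gammaU G := by
  unfold gammaU
  refine le_iInf₂ fun S hS => ?_
  by_contra hcon
  have hlt : ((S.card : ℕ) : ℕ∞) < ((2 : ℕ) : ℕ∞) := not_le.1 hcon
  have hlt' : S.card < 2 := by exact_mod_cast hlt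
  have htriv : (∀ x : G, x = 1) → False := by
    intro hall
    have hs : Subsingleton G := ⟨fun x y => by rw [hall x, hall y]⟩
    exact h isCyclic_of_subsingleton
  rcases Nat.lt_or_ge S.card 1 with h0 | h1
  · have hS0 : S = ∅ := Finset.card_eq_zero.1 (by omega)
    refine htriv fun x => ?_
    by_contra hx
    obtain ⟨s, hs, -⟩ := hS.1 x hx
    rw [hS0] at hs
    simp at hs
  · obtain ⟨a, ha⟩ := Finset.card_eq_one.1 (show S.card = 1 by omega)
    have hmem : ∀ s, s ∈ (S : Set G) → s = a := by
      intro s hs
      rw [ha] at hs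
      simpa using hs
    by_cases ha1 : a = 1
    · refine htriv fun x => ?_
      by_contra hx
      obtain ⟨s, hs, hcl⟩ := hS.1 x hx
      exact h (gl_cyclic (Or.inr ((hmem s hs).trans ha1)) hcl)
    · obtain ⟨s, hs, hcl⟩ := hS.1 a ha1
      exact h (gl_cyclic (Or.inl (hmem s hs)) hcl)

theorem gammaU_le_two (G : Type) [Group G] (s g : G)
    (h : ∀ x : G, x ≠ 1 → Subgroup.closure {x, s} = ⊤ ∨ Subgroup.closure {x, g * s * g⁻¹} = ⊤) :
    gammaU G ≤ 2 := by
  classical
  unfold gammaU
  have hcj : IsConj s (g * s * g⁻¹) := isConj_iff.2 ⟨g, rfl⟩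
  refine iInf₂_le_of_le ({s, g * s * g⁻¹} : Finset G) ⟨?_, ?_⟩ ?_
  · intro x hx
    rcases h x hx with h1 | h1
    · exact ⟨s, by simp, h1⟩
    · exact ⟨g * s * g⁻¹, by simp, h1⟩
  · intro a ha b hb
    rw [Finset.mem_insert, Finset.mem_singleton] at ha hb
    rcases ha with rfl | rfl <;> rcases hb with hb | hb
    · rw [hb]
    · rw [hb]; exact hcj
    · rw [hb]; exact hcj.symm
    · rw [hb]
  · have h2 : ({s, g * s * g⁻¹} : Finset G).card ≤ 2 := Finset.card_le_two
    exact_mod_cast h2

private lemma gl_le {G G' : Type} [Group G] [Group G'] (e : G ≃* G') : gammaU G' ≤ gammaU G := by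
  unfold gammaU
  refine le_iInf₂ fun S hS => ?_
  refine iInf₂_le_of_le (S.map e.toEquiv.toEmbedding) ⟨?_, ?_⟩ ?_
  · intro x hx
    have hx' : e.symm x ≠ 1 := by
      intro h0
      apply hx
      have := congrArg e h0
      rw [e.apply_symm_apply, map_one] at this
      exact this
    obtain ⟨s, hs, hcl⟩ := hS.1 (e.symm x) hx'
    refine ⟨e s, ?_, ?_⟩
    · rw [Finset.coe_map]
      exact ⟨s, hs, rfl⟩
    · have h1 := congrArg (Subgroup.map (e : G →* G')) hcl
      rw [MonoidHom.map_closure, Subgroup.map_top_of_surjective _ e.surjective] at h1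
      have h2 : (e : G →* G') '' {e.symm x, s} = {x, e s} := by
        rw [Set.image_pair]
        simp
      rw [h2] at h1
      exact h1
  · intro a ha b hb
    obtain ⟨a', ha', rfl⟩ := Finset.mem_map.1 ha
    obtain ⟨b', hb', rfl⟩ := Finset.mem_map.1 hb
    have h1 := hS.2 a' ha' b' hb'
    exact (e : G →* G').map_isConj h1
  · rw [Finset.card_map]

theorem gammaU_congr {G G' : Type} [Group G] [Group G'] (e : G ≃* G') : gammaU G = gammaU G' :=
  le_antisymm (gl_le e.symm) (gl_le e)

private lemma gl_center {G G' : Type} [Group G] [Group G'] (e : G ≃* G') :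
    (Subgroup.center G).map (e : G →* G') = Subgroup.center G' := by
  ext x
  constructor
  · rintro ⟨y, hy, rfl⟩
    rw [Subgroup.mem_center_iff]
    intro z
    have h1 := Subgroup.mem_center_iff.1 hy (e.symm z)
    have h2 := congrArg e h1
    simpa using h2
  · intro hx
    refine ⟨e.symm x, ?_, by simp⟩
    rw [SetLike.mem_coe, Subgroup.mem_center_iff]
    intro z
    have h1 := Subgroup.mem_center_iff.1 hx (e z)
    have h2 := congrArg e.symm h1
    simpa using h2

theorem modCenter_congr {G G' : Type} [Group G] [Group G'] (e : G ≃* G') :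
    Nonempty (ModCenter G ≃* ModCenter G') :=
  ⟨QuotientGroup.congr (Subgroup.center G) (Subgroup.center G') e (gl_center e)⟩

theorem derived_congr {G G' : Type} [Group G] [Group G'] (e : G ≃* G') :
    Nonempty (Derived G ≃* Derived G') := by
  have h1 : (commutator G).map (e : G →* G') = commutator G' := by
    rw [commutator_def, commutator_def, Subgroup.map_commutator,
      Subgroup.map_top_of_surjective _ e.surjective]
  exact ⟨(e.subgroupMap (commutator G)).trans (MulEquiv.subgroupCongr h1)⟩

theorem derived_sub {G : Type} [Group G] (K : Subgroup G) :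
    Nonempty (Derived K ≃* (⁅K, K⁆ : Subgroup G)) :=
  ⟨((commutator K).equivMapOfInjective K.subtype K.subtype_injective).trans
    (MulEquiv.subgroupCongr (Subgroup.map_subtype_commutator K))⟩

end Pool.Agent.H32.UD
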