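import Pool.Agent.H32.UD.Adj
import Pool.Agent.H32.UD.Sepx

/-!
# UD.Grd : a space stable under the torus is graded and `E`-stable

PROOF. Let `θ c = u / σ c u = u * σ (c + r) u` (`bar u = u⁻¹`). `Ad (M u) X = M u * X * M u⁻¹` has coefficients `co X c * θ c` (`co_M_mul`, `co_mul_M`), so for `P ∈ F[X]` the operator `P (Ad)` has coefficients `co X c * P(θ c)` and maps `W` to `W`. By `Sep`: (a) `σ i (θ c) = θ c'` for `c, c' ≠ 0` only if
`(i, i + c + r)` equals `(0, c' + r)` or `(c' + r, 0)`, i.e. (`i = 0`, `c' = c`) or (`i = c' + r`, `c' = -c`); (b) `θ c ≠ 1 = θ 0` for `c ≠ 0` (take `k = 0, l = r`). So `θ c` (`c ≠ 0`) has `2 r` distinct conjugates, `F[θ c] = E`, and the minimal polynomial `m_c` of `θ c` does not vanish at `θ c'` unless `c' = ± c`, nor at `1`.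
Let `N = (X - 1) ∏_{c' ≠ 0, ± c} m_{c'}`; `N(θ c) ≠ 0`. Since `F[θ c] = E` there is `Q` with `Q(θ c) = e / N(θ c)`; `P = Q N`: `P(θ c) = e`, `P(θ c') = 0` for `c' ≠ ± c`. `θ (-c) = u / σ(-c) u = σ (-c) (σ c u / u) = σ(-c) (bar (θ c))` so `P(θ (-c)) = σ(-c) (bar e)`.
Then `Y = P(Ad) X ∈ W` has coefficient `e co X c` at `c`, `co X (-c) σ(-c)(bar e) = - sg c σ(-c)(bar (e co X c))` at `-c` (`mem_iff`), `0` elsewhere. If `c ≠ -c` this is `S c (e co X c)` (`co_S`, `ext_co`). If `c = -c` (so `c = r`): `r` even: `co X r = 0` (`co_r_even`) and `S r = 0`; `r` odd: `S r a = 2 M a Fz r = 2 Y`.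
(`F[θ c] = E`: a subfield containing `θ c` and fixed by `σ i` for `i ≠ 0` would give `σ i (θ c) = θ c`; use `IntermediateField` Galois correspondence, or: the `2r` conjugates are distinct roots of the minimal polynomial so its degree is `2 r`.)
-/

set_option autoImplicit false

namespace Pool.Agent.H32.UD

open Module

open Polynomial

private theorem half {r : ℕ} (hr : 0 < r) {c : ZMod (2 * r)} (hc : c ≠ 0) (h : c + c = 0) : c = (r : ZMod (2 * r)) := by
  have : NeZero (2 * r) := ⟨by omega⟩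
  have h1 : c = ((c.val : ℕ) : ZMod (2 * r)) := (ZMod.natCast_zmod_val c).symm
  have h2 : ((c.val + c.val : ℕ) : ZMod (2 * r)) = 0 := by
    rw [Nat.cast_add, ← h1, h]
  rw [ZMod.natCast_eq_zero_iff] at h2
  have h3 := ZMod.val_lt c
  have h4 : c.val ≠ 0 := fun h0 => hc ((ZMod.val_eq_zero c).1 h0)
  obtain ⟨t, ht⟩ := h2
  have h5 : c.val = r := by
    have h6 : c.val = r * t := by
      have : 2 * c.val = 2 * (r * t) := by rw [← mul_assoc, ← ht]; ring
      omega
    have h7 : t < 2 := by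
      by_contra h8
      push Not at h8
      have : r * 2 ≤ r * t := Nat.mul_le_mul_left _ h8
      omega
    have h8 : t ≠ 0 := by
      rintro rfl
      omega
    have h9 : t = 1 := by omega
    rw [h6, h9, mul_one]
  rw [h1, h5]

private theorem pow_memW {E' : Type} {F : Type} [Field F] [AddCommGroup E'] [Module F E'] (A : Module.End F E')
    (W : Submodule F E') (hW : ∀ X ∈ W, A X ∈ W) (n : ℕ) (X : E') (hX : X ∈ W) : (A ^ n) X ∈ W := by
  induction n with
  | zero => simpa using hX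
  | succ n ih =>
    rw [pow_succ', Module.End.mul_apply]
    exact hW _ ih

private theorem aeval_memW {E' : Type} {F : Type} [Field F] [AddCommGroup E'] [Module F E'] (A : Module.End F E')
    (W : Submodule F E') (hW : ∀ X ∈ W, A X ∈ W) (P : F[X]) (X : E') (hX : X ∈ W) : (aeval A P) X ∈ W := by
  rw [aeval_eq_sum_range, LinearMap.sum_apply]
  exact W.sum_mem fun i _ => W.smul_mem _ (pow_memW A W hW i X hX)

private theorem aeval_L {E' E : Type} {F : Type} [Field F] [AddCommGroup E'] [Module F E'] [Field E] [Algebra F E]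
    (A : Module.End F E') (L : E' →ₗ[F] E) (θ : E) (h : ∀ X, L (A X) = θ * L X) (P : F[X]) (X : E') :
    L ((aeval A P) X) = aeval θ P * L X := by
  have h1 : ∀ n X, L ((A ^ n) X) = θ ^ n * L X := by
    intro n
    induction n with
    | zero => intro X; simp
    | succ n ih =>
      intro X
      rw [pow_succ', Module.End.mul_apply, h, ih, pow_succ']
      ring
  rw [aeval_eq_sum_range, aeval_eq_sum_range, LinearMap.sum_apply, map_sum, Finset.sum_mul]
  refine Finset.sum_congr rfl fun i _ => ?_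
  rw [LinearMap.smul_apply, map_smul, h1, smul_mul_assoc]

namespace Dat

variable {F E : Type} [Field F] [Field E] [Algebra F E] (D : Dat F E) [Finite F] [Finite E]

private theorem aut_σ (g : E ≃ₐ[F] E) : ∃ i, g = D.σ i := by
  have hf : FiniteDimensional F E := inferInstance
  have hi : Function.Injective D.σ := fun c d h => D.σ_inj h
  have hcard : Nat.card (ZMod (2 * D.r)) = Nat.card (E ≃ₐ[F] E) := by
    rw [IsGalois.card_aut_eq_finrank, D.fin, Nat.card_zmod]
  have hb : Function.Bijective D.σ := (Nat.bijective_iff_injective_and_card D.σ).2 ⟨hi, hcard⟩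
  obtain ⟨i, hi⟩ := hb.2 g
  exact ⟨i, hi.symm⟩

private theorem θ_conj (u : E) (hu0 : u ≠ 0) (hs : D.Sep u) {c c' i : ZMod (2 * D.r)} (hc : c ≠ 0)
    (h : D.σ i (u / D.σ c u) = u / D.σ c' u) : (i = 0 ∧ c' = c) ∨ (c' = i + D.r ∧ i + c = D.r) := by
  have hne : ∀ j, D.σ j u ≠ 0 := fun j => by
    rw [Ne, EmbeddingLike.map_eq_zero_iff]
    exact hu0
  rw [map_div₀, ← σ_add_apply, div_eq_div_iff (hne _) (hne _)] at h
  have h1 := hs i c' 0 (i + c) (by rw [σ_zero_apply]; exact h)
  rcases h1 with ⟨h1, h2⟩ | ⟨h1, h2⟩ | ⟨h1, h2⟩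
  · left
    refine ⟨h1, ?_⟩
    rw [h2, h1, zero_add]
  · exfalso
    apply hc
    have : i + 0 = i + c := by rw [add_zero]; exact h1
    exact (add_left_cancel this).symm
  · right
    exact ⟨h1, by rw [h2, zero_add]⟩

private theorem θ_conj' (u : E) (hu0 : u ≠ 0) (hs : D.Sep u) {c c' i : ZMod (2 * D.r)} (hc : c ≠ 0)
    (h : D.σ i (u / D.σ c u) = u / D.σ c' u) : c' = c ∨ c' = -c := by
  rcases D.θ_conj u hu0 hs hc h with ⟨_, h2⟩ | ⟨h1, h2⟩
  · exact Or.inl h2
  · right
    have h3 := D.two_r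
    have h4 : i = D.r - c := by rw [← h2]; ring
    rw [h1, h4]
    linear_combination h3

private theorem θ_stab (u : E) (hu0 : u ≠ 0) (hs : D.Sep u) {c i : ZMod (2 * D.r)} (hc : c ≠ 0)
    (h : D.σ i (u / D.σ c u) = u / D.σ c u) : i = 0 := by
  rcases D.θ_conj u hu0 hs hc h with ⟨h1, _⟩ | ⟨h1, h2⟩
  · exact h1
  · have h3 := D.two_r
    have h4 : c + c = 0 := by
      have : c + c = (i + c) + D.r := by linear_combination h1
      rw [this, h2, h3]
    have h5 := half (by have := D.four_le; omega) hc h4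
    rw [h5] at h2
    exact add_eq_right.1 h2

private theorem θ_gen (θ : E) (h : ∀ i, D.σ i θ = θ → i = 0) (b : E) : ∃ Q : F[X], aeval θ Q = b := by
  have hf : FiniteDimensional F E := inferInstance
  have htop : IntermediateField.adjoin F {θ} = ⊤ := by
    rw [Field.primitive_element_iff_algHom_eq_of_eval F E (fun x => Normal.splits inferInstance x) θ (AlgHom.id F E)]
    intro ψ hψ
    have hbij : Function.Bijective ψ := Algebra.IsAlgebraic.algHom_bijective ψ
    obtain ⟨i, hi⟩ := D.aut_σ (AlgEquiv.ofBijective ψ hbij)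
    have h1 : D.σ i θ = θ := by
      rw [← hi]
      exact hψ.symm
    have h2 := h i h1
    ext x
    have h3 : (AlgEquiv.ofBijective ψ hbij) x = x := by
      rw [hi, h2, σ_zero_apply]
    exact h3.symm
  have h1 : b ∈ (IntermediateField.adjoin F {θ}).toSubalgebra := by
    rw [htop]
    trivial
  rw [IntermediateField.adjoin_simple_toSubalgebra_of_isAlgebraic (Algebra.IsAlgebraic.isAlgebraic θ),
    Algebra.adjoin_singleton_eq_range_aeval] at h1
  exact h1

private theorem exists_P (u : E) (hu0 : u ≠ 0) (hs : D.Sep u) {c : ZMod (2 * D.r)} (hc : c ≠ 0) (e : E) :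
    ∃ P : F[X], aeval (u / D.σ c u) P = e ∧ ∀ c', c' ≠ c → c' ≠ -c → aeval (u / D.σ c' u) P = 0 := by
  classical
  have hf : FiniteDimensional F E := inferInstance
  set N : F[X] := ∏ c' ∈ Finset.univ.filter (fun c' : ZMod (2 * D.r) => c' ≠ c ∧ c' ≠ -c),
    minpoly F (u / D.σ c' u) with hN
  have hNc : aeval (u / D.σ c u) N ≠ 0 := by
    rw [hN, map_prod, Finset.prod_ne_zero_iff]
    intro c' hc' h0
    rw [Finset.mem_filter] at hc'
    have h1 := isConjRoot_of_aeval_eq_zero (Algebra.IsIntegral.isIntegral (R := F) (u / D.σ c' u)) h0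
    obtain ⟨g, hg⟩ := isConjRoot_iff_exists_algEquiv.1 h1
    obtain ⟨i, rfl⟩ := D.aut_σ g
    rcases D.θ_conj' u hu0 hs hc hg with h2 | h2
    · exact hc'.2.1 h2
    · exact hc'.2.2 h2
  obtain ⟨Q, hQ⟩ := D.θ_gen (u / D.σ c u) (fun i hi => D.θ_stab u hu0 hs hc hi) (e / aeval (u / D.σ c u) N)
  refine ⟨Q * N, ?_, ?_⟩
  · rw [map_mul, hQ, div_mul_cancel₀ _ hNc]
  · intro c' h1 h2
    rw [map_mul, hN, map_prod]
    apply mul_eq_zero_of_right
    exact Finset.prod_eq_zero (i := c') (by simp [h1, h2]) (minpoly.aeval F _)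

/-- the coefficient as a linear map -/
private noncomputable def coL (c : ZMod (2 * D.r)) : Module.End F E →ₗ[F] E where
  toFun X := D.co X c
  map_add' X Y := D.co_add X Y c
  map_smul' a X := D.co_smul a X c

/-- the adjoint action -/
private noncomputable def AdL (F : Type) {E : Type} [Field F] [Field E] [Algebra F E] (u : Eˣ) :
    Module.End F (Module.End F E) where
  toFun X := M F (u : E) * X * M F ((u⁻¹ : Eˣ) : E)
  map_add' X Y := by rw [mul_add, add_mul]
  map_smul' a X := by rw [mul_smul_comm, smul_mul_assoc]; rfl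

end Dat

namespace Dat

variable {F E : Type} [Field F] [Field E] [Algebra F E] (D : Dat F E) [Finite F] [Finite E]

theorem grade (u : Eˣ) (hu : (u : E) * D.bar u = 1) (hs : D.Sep (u : E)) (W : Submodule F (Module.End F E))
    (hW : ∀ X ∈ W, M F (u : E) * X * M F ((u⁻¹ : Eˣ) : E) ∈ W) (X : Module.End F E) (hXW : X ∈ W)
    (hX : X ∈ D.𝔤) (c : ZMod (2 * D.r)) (hc : c ≠ 0) (e : E) : D.S c (e * D.co X c) ∈ W := by
  classical
  have hu0 : (u : E) ≠ 0 := u.ne_zero
  obtain ⟨P, hP1, hP2⟩ := D.exists_P (u : E) hu0 hs hc e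
  have hco : ∀ d (Z : Module.End F E), D.coL d (AdL F u Z) = ((u : E) / D.σ d (u : E)) * D.coL d Z := by
    intro d Z
    show D.co (M F (u : E) * Z * M F ((u⁻¹ : Eˣ) : E)) d = ((u : E) / D.σ d (u : E)) * D.co Z d
    rw [co_mul_M, co_M_mul, Units.val_inv_eq_inv_val, map_inv₀]
    ring
  have hY : ∀ d, D.co ((aeval (AdL F u) P) X) d = aeval ((u : E) / D.σ d (u : E)) P * D.co X d := fun d =>
    aeval_L (AdL F u) (D.coL d) _ (hco d) P X
  have hYW : (aeval (AdL F u) P) X ∈ W := aeval_memW (AdL F u) W hW P X hXW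
  have hYg : (aeval (AdL F u) P) X ∈ D.𝔤 := by
    refine aeval_memW (AdL F u) D.𝔤 ?_ P X hX
    intro Z hZ
    exact D.conj_mem_𝔤 (D.mu_mem_G hu) hZ
  generalize (aeval (AdL F u) P) X = Y at hY hYW hYg
  have hYc : D.co Y c = e * D.co X c := by rw [hY, hP1]
  have hYm : D.co Y (-c) = -(D.sg c • D.σ (-c) (D.bar (e * D.co X c))) := by
    rw [(D.mem_iff Y).1 hYg c, hYc]
  have hY0 : ∀ d, d ≠ c → d ≠ -c → D.co Y d = 0 := by
    intro d h1 h2
    rw [hY, hP2 d h1 h2, zero_mul]
  by_cases hcc : c = -c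
  · have h1 : D.S c (e * D.co X c) = (2 : F) • Y := by
      apply D.ext_co
      intro d
      rw [co_S, co_smul]
      by_cases hd : d = c
      · subst hd
        rw [if_pos rfl, if_pos hcc, hYc]
        rw [← hcc, hYc] at hYm
        rw [← hcc]
        have h3 : D.sg d • D.σ d (D.bar (e * D.co X d)) = -(e * D.co X d) := by
          rw [eq_neg_iff_add_eq_zero, add_comm, ← sub_neg_eq_add, ← hYm, sub_self]
        rw [h3, two_smul, sub_neg_eq_add]
      · rw [if_neg hd, if_neg (by rw [← hcc]; exact hd), hY0 d hd (by rw [← hcc]; exact hd), smul_zero,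
          sub_zero]
    rw [h1]
    exact W.smul_mem _ hYW
  · have h1 : D.S c (e * D.co X c) = Y := by
      apply D.ext_co
      intro d
      rw [co_S]
      by_cases hd : d = c
      · subst hd
        rw [if_pos rfl, if_neg hcc, sub_zero, hYc]
      · rw [if_neg hd, zero_sub]
        by_cases hd' : d = -c
        · rw [if_pos hd', hd', hYm]
        · rw [if_neg hd', neg_zero, hY0 d hd hd']
    rw [h1]
    exact hYW

end Dat

end Pool.Agent.H32.UD
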