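import Pool.Agent.H32.UD.Grd

/-!
# UD.LieC : the span of the conjugates of the torus is closed under brackets, closure of the set of types

Let `W ≤ 𝔤` contain all `M e`, `bar e = -e`, be stable under brackets and under `Ad (M u)` (as in `grade`). `Ty W` = the set of `c` with `S c a ∈ W` for all `a`.

PROOF. `zero_ty`: `S 0 a = M (a - bar a)`. `neg_ty`: `S_neg`. `ty_of`: if `X ∈ W`, `co X c ≠ 0`, `c ≠ 0` then `grade` with `e = a / co X c` gives `S c a ∈ W`. `add_ty`: let `i, j ∈ Ty W`, `i + j ≠ 0`. The coefficient at `i + j` of `[S i a, S j b] = S i a * S j b - S j b * S i a ∈ W` is (`co_mul`, `co_S`)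
`a σ i b - b σ j a + (terms from other pairs)`. Case (A) `i, j ∉ {0, r}` and `i + j ≠ r`: the other pairs `(±i, ±j)` with sum `i + j`: `(i,-j)` iff `2 j = 0`, `(-i,j)` iff `2 i = 0`, `(-i,-j)` iff `2(i+j) = 0`: none. So the coefficient is `a σ i b - b σ j a`, with `b = 1`: `a - σ j a`, nonzero for some `a` as `j ≠ 0` (`σ_inj`); use `ty_of`.
If `i = 0` or `j = 0` trivial. Case (B) `r` odd, `i = r` or `j = r`, `i + j ≠ 0`, say `j = r ≠ i`, `i ≠ 0`: `S r b = 2 M b Fz r`; coefficient at `i + r` of the bracket with `S i a`: `2 (a σ i b - b σ r a)` (the pair `(-i, r)` has sum `r - i ≠ r + i` as `2 i ≠ 0`), `b = 1`: `2 (a - bar a) ≠ 0` for some `a`. Case (C) `r` odd, `i + j = r`, `i, j ≠ 0, r`: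
coefficient at `r` of `[S i a, S j b]` : from `(i, j)`: `C = a σ i b - b σ j a`, from `(-i,-j)`: `sg i sg j (..)` = coefficient at `r` of `-[..]^*`, altogether `C - (-1)^r C = 2 C` (use `bracket_mem` : the bracket lies in `𝔤`, and compute with `mem_iff`; or expand directly), `C ≠ 0` for `b = 1` and some `a`. So for odd `r` always `i + j ∈ Ty W`, for even `r`
if `i, j, i + j ≠ r`; for even `r` note `r ∈ Ty W` since `S r = 0`.
-/

set_option autoImplicit false
set_option linter.unusedVariables false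

namespace Pool.Agent.H32.UD

open Module

namespace Dat

variable {F E : Type} [Field F] [Field E] [Algebra F E] (D : Dat F E) [Finite F] [Finite E]

theorem bracket_mem {X Y : Module.End F E} (hX : X ∈ D.𝔤) (hY : Y ∈ D.𝔤) : X * Y - Y * X ∈ D.𝔤 := by
  intro x y
  have h1 := hX (Y x) y
  have h2 := hY (X x) y
  have h3 := hX x (Y y)
  have h4 := hY x (X y)
  have e1 : (X * Y - Y * X) x = X (Y x) - Y (X x) := rfl
  have e2 : (X * Y - Y * X) y = X (Y y) - Y (X y) := rfl
  rw [e1, e2, map_sub, map_sub, LinearMap.sub_apply]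
  linear_combination h1 - h2 + h3 - h4

/-- the second coefficient of `S c a` -/
private noncomputable def lc' (c : ZMod (2 * D.r)) (a : E) : E := -(D.sg c • D.σ (-c) (D.bar a))

private theorem lc_S (c : ZMod (2 * D.r)) (a : E) :
    D.S c a = M F a * D.Fz c + M F (D.lc' c a) * D.Fz (-c) := by
  rw [S, lc', M_neg, M_smul, Fz_M, sub_eq_add_neg]
  congr 1

private theorem lc_mul (d e : ZMod (2 * D.r)) (a b : E) :
    (M F a * D.Fz d) * (M F b * D.Fz e) = M F (a * D.σ d b) * D.Fz (d + e) := by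
  rw [M_mul, Fz_add, mul_assoc (M F a), ← mul_assoc (D.Fz d), Fz_M, mul_assoc, mul_assoc]

private theorem lc_co (i j d : ZMod (2 * D.r)) (a b : E) :
    D.co (D.S i a * D.S j b) d =
      (if d = i + j then a * D.σ i b else 0) + (if d = i + -j then a * D.σ i (D.lc' j b) else 0) +
      ((if d = -i + j then D.lc' i a * D.σ (-i) b else 0) +
        (if d = -i + -j then D.lc' i a * D.σ (-i) (D.lc' j b) else 0)) := by
  rw [lc_S, lc_S, add_mul, mul_add, mul_add, lc_mul, lc_mul, lc_mul, lc_mul, co_add, co_add, co_add,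
    co_single, co_single, co_single, co_single]

omit [Finite F] [Finite E] in
private theorem lc_two {j : ZMod (2 * D.r)} (h : j + j = 0) : j = 0 ∨ j = (D.r : ZMod (2 * D.r)) := by
  have h1 : j = ((j.val : ℕ) : ZMod (2 * D.r)) := (ZMod.natCast_zmod_val j).symm
  have hlt := ZMod.val_lt j
  have h2 : ((j.val + j.val : ℕ) : ZMod (2 * D.r)) = 0 := by
    rw [Nat.cast_add, ← h1, h]
  rw [ZMod.natCast_eq_zero_iff] at h2
  obtain ⟨k, hk⟩ := h2
  have h4 := D.four_le
  have h3 : j.val = D.r * k := by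
    have : 2 * j.val = 2 * (D.r * k) := by rw [← mul_assoc, ← hk]; ring
    omega
  have hk2 : k < 2 := by
    by_contra hc
    have : D.r * 2 ≤ D.r * k := Nat.mul_le_mul_left _ (by omega)
    omega
  have hk3 : k = 0 ∨ k = 1 := by omega
  rcases hk3 with hk3 | hk3
  · left
    rw [h1, h3, hk3, mul_zero, Nat.cast_zero]
  · right
    rw [h1, h3, hk3, mul_one]

private theorem lc_ex {j : ZMod (2 * D.r)} (hj : j ≠ 0) : ∃ a : E, a - D.σ j a ≠ 0 := by
  by_contra hc
  push Not at hc
  apply hj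
  apply D.σ_inj
  rw [D.σ_zero]
  ext a
  have := hc a
  rw [sub_eq_zero] at this
  rw [← this]
  rfl

/-- the types contained in `W` -/
def Ty (W : Submodule F (Module.End F E)) : Set (ZMod (2 * D.r)) := {c | ∀ a, D.S c a ∈ W}

/-- the hypotheses on `W` -/
structure Good (W : Submodule F (Module.End F E)) (u : Eˣ) : Prop where
  le : W ≤ D.𝔤
  norm : (u : E) * D.bar u = 1
  sep : D.Sep (u : E)
  ad : ∀ X ∈ W, M F (u : E) * X * M F ((u⁻¹ : Eˣ) : E) ∈ W
  tor : ∀ e : E, D.bar e = -e → M F e ∈ W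
  lie : ∀ X ∈ W, ∀ Y ∈ W, X * Y - Y * X ∈ W

variable {D}

theorem Good.zero_ty {W : Submodule F (Module.End F E)} {u : Eˣ} (h : D.Good W u) :
    (0 : ZMod (2 * D.r)) ∈ D.Ty W := by
  intro a
  rw [S_zero]
  apply h.tor
  rw [map_sub, bar_bar, neg_sub]

theorem Good.neg_ty {W : Submodule F (Module.End F E)} {u : Eˣ} (h : D.Good W u) {c : ZMod (2 * D.r)}
    (hc : c ∈ D.Ty W) : -c ∈ D.Ty W := by
  intro a
  rw [S_neg]
  exact W.neg_mem (W.smul_mem _ (hc _))

theorem Good.ty_of {W : Submodule F (Module.End F E)} {u : Eˣ} (h : D.Good W u) {X : Module.End F E}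
    (hX : X ∈ W) {c : ZMod (2 * D.r)} (hc : c ≠ 0) (hne : D.co X c ≠ 0) : c ∈ D.Ty W := by
  intro a
  have h1 := D.grade u h.norm h.sep W h.ad X hX (h.le hX) c hc (a / D.co X c)
  rwa [div_mul_cancel₀ _ hne] at h1

/-- the coefficient of a bracket at the sum of the types, general case -/
private theorem lc_brA {i j : ZMod (2 * D.r)} (hi : i + i ≠ 0) (hj : j + j ≠ 0) (hij : (i + j) + (i + j) ≠ 0)
    (a : E) : D.co (D.S i a * D.S j 1 - D.S j 1 * D.S i a) (i + j) = a - D.σ j a := by
  have n1 : ¬ (i + j = i + -j) := fun e => hj (by linear_combination e)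
  have n2 : ¬ (i + j = -i + j) := fun e => hi (by linear_combination e)
  have n3 : ¬ (i + j = -i + -j) := fun e => hij (by linear_combination e)
  have m0 : i + j = j + i := add_comm _ _
  have m1 : ¬ (i + j = j + -i) := fun e => hi (by linear_combination e)
  have m2 : ¬ (i + j = -j + i) := fun e => hj (by linear_combination e)
  have m3 : ¬ (i + j = -j + -i) := fun e => hij (by linear_combination e)
  rw [co_sub, lc_co, lc_co, if_pos rfl, if_neg n1, if_neg n2, if_neg n3, if_pos m0, if_neg m1, if_neg m2,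
    if_neg m3]
  simp only [map_one]
  ring

/-- the coefficient of a bracket at the sum of the types, one type is `r` -/
private theorem lc_brB (hr : Odd D.r) {i : ZMod (2 * D.r)} (hi : i + i ≠ 0) (a : E) :
    D.co (D.S i a * D.S (D.r : ZMod (2 * D.r)) 1 - D.S (D.r : ZMod (2 * D.r)) 1 * D.S i a)
      (i + (D.r : ZMod (2 * D.r))) = (2 : F) • (a - D.σ (D.r : ZMod (2 * D.r)) a) := by
  have n1 : ¬ (i + (D.r : ZMod (2 * D.r)) = -i + (D.r : ZMod (2 * D.r))) := fun e =>
    hi (by linear_combination e)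
  have m0 : i + (D.r : ZMod (2 * D.r)) = (D.r : ZMod (2 * D.r)) + i := add_comm _ _
  have m1 : ¬ (i + (D.r : ZMod (2 * D.r)) = (D.r : ZMod (2 * D.r)) + -i) := fun e =>
    hi (by linear_combination e)
  rw [S_r_odd D hr, lc_S, mul_smul_comm, smul_mul_assoc, add_mul, mul_add, lc_mul, lc_mul, lc_mul, lc_mul,
    co_sub, co_smul, co_smul, co_add, co_add, co_single, co_single, co_single, co_single, if_pos rfl,
    if_neg n1, if_pos m0, if_neg m1]
  simp only [map_one, mul_one, add_zero, one_mul]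
  rw [smul_sub]

/-- the coefficient of a bracket at the sum of the types, the sum is `r` -/
private theorem lc_brC (hr : Odd D.r) {i j : ZMod (2 * D.r)} (hi : i + i ≠ 0) (hj : j + j ≠ 0)
    (hij : i + j = (D.r : ZMod (2 * D.r)))
    (a : E) : D.co (D.S i a * D.S j 1 - D.S j 1 * D.S i a) (i + j) = (2 : F) • (a - D.σ j a) := by
  have h2 := D.two_r
  have n1 : ¬ (i + j = i + -j) := fun e => hj (by linear_combination e)
  have n2 : ¬ (i + j = -i + j) := fun e => hi (by linear_combination e)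
  have n3 : i + j = -i + -j := by
    have : (i + j) + (i + j) = 0 := by rw [hij, h2]
    linear_combination this
  have m0 : i + j = j + i := add_comm _ _
  have m1 : ¬ (i + j = j + -i) := fun e => hi (by linear_combination e)
  have m2 : ¬ (i + j = -j + i) := fun e => hj (by linear_combination e)
  have m3 : i + j = -j + -i := by rw [n3, add_comm]
  have hsg : D.sg i * D.sg j = -1 := by
    rw [← sg_add, hij, sg_r, Odd.neg_one_pow hr]
  have e1 : D.lc' i a * D.σ (-i) (D.lc' j 1) = -D.σ j a := by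
    unfold lc'
    rw [map_one, map_one, map_neg, map_smul, map_one, neg_mul_neg, smul_mul_smul_comm, hsg, mul_one,
      bar_eq, ← σ_add_apply]
    have : -i + (D.r : ZMod (2 * D.r)) = j := by rw [← hij]; ring
    rw [this, neg_smul, one_smul]
  have e2 : D.lc' j 1 * D.σ (-j) (D.lc' i a) = -a := by
    unfold lc'
    rw [map_one, map_one, map_neg, map_smul, neg_mul_neg, smul_mul_smul_comm, mul_comm (D.sg j), hsg,
      one_mul, bar_eq, ← σ_add_apply, ← σ_add_apply]
    have : -j + -i + (D.r : ZMod (2 * D.r)) = 0 := by rw [← hij]; ring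
    rw [this, σ_zero_apply, neg_smul, one_smul]
  rw [co_sub, lc_co, lc_co, if_pos rfl, if_neg n1, if_neg n2, if_pos n3, if_pos m0, if_neg m1, if_neg m2,
    if_pos m3, e1, e2]
  simp only [map_one]
  rw [two_smul]
  ring

private theorem Good.lc_br {W : Submodule F (Module.End F E)} {u : Eˣ} (h : D.Good W u) {i j : ZMod (2 * D.r)}
    (hi : i ∈ D.Ty W) (hj : j ∈ D.Ty W) (h0 : i + j ≠ 0) (hj0 : j ≠ 0) (t : F) (ht : t ≠ 0)
    (hc : ∀ a, D.co (D.S i a * D.S j 1 - D.S j 1 * D.S i a) (i + j) = t • (a - D.σ j a)) :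
    i + j ∈ D.Ty W := by
  obtain ⟨a, ha⟩ := D.lc_ex hj0
  apply h.ty_of (h.lie _ (hi a) _ (hj 1)) h0
  rw [hc a]
  exact smul_ne_zero ht ha

theorem Good.add_ty {W : Submodule F (Module.End F E)} {u : Eˣ} (h : D.Good W u) {i j : ZMod (2 * D.r)}
    (hi : i ∈ D.Ty W) (hj : j ∈ D.Ty W)
    (hev : Even D.r → i ≠ (D.r : ZMod (2 * D.r)) ∧ j ≠ (D.r : ZMod (2 * D.r)) ∧ i + j ≠ (D.r : ZMod (2 * D.r))) :
    i + j ∈ D.Ty W := by
  by_cases h0 : i + j = 0
  · rw [h0]; exact h.zero_ty
  by_cases hi0 : i = 0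
  · rw [hi0, zero_add]; exact hj
  by_cases hj0 : j = 0
  · rw [hj0, add_zero]; exact hi
  have key : ∀ i' : ZMod (2 * D.r), i' ≠ 0 → i' ≠ (D.r : ZMod (2 * D.r)) → i' + i' ≠ 0 := by
    intro i' h1 h2 h3
    rcases D.lc_two h3 with h4 | h4
    · exact h1 h4
    · exact h2 h4
  rcases Nat.even_or_odd D.r with hr | hr
  · obtain ⟨h1, h2, h3⟩ := hev hr
    apply h.lc_br hi hj h0 hj0 1 one_ne_zero
    intro a
    rw [one_smul]
    exact lc_brA (key i hi0 h1) (key j hj0 h2) (key _ h0 h3) a
  · by_cases hir : i = (D.r : ZMod (2 * D.r))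
    · have hjr : j ≠ (D.r : ZMod (2 * D.r)) := by
        intro e
        apply h0
        rw [hir, e, D.two_r]
      rw [add_comm]
      apply h.lc_br hj hi (by rwa [add_comm]) hi0 2 D.two_ne
      intro a
      rw [hir]
      exact lc_brB hr (key j hj0 hjr) a
    · by_cases hjr : j = (D.r : ZMod (2 * D.r))
      · apply h.lc_br hi hj h0 hj0 2 D.two_ne
        intro a
        rw [hjr]
        exact lc_brB hr (key i hi0 hir) a
      · by_cases hijr : i + j = (D.r : ZMod (2 * D.r))
        · apply h.lc_br hi hj h0 hj0 2 D.two_ne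
          intro a
          exact lc_brC hr (key i hi0 hir) (key j hj0 hjr) hijr a
        · apply h.lc_br hi hj h0 hj0 1 one_ne_zero
          intro a
          rw [one_smul]
          exact lc_brA (key i hi0 hir) (key j hj0 hjr) (key _ h0 hijr) a

end Dat

end Pool.Agent.H32.UD
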