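import Mathlib

/-!
# UD.Lift : lifting a nondegenerate zero

PROOF. Induction on `m`. `m = 0`: constants `X i = C (x i)`. `m = 1` (the same choice works): the difference has constant coefficient `eval x (f i) - 0 = 0`. Step `m ≥ 1 → m + 1`: let `aeval X (f i) - C (u i) T = T^m g_i`. Put
`X' j = X j + C (w j) T^m`. Taylor: `aeval (X + H) f = aeval X f + ∑ j, H j * aeval X (pderiv j f) + (element of I²)` when all `H j ∈ I` (ideal `I = (T^m)`; prove by `MvPolynomial.induction_on` the statement
`aeval (X + H) f - aeval X f - ∑ j, H j * aeval X (pderiv j f) ∈ I ^ 2`). So `aeval X' (f i) - C (u i) T = T^m (g_i + ∑ j, C (w j) aeval X (pderiv j (f i))) + T^(2m) (..)`, `2 m ≥ m + 1`, and the bracket has constant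
coefficient `g_i(0) + ∑ j, w j eval x (pderiv j (f i))`, which is zero for `w = - J⁻¹ g(0)`, `J` the Jacobian matrix (`hJ`). The constant coefficients are unchanged as `m ≥ 1`.
-/

set_option autoImplicit false

namespace Pool.Agent.H32.UD

private theorem Lift_taylor (k : Type) [Field k] (A : Type) [CommRing A] [Algebra k A] (ρ : ℕ)
    (I : Ideal A) (X H : Fin ρ → A) (hH : ∀ j, H j ∈ I) (f : MvPolynomial (Fin ρ) k) :
    MvPolynomial.aeval (fun j => X j + H j) f - MvPolynomial.aeval X f -
      ∑ j, H j * MvPolynomial.aeval X (MvPolynomial.pderiv j f) ∈ I ^ 2 := by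
  induction f using MvPolynomial.induction_on with
  | C a =>
    simp
  | add p q hp hq =>
    have h : MvPolynomial.aeval (fun j => X j + H j) (p + q) - MvPolynomial.aeval X (p + q) -
        ∑ j, H j * MvPolynomial.aeval X (MvPolynomial.pderiv j (p + q)) =
        (MvPolynomial.aeval (fun j => X j + H j) p - MvPolynomial.aeval X p -
          ∑ j, H j * MvPolynomial.aeval X (MvPolynomial.pderiv j p)) +
        (MvPolynomial.aeval (fun j => X j + H j) q - MvPolynomial.aeval X q -
          ∑ j, H j * MvPolynomial.aeval X (MvPolynomial.pderiv j q)) := by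
      simp only [map_add, mul_add, Finset.sum_add_distrib]
      ring
    rw [h]
    exact add_mem hp hq
  | mul_X p i hp =>
    have hD : ∑ j, H j * MvPolynomial.aeval X (MvPolynomial.pderiv j p) ∈ I :=
      Ideal.sum_mem _ fun j _ => I.mul_mem_right _ (hH j)
    have hs : ∑ j, H j * MvPolynomial.aeval X (MvPolynomial.pderiv j (p * MvPolynomial.X i)) =
        (∑ j, H j * MvPolynomial.aeval X (MvPolynomial.pderiv j p)) * X i +
          H i * MvPolynomial.aeval X p := by
      have h1 : ∀ j, H j * MvPolynomial.aeval X (MvPolynomial.pderiv j (p * MvPolynomial.X i)) =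
          (H j * MvPolynomial.aeval X (MvPolynomial.pderiv j p)) * X i +
            (if j = i then H i * MvPolynomial.aeval X p else 0) := by
        intro j
        rw [MvPolynomial.pderiv_mul, MvPolynomial.pderiv_X, map_add, map_mul, map_mul,
          MvPolynomial.aeval_X]
        by_cases hji : j = i
        · subst hji
          simp
          ring
        · rw [if_neg hji, Pi.single_eq_of_ne (Ne.symm hji)]
          simp
          ring
      rw [Finset.sum_congr rfl fun j _ => h1 j, Finset.sum_add_distrib, Finset.sum_mul]
      congr 1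
      simp
    rw [hs, map_mul, map_mul, MvPolynomial.aeval_X, MvPolynomial.aeval_X]
    set a := MvPolynomial.aeval X p with ha
    set a' := MvPolynomial.aeval (fun j => X j + H j) p with ha'
    set D := ∑ j, H j * MvPolynomial.aeval X (MvPolynomial.pderiv j p) with hDd
    have h2 : a' * (X i + H i) - a * X i - (D * X i + H i * a) =
        D * H i + (a' - a - D) * (X i + H i) := by ring
    rw [h2]
    refine add_mem ?_ (Ideal.mul_mem_right _ _ hp)
    rw [pow_two]
    exact Ideal.mul_mem_mul hD (hH i)

private theorem Lift_coeff (k : Type) [Field k] (ρ : ℕ) (X : Fin ρ → Polynomial k) (x : Fin ρ → k)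
    (hX : ∀ i, (X i).coeff 0 = x i) (p : MvPolynomial (Fin ρ) k) :
    (MvPolynomial.aeval X p).coeff 0 = MvPolynomial.eval x p := by
  induction p using MvPolynomial.induction_on with
  | C a => simp
  | add p q hp hq => rw [map_add, Polynomial.coeff_add, hp, hq, map_add]
  | mul_X p i hp =>
    rw [map_mul, Polynomial.mul_coeff_zero, hp, MvPolynomial.aeval_X, hX, map_mul,
      MvPolynomial.eval_X]

theorem lift_zero (k : Type) [Field k] (ρ : ℕ) (f : Fin ρ → MvPolynomial (Fin ρ) k) (x : Fin ρ → k)
    (hx : ∀ i, MvPolynomial.eval x (f i) = 0)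
    (hJ : (Matrix.of fun i j => MvPolynomial.eval x (MvPolynomial.pderiv j (f i))).det ≠ 0)
    (u : Fin ρ → k) (m : ℕ) :
    ∃ X : Fin ρ → Polynomial k, (∀ i, (X i).coeff 0 = x i) ∧
      ∀ i, (Polynomial.X : Polynomial k) ^ m ∣
        MvPolynomial.aeval X (f i) - Polynomial.C (u i) * Polynomial.X := by
  induction m with
  | zero =>
    exact ⟨fun i => Polynomial.C (x i), fun i => by simp, fun i => by simp⟩
  | succ m ih =>
    rcases Nat.eq_zero_or_pos m with rfl | hm
    · refine ⟨fun i => Polynomial.C (x i), fun i => by simp, fun i => ?_⟩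
      rw [zero_add, pow_one, Polynomial.X_dvd_iff, Polynomial.coeff_sub,
        Lift_coeff k ρ _ x (fun i => by simp), hx]
      simp
    · obtain ⟨X, hX, hd⟩ := ih
      choose g hg using hd
      set J : Matrix (Fin ρ) (Fin ρ) k :=
        Matrix.of fun i j => MvPolynomial.eval x (MvPolynomial.pderiv j (f i)) with hJd
      set w : Fin ρ → k := J⁻¹.mulVec (fun i => -(g i).coeff 0) with hw
      have hJw : ∀ i, ∑ j, MvPolynomial.eval x (MvPolynomial.pderiv j (f i)) * w j =
          -(g i).coeff 0 := by
        intro i
        have h1 : J.mulVec w = fun i => -(g i).coeff 0 := by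
          rw [hw, Matrix.mulVec_mulVec, Matrix.mul_nonsing_inv J (isUnit_iff_ne_zero.2 hJ),
            Matrix.one_mulVec]
        exact congrFun h1 i
      refine ⟨fun j => X j + Polynomial.C (w j) * Polynomial.X ^ m, fun i => ?_, fun i => ?_⟩
      · rw [Polynomial.coeff_add, hX, Polynomial.coeff_C_mul, Polynomial.coeff_X_pow,
          if_neg (by omega), mul_zero, add_zero]
      · have ht := Lift_taylor k (Polynomial k) ρ (Ideal.span {(Polynomial.X : Polynomial k) ^ m}) X
          (fun j => Polynomial.C (w j) * Polynomial.X ^ m)
          (fun j => Ideal.mul_mem_left _ _ (Ideal.subset_span rfl)) (f i)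
        rw [Ideal.span_singleton_pow, Ideal.mem_span_singleton] at ht
        have hb : (Polynomial.X : Polynomial k) ∣ g i + ∑ j, Polynomial.C (w j) *
            MvPolynomial.aeval X (MvPolynomial.pderiv j (f i)) := by
          rw [Polynomial.X_dvd_iff, Polynomial.coeff_add, Polynomial.finsetSum_coeff]
          have h2 : ∀ j, (Polynomial.C (w j) *
              MvPolynomial.aeval X (MvPolynomial.pderiv j (f i))).coeff 0 =
              MvPolynomial.eval x (MvPolynomial.pderiv j (f i)) * w j := by
            intro j
            rw [Polynomial.coeff_C_mul, Lift_coeff k ρ X x hX, mul_comm]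
          rw [Finset.sum_congr rfl fun j _ => h2 j, hJw]
          ring
        have hdec : MvPolynomial.aeval (fun j => X j + Polynomial.C (w j) * Polynomial.X ^ m) (f i) -
            Polynomial.C (u i) * Polynomial.X =
            (MvPolynomial.aeval (fun j => X j + Polynomial.C (w j) * Polynomial.X ^ m) (f i) -
              MvPolynomial.aeval X (f i) - ∑ j, Polynomial.C (w j) * Polynomial.X ^ m *
              MvPolynomial.aeval X (MvPolynomial.pderiv j (f i))) +
            Polynomial.X ^ m * (g i + ∑ j, Polynomial.C (w j) *
              MvPolynomial.aeval X (MvPolynomial.pderiv j (f i))) := by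
          have h3 : ∑ j, Polynomial.C (w j) * Polynomial.X ^ m *
              MvPolynomial.aeval X (MvPolynomial.pderiv j (f i)) =
              Polynomial.X ^ m * ∑ j, Polynomial.C (w j) *
              MvPolynomial.aeval X (MvPolynomial.pderiv j (f i)) := by
            rw [Finset.mul_sum]
            exact Finset.sum_congr rfl fun j _ => by ring
          have h4 := hg i
          rw [h3, mul_add, ← h4]
          ring
        rw [hdec]
        refine dvd_add ?_ ?_
        · refine dvd_trans ?_ ht
          rw [← pow_mul]
          exact pow_dvd_pow _ (by omega)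
        · rw [pow_succ]
          exact mul_dvd_mul_left _ hb

end Pool.Agent.H32.UD
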