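import Pool.Agent.H32.UD.Fib
import Pool.Agent.H32.UD.Dich

/-!
# UD.Low : lower bound for the order of `H`

PROOF. `lower`: `n = nn r = dim 𝔤` (`dim_𝔤`). `Wsp H = 𝔤` is spanned by the elements `fac h e`, `h ∈ H`, `bar e = - e`, so there is a basis of `𝔤` of this form: `h : Fin n → .., e : Fin n → E` with `fac (h i) (e i)` linearly independent (`exists_linearIndependent`, a spanning set contains a basis). Let `X` = the set of `t : Fin n → T2` with independent `dfac`;
`card T2^n ≤ 2 card X` (`many_nondeg`). The map `X → H`, `t ↦ ∏ h i (mu (t i)) (h i)⁻¹` (in `H`, since `mu (t i) ∈ H` by `HasT`; as an endomorphism it is the `List` product of `fac`) has fibres of size `≤ C q^(r n - n)` (`fibre`). So `card X ≤ C q^(r n - n) card H`, and `(q^r / 2)^n ≤ card T2 ^ n`: `q^(r n) ≤ 2^n · 2 · C q^(r n - n) card H`, i.e. `q^n ≤ 2^(n+1) C card H`.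
-/

set_option autoImplicit false

namespace Pool.Agent.H32.UD

open Module

namespace Dat

variable {F E : Type} [Field F] [Field E] [Algebra F E] (D : Dat F E) [Finite F] [Finite E]

/-- the coercion from automorphisms to endomorphisms is multiplicative -/
private def low_psi (F E : Type) [Field F] [Field E] [Algebra F E] : (E ≃ₗ[F] E) →* Module.End F E where
  toFun g := (g : Module.End F E)
  map_one' := rfl
  map_mul' _ _ := rfl

omit [Finite F] [Finite E] in
private theorem low_prod {n : ℕ} (h : Fin n → (E ≃ₗ[F] E)) (t : Fin n → Eˣ) :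
    (((List.ofFn fun i => h i * mu F (t i) * (h i)⁻¹).prod : E ≃ₗ[F] E) : Module.End F E) =
      (List.ofFn fun i => fac (h i) ((t i : Eˣ) : E)).prod := by
  have h1 := map_list_prod (low_psi F E) (List.ofFn fun i => h i * mu F (t i) * (h i)⁻¹)
  rw [List.map_ofFn] at h1
  exact h1

private theorem low_basis (H : Subgroup (E ≃ₗ[F] E)) (hW : D.Wsp H = D.𝔤) :
    ∃ (h : Fin (nn D.r) → (E ≃ₗ[F] E)) (e : Fin (nn D.r) → E), (∀ i, h i ∈ H) ∧ (∀ i, D.bar (e i) = -e i) ∧
      LinearIndependent F (fun i => fac (h i) (e i)) := by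
  classical
  obtain ⟨b, hbS, hbspan, hbli⟩ := exists_linearIndependent F {Y : Module.End F E | ∃ h ∈ H, ∃ e : E,
    D.bar e = -e ∧ Y = (h : Module.End F E) * M F e * ((h⁻¹ : E ≃ₗ[F] E) : Module.End F E)}
  have hfin : FiniteDimensional F (Module.End F E) := inferInstance
  have hbf : b.Finite := hbli.setFinite
  let _ : Fintype b := hbf.fintype
  have hcard : Fintype.card b = nn D.r := by
    have h1 := finrank_span_set_eq_card hbli
    have h2 : Submodule.span F b = D.𝔤 := by
      rw [hbspan, ← hW]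
      rfl
    rw [h2, D.dim_𝔤, Set.toFinset_card] at h1
    exact h1.symm
  let eq : Fin (nn D.r) ≃ b := (Fintype.equivFinOfCardEq hcard).symm
  have hx : ∀ i : Fin (nn D.r), ∃ (h : E ≃ₗ[F] E) (e : E), h ∈ H ∧ D.bar e = -e ∧
      ((eq i : b) : Module.End F E) = fac h e := by
    intro i
    obtain ⟨h, hh, e, he, hY⟩ := hbS (eq i).2
    exact ⟨h, e, hh, he, hY⟩
  choose h e hh he hY using hx
  refine ⟨h, e, hh, he, ?_⟩
  have h3 : (fun i => fac (h i) (e i)) = (fun y : b => (y : Module.End F E)) ∘ eq := by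
    funext i
    exact (hY i).symm
  rw [h3]
  exact hbli.comp _ eq.injective

end Dat

theorem lower (r : ℕ) : ∃ C q0 : ℕ, ∀ (F E : Type) [Field F] [Field E] [Algebra F E] [Finite F] [Finite E]
    (D : Dat F E), D.r = r → q0 ≤ Nat.card F → ∀ H : Subgroup (E ≃ₗ[F] E), H ≤ D.G → D.HasT H →
    D.Wsp H = D.𝔤 → Nat.card F ^ nn r ≤ C * Nat.card H := by
  classical
  obtain ⟨C, hC⟩ := fibre r (nn r)
  obtain ⟨q0, hq0⟩ := many_nondeg (nn r)
  refine ⟨2 ^ (nn r + 1) * C, q0, ?_⟩
  intro F E _ _ _ _ _ D hr hq H hH hT hW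
  subst hr
  have hb := D.low_basis H hW
  generalize nn D.r = n at hb hC hq0 ⊢
  obtain ⟨h, e, hh, he, hli⟩ := hb
  have hmany := hq0 F E D hq h e hli
  have hfib := hC F E D rfl h e he
  let X := {t : Fin n → D.T2 //
      LinearIndependent F (fun i => Dat.dfac h e (fun j => ((t j : Eˣ) : E)) i)}
  have hmem : ∀ t : Fin n → D.T2,
      (List.ofFn fun i => h i * mu F ((t i : Eˣ)) * (h i)⁻¹).prod ∈ H := by
    intro t
    refine H.list_prod_mem fun x hx => ?_
    obtain ⟨i, rfl⟩ := List.mem_ofFn.1 hx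
    refine H.mul_mem (H.mul_mem (hh i) ?_) (H.inv_mem (hh i))
    obtain ⟨v, hv, hv2⟩ := (t i).2
    rw [hv2]
    exact hT v hv
  let Φ : X → H := fun t => ⟨_, hmem t.1⟩
  have key : ∀ (g : H) (t : X), Φ t = g → (List.ofFn fun i => Dat.fac (h i) ((t.1 i : Eˣ) : E)).prod =
      ((g : E ≃ₗ[F] E) : Module.End F E) := by
    intro g t ht
    rw [← Dat.low_prod h (fun i => ((t.1 i : D.T2) : Eˣ))]
    exact congrArg (fun x : H => ((x : E ≃ₗ[F] E) : Module.End F E)) ht
  have hFH : Finite H := Finite.of_injective (fun x : H => ((x : E ≃ₗ[F] E) : E → E))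
    (fun x y hxy => Subtype.ext (LinearEquiv.ext fun z => congrFun hxy z))
  let _ : Fintype H := Fintype.ofFinite H
  let _ : Fintype D.T2 := Fintype.ofFinite _
  let _ : Fintype X := Fintype.ofFinite X
  have hcX : Nat.card X ≤ (C * Nat.card F ^ (D.r * n - n)) * Nat.card H := by
    have h1 := Finset.card_le_mul_card_image_of_maps_to (f := Φ) (s := Finset.univ)
      (t := Finset.univ) (fun _ _ => Finset.mem_univ _) (C * Nat.card F ^ (D.r * n - n)) (by
        intro g _
        refine le_trans ?_ (hfib ((g : E ≃ₗ[F] E) : Module.End F E))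
        rw [← Fintype.card_subtype, ← Nat.card_eq_fintype_card]
        refine Nat.card_le_card_of_injective
          (fun t : {t : X // Φ t = g} => (⟨t.1.1, t.1.2, key g t.1 t.2⟩ : {t : Fin n → D.T2 //
            LinearIndependent F (fun i => Dat.dfac h e (fun j => ((t j : Eˣ) : E)) i) ∧
            (List.ofFn fun i => Dat.fac (h i) ((t i : Eˣ) : E)).prod =
              ((g : E ≃ₗ[F] E) : Module.End F E)})) ?_
        intro t t' htt
        exact Subtype.ext (Subtype.ext (congrArg (fun x => x.1) htt)))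
    rw [Finset.card_univ, Finset.card_univ, ← Nat.card_eq_fintype_card, ← Nat.card_eq_fintype_card] at h1
    exact h1
  have hq1 : 0 < Nat.card F := Nat.card_pos
  have hr1 : n ≤ D.r * n := Nat.le_mul_of_pos_left n (by have := D.four_le; omega)
  have h2 := D.card_T2
  have h3 : (Nat.card F ^ D.r) ^ n ≤ 2 ^ n * Nat.card D.T2 ^ n := by
    rw [← mul_pow, h2]
    exact Nat.pow_le_pow_left (Nat.le_succ _) n
  have h4 : Nat.card F ^ (D.r * n - n) * Nat.card F ^ n = (Nat.card F ^ D.r) ^ n := by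
    rw [← pow_add, ← pow_mul]
    congr 1
    omega
  have h5 : Nat.card F ^ (D.r * n - n) * Nat.card F ^ n ≤
      Nat.card F ^ (D.r * n - n) * (2 ^ (n + 1) * C * Nat.card H) := by
    rw [h4]
    calc (Nat.card F ^ D.r) ^ n ≤ 2 ^ n * Nat.card D.T2 ^ n := h3
      _ ≤ 2 ^ n * (2 * Nat.card X) := Nat.mul_le_mul_left _ hmany
      _ ≤ 2 ^ n * (2 * ((C * Nat.card F ^ (D.r * n - n)) * Nat.card H)) :=
        Nat.mul_le_mul_left _ (Nat.mul_le_mul_left _ hcX)
      _ = Nat.card F ^ (D.r * n - n) * (2 ^ (n + 1) * C * Nat.card H) := by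
        rw [pow_succ]
        ring
  exact Nat.le_of_mul_le_mul_left h5 (pow_pos hq1 _)

end Pool.Agent.H32.UD
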