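import Mathlib

/-!
# UD.Min : a matrix of rank at least `ρ` has an invertible `ρ × ρ` submatrix

PROOF. (1) `ρ ≤ rank A`: the span of the columns has dimension `≥ ρ`, so there are `ρ` linearly independent columns `c : Fin ρ → n` (`exists_linearIndependent..`: a subset of the columns is a basis of the span; `Submodule.exists_fun_fin_finrank_span_eq` or
`exists_linearIndependent' `). The submatrix `A.submatrix id c` has rank `ρ`, hence its transpose has rank `ρ`; choose `ρ` linearly independent rows `s : Fin ρ → m`. `(A.submatrix s c)` has linearly independent rows, so its determinant is nonzero (`Matrix.linearIndependent_rows_iff_isUnit`).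
(2) is (1) for `ρ = card n`: the columns are linearly independent (kernel zero), so the rank is `card n`; the columns are all columns, reorder: `c` is a bijection `Fin (card n) ≃ n`; use `s ∘ c.symm`.
-/

set_option autoImplicit false

namespace Pool.Agent.H32.UD

open Matrix

private lemma pick {k m n : Type} [Field k] [Fintype m] [DecidableEq m] [Fintype n] [DecidableEq n]
    (A : Matrix m n k) (ρ : ℕ) (h : ρ ≤ A.rank) :
    ∃ c : Fin ρ → n, Function.Injective c ∧ LinearIndependent k (A.submatrix id c).col := by
  obtain ⟨κ, a, ha, hsp, hli⟩ := exists_linearIndependent' k A.col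
  have : Finite κ := Finite.of_injective a ha
  have : Fintype κ := Fintype.ofFinite κ
  have hcard : Fintype.card κ = A.rank := by
    rw [Matrix.rank_eq_finrank_span_cols, ← hsp]
    exact linearIndependent_iff_card_eq_finrank_span.1 hli
  have e : Fin ρ ↪ κ := (Fin.castLEEmb (by rw [hcard]; exact h)).trans
    (Fintype.equivFin κ).symm.toEmbedding
  refine ⟨a ∘ e, ha.comp e.injective, ?_⟩
  exact hli.comp e e.injective

theorem exists_minor {k m n : Type} [Field k] [Fintype m] [DecidableEq m] [Fintype n] [DecidableEq n]
    (A : Matrix m n k) (ρ : ℕ) (h : ρ ≤ A.rank) :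
    ∃ (s : Fin ρ → m) (c : Fin ρ → n), Function.Injective s ∧ Function.Injective c ∧
      (A.submatrix s c).det ≠ 0 := by
  obtain ⟨c, hc, hl⟩ := pick A ρ h
  have h1 : (A.submatrix id c)ᵀ.rank = ρ := by
    have h2 : LinearIndependent k (A.submatrix id c)ᵀ.row := by
      rw [Matrix.row_transpose]
      exact hl
    rw [h2.rank_matrix, Fintype.card_fin]
  obtain ⟨s, hs, hl2⟩ := pick (A.submatrix id c)ᵀ ρ h1.ge
  refine ⟨s, c, hs, hc, ?_⟩
  have h3 : ((A.submatrix id c)ᵀ.submatrix id s) = (A.submatrix s c)ᵀ := rfl
  rw [h3] at hl2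
  have h4 := Matrix.linearIndependent_cols_iff_isUnit.1 hl2
  rw [Matrix.isUnit_transpose] at h4
  exact ((Matrix.isUnit_iff_isUnit_det _).1 h4).ne_zero

theorem exists_rows {k m n : Type} [Field k] [Fintype m] [DecidableEq m] [Fintype n] [DecidableEq n]
    (A : Matrix m n k) (h : ∀ v, A.mulVec v = 0 → v = 0) :
    ∃ s : n → m, (A.submatrix s id).det ≠ 0 := by
  have hinj : Function.Injective A.mulVec := by
    intro v w hvw
    have h1 : A.mulVec (v - w) = 0 := by
      rw [Matrix.mulVec_sub, hvw, sub_self]
    exact sub_eq_zero.1 (h _ h1)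
  have h2 : LinearIndependent k A.col := Matrix.mulVec_injective_iff.1 hinj
  have h3 : Aᵀ.rank = Fintype.card n := by
    have h4 : LinearIndependent k Aᵀ.row := by
      rw [Matrix.row_transpose]
      exact h2
    exact h4.rank_matrix
  rw [Matrix.rank_transpose] at h3
  obtain ⟨s, c, hs, hc, hd⟩ := exists_minor A (Fintype.card n) h3.ge
  have hb : Function.Bijective c := by
    rw [Fintype.bijective_iff_injective_and_card]
    exact ⟨hc, Fintype.card_fin _⟩
  set e := Equiv.ofBijective c hb with he
  refine ⟨s ∘ e.symm, ?_⟩
  have h5 : A.submatrix s c = (A.submatrix (s ∘ e.symm) id).submatrix e e := by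
    ext i j
    simp only [Matrix.submatrix_apply, Function.comp_apply, Equiv.symm_apply_apply, id_eq]
    rfl
  rw [h5, Matrix.det_submatrix_equiv_self] at hd
  exact hd

end Pool.Agent.H32.UD
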