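import Mathlib

/-!
# UD.Szp : a product version of the Schwartz-Zippel lemma

PROOF. Induction on `n`. `n = 0`: `f ![] ≠ 0`, the set is empty. Step: split `t = Fin.cons a t'`. Let `g a = f (cons a (fun _ => x₀))`; by `h` (with `i = 0`, the base point `t = fun _ => x₀`) at most `s` elements `a` have `g a = 0`: they contribute at most `s * card A ^ n`. For each other `a` the function `t' ↦ f (cons a t')` satisfies the hypothesis
(`Function.update` of `cons` at `i.succ`) and is nonzero at the constant point, so it contributes at most `n * s * card A ^ (n - 1)`, altogether at most `card A * n * s * card A ^ (n-1) = n s card A ^ n`. Sum: `(n + 1) s card A ^ n`.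
-/

set_option autoImplicit false

namespace Pool.Agent.H32.UD

theorem prod_sz {A K : Type} [Fintype A] [DecidableEq A] [Zero K] [DecidableEq K] (x₀ : A) (s n : ℕ)
    (f : (Fin n → A) → K) (h0 : f (fun _ => x₀) ≠ 0)
    (h : ∀ (i : Fin n) (t : Fin n → A), (∃ a, f (Function.update t i a) ≠ 0) →
      (Finset.univ.filter fun a => f (Function.update t i a) = 0).card ≤ s) :
    (Finset.univ.filter fun t => f t = 0).card ≤ n * s * Fintype.card A ^ (n - 1) := by
  induction n with
  | zero =>
    have he : (Finset.univ.filter fun t : Fin 0 → A => f t = 0) = ∅ := by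
      ext t
      simp only [Finset.mem_filter, Finset.mem_univ, true_and, Finset.notMem_empty, iff_false]
      have ht : t = fun _ => x₀ := Subsingleton.elim _ _
      rw [ht]
      exact h0
    rw [he]
    simp
  | succ n ih =>
    have hcount : (Finset.univ.filter fun t : Fin (n + 1) → A => f t = 0).card
        = ∑ a : A, (Finset.univ.filter fun t' : Fin n → A =>
            f (Fin.cons (α := fun _ => A) a t') = 0).card := by
      simp_rw [Finset.card_filter]
      rw [← (Fin.consEquiv fun _ => A).sum_comp, Fintype.sum_prod_type]
      rfl
    have hstep : ∀ a : A, (Finset.univ.filter fun t' : Fin n → A =>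
            f (Fin.cons (α := fun _ => A) a t') = 0).card
        ≤ (if f (Fin.cons (α := fun _ => A) a fun _ => x₀) = 0 then Fintype.card A ^ n else 0)
          + n * s * Fintype.card A ^ (n - 1) := by
      intro a
      by_cases ha : f (Fin.cons (α := fun _ => A) a fun _ => x₀) = 0
      · rw [if_pos ha]
        refine le_trans (Finset.card_le_univ _) ?_
        rw [Fintype.card_fun, Fintype.card_fin]
        exact Nat.le_add_right _ _
      · rw [if_neg ha, zero_add]
        refine ih (fun t' => f (Fin.cons (α := fun _ => A) a t')) ha ?_
        intro i t' ht'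
        have hu : ∀ b : A, Fin.cons (α := fun _ => A) a (Function.update t' i b)
            = Function.update (Fin.cons (α := fun _ => A) a t') i.succ b := by
          intro b
          exact Fin.cons_update _ _ _ _
        simp only [hu] at ht' ⊢
        exact h i.succ _ ht'
    rw [hcount]
    refine le_trans (Finset.sum_le_sum fun a _ => hstep a) ?_
    rw [Finset.sum_add_distrib, Finset.sum_const, Finset.card_univ, smul_eq_mul,
      ← Finset.sum_filter, Finset.sum_const, smul_eq_mul]
    have hb : (Finset.univ.filter fun a : A =>
        f (Fin.cons (α := fun _ => A) a fun _ => x₀) = 0).card ≤ s := by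
      have hu : ∀ b : A, Fin.cons (α := fun _ => A) b (fun _ : Fin n => x₀)
          = Function.update (fun _ : Fin (n + 1) => x₀) 0 b := by
        intro b
        ext j
        refine Fin.cases ?_ (fun k => ?_) j
        · simp
        · simp
      simp only [hu]
      refine h 0 _ ⟨x₀, ?_⟩
      have hx : Function.update (fun _ : Fin (n + 1) => x₀) 0 x₀ = fun _ => x₀ := by
        exact Function.update_eq_self 0 (fun _ : Fin (n + 1) => x₀)
      rw [hx]
      exact h0
    have h2 : Fintype.card A * (n * s * Fintype.card A ^ (n - 1)) = n * s * Fintype.card A ^ n := by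
      rcases Nat.eq_zero_or_pos n with hn | hn
      · subst hn
        simp
      · obtain ⟨m, rfl⟩ : ∃ m, n = m + 1 := ⟨n - 1, by omega⟩
        rw [Nat.add_sub_cancel, pow_succ]
        ring
    rw [h2, Nat.add_sub_cancel]
    calc _ ≤ s * Fintype.card A ^ n + n * s * Fintype.card A ^ n :=
          Nat.add_le_add_right (Nat.mul_le_mul_right _ hb) _
      _ = (n + 1) * s * Fintype.card A ^ n := by ring

end Pool.Agent.H32.UD
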