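import Pool.Agent.H32.UD.Tf
import Pool.Agent.H32.UD.Szp
import Pool.Agent.H32.UD.Min

/-!
# UD.Nd : the product map is nondegenerate at most points of the torus

`fac h t = h M t h⁻¹`, `dfac h e t i` = the product of the `fac (h j) (t j)` with the `i`-th factor replaced by `h i M (t i e i) (h i)⁻¹` (directional derivative of the product at `t` in the direction `t i e i`).

PROOF. At `t = 1` (`fac h 1 = 1`) `dfac h e 1 i = h i M (e i) (h i)⁻¹` are linearly independent (`hli`), so by `exists_minor` (coordinates in a basis of `End_F E`) there are functionals `ℓ_a : End →ₗ F`, `a : Fin n`, with `det (ℓ_a (dfac h e 1 i)) ≠ 0`. Let `f t = algebraMap (det (ℓ_a (dfac h e t i)))`. If `f t ≠ 0` then the `dfac h e t i` are linearly independent.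
As a function of one coordinate `t_j = u ∈ T` every `dfac h e t i` is `F`-linear in `u` (one factor `h j M u (h j)⁻¹` or `h j M (u e j) (h j)⁻¹`), so `ℓ_a (dfac ..)` is `TFun 1` by `TFun.coord` and `f` is `TFun n` by `TFun.det`. Apply `prod_sz` with `A` = the set `T₂` of squares of elements of norm one (a subtype, `x₀ = 1`), `s = 2 n q^(r-1)` (`TFun.zeros`):
at most `n * 2 n q^(r-1) * card T₂^(n-1)` zeros. `card T₂ = (q^r + 1)/2` (`card_torus`, squaring is two to one on the cyclic group of even order `q^r + 1`), so `2 n² q^(r-1) ≤ card T₂ / 2` when `q ≥ 8 n²`; take `q0 = 8 n² + 10`.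
-/

set_option autoImplicit false

namespace Pool.Agent.H32.UD

open Module

namespace Dat

variable {F E : Type} [Field F] [Field E] [Algebra F E] (D : Dat F E) [Finite F] [Finite E]

/-- conjugate of a multiplication -/
noncomputable def fac (h : E ≃ₗ[F] E) (a : E) : Module.End F E :=
  (h : Module.End F E) * M F a * ((h⁻¹ : E ≃ₗ[F] E) : Module.End F E)

/-- partial derivative of the product of the conjugates -/
noncomputable def dfac {n : ℕ} (h : Fin n → (E ≃ₗ[F] E)) (e t : Fin n → E) (i : Fin n) : Module.End F E :=
  (List.ofFn (Function.update (fun j => fac (h j) (t j)) i (fac (h i) (t i * e i)))).prod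

private lemma nd_upd {A : Type} [Monoid A] : ∀ (n : ℕ) (g : Fin n → A) (j : Fin n),
    ∃ L R : A, ∀ x, (List.ofFn (Function.update g j x)).prod = L * x * R := by
  intro n
  induction n with
  | zero => intro g j; exact j.elim0
  | succ n ih =>
    intro g j
    refine Fin.cases ?_ (fun j' => ?_) j
    · refine ⟨1, (List.ofFn fun i => g (Fin.succ i)).prod, fun x => ?_⟩
      rw [List.ofFn_succ, List.prod_cons, Function.update_self, one_mul]
      have e : (fun i : Fin n => Function.update g 0 x (Fin.succ i)) = fun i => g (Fin.succ i) := by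
        funext i
        rw [Function.update_of_ne (Fin.succ_ne_zero i)]
      rw [e]
    · obtain ⟨L, R, hLR⟩ := ih (fun i => g (Fin.succ i)) j'
      refine ⟨g 0 * L, R, fun x => ?_⟩
      rw [List.ofFn_succ, List.prod_cons, Function.update_of_ne (Fin.succ_ne_zero j').symm]
      have e : (fun i => Function.update g (Fin.succ j') x (Fin.succ i)) =
          Function.update (fun i => g (Fin.succ i)) j' x := by
        funext i
        by_cases hi : i = j'
        · subst hi
          rw [Function.update_self, Function.update_self]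
        · rw [Function.update_of_ne hi, Function.update_of_ne (fun h => hi (Fin.succ_injective _ h))]
      rw [e, hLR]
      simp only [mul_assoc]

private lemma nd_single {A : Type} [Monoid A] : ∀ (n : ℕ) (j : Fin n) (x : A),
    (List.ofFn (Function.update (fun _ : Fin n => (1 : A)) j x)).prod = x := by
  intro n
  induction n with
  | zero => intro j; exact j.elim0
  | succ n ih =>
    intro j x
    refine Fin.cases ?_ (fun j' => ?_) j
    · rw [List.ofFn_succ, List.prod_cons, Function.update_self]
      have e : (fun i : Fin n => Function.update (fun _ : Fin (n + 1) => (1 : A)) 0 x (Fin.succ i)) =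
          fun _ => 1 := by
        funext i
        rw [Function.update_of_ne (Fin.succ_ne_zero i)]
      rw [e, List.ofFn_const, List.prod_replicate, one_pow, mul_one]
    · rw [List.ofFn_succ, List.prod_cons, Function.update_of_ne (Fin.succ_ne_zero j').symm]
      have e : (fun i => Function.update (fun _ : Fin (n + 1) => (1 : A)) (Fin.succ j') x (Fin.succ i)) =
          Function.update (fun _ : Fin n => (1 : A)) j' x := by
        funext i
        by_cases hi : i = j'
        · subst hi
          rw [Function.update_self, Function.update_self]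
        · rw [Function.update_of_ne hi, Function.update_of_ne (fun h => hi (Fin.succ_injective _ h))]
      rw [e, ih, one_mul]

omit [Finite F] [Finite E] in
private lemma nd_fac_one (h : E ≃ₗ[F] E) : fac h (1 : E) = 1 := by
  unfold fac
  rw [M_one, mul_one]
  ext x
  show h ((h⁻¹ : E ≃ₗ[F] E) x) = x
  rw [← LinearEquiv.mul_apply, mul_inv_cancel]
  rfl

omit [Finite F] [Finite E] in
private lemma nd_dfac_one {n : ℕ} (h : Fin n → (E ≃ₗ[F] E)) (e : Fin n → E) (i : Fin n) :
    dfac h e (fun _ => 1) i = fac (h i) (e i) := by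
  unfold dfac
  simp only [nd_fac_one, one_mul]
  exact nd_single n i _

omit [Finite F] [Finite E] in
private lemma nd_dfac {n : ℕ} (h : Fin n → (E ≃ₗ[F] E)) (e t : Fin n → E) (i j : Fin n) :
    ∃ (L R : Module.End F E) (c : E), ∀ u,
      dfac h e (Function.update t j u) i = L * fac (h j) (u * c) * R := by
  by_cases hij : i = j
  · subst hij
    obtain ⟨L, R, hLR⟩ := nd_upd n (fun j => fac (h j) (t j)) i
    refine ⟨L, R, e i, fun u => ?_⟩
    rw [← hLR]
    unfold dfac
    rw [Function.update_self]
    congr 2
    funext j'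
    by_cases hj : j' = i
    · subst hj
      rw [Function.update_self, Function.update_self]
    · rw [Function.update_of_ne hj, Function.update_of_ne hj, Function.update_of_ne hj]
  · obtain ⟨L, R, hLR⟩ := nd_upd n
      (Function.update (fun j => fac (h j) (t j)) i (fac (h i) (t i * e i))) j
    refine ⟨L, R, 1, fun u => ?_⟩
    rw [← hLR, mul_one]
    unfold dfac
    rw [Function.update_of_ne hij]
    congr 2
    funext j'
    by_cases hj : j' = i
    · subst hj
      rw [Function.update_self, Function.update_of_ne hij, Function.update_self]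
    · rw [Function.update_of_ne hj]
      by_cases hj2 : j' = j
      · subst hj2
        rw [Function.update_self, Function.update_self]
      · rw [Function.update_of_ne hj2, Function.update_of_ne hj2, Function.update_of_ne hj]

/-- a functional on the torus -/
private noncomputable def ndL (ℓ : Module.End F E →ₗ[F] F) (h : E ≃ₗ[F] E) (L R : Module.End F E)
    (c : E) : E →ₗ[F] F where
  toFun u := ℓ (L * fac h (u * c) * R)
  map_add' u v := by
    rw [add_mul]
    unfold fac
    rw [M_add]
    simp only [mul_add, add_mul, map_add]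
  map_smul' a u := by
    unfold fac
    rw [smul_mul_assoc, M_smul]
    simp only [mul_smul_comm, smul_mul_assoc, map_smul, RingHom.id_apply]

/-- the determinant -/
private noncomputable def ndf {n : ℕ} (ℓ : Fin n → Module.End F E →ₗ[F] F) (h : Fin n → (E ≃ₗ[F] E))
    (e t : Fin n → E) : E :=
  (Matrix.of fun a i => algebraMap F E (ℓ a (dfac h e t i))).det

private lemma nd_tfun {n : ℕ} (ℓ : Fin n → Module.End F E →ₗ[F] F) (h : Fin n → (E ≃ₗ[F] E))
    (e t : Fin n → E) (j : Fin n) :
    D.TFun (n * 1) (fun u => ndf ℓ h e (Function.update t j u)) := by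
  refine TFun.det fun a i => ?_
  obtain ⟨L, R, c, hc⟩ := nd_dfac h e t i j
  have h1 := TFun.coord (D := D) (ndL (ℓ a) (h j) L R c)
  have e1 : (fun u => algebraMap F E (ℓ a (dfac h e (Function.update t j u) i))) =
      fun u => algebraMap F E (ndL (ℓ a) (h j) L R c u) := by
    funext u
    rw [hc]
    rfl
  rw [e1]
  exact h1

omit [Finite F] [Finite E] in
private lemma nd_li {n : ℕ} {ℓ : Fin n → Module.End F E →ₗ[F] F} {h : Fin n → (E ≃ₗ[F] E)}
    {e t : Fin n → E} (h0 : ndf ℓ h e t ≠ 0) : LinearIndependent F (fun i => dfac h e t i) := by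
  rw [Fintype.linearIndependent_iff]
  intro v hv
  have h1 : (Matrix.of fun a i => ℓ a (dfac h e t i)).det ≠ 0 := by
    intro h2
    apply h0
    unfold ndf
    have h3 : (Matrix.of fun a i => algebraMap F E (ℓ a (dfac h e t i))) =
        (algebraMap F E).mapMatrix (Matrix.of fun a i => ℓ a (dfac h e t i)) := by
      ext a i
      rfl
    rw [h3, ← RingHom.map_det, h2, map_zero]
  have h2 : (Matrix.of fun a i => ℓ a (dfac h e t i)).mulVec v = 0 := by
    funext a
    have h3 := congrArg (ℓ a) hv
    rw [map_sum, map_zero] at h3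
    show ∑ i, ℓ a (dfac h e t i) * v i = 0
    rw [← h3]
    refine Finset.sum_congr rfl fun i _ => ?_
    rw [map_smul, smul_eq_mul, mul_comm]
  have h3 := Matrix.eq_zero_of_mulVec_eq_zero h1 h2
  intro i
  rw [h3]
  rfl

omit [Finite F] [Finite E] in
private lemma nd_exists [FiniteDimensional F E] {n : ℕ} (h : Fin n → (E ≃ₗ[F] E)) (e : Fin n → E)
    (hli : LinearIndependent F (fun i => fac (h i) (e i))) :
    ∃ ℓ : Fin n → Module.End F E →ₗ[F] F, ndf ℓ h e (fun _ => 1) ≠ 0 := by
  classical
  let b := Module.finBasis F (Module.End F E)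
  obtain ⟨s, hs⟩ := exists_rows (Matrix.of fun a i => b.repr (fac (h i) (e i)) a) (by
    intro v hv
    rw [Fintype.linearIndependent_iff] at hli
    funext i
    refine hli v ?_ i
    apply b.repr.injective
    rw [map_zero]
    ext a
    have h1 := congrFun hv a
    have h2 : ∑ i, b.repr (fac (h i) (e i)) a * v i = 0 := h1
    rw [map_sum, Finsupp.finsetSum_apply, Finsupp.zero_apply, ← h2]
    refine Finset.sum_congr rfl fun i _ => ?_
    rw [map_smul, Finsupp.smul_apply, smul_eq_mul, mul_comm])
  refine ⟨fun a => b.coord (s a), ?_⟩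
  unfold ndf
  have h3 : (Matrix.of fun a i => algebraMap F E (b.coord (s a) (dfac h e (fun _ => 1) i))) =
      (algebraMap F E).mapMatrix
        ((Matrix.of fun a i => b.repr (fac (h i) (e i)) a).submatrix s id) := by
    ext a i
    rw [Matrix.of_apply, nd_dfac_one]
    rfl
  rw [h3, ← RingHom.map_det]
  intro h4
  exact hs ((map_eq_zero_iff _ (algebraMap F E).injective).1 h4)

private lemma nd_T2 (a : D.T2) : ((a : Eˣ) : E) * D.bar ((a : Eˣ) : E) = 1 := by
  obtain ⟨u, v, hv, rfl⟩ := a
  show ((v ^ 2 : Eˣ) : E) * D.bar ((v ^ 2 : Eˣ) : E) = 1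
  rw [Units.val_pow_eq_pow_val, map_pow, ← mul_pow, hv, one_pow]

end Dat

theorem many_nondeg (n : ℕ) : ∃ q0 : ℕ, ∀ (F E : Type) [Field F] [Field E] [Algebra F E] [Finite F] [Finite E]
    (D : Dat F E), q0 ≤ Nat.card F → ∀ (h : Fin n → (E ≃ₗ[F] E)) (e : Fin n → E),
    LinearIndependent F (fun i => Dat.fac (h i) (e i)) →
    Nat.card D.T2 ^ n ≤ 2 * Nat.card {t : Fin n → D.T2 //
      LinearIndependent F (fun i => Dat.dfac h e (fun j => ((t j : Eˣ) : E)) i)} := by
  classical
  refine ⟨8 * n ^ 2 + 10, ?_⟩
  intro F E _ _ _ _ _ D hq h e hli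
  obtain ⟨ℓ, hℓ⟩ := Dat.nd_exists h e hli
  let _ : Fintype D.T2 := Fintype.ofFinite _
  let one : D.T2 := ⟨1, 1, by simp, by simp⟩
  let f : (Fin n → D.T2) → E := fun t => Dat.ndf ℓ h e (fun j => ((t j : Eˣ) : E))
  have hf0 : f (fun _ => one) ≠ 0 := by
    show Dat.ndf ℓ h e (fun _ => (((1 : Eˣ)) : E)) ≠ 0
    simpa using hℓ
  have hupd : ∀ (t : Fin n → D.T2) (i : Fin n) (a : D.T2),
      f (Function.update t i a) =
        Dat.ndf ℓ h e (Function.update (fun j => ((t j : Eˣ) : E)) i ((a : Eˣ) : E)) := by
    intro t i a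
    show Dat.ndf ℓ h e _ = _
    congr 1
    funext j
    by_cases hj : j = i
    · subst hj
      rw [Function.update_self, Function.update_self]
    · rw [Function.update_of_ne hj, Function.update_of_ne hj]
  have hinj : Function.Injective fun a : D.T2 => ((a : Eˣ) : E) := by
    intro a b hab
    exact Subtype.ext (Units.ext hab)
  have hsz := prod_sz one (2 * (n * 1 * Nat.card F ^ (D.r - 1))) n f hf0 (by
    intro i t hex
    have h1 := (D.nd_tfun ℓ h e (fun j => ((t j : Eˣ) : E)) i).zeros
      (Finset.univ.image fun a : D.T2 => ((a : Eˣ) : E))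
      (by
        intro u hu
        obtain ⟨a, -, rfl⟩ := Finset.mem_image.1 hu
        exact D.nd_T2 a)
      (by
        obtain ⟨a, ha⟩ := hex
        refine ⟨((a : Eˣ) : E), Finset.mem_image_of_mem _ (Finset.mem_univ _), ?_⟩
        rw [← hupd]
        exact ha)
    refine le_trans (Finset.card_le_card_of_injOn (fun a : D.T2 => ((a : Eˣ) : E)) ?_ ?_) h1
    · intro a ha
      have ha' := (Finset.mem_filter.1 ha).2
      rw [hupd] at ha'
      exact Finset.mem_coe.2 (Finset.mem_filter.2
        ⟨Finset.mem_image_of_mem _ (Finset.mem_univ _), ha'⟩)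
    · exact hinj.injOn)
  have hcT : Nat.card D.T2 = Fintype.card D.T2 := Nat.card_eq_fintype_card
  have hsplit := Finset.card_filter_add_card_filter_not (s := (Finset.univ : Finset (Fin n → D.T2)))
    (fun t => f t = 0)
  have huniv : (Finset.univ : Finset (Fin n → D.T2)).card = Nat.card D.T2 ^ n := by
    rw [Finset.card_univ, Fintype.card_fun, Fintype.card_fin, hcT]
  have hle : (Finset.univ.filter fun t : Fin n → D.T2 => ¬ f t = 0).card ≤
      Nat.card {t : Fin n → D.T2 //
        LinearIndependent F (fun i => Dat.dfac h e (fun j => ((t j : Eˣ) : E)) i)} := by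
    rw [Nat.card_eq_fintype_card, Fintype.card_subtype]
    refine Finset.card_le_card fun t ht => ?_
    rw [Finset.mem_filter] at ht ⊢
    exact ⟨Finset.mem_univ _, Dat.nd_li ht.2⟩
  have hz : 2 * (Finset.univ.filter fun t : Fin n → D.T2 => f t = 0).card ≤ Nat.card D.T2 ^ n := by
    rcases Nat.eq_zero_or_pos n with hn | hn
    · subst hn
      have : (Finset.univ.filter fun t : Fin 0 → D.T2 => f t = 0).card = 0 := by
        have := hsz
        omega
      rw [this]
      simp
    · have h1 : 4 * n ^ 2 * Nat.card F ^ (D.r - 1) ≤ Nat.card D.T2 := by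
        have h2 := D.card_T2
        have h3 : Nat.card F ^ D.r = Nat.card F * Nat.card F ^ (D.r - 1) := by
          have := D.four_le
          rw [← pow_succ']
          congr 1
          omega
        have h4 : (8 * n ^ 2) * Nat.card F ^ (D.r - 1) ≤ Nat.card F * Nat.card F ^ (D.r - 1) :=
          Nat.mul_le_mul_right _ (by omega)
        have h5 : 2 * (4 * n ^ 2 * Nat.card F ^ (D.r - 1)) = (8 * n ^ 2) * Nat.card F ^ (D.r - 1) := by
          ring
        omega
      have h6 : Nat.card D.T2 ^ n = Nat.card D.T2 * Nat.card D.T2 ^ (n - 1) := by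
        rw [← pow_succ']
        congr 1
        omega
      rw [← hcT] at hsz
      calc 2 * (Finset.univ.filter fun t : Fin n → D.T2 => f t = 0).card
          ≤ 2 * (n * (2 * (n * 1 * Nat.card F ^ (D.r - 1))) * Nat.card D.T2 ^ (n - 1)) :=
            Nat.mul_le_mul_left _ hsz
        _ = (4 * n ^ 2 * Nat.card F ^ (D.r - 1)) * Nat.card D.T2 ^ (n - 1) := by ring
        _ ≤ Nat.card D.T2 * Nat.card D.T2 ^ (n - 1) := Nat.mul_le_mul_right _ h1
        _ = Nat.card D.T2 ^ n := h6.symm
  rw [huniv] at hsplit
  omega

end Pool.Agent.H32.UD
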