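import Pool.Agent.H32.UD.Rel
import Pool.Agent.H32.UD.Lift

/-!
# UD.Nz : elementary Bezout bound for nondegenerate zeros

`ρ` polynomials of degree `≤ d` in `ρ` variables over a field have at most `(ρ d + 1) ^ ρ` common zeros with invertible Jacobian.

PROOF. First pass to an infinite field: replace `k` by `K = AlgebraicClosure k` (or `RatFunc k`), `f i` by `map (algebraMap k K) (f i)`, `S` by its image (injective; `pderiv_map`, `eval_map`). So let `k` be infinite and suppose `D + 1` distinct points
`x_0, .., x_D` in `S`, `D = (ρ d + 1) ^ ρ`. (1) Choose a linear form `ℓ = ∑ l_j X_j` with `ℓ (x_i)` distinct: the product over the pairs of `∑ l_j (x_i - x_i')_j` is a nonzero polynomial in `l` over an infinite field (`MvPolynomial.funext`, or avoid finitely many proper subspaces).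
(2) `alg_rel` gives `R ≠ 0`, `R (f, ℓ) = 0`. Choose `u` with `R(T u, z) ≠ 0` in `k[T][z]`: some coefficient `R_j(y) ≠ 0`; the substitution `y ↦ T u` of `R_j` is `∑_m T^m (homogeneous component m of R_j)(u)`, choose `u` with a nonzero component not vanishing at `u` (infinite field).
(3) Write `R(T u, z) = T^e R'(T, z)`, `R'(0, z) ≠ 0`, `natDegree R'(0, z) ≤ D` (divide all coefficients in `k[T]` by the largest common power of `T`). (4) For each `i` `lift_zero` with `m = e + 1` gives `X` with `X(0) = x_i`, `f(X) ≡ T u` mod `T^(e+1)`. Apply `aeval X` to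
`R (f, ℓ) = 0`: `R (f(X), ℓ(X)) = 0`, hence `R (T u, ℓ(X)) ≡ 0` mod `T^(e+1)`, so `R'(T, ℓ(X)) ≡ 0` mod `T`, i.e. `R'(0, ℓ(x_i)) = 0`. So `R'(0, z)` has `D + 1` roots, contradiction.
-/

set_option autoImplicit false

namespace Pool.Agent.H32.UD

open MvPolynomial in
private theorem nz_sep (K : Type) [Field K] [Infinite K] (ρ : ℕ) (S : Finset (Fin ρ → K)) :
    ∃ l : Fin ρ → K, Set.InjOn (fun x : Fin ρ → K => ∑ j, l j * x j) S := by
  classical
  set P : MvPolynomial (Fin ρ) K := ∏ p ∈ S.offDiag, ∑ j, C (p.1 j - p.2 j) * X j with hP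
  have hP0 : P ≠ 0 := by
    rw [hP, Finset.prod_ne_zero_iff]
    intro p hp h0
    rw [Finset.mem_offDiag] at hp
    apply hp.2.2
    funext i
    have h1 := congrArg (MvPolynomial.eval (Pi.single i (1 : K))) h0
    simp only [map_sum, map_mul, eval_C, eval_X, map_zero] at h1
    rw [Finset.sum_eq_single i] at h1
    · rw [Pi.single_eq_same, mul_one] at h1
      exact sub_eq_zero.1 h1
    · intro j _ hj
      rw [Pi.single_eq_of_ne hj, mul_zero]
    · intro h
      exact absurd (Finset.mem_univ i) h
  have hex : ∃ l : Fin ρ → K, MvPolynomial.eval l P ≠ 0 := by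
    by_contra hcon
    push Not at hcon
    exact hP0 (MvPolynomial.funext fun l => by rw [hcon l, map_zero])
  obtain ⟨l, hl⟩ := hex
  refine ⟨l, ?_⟩
  intro x hx y hy hxy
  by_contra hne
  apply hl
  rw [hP, map_prod]
  refine Finset.prod_eq_zero (i := (x, y)) (Finset.mem_offDiag.2 ⟨hx, hy, hne⟩) ?_
  simp only [map_sum, map_mul, eval_C, eval_X]
  have h2 : ∑ j, (x j - y j) * l j = (∑ j, l j * x j) - ∑ j, l j * y j := by
    rw [← Finset.sum_sub_distrib]
    refine Finset.sum_congr rfl fun j _ => ?_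
    ring
  rw [h2]
  exact sub_eq_zero.2 hxy

private theorem nz_inf (K : Type) [Field K] [Infinite K] (ρ d : ℕ)
    (f : Fin ρ → MvPolynomial (Fin ρ) K) (hf : ∀ i, (f i).totalDegree ≤ d)
    (S : Finset (Fin ρ → K))
    (hS : ∀ x ∈ S, (∀ i, MvPolynomial.eval x (f i) = 0) ∧
      (Matrix.of fun i j => MvPolynomial.eval x (MvPolynomial.pderiv j (f i))).det ≠ 0) :
    S.card ≤ (ρ * d + 1) ^ ρ := by
  classical
  obtain ⟨l, hl⟩ := nz_sep K ρ S
  set ℓ : MvPolynomial (Fin ρ) K := ∑ j, MvPolynomial.C (l j) * MvPolynomial.X j with hℓ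
  have hℓd : ℓ.totalDegree ≤ 1 := by
    rw [hℓ]
    refine MvPolynomial.totalDegree_finsetSum_le fun j _ => ?_
    refine (MvPolynomial.totalDegree_mul _ _).trans ?_
    rw [MvPolynomial.totalDegree_C, zero_add]
    exact (MvPolynomial.totalDegree_X j).le
  obtain ⟨R, hR0, hRd, hR⟩ := alg_rel K ρ d f hf ℓ hℓd
  -- the point `u`
  obtain ⟨j0, hj0⟩ : ∃ j0, R.coeff j0 ≠ 0 := by
    by_contra hcon
    push Not at hcon
    exact hR0 (Polynomial.ext fun n => by rw [hcon n, Polynomial.coeff_zero])
  obtain ⟨u, hu⟩ : ∃ u : Fin ρ → K, MvPolynomial.eval u (R.coeff j0) ≠ 0 := by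
    by_contra hcon
    push Not at hcon
    exact hj0 (MvPolynomial.funext fun l => by rw [hcon l, map_zero])
  set φ : MvPolynomial (Fin ρ) K →ₐ[K] Polynomial K :=
    MvPolynomial.aeval fun i => Polynomial.C (u i) * Polynomial.X with hφ
  have hφ1 : ∀ c : MvPolynomial (Fin ρ) K, (φ c).eval 1 = MvPolynomial.eval u c := by
    intro c
    have h1 : ((Polynomial.evalRingHom (1 : K)).comp φ.toRingHom) = MvPolynomial.eval u := by
      refine MvPolynomial.ringHom_ext (fun r => ?_) fun i => ?_
      · simp [hφ]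
      · simp [hφ]
    exact congrArg (fun g : MvPolynomial (Fin ρ) K →+* K => g c) h1
  set Q : Polynomial (Polynomial K) := R.map φ.toRingHom with hQ
  have hQ0 : Q ≠ 0 := by
    intro h
    have h1 : Q.coeff j0 = 0 := by rw [h, Polynomial.coeff_zero]
    rw [hQ, Polynomial.coeff_map] at h1
    apply hu
    rw [← hφ1]
    have h2 : φ (R.coeff j0) = 0 := h1
    rw [h2, Polynomial.eval_zero]
  have hprime : Prime (Polynomial.C (Polynomial.X : Polynomial K) : Polynomial (Polynomial K)) :=
    Polynomial.prime_C_iff.2 Polynomial.prime_X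
  obtain ⟨e, Q', hQ'n, hQQ⟩ := WfDvdMonoid.max_power_factor hQ0 hprime.irreducible
  have hQ'0 : Q' ≠ 0 := by
    rintro rfl
    exact hQ'n (dvd_zero _)
  have hdeg : Q'.natDegree ≤ (ρ * d + 1) ^ ρ := by
    have h1 : Q.natDegree = Q'.natDegree := by
      rw [hQQ, ← Polynomial.C_pow]
      exact Polynomial.natDegree_C_mul (pow_ne_zero _ Polynomial.X_ne_zero)
    rw [← h1]
    exact Polynomial.natDegree_map_le.trans hRd
  set q : Polynomial K := Q'.map (Polynomial.evalRingHom 0) with hq
  have hq0 : q ≠ 0 := by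
    intro h
    apply hQ'n
    rw [Polynomial.C_dvd_iff_dvd_coeff]
    intro i
    rw [Polynomial.X_dvd_iff, Polynomial.coeff_zero_eq_eval_zero]
    have h1 : q.coeff i = 0 := by rw [h, Polynomial.coeff_zero]
    rw [hq, Polynomial.coeff_map] at h1
    exact h1
  have hroot : ∀ x ∈ S, q.eval (∑ j, l j * x j) = 0 := by
    intro x hx
    obtain ⟨hx0, hxJ⟩ := hS x hx
    obtain ⟨Y, hY0, hY⟩ := lift_zero K ρ f x hx0 hxJ u (e + 1)
    set A : MvPolynomial (Fin ρ) K →ₐ[K] Polynomial K := MvPolynomial.aeval Y with hA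
    set lam : Polynomial K := A ℓ with hlam
    have h1 : Polynomial.eval₂ (A.toRingHom.comp (MvPolynomial.aeval f :
        MvPolynomial (Fin ρ) K →ₐ[K] MvPolynomial (Fin ρ) K).toRingHom) lam R = 0 := by
      have h2 := Polynomial.hom_eval₂ R (MvPolynomial.aeval f :
        MvPolynomial (Fin ρ) K →ₐ[K] MvPolynomial (Fin ρ) K).toRingHom A.toRingHom ℓ
      rw [hR, map_zero] at h2
      exact h2.symm
    set I : Ideal (Polynomial K) := Ideal.span {Polynomial.X ^ (e + 1)} with hI
    have hcomp : (Ideal.Quotient.mk I).comp (A.toRingHom.comp (MvPolynomial.aeval f :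
        MvPolynomial (Fin ρ) K →ₐ[K] MvPolynomial (Fin ρ) K).toRingHom) =
        (Ideal.Quotient.mk I).comp φ.toRingHom := by
      refine MvPolynomial.ringHom_ext (fun r => ?_) fun i => ?_
      · simp [hφ, hA]
      · have h3 : A.toRingHom ((MvPolynomial.aeval f :
            MvPolynomial (Fin ρ) K →ₐ[K] MvPolynomial (Fin ρ) K).toRingHom (MvPolynomial.X i)) =
            MvPolynomial.aeval Y (f i) := by
          simp [hA]
        have h4 : φ.toRingHom (MvPolynomial.X i) = Polynomial.C (u i) * Polynomial.X := by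
          simp [hφ]
        rw [RingHom.comp_apply, RingHom.comp_apply, RingHom.comp_apply, h3, h4,
          Ideal.Quotient.eq, hI, Ideal.mem_span_singleton]
        exact hY i
    have h5 : Ideal.Quotient.mk I (Q.eval lam) = 0 := by
      have h6 : Q.eval lam = Polynomial.eval₂ φ.toRingHom lam R := by
        rw [hQ, Polynomial.eval_map]
      rw [h6, Polynomial.hom_eval₂, ← hcomp, ← Polynomial.hom_eval₂, h1, map_zero]
    have h7 : (Polynomial.X : Polynomial K) ^ (e + 1) ∣ Q.eval lam := by
      rw [← Ideal.mem_span_singleton, ← hI]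
      exact Ideal.Quotient.eq_zero_iff_mem.1 h5
    have h8 : (Polynomial.X : Polynomial K) ∣ Q'.eval lam := by
      rw [hQQ, Polynomial.eval_mul, Polynomial.eval_pow, Polynomial.eval_C, pow_succ] at h7
      exact (mul_dvd_mul_iff_left (pow_ne_zero e Polynomial.X_ne_zero)).1 h7
    have h9 : (Q'.eval lam).eval 0 = 0 := by
      rw [← Polynomial.coeff_zero_eq_eval_zero]
      exact Polynomial.X_dvd_iff.1 h8
    have h10 : (Q'.eval lam).eval 0 = q.eval (lam.eval 0) := by
      have h11 := Polynomial.eval₂_hom (Polynomial.evalRingHom (0 : K)) (p := Q') lam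
      rw [hq, Polynomial.eval_map]
      exact h11.symm
    have h12 : lam.eval 0 = ∑ j, l j * x j := by
      rw [hlam, hℓ, hA]
      simp only [map_sum, map_mul, MvPolynomial.aeval_X, MvPolynomial.algHom_C,
        Polynomial.algebraMap_eq, Polynomial.eval_finsetSum, Polynomial.eval_mul,
        Polynomial.eval_C]
      refine Finset.sum_congr rfl fun j _ => ?_
      rw [← Polynomial.coeff_zero_eq_eval_zero, hY0 j]
    rw [← h12, ← h10, h9]
  have hsub : S.image (fun x : Fin ρ → K => ∑ j, l j * x j) ⊆ q.roots.toFinset := by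
    intro z hz
    obtain ⟨x, hx, rfl⟩ := Finset.mem_image.1 hz
    rw [Multiset.mem_toFinset, Polynomial.mem_roots hq0]
    exact hroot x hx
  calc S.card = (S.image (fun x : Fin ρ → K => ∑ j, l j * x j)).card :=
        (Finset.card_image_of_injOn hl).symm
    _ ≤ q.roots.toFinset.card := Finset.card_le_card hsub
    _ ≤ Multiset.card q.roots := Multiset.toFinset_card_le _
    _ ≤ q.natDegree := Polynomial.card_roots' q
    _ ≤ Q'.natDegree := Polynomial.natDegree_map_le
    _ ≤ _ := hdeg

theorem nondeg_zeros (k : Type) [Field k] (ρ d : ℕ) (f : Fin ρ → MvPolynomial (Fin ρ) k)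
    (hf : ∀ i, (f i).totalDegree ≤ d) (S : Finset (Fin ρ → k))
    (hS : ∀ x ∈ S, (∀ i, MvPolynomial.eval x (f i) = 0) ∧
      (Matrix.of fun i j => MvPolynomial.eval x (MvPolynomial.pderiv j (f i))).det ≠ 0) :
    S.card ≤ (ρ * d + 1) ^ ρ := by
  classical
  set g : k →+* AlgebraicClosure k := algebraMap k (AlgebraicClosure k) with hg
  have hginj : Function.Injective g := g.injective
  have hmap : ∀ (x : Fin ρ → k) (p : MvPolynomial (Fin ρ) k),
      MvPolynomial.eval (g ∘ x) (MvPolynomial.map g p) = g (MvPolynomial.eval x p) := by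
    intro x p
    rw [MvPolynomial.eval_map]
    exact (MvPolynomial.eval₂_comp g x p).symm
  have hinj : Function.Injective fun x : Fin ρ → k => g ∘ x :=
    fun x y h => funext fun i => hginj (congrFun h i)
  have h := nz_inf (AlgebraicClosure k) ρ d (fun i => MvPolynomial.map g (f i))
    (fun i => (Finset.sup_mono (MvPolynomial.support_map_subset _ _)).trans (hf i))
    (S.image fun x => g ∘ x) (by
      intro y hy
      obtain ⟨x, hx, rfl⟩ := Finset.mem_image.1 hy
      obtain ⟨h1, h2⟩ := hS x hx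
      refine ⟨fun i => ?_, ?_⟩
      · rw [hmap, h1 i, map_zero]
      · have h3 : (Matrix.of fun i j => MvPolynomial.eval (g ∘ x)
            (MvPolynomial.pderiv j (MvPolynomial.map g (f i)))) =
            g.mapMatrix (Matrix.of fun i j => MvPolynomial.eval x (MvPolynomial.pderiv j (f i))) := by
          ext i j
          simp only [Matrix.of_apply, RingHom.mapMatrix_apply, Matrix.map_apply]
          rw [MvPolynomial.pderiv_map, hmap]
        rw [h3, ← RingHom.map_det]
        exact fun h4 => h2 (hginj (by rw [h4, map_zero])))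
  rwa [Finset.card_image_of_injective _ hinj] at h

end Pool.Agent.H32.UD
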