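import Mathlib

/-!
# UD.Pm : polynomial maps between vector spaces and their derivatives

PROOFS. All lemmas by giving the polynomial for the functional `ℓ`. `const`: `C (ℓ w)`. `lin`: `∑ j, C (ℓ (L (b j))) * X j`. `add`, `sub`: add (subtract) the polynomials. `map`: use `ℓ ∘ₗ T`. `pi`: `ℓ (y) = ∑ i, ℓ (Pi.single i (y i))`, sum of the polynomials for `ℓ ∘ single i`.
`prod`: `ℓ (y, z) = ℓ (y, 0) + ℓ (0, z)`.
-/

set_option autoImplicit false

namespace Pool.Agent.H32.UD

open Module

/-- `P` is given by polynomials of degree at most `d` in coordinates and `P'` is its derivative -/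
def PMap (F : Type) {V W : Type} [Field F] [AddCommGroup V] [Module F V] [AddCommGroup W] [Module F W]
    (d : ℕ) (P : V → W) (P' : V → V → W) : Prop :=
  ∀ (N : ℕ) (b : Basis (Fin N) F V) (ℓ : W →ₗ[F] F), ∃ f : MvPolynomial (Fin N) F, f.totalDegree ≤ d ∧
    (∀ x, MvPolynomial.eval (fun i => b.repr x i) f = ℓ (P x)) ∧
    ∀ x v, ∑ j, b.repr v j * MvPolynomial.eval (fun i => b.repr x i) (MvPolynomial.pderiv j f) = ℓ (P' x v)

variable {F V W W' : Type} [Field F] [AddCommGroup V] [Module F V] [AddCommGroup W] [Module F W]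
  [AddCommGroup W'] [Module F W']

theorem PMap.mono {d d' : ℕ} {P : V → W} {P' : V → V → W} (h : PMap F d P P') (hd : d ≤ d') :
    PMap F d' P P' := by
  intro N b ℓ
  obtain ⟨f, h1, h2, h3⟩ := h N b ℓ
  exact ⟨f, h1.trans hd, h2, h3⟩

theorem PMap.const (w : W) : PMap F 0 (fun _ : V => w) (fun _ _ => 0) := by
  intro N b ℓ
  refine ⟨MvPolynomial.C (ℓ w), ?_, ?_, ?_⟩
  · rw [MvPolynomial.totalDegree_C]
  · intro x
    rw [MvPolynomial.eval_C]
  · intro x v
    rw [map_zero]
    refine Finset.sum_eq_zero fun j _ => ?_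
    rw [MvPolynomial.pderiv_C, map_zero, mul_zero]

private theorem pm_expand {N : ℕ} (b : Basis (Fin N) F V) (φ : V →ₗ[F] F) (x : V) :
    ∑ j, b.repr x j * φ (b j) = φ x := by
  have h := congrArg φ (b.sum_repr x)
  rw [map_sum] at h
  rw [← h]
  refine Finset.sum_congr rfl fun j _ => ?_
  rw [map_smul, smul_eq_mul]

private theorem pm_pderiv {N : ℕ} (a : Fin N → F) (k : Fin N) :
    MvPolynomial.pderiv k (∑ j, MvPolynomial.C (a j) * MvPolynomial.X j) =
      (MvPolynomial.C (a k) : MvPolynomial (Fin N) F) := by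
  rw [map_sum, Finset.sum_eq_single k]
  · rw [MvPolynomial.pderiv_C_mul, MvPolynomial.pderiv_X_self, mul_one]
  · intro j _ hj
    rw [MvPolynomial.pderiv_C_mul, MvPolynomial.pderiv_X_of_ne hj, mul_zero]
  · intro h
    exact absurd (Finset.mem_univ k) h

theorem PMap.lin (L : V →ₗ[F] W) : PMap F 1 (fun x => L x) (fun _ v => L v) := by
  intro N b ℓ
  refine ⟨∑ j, MvPolynomial.C (ℓ (L (b j))) * MvPolynomial.X j, ?_, ?_, ?_⟩
  · refine (MvPolynomial.totalDegree_finsetSum _ _).trans ?_
    refine Finset.sup_le fun j _ => ?_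
    refine (MvPolynomial.totalDegree_mul _ _).trans ?_
    rw [MvPolynomial.totalDegree_C, MvPolynomial.totalDegree_X]
  · intro x
    have h := pm_expand b (ℓ ∘ₗ L) x
    rw [LinearMap.comp_apply] at h
    rw [← h, map_sum]
    refine Finset.sum_congr rfl fun j _ => ?_
    rw [map_mul, MvPolynomial.eval_C, MvPolynomial.eval_X, LinearMap.comp_apply, mul_comm]
  · intro x v
    have h := pm_expand b (ℓ ∘ₗ L) v
    rw [LinearMap.comp_apply] at h
    rw [← h]
    refine Finset.sum_congr rfl fun j _ => ?_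
    rw [pm_pderiv, MvPolynomial.eval_C, LinearMap.comp_apply]

theorem PMap.add {d : ℕ} {P Q : V → W} {P' Q' : V → V → W} (hP : PMap F d P P') (hQ : PMap F d Q Q') :
    PMap F d (fun x => P x + Q x) (fun x v => P' x v + Q' x v) := by
  intro N b ℓ
  obtain ⟨f, h1, h2, h3⟩ := hP N b ℓ
  obtain ⟨g, g1, g2, g3⟩ := hQ N b ℓ
  refine ⟨f + g, ?_, ?_, ?_⟩
  · exact (MvPolynomial.totalDegree_add _ _).trans (max_le h1 g1)
  · intro x
    rw [map_add, h2, g2, map_add]
  · intro x v
    rw [map_add, ← h3, ← g3, ← Finset.sum_add_distrib]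
    refine Finset.sum_congr rfl fun j _ => ?_
    rw [map_add, map_add, mul_add]

theorem PMap.sub {d : ℕ} {P Q : V → W} {P' Q' : V → V → W} (hP : PMap F d P P') (hQ : PMap F d Q Q') :
    PMap F d (fun x => P x - Q x) (fun x v => P' x v - Q' x v) := by
  intro N b ℓ
  obtain ⟨f, h1, h2, h3⟩ := hP N b ℓ
  obtain ⟨g, g1, g2, g3⟩ := hQ N b ℓ
  refine ⟨f + MvPolynomial.C (-1) * g, ?_, ?_, ?_⟩
  · refine (MvPolynomial.totalDegree_add _ _).trans (max_le h1 ?_)
    refine (MvPolynomial.totalDegree_mul _ _).trans ?_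
    rw [MvPolynomial.totalDegree_C, zero_add]
    exact g1
  · intro x
    rw [map_add, map_mul, MvPolynomial.eval_C, h2, g2, map_sub]
    ring
  · intro x v
    rw [map_sub, ← h3, ← g3, ← Finset.sum_sub_distrib]
    refine Finset.sum_congr rfl fun j _ => ?_
    rw [map_add, MvPolynomial.pderiv_C_mul, map_add, map_mul, MvPolynomial.eval_C]
    ring

theorem PMap.map {d : ℕ} {P : V → W} {P' : V → V → W} (hP : PMap F d P P') (T : W →ₗ[F] W') :
    PMap F d (fun x => T (P x)) (fun x v => T (P' x v)) := by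
  intro N b ℓ
  obtain ⟨f, h1, h2, h3⟩ := hP N b (ℓ ∘ₗ T)
  exact ⟨f, h1, h2, h3⟩

private theorem pm_sum {ι : Type} {d : ℕ} (s : Finset ι) {P : ι → V → W} {P' : ι → V → V → W}
    (hP : ∀ i, PMap F d (P i) (P' i)) : PMap F d (fun x => ∑ i ∈ s, P i x) (fun x v => ∑ i ∈ s, P' i x v) := by
  classical
  induction s using Finset.induction_on with
  | empty =>
    simp only [Finset.sum_empty]
    exact (PMap.const 0).mono (Nat.zero_le _)
  | insert a s ha ih =>
    simp only [Finset.sum_insert ha]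
    exact (hP a).add ih

theorem PMap.pi {ι : Type} [Fintype ι] [DecidableEq ι] {d : ℕ} {P : ι → V → W} {P' : ι → V → V → W}
    (hP : ∀ i, PMap F d (P i) (P' i)) : PMap F d (fun x i => P i x) (fun x v i => P' i x v) := by
  have h := pm_sum (F := F) (Finset.univ : Finset ι)
    (P := fun i x => LinearMap.single F (fun _ : ι => W) i (P i x))
    (P' := fun i x v => LinearMap.single F (fun _ : ι => W) i (P' i x v))
    (fun i => (hP i).map (LinearMap.single F (fun _ : ι => W) i))
  have e1 : (fun x : V => ∑ i, LinearMap.single F (fun _ : ι => W) i (P i x)) = fun x i => P i x := by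
    funext x
    simp only [LinearMap.coe_single]
    exact Finset.univ_sum_single (fun i => P i x)
  have e2 : (fun x v : V => ∑ i, LinearMap.single F (fun _ : ι => W) i (P' i x v)) =
      fun x v i => P' i x v := by
    funext x v
    simp only [LinearMap.coe_single]
    exact Finset.univ_sum_single (fun i => P' i x v)
  rw [e1, e2] at h
  exact h

theorem PMap.prod {d : ℕ} {P : V → W} {P' : V → V → W} {Q : V → W'} {Q' : V → V → W'}
    (hP : PMap F d P P') (hQ : PMap F d Q Q') :
    PMap F d (fun x => (P x, Q x)) (fun x v => (P' x v, Q' x v)) := by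
  have h := (hP.map (LinearMap.inl F W W')).add (hQ.map (LinearMap.inr F W W'))
  have e1 : (fun x : V => LinearMap.inl F W W' (P x) + LinearMap.inr F W W' (Q x)) =
      fun x => (P x, Q x) := by
    funext x
    simp
  have e2 : (fun x v : V => LinearMap.inl F W W' (P' x v) + LinearMap.inr F W W' (Q' x v)) =
      fun x v => (P' x v, Q' x v) := by
    funext x v
    simp
  rw [e1, e2] at h
  exact h

end Pool.Agent.H32.UD
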