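import Mathlib

/-!
# UD.Rel : an algebraic relation between `ρ + 1` polynomials in `ρ` variables

PROOF. Let `A = (ρ d + 1) ^ ρ + 1`. Consider the `k`-space of all `R = ∑_{a, b} c_{a,b} y^a z^b` with `a : Fin ρ → Fin A`, `b : Fin A` (dimension `A ^ (ρ + 1)`) and the linear map
`R ↦ R (f, ℓ)`. Every monomial `f^a ℓ^b` has total degree `≤ ρ d (A - 1) + (A - 1) = (ρ d + 1)(A - 1)`, so all exponents of the image are `< D' = (ρ d + 1)(A - 1) + 1 ≤ (ρ d + 1) A`. The coefficients of the monomials with all exponents `< D'` determine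
the image (`MvPolynomial` with `(Fin ρ → Fin D') → k`, dimension `D' ^ ρ`). `D' ^ ρ ≤ (ρ d + 1)^ρ A^ρ < A ^ (ρ + 1)`, so the map has a nonzero kernel (`LinearMap.ker_ne_bot_of_finrank_lt` or `exists_ne_zero..`). The polynomial `R` (as a polynomial in `z` with
coefficients in `k[y]`) is nonzero since the monomials `y^a z^b` are linearly independent, and `natDegree R < A`.
-/

set_option autoImplicit false

namespace Pool.Agent.H32.UD

open MvPolynomial in
theorem alg_rel (k : Type) [Field k] (ρ d : ℕ) (f : Fin ρ → MvPolynomial (Fin ρ) k)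
    (hf : ∀ i, (f i).totalDegree ≤ d) (ℓ : MvPolynomial (Fin ρ) k) (hℓ : ℓ.totalDegree ≤ 1) :
    ∃ R : Polynomial (MvPolynomial (Fin ρ) k), R ≠ 0 ∧ R.natDegree ≤ (ρ * d + 1) ^ ρ ∧
      Polynomial.eval₂ (MvPolynomial.aeval f : MvPolynomial (Fin ρ) k →ₐ[k] MvPolynomial (Fin ρ) k).toRingHom
        ℓ R = 0 := by
  classical
  obtain ⟨A, hA⟩ : ∃ A, A = (ρ * d + 1) ^ ρ + 1 := ⟨_, rfl⟩
  obtain ⟨D, hD⟩ : ∃ D, D = (ρ * d + 1) * (A - 1) + 1 := ⟨_, rfl⟩
  have hA1 : A - 1 = (ρ * d + 1) ^ ρ := by omega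
  let fe : ∀ {B : ℕ}, (Fin ρ → Fin B) → (Fin ρ →₀ ℕ) := fun a =>
    Finsupp.equivFunOnFinite.symm (fun i => (a i : ℕ))
  have hfe : ∀ {B : ℕ} (a : Fin ρ → Fin B) (i : Fin ρ), fe a i = (a i : ℕ) := fun a i => rfl
  let M : (Fin ρ → Fin A) × Fin A → MvPolynomial (Fin ρ) k := fun q =>
    (∏ i, f i ^ (q.1 i : ℕ)) * ℓ ^ (q.2 : ℕ)
  have hM : ∀ q, (M q).totalDegree ≤ (ρ * d + 1) * (A - 1) := by
    intro q
    refine (totalDegree_mul _ _).trans ?_
    have h1 : (∏ i, f i ^ (q.1 i : ℕ)).totalDegree ≤ ρ * (d * (A - 1)) := by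
      refine (totalDegree_finsetProd _ _).trans ?_
      calc ∑ i, (f i ^ (q.1 i : ℕ)).totalDegree ≤ ∑ _i : Fin ρ, d * (A - 1) := by
            refine Finset.sum_le_sum fun i _ => (totalDegree_pow _ _).trans ?_
            rw [mul_comm]
            have := (q.1 i).2
            exact Nat.mul_le_mul (hf i) (by omega)
        _ = ρ * (d * (A - 1)) := by simp
    have h2 : (ℓ ^ (q.2 : ℕ)).totalDegree ≤ A - 1 := by
      refine (totalDegree_pow _ _).trans ?_
      have := q.2.2
      calc (q.2 : ℕ) * ℓ.totalDegree ≤ (A - 1) * 1 := Nat.mul_le_mul (by omega) hℓ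
        _ = A - 1 := mul_one _
    calc _ ≤ ρ * (d * (A - 1)) + (A - 1) := Nat.add_le_add h1 h2
      _ = (ρ * d + 1) * (A - 1) := by ring
  let Φ : ((Fin ρ → Fin A) × Fin A → k) →ₗ[k] ((Fin ρ → Fin D) → k) :=
    { toFun := fun c e => ∑ q, c q * coeff (fe e) (M q)
      map_add' := fun c c' => by
        funext e
        simp only [Pi.add_apply, add_mul, Finset.sum_add_distrib]
      map_smul' := fun r c => by
        funext e
        simp only [Pi.smul_apply, smul_eq_mul, RingHom.id_apply, Finset.mul_sum, mul_assoc] }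
  have hlt : Module.finrank k ((Fin ρ → Fin D) → k) <
      Module.finrank k ((Fin ρ → Fin A) × Fin A → k) := by
    rw [Module.finrank_fintype_fun_eq_card, Module.finrank_fintype_fun_eq_card, Fintype.card_prod,
      Fintype.card_fun, Fintype.card_fun, Fintype.card_fin, Fintype.card_fin, Fintype.card_fin]
    have h1 : D ≤ (ρ * d + 1) * A := by
      rw [hD]
      have : A = (A - 1) + 1 := by omega
      calc (ρ * d + 1) * (A - 1) + 1 ≤ (ρ * d + 1) * (A - 1) + (ρ * d + 1) := by omega
        _ = (ρ * d + 1) * ((A - 1) + 1) := by ring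
        _ = (ρ * d + 1) * A := by rw [← this]
    have hApos : 0 < A ^ ρ := pow_pos (by omega) _
    calc D ^ ρ ≤ ((ρ * d + 1) * A) ^ ρ := Nat.pow_le_pow_left h1 _
      _ = (A - 1) * A ^ ρ := by rw [mul_pow, hA1]
      _ < A * A ^ ρ := Nat.mul_lt_mul_of_pos_right (by omega) hApos
      _ = A ^ ρ * A := mul_comm _ _
  obtain ⟨c, hc, hc0⟩ := (Submodule.ne_bot_iff _).1 (LinearMap.ker_ne_bot_of_finrank_lt (f := Φ) hlt)
  have hΦ : ∀ e : Fin ρ → Fin D, ∑ q, c q * coeff (fe e) (M q) = 0 := fun e =>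
    congrFun (LinearMap.mem_ker.1 hc) e
  have hP : ∑ q, C (c q) * M q = 0 := by
    ext e
    rw [coeff_sum, coeff_zero]
    simp only [coeff_C_mul]
    by_cases he : ∀ i, e i < D
    · have h1 := hΦ (fun i => ⟨e i, he i⟩)
      have h2 : fe (fun i => (⟨e i, he i⟩ : Fin D)) = e := by
        ext i
        rfl
      rwa [h2] at h1
    · push Not at he
      obtain ⟨i, hi⟩ := he
      refine Finset.sum_eq_zero fun q _ => ?_
      rw [coeff_eq_zero_of_totalDegree_lt, mul_zero]
      refine lt_of_le_of_lt (hM q) ?_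
      have h1 : e i ≤ ∑ j ∈ e.support, e j := by
        by_cases h0 : e i = 0
        · rw [h0]
          exact Nat.zero_le _
        · exact Finset.single_le_sum (f := fun j => e j) (fun j _ => Nat.zero_le _)
            (Finsupp.mem_support_iff.2 h0)
      omega
  obtain ⟨q0, hq0⟩ : ∃ q, c q ≠ 0 := by
    by_contra hcon
    push Not at hcon
    exact hc0 (funext hcon)
  refine ⟨∑ q, Polynomial.monomial (q.2 : ℕ) (monomial (fe q.1) (c q)), ?_, ?_, ?_⟩
  · intro h0
    have h1 := congrArg (fun R => coeff (fe q0.1) (Polynomial.coeff R (q0.2 : ℕ))) h0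
    simp only [Polynomial.finsetSum_coeff, Polynomial.coeff_monomial, Polynomial.coeff_zero,
      coeff_zero, coeff_sum] at h1
    rw [Finset.sum_eq_single q0] at h1
    · rw [if_pos rfl, coeff_monomial, if_pos rfl] at h1
      exact hq0 h1
    · intro q _ hq
      by_cases h2 : (q.2 : ℕ) = (q0.2 : ℕ)
      · rw [if_pos h2, coeff_monomial, if_neg]
        intro h3
        refine hq (Prod.ext ?_ (Fin.ext h2))
        funext i
        refine Fin.ext ?_
        have := DFunLike.congr_fun h3 i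
        exact this
      · rw [if_neg h2, coeff_zero]
    · intro h
      exact absurd (Finset.mem_univ _) h
  · refine Polynomial.natDegree_sum_le_of_forall_le _ _ fun q _ => ?_
    refine (Polynomial.natDegree_monomial_le _).trans ?_
    have := q.2.2
    omega
  · rw [Polynomial.eval₂_finsetSum, ← hP]
    refine Finset.sum_congr rfl fun q _ => ?_
    rw [Polynomial.eval₂_monomial]
    have h1 : (MvPolynomial.aeval f : MvPolynomial (Fin ρ) k →ₐ[k] MvPolynomial (Fin ρ) k).toRingHom
        (monomial (fe q.1) (c q)) = C (c q) * ∏ i, f i ^ (q.1 i : ℕ) := by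
      change aeval f (monomial (fe q.1) (c q)) = _
      rw [aeval_monomial, Finsupp.prod_fintype]
      · rfl
      · intro i
        exact pow_zero _
    rw [h1, mul_assoc]

end Pool.Agent.H32.UD
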