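import Pool.Agent.H32.UD.Nz
import Pool.Agent.H32.UD.Min

/-!
# UD.Rk : counting solutions at which the Jacobian has rank at least `ρ`

PROOF. If `N < ρ` the set is empty (rank `≤ N`). Otherwise `C = m^ρ * N^ρ * (ρ d + 1)^ρ`. By `exists_minor` the set is contained in the union over `s : Fin ρ → Fin m`, `c : Fin ρ → Fin N` (injective) of the sets `Z_{s,c}` of `x` with `f_i (x) = 0` for `i` in the image of `s` and
`det (pderiv (c b) (f (s a)) (x)) ≠ 0`. For `Z_{s,c}` fix the coordinates outside the image of `c` (at most `q^(N - ρ)` choices, the complement of the image of `c` has `N - ρ` elements): substituting these constants gives `ρ` polynomials `g_a` in `ρ` variables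
(`MvPolynomial.aeval` / `bind₁` with `X_(c b) ↦ X_b`, other variables to constants; total degree does not increase; `pderiv b g_a` = substitution of `pderiv (c b) f_(s a)`), and `nondeg_zeros` gives at most `(ρ d + 1)^ρ` points.
-/

set_option autoImplicit false

namespace Pool.Agent.H32.UD

section rk

variable {F : Type} [Field F] {N ρ : ℕ}

/-- the substitution: the coordinates in the image of `c` stay variables, the other ones are constants -/
private noncomputable def rkPhi (c : Fin ρ → Fin N) (x₀ : Fin N → F) (j : Fin N) :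
    MvPolynomial (Fin ρ) F :=
  haveI := Classical.propDecidable (∃ b, c b = j)
  if h : ∃ b, c b = j then MvPolynomial.X h.choose else MvPolynomial.C (x₀ j)

private lemma rkPhi_mem {c : Fin ρ → Fin N} (hc : Function.Injective c) (x₀ : Fin N → F) (b : Fin ρ) :
    rkPhi c x₀ (c b) = MvPolynomial.X b := by
  have h : ∃ b', c b' = c b := ⟨b, rfl⟩
  unfold rkPhi
  rw [dif_pos h, hc h.choose_spec]

private lemma rkPhi_notMem {c : Fin ρ → Fin N} (x₀ : Fin N → F) {j : Fin N} (hj : ¬ ∃ b, c b = j) :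
    rkPhi c x₀ j = MvPolynomial.C (x₀ j) := by
  unfold rkPhi
  rw [dif_neg hj]

private lemma rkPhi_deg {c : Fin ρ → Fin N} (hc : Function.Injective c) (x₀ : Fin N → F) (j : Fin N) :
    (rkPhi c x₀ j).totalDegree ≤ 1 := by
  by_cases hj : ∃ b, c b = j
  · obtain ⟨b, rfl⟩ := hj
    rw [rkPhi_mem hc, MvPolynomial.totalDegree_X]
  · rw [rkPhi_notMem x₀ hj, MvPolynomial.totalDegree_C]
    exact Nat.zero_le _

private lemma rkPhi_eval {c : Fin ρ → Fin N} (hc : Function.Injective c) {x₀ x : Fin N → F}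
    (hx : ∀ j, (¬ ∃ b, c b = j) → x j = x₀ j) (j : Fin N) :
    MvPolynomial.eval (fun b => x (c b)) (rkPhi c x₀ j) = x j := by
  by_cases hj : ∃ b, c b = j
  · obtain ⟨b, rfl⟩ := hj
    rw [rkPhi_mem hc, MvPolynomial.eval_X]
  · rw [rkPhi_notMem x₀ hj, MvPolynomial.eval_C, hx j hj]

private lemma rk_eval {c : Fin ρ → Fin N} (hc : Function.Injective c) {x₀ x : Fin N → F}
    (hx : ∀ j, (¬ ∃ b, c b = j) → x j = x₀ j) (p : MvPolynomial (Fin N) F) :
    MvPolynomial.eval (fun b => x (c b)) (MvPolynomial.aeval (rkPhi c x₀) p) =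
      MvPolynomial.eval x p := by
  induction p using MvPolynomial.induction_on with
  | C a => simp
  | add p q hp hq => rw [map_add, map_add, map_add, hp, hq]
  | mul_X p j hp => rw [map_mul, map_mul, map_mul, hp, MvPolynomial.aeval_X, rkPhi_eval hc hx,
      MvPolynomial.eval_X]

private lemma rk_deg {c : Fin ρ → Fin N} (hc : Function.Injective c) (x₀ : Fin N → F)
    (p : MvPolynomial (Fin N) F) :
    (MvPolynomial.aeval (rkPhi c x₀) p).totalDegree ≤ p.totalDegree := by
  rw [MvPolynomial.aeval_def, MvPolynomial.eval₂_eq]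
  refine MvPolynomial.totalDegree_finsetSum_le fun m hm => ?_
  refine (MvPolynomial.totalDegree_mul _ _).trans ?_
  rw [MvPolynomial.algebraMap_eq, MvPolynomial.totalDegree_C, zero_add]
  refine (MvPolynomial.totalDegree_finsetProd _ _).trans ?_
  refine le_trans (Finset.sum_le_sum (g := fun j => m j) fun j _ => ?_) (MvPolynomial.le_totalDegree hm)
  refine (MvPolynomial.totalDegree_pow _ _).trans ?_
  calc m j * (rkPhi c x₀ j).totalDegree ≤ m j * 1 := Nat.mul_le_mul_left _ (rkPhi_deg hc x₀ j)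
    _ = m j := mul_one _

private lemma rk_pderivPhi {c : Fin ρ → Fin N} (hc : Function.Injective c) (x₀ : Fin N → F)
    (b : Fin ρ) (j : Fin N) :
    MvPolynomial.pderiv b (rkPhi c x₀ j) =
      MvPolynomial.aeval (rkPhi c x₀) (MvPolynomial.pderiv (c b) (MvPolynomial.X j : MvPolynomial (Fin N) F)) := by
  classical
  rw [MvPolynomial.pderiv_X]
  by_cases hj : ∃ b', c b' = j
  · obtain ⟨b', rfl⟩ := hj
    rw [rkPhi_mem hc, MvPolynomial.pderiv_X]
    by_cases hb : b' = b
    · subst hb
      simp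
    · have hb' : c b' ≠ c b := fun h => hb (hc h)
      simp [hb, hb']
  · rw [rkPhi_notMem x₀ hj, MvPolynomial.pderiv_C]
    have hb' : j ≠ c b := fun h => hj ⟨b, h.symm⟩
    simp [hb']

private lemma rk_pderiv {c : Fin ρ → Fin N} (hc : Function.Injective c) (x₀ : Fin N → F)
    (b : Fin ρ) (p : MvPolynomial (Fin N) F) :
    MvPolynomial.pderiv b (MvPolynomial.aeval (rkPhi c x₀) p) =
      MvPolynomial.aeval (rkPhi c x₀) (MvPolynomial.pderiv (c b) p) := by
  induction p using MvPolynomial.induction_on with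
  | C a => simp
  | add p q hp hq => rw [map_add, map_add, map_add, map_add, hp, hq]
  | mul_X p j hp =>
    rw [map_mul, MvPolynomial.pderiv_mul, hp, MvPolynomial.aeval_X, rk_pderivPhi hc,
      MvPolynomial.pderiv_mul, map_add, map_mul, map_mul, MvPolynomial.aeval_X]

/-- the points over a fixed choice of the other coordinates -/
private lemma rk_fibre [Finite F] {m d : ℕ} {f : Fin m → MvPolynomial (Fin N) F}
    (hf : ∀ i, (f i).totalDegree ≤ d) {s : Fin ρ → Fin m} {c : Fin ρ → Fin N}
    (hc : Function.Injective c) (T : Finset (Fin N → F)) (x₀ : Fin N → F)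
    (hT : ∀ x ∈ T, (∀ j, (¬ ∃ b, c b = j) → x j = x₀ j) ∧
      (∀ i, MvPolynomial.eval x (f i) = 0) ∧
      ((Matrix.of fun i j => MvPolynomial.eval x (MvPolynomial.pderiv j (f i))).submatrix s c).det ≠ 0) :
    T.card ≤ (ρ * d + 1) ^ ρ := by
  classical
  have hinj : Set.InjOn (fun (x : Fin N → F) (b : Fin ρ) => x (c b)) (T : Set (Fin N → F)) := by
    intro x hx y hy hxy
    funext j
    by_cases hj : ∃ b, c b = j
    · obtain ⟨b, rfl⟩ := hj
      exact congrFun hxy b
    · rw [(hT x hx).1 j hj, (hT y hy).1 j hj]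
  rw [← Finset.card_image_of_injOn hinj]
  refine nondeg_zeros F ρ d (fun a => MvPolynomial.aeval (rkPhi c x₀) (f (s a)))
    (fun a => (rk_deg hc x₀ _).trans (hf _)) _ ?_
  intro z hz
  obtain ⟨x, hx, rfl⟩ := Finset.mem_image.1 hz
  obtain ⟨h1, h2, h3⟩ := hT x hx
  refine ⟨fun a => ?_, ?_⟩
  · rw [rk_eval hc h1]
    exact h2 _
  · have h4 : (Matrix.of fun (i : Fin ρ) (j : Fin ρ) => MvPolynomial.eval (fun b => x (c b))
        (MvPolynomial.pderiv j (MvPolynomial.aeval (rkPhi c x₀) (f (s i))))) =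
        (Matrix.of fun i j => MvPolynomial.eval x (MvPolynomial.pderiv j (f i))).submatrix s c := by
      ext i j
      rw [Matrix.of_apply, Matrix.submatrix_apply, Matrix.of_apply, rk_pderiv hc, rk_eval hc h1]
    rw [h4]
    exact h3

/-- the points with a given invertible minor -/
private lemma rk_minor [Fintype F] {m d : ℕ} {f : Fin m → MvPolynomial (Fin N) F}
    (hf : ∀ i, (f i).totalDegree ≤ d) (s : Fin ρ → Fin m) {c : Fin ρ → Fin N}
    (hc : Function.Injective c) (T : Finset (Fin N → F))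
    (hT : ∀ x ∈ T, (∀ i, MvPolynomial.eval x (f i) = 0) ∧
      ((Matrix.of fun i j => MvPolynomial.eval x (MvPolynomial.pderiv j (f i))).submatrix s c).det ≠ 0) :
    T.card ≤ (ρ * d + 1) ^ ρ * Fintype.card F ^ (N - ρ) := by
  classical
  let res : (Fin N → F) → ({j : Fin N // ¬ ∃ b, c b = j} → F) := fun x j => x j.1
  have h1 : T.card ≤ (ρ * d + 1) ^ ρ * (T.image res).card := by
    refine Finset.card_le_mul_card_image T _ fun y hy => ?_
    obtain ⟨x₀, hx₀, rfl⟩ := Finset.mem_image.1 hy
    refine rk_fibre (s := s) hf hc _ x₀ fun x hx => ?_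
    obtain ⟨hx1, hx2⟩ := Finset.mem_filter.1 hx
    exact ⟨fun j hj => congrFun hx2 ⟨j, hj⟩, hT x hx1⟩
  refine h1.trans (Nat.mul_le_mul_left _ ?_)
  refine (Finset.card_le_univ _).trans (le_of_eq ?_)
  rw [Fintype.card_fun]
  congr 1
  rw [Fintype.card_subtype_compl, Fintype.card_fin]
  congr 1
  have h2 : Fintype.card {j : Fin N // ∃ b, c b = j} = Fintype.card (Fin ρ) := by
    rw [← Nat.card_eq_fintype_card, ← Nat.card_eq_fintype_card]
    exact (Nat.card_congr (Equiv.ofInjective c hc)).symm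
  rw [h2, Fintype.card_fin]

end rk

theorem rank_zeros (m N ρ d : ℕ) : ∃ C : ℕ, ∀ (F : Type) [Field F] [Finite F]
    (f : Fin m → MvPolynomial (Fin N) F), (∀ i, (f i).totalDegree ≤ d) →
    Nat.card {x : Fin N → F // (∀ i, MvPolynomial.eval x (f i) = 0) ∧
      ρ ≤ (Matrix.of fun i j => MvPolynomial.eval x (MvPolynomial.pderiv j (f i))).rank} ≤
    C * Nat.card F ^ (N - ρ) := by
  classical
  refine ⟨m ^ ρ * N ^ ρ * (ρ * d + 1) ^ ρ, ?_⟩
  intro F _ _ f hf
  have := Fintype.ofFinite F
  rw [Nat.card_eq_fintype_card, Nat.card_eq_fintype_card, Fintype.card_subtype]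
  let Z : (Fin ρ → Fin m) × (Fin ρ → Fin N) → Finset (Fin N → F) := fun sc =>
    Finset.univ.filter fun x => Function.Injective sc.2 ∧ (∀ i, MvPolynomial.eval x (f i) = 0) ∧
      ((Matrix.of fun i j => MvPolynomial.eval x (MvPolynomial.pderiv j (f i))).submatrix
        sc.1 sc.2).det ≠ 0
  have hsub : (Finset.univ.filter fun x : Fin N → F => (∀ i, MvPolynomial.eval x (f i) = 0) ∧
      ρ ≤ (Matrix.of fun i j => MvPolynomial.eval x (MvPolynomial.pderiv j (f i))).rank) ⊆
      Finset.univ.biUnion Z := by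
    intro x hx
    obtain ⟨h1, h2⟩ := (Finset.mem_filter.1 hx).2
    obtain ⟨s, c, _, hc, hdet⟩ := exists_minor _ ρ h2
    refine Finset.mem_biUnion.2 ⟨(s, c), Finset.mem_univ _, Finset.mem_filter.2 ⟨Finset.mem_univ _, hc, h1, hdet⟩⟩
  refine (Finset.card_le_card hsub).trans (Finset.card_biUnion_le.trans ?_)
  have hZ : ∀ sc, (Z sc).card ≤ (ρ * d + 1) ^ ρ * Fintype.card F ^ (N - ρ) := by
    rintro ⟨s, c⟩
    by_cases hc : Function.Injective c
    · exact rk_minor hf s hc _ fun x hx => (Finset.mem_filter.1 hx).2.2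
    · have h0 : Z (s, c) = ∅ := by
        refine Finset.filter_eq_empty_iff.2 fun x _ h => hc h.1
      rw [h0, Finset.card_empty]
      exact Nat.zero_le _
  refine (Finset.sum_le_sum fun sc _ => hZ sc).trans (le_of_eq ?_)
  rw [Finset.sum_const, smul_eq_mul, Finset.card_univ, Fintype.card_prod, Fintype.card_fun,
    Fintype.card_fun, Fintype.card_fin, Fintype.card_fin, Fintype.card_fin, mul_assoc, mul_assoc, mul_assoc]

end Pool.Agent.H32.UD
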