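import Pool.Agent.H32.UD.Sepx
import Pool.Agent.H32.UD.Dec

/-!
# UD.Tf : functions on the torus given by Laurent polynomials with small exponents

`T = {u | u bar u = 1}`. `TFun m f`: `u ^ (m q^(r-1)) f(u)` is a polynomial of degree `≤ 2 m q^(r-1)` in `u ∈ T`.

PROOF. `const`: `p = C c * X ^ (m q^(r-1))`. `mono`: multiply by `X^((m' - m) q^(r-1))`. `add`, `mul`: add (multiply) the polynomials. `sum`, `prod`, `det`: induction, `Matrix.det_apply`. `coord`: every `F`-linear `ℓ : E → F` is `x ↦ Tr (a x) = ∑_{c} σ c a σ c x` (trace form nondegenerate: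
`Algebra.trace` dual basis / `LinearMap.BilinForm.toDual`; `trace_eq_sum_automorphisms`, the automorphisms are the `σ c`; or directly: linear maps `E → E` are `∑ a_c σ c` by `exists_coeff`-type statement; any `F`-linear map `L : E → E` is a combination of the `σ c` by UD.Dec, which may be imported). For `u ∈ T`, `c.val < r`: `σ c u = u^(q^(c.val))`,
for `c.val = r + i`: `σ c u = σ i (bar u) = u^(-q^i)` (`bar_pow`), exponents between `-q^(r-1)` and `q^(r-1)`: multiply by `u^(q^(r-1))`. `zeros`: `f u = 0` iff `p(u) = 0`, `p ≠ 0` since `f u₀ ≠ 0`, so at most `natDegree p` roots.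
-/

set_option autoImplicit false
set_option linter.unusedSectionVars false

namespace Pool.Agent.H32.UD

open Module

namespace Dat

variable {F E : Type} [Field F] [Field E] [Algebra F E] (D : Dat F E) [Finite F] [Finite E]

/-- functions of degree at most `m` on the torus -/
def TFun (m : ℕ) (f : E → E) : Prop :=
  ∃ p : Polynomial E, p.natDegree ≤ 2 * (m * Nat.card F ^ (D.r - 1)) ∧
    ∀ u : E, u * D.bar u = 1 → u ^ (m * Nat.card F ^ (D.r - 1)) * f u = p.eval u

variable {D}

theorem TFun.mono {m m' : ℕ} {f : E → E} (h : D.TFun m f) (hm : m ≤ m') : D.TFun m' f := by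
  obtain ⟨p, hp, hpu⟩ := h
  obtain ⟨k, rfl⟩ := Nat.exists_eq_add_of_le hm
  refine ⟨Polynomial.X ^ (k * Nat.card F ^ (D.r - 1)) * p, ?_, fun u hu => ?_⟩
  · refine Polynomial.natDegree_mul_le.trans ?_
    rw [Polynomial.natDegree_X_pow]
    have : 0 ≤ k * Nat.card F ^ (D.r - 1) := Nat.zero_le _
    rw [add_mul]
    omega
  · rw [Polynomial.eval_mul, Polynomial.eval_pow, Polynomial.eval_X, ← hpu u hu, add_mul, pow_add]
    ring

theorem TFun.const (m : ℕ) (c : E) : D.TFun m (fun _ => c) := by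
  refine ⟨Polynomial.C c * Polynomial.X ^ (m * Nat.card F ^ (D.r - 1)), ?_, fun u hu => ?_⟩
  · refine (Polynomial.natDegree_C_mul_X_pow_le _ _).trans ?_
    omega
  · rw [Polynomial.eval_mul, Polynomial.eval_pow, Polynomial.eval_X, Polynomial.eval_C, mul_comm]

theorem TFun.add {m : ℕ} {f g : E → E} (hf : D.TFun m f) (hg : D.TFun m g) :
    D.TFun m (fun u => f u + g u) := by
  obtain ⟨p, hp, hpu⟩ := hf
  obtain ⟨p', hp', hpu'⟩ := hg
  refine ⟨p + p', (Polynomial.natDegree_add_le _ _).trans (max_le hp hp'), fun u hu => ?_⟩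
  rw [Polynomial.eval_add, ← hpu u hu, ← hpu' u hu]
  ring

theorem TFun.mul {m m' : ℕ} {f g : E → E} (hf : D.TFun m f) (hg : D.TFun m' g) :
    D.TFun (m + m') (fun u => f u * g u) := by
  obtain ⟨p, hp, hpu⟩ := hf
  obtain ⟨p', hp', hpu'⟩ := hg
  refine ⟨p * p', Polynomial.natDegree_mul_le.trans ?_, fun u hu => ?_⟩
  · rw [add_mul]
    omega
  · rw [Polynomial.eval_mul, ← hpu u hu, ← hpu' u hu, add_mul, pow_add]
    ring

private theorem TFun.congr {m : ℕ} {f g : E → E} (hf : D.TFun m f) (h : ∀ u, u * D.bar u = 1 → f u = g u) :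
    D.TFun m g := by
  obtain ⟨p, hp, hpu⟩ := hf
  refine ⟨p, hp, fun u hu => ?_⟩
  rw [← h u hu]
  exact hpu u hu

theorem TFun.sum {ι : Type} (s : Finset ι) {m : ℕ} {f : ι → E → E} (hf : ∀ i ∈ s, D.TFun m (f i)) :
    D.TFun m (fun u => ∑ i ∈ s, f i u) := by
  classical
  revert hf
  refine Finset.induction_on s ?_ ?_
  · intro _
    refine TFun.congr (TFun.const m (0 : E)) fun u _ => ?_
    rw [Finset.sum_empty]
  · intro i s hi ih hf
    have h1 := TFun.add (hf i (Finset.mem_insert_self i s)) (ih fun j hj => hf j (Finset.mem_insert_of_mem hj))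
    refine TFun.congr h1 fun u _ => ?_
    rw [Finset.sum_insert hi]

private theorem TFun.prod {ι : Type} (s : Finset ι) {m : ℕ} {f : ι → E → E} (hf : ∀ i ∈ s, D.TFun m (f i)) :
    D.TFun (s.card * m) (fun u => ∏ i ∈ s, f i u) := by
  classical
  revert hf
  refine Finset.induction_on s ?_ ?_
  · intro _
    refine TFun.congr (TFun.const _ (1 : E)) fun u _ => ?_
    rw [Finset.prod_empty]
  · intro i s hi ih hf
    have h1 := TFun.mul (hf i (Finset.mem_insert_self i s)) (ih fun j hj => hf j (Finset.mem_insert_of_mem hj))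
    rw [Finset.card_insert_of_notMem hi]
    have e : m + s.card * m = (s.card + 1) * m := by ring
    rw [e] at h1
    refine TFun.congr h1 fun u _ => ?_
    rw [Finset.prod_insert hi]

theorem TFun.det {n m : ℕ} {f : Fin n → Fin n → E → E} (hf : ∀ i j, D.TFun m (f i j)) :
    D.TFun (n * m) (fun u => (Matrix.of fun i j => f i j u).det) := by
  have h1 : ∀ s : Equiv.Perm (Fin n), D.TFun (n * m) (fun u => ((Equiv.Perm.sign s : ℤ) : E) * ∏ i, f (s i) i u) := by
    intro s
    have h2 := TFun.prod (D := D) Finset.univ (m := m) (f := fun i => f (s i) i) (fun i _ => hf (s i) i)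
    rw [Finset.card_univ, Fintype.card_fin] at h2
    have h3 := TFun.mul (TFun.const (D := D) 0 ((Equiv.Perm.sign s : ℤ) : E)) h2
    rw [zero_add] at h3
    exact h3
  have h4 := TFun.sum (D := D) (Finset.univ : Finset (Equiv.Perm (Fin n))) (fun s _ => h1 s)
  refine TFun.congr h4 fun u _ => ?_
  rw [Matrix.det_apply']
  rfl

private theorem fr_pow_apply (n : ℕ) (x : E) : (fr F E ^ n) x = x ^ (Nat.card F ^ n) := by
  induction n generalizing x with
  | zero => simp
  | succ n ih =>
    rw [pow_succ, AlgEquiv.mul_apply, fr_apply, map_pow, ih, ← pow_mul, ← pow_succ]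

private theorem TFun.sig (a : E) (c : ZMod (2 * D.r)) : D.TFun 1 (fun u => a * D.σ c u) := by
  have hq : 1 ≤ Nat.card F := Nat.card_pos
  have hσ : ∀ u, D.σ c u = u ^ (Nat.card F ^ c.val) := by
    intro u
    unfold σ
    exact fr_pow_apply _ _
  have hlt := ZMod.val_lt c
  by_cases hc : c.val < D.r
  · refine ⟨Polynomial.C a * Polynomial.X ^ (Nat.card F ^ (D.r - 1) + Nat.card F ^ c.val), ?_, fun u hu => ?_⟩
    · refine (Polynomial.natDegree_C_mul_X_pow_le _ _).trans ?_
      have h1 : Nat.card F ^ c.val ≤ Nat.card F ^ (D.r - 1) := Nat.pow_le_pow_right hq (by omega)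
      omega
    · beta_reduce
      rw [Polynomial.eval_mul, Polynomial.eval_pow, Polynomial.eval_X, Polynomial.eval_C, hσ, one_mul, pow_add]
      ring
  · push Not at hc
    obtain ⟨i, hi⟩ := Nat.exists_eq_add_of_le hc
    have hir : i < D.r := by omega
    have h1 : Nat.card F ^ i ≤ Nat.card F ^ (D.r - 1) := Nat.pow_le_pow_right hq (by omega)
    refine ⟨Polynomial.C a * Polynomial.X ^ (Nat.card F ^ (D.r - 1) - Nat.card F ^ i), ?_, fun u hu => ?_⟩
    · refine (Polynomial.natDegree_C_mul_X_pow_le _ _).trans ?_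
      omega
    · have h2 : D.σ c u = D.bar u ^ (Nat.card F ^ i) := by
        rw [hσ, hi, bar_pow, ← pow_mul, pow_add]
      have h3 : u ^ (Nat.card F ^ (D.r - 1)) = u ^ (Nat.card F ^ (D.r - 1) - Nat.card F ^ i) * u ^ (Nat.card F ^ i) := by
        rw [← pow_add, Nat.sub_add_cancel h1]
      have h4 : u ^ (Nat.card F ^ i) * D.bar u ^ (Nat.card F ^ i) = 1 := by
        rw [← mul_pow, hu, one_pow]
      beta_reduce
      rw [Polynomial.eval_mul, Polynomial.eval_pow, Polynomial.eval_X, Polynomial.eval_C, h2, one_mul, h3]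
      linear_combination (a * u ^ (Nat.card F ^ (D.r - 1) - Nat.card F ^ i)) * h4

/-- affine functions of the coordinates -/
theorem TFun.coord (ℓ : E →ₗ[F] F) : D.TFun 1 (fun u => algebraMap F E (ℓ u)) := by
  obtain ⟨a, ha⟩ := D.exists_coeff ((Algebra.linearMap F E).comp ℓ)
  have h1 := TFun.sum (D := D) (Finset.univ : Finset (ZMod (2 * D.r))) (fun c _ => TFun.sig (D := D) (a c) c)
  refine TFun.congr h1 fun u _ => ?_
  have h2 := LinearMap.congr_fun ha u
  rw [LinearMap.sum_apply] at h2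
  exact h2.symm

theorem TFun.zeros [DecidableEq E] {m : ℕ} {f : E → E} (hf : D.TFun m f) (s : Finset E)
    (hs : ∀ u ∈ s, u * D.bar u = 1) (h0 : ∃ u ∈ s, f u ≠ 0) :
    (s.filter fun u => f u = 0).card ≤ 2 * (m * Nat.card F ^ (D.r - 1)) := by
  obtain ⟨p, hp, hpu⟩ := hf
  obtain ⟨u0, hu0, hfu0⟩ := h0
  have hp0 : p ≠ 0 := by
    rintro rfl
    have h1 := hpu u0 (hs u0 hu0)
    rw [Polynomial.eval_zero] at h1
    have h2 : u0 ≠ 0 := by
      rintro rfl
      have := hs 0 hu0
      rw [zero_mul] at this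
      exact zero_ne_one this
    exact (mul_ne_zero (pow_ne_zero _ h2) hfu0) h1
  have hsub : (s.filter fun u => f u = 0) ⊆ p.roots.toFinset := by
    intro u hu
    rw [Finset.mem_filter] at hu
    rw [Multiset.mem_toFinset, Polynomial.mem_roots hp0, Polynomial.IsRoot.def, ← hpu u (hs u hu.1), hu.2, mul_zero]
  calc (s.filter fun u => f u = 0).card ≤ p.roots.toFinset.card := Finset.card_le_card hsub
    _ ≤ Multiset.card p.roots := Multiset.toFinset_card_le _
    _ ≤ p.natDegree := Polynomial.card_roots' p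
    _ ≤ _ := hp

end Dat

end Pool.Agent.H32.UD
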