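import Pool.Agent.H32.UD.Bas

/-!
# UD.Tor : the torus of elements of norm one

PROOF. `bar_pow`: `bar = fr ^ r` (`σ_natCast`), `fr x = x ^ q` (`fr_apply`), iterate. `card_torus`: `Eˣ` is cyclic of order `q^(2r) - 1 = (q^r - 1)(q^r + 1)` (`Module.card_eq_pow_finrank`, `D.fin`), `u bar u = u^(q^r + 1)`; in a cyclic group of order `N` with `d ∣ N` there are exactly `d` solutions of `u^d = 1` (`IsCyclic.card_pow_eq_one_eq_..`, or use a generator).
`torus_gen`: `θ = γ^(q^r - 1)` for a generator `γ`, order `q^r + 1`; the solutions of `u^(q^r+1) = 1` are the powers of `θ`. `norm_onto`: for `e ∈ Eˣ`, `bar e = e` there is `a` with `a * bar a = e`: `e^(q^r - 1) = 1`, `e = γ^k` with `(q^r + 1) ∣ k`. `card_T2`: squaring is two to one on the cyclic group of even order `q^r + 1`.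
-/

set_option autoImplicit false
set_option linter.unusedSectionVars false

namespace Pool.Agent.H32.UD

open Module

namespace Dat

variable {F E : Type} [Field F] [Field E] [Algebra F E] (D : Dat F E) [Finite F] [Finite E]

theorem bar_pow (x : E) : D.bar x = x ^ (Nat.card F ^ D.r) := by
  have h : ∀ n : ℕ, (fr F E ^ n) x = x ^ (Nat.card F ^ n) := by
    intro n
    induction n with
    | zero => simp
    | succ n ih =>
      rw [pow_succ', AlgEquiv.mul_apply, ih, fr_apply, ← pow_mul, ← pow_succ]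
  rw [bar_eq, σ_natCast, h]

private theorem one_lt_N : 1 < Nat.card F ^ D.r := by
  have h1 : 1 < Nat.card F := Finite.one_lt_card
  have h2 := D.four_le
  exact Nat.one_lt_pow (by omega) h1

private theorem card_units_E : Nat.card Eˣ = (Nat.card F ^ D.r - 1) * (Nat.card F ^ D.r + 1) := by
  have h1 : Nat.card E = Nat.card F ^ (2 * D.r) := by
    have := Module.natCard_eq_pow_finrank (K := F) (V := E)
    rw [this, D.fin]
  rw [Nat.card_units, h1, mul_comm 2, pow_mul]
  have h := D.one_lt_N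
  obtain ⟨m, hm⟩ := Nat.exists_eq_add_of_le h.le
  rw [hm, Nat.add_sub_cancel_left]
  have : (1 + m) ^ 2 = m * (1 + m + 1) + 1 := by ring
  rw [this, Nat.add_sub_cancel]

private theorem mul_bar_iff (u : Eˣ) (e : Eˣ) :
    (u : E) * D.bar u = e ↔ u ^ (Nat.card F ^ D.r + 1) = e := by
  rw [bar_pow, ← pow_succ', ← Units.val_pow_eq_pow_val, Units.val_inj]

private theorem exists_gen : ∃ γ : Eˣ, orderOf γ = (Nat.card F ^ D.r - 1) * (Nat.card F ^ D.r + 1) ∧
    ∀ u : Eˣ, ∃ k : ℕ, u = γ ^ k := by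
  obtain ⟨γ, hγ⟩ := IsCyclic.exists_generator (α := Eˣ)
  refine ⟨γ, ?_, ?_⟩
  · rw [orderOf_eq_card_of_forall_mem_zpowers hγ, D.card_units_E]
  · intro u
    have := hγ u
    rw [← mem_powers_iff_mem_zpowers, Submonoid.mem_powers_iff] at this
    obtain ⟨k, hk⟩ := this
    exact ⟨k, hk.symm⟩

theorem torus_gen : ∃ θ : Eˣ, (θ : E) * D.bar θ = 1 ∧ orderOf θ = Nat.card F ^ D.r + 1 ∧
    ∀ u : Eˣ, (u : E) * D.bar u = 1 → ∃ n : ℕ, u = θ ^ n := by
  obtain ⟨γ, ho, hg⟩ := D.exists_gen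
  have hN := D.one_lt_N
  set N := Nat.card F ^ D.r with hNdef
  have hpos : 0 < N - 1 := by omega
  have key : ∀ u : Eˣ, (u : E) * D.bar u = 1 ↔ u ^ (N + 1) = 1 := by
    intro u
    have := D.mul_bar_iff u 1
    rw [Units.val_one] at this
    exact this
  refine ⟨γ ^ (N - 1), ?_, ?_, ?_⟩
  · rw [key, ← pow_mul, ← ho, pow_orderOf_eq_one]
  · rw [orderOf_pow_of_dvd (by omega) (by rw [ho]; exact Dvd.intro _ rfl), ho]
    exact Nat.mul_div_cancel_left _ hpos
  · intro u hu
    rw [key] at hu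
    obtain ⟨k, rfl⟩ := hg u
    rw [← pow_mul] at hu
    have h1 := orderOf_dvd_of_pow_eq_one hu
    rw [ho] at h1
    have h2 : N - 1 ∣ k := Nat.dvd_of_mul_dvd_mul_right (by omega) h1
    obtain ⟨m, rfl⟩ := h2
    exact ⟨m, by rw [pow_mul]⟩

theorem card_torus : Nat.card {u : Eˣ // (u : E) * D.bar u = 1} = Nat.card F ^ D.r + 1 := by
  obtain ⟨θ, h1, h2, h3⟩ := D.torus_gen
  rw [← h2, ← Nat.card_zpowers]
  apply Nat.card_congr
  apply Equiv.subtypeEquivRight
  intro u
  constructor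
  · intro hu
    obtain ⟨n, rfl⟩ := h3 u hu
    exact Subgroup.npow_mem_zpowers θ n
  · intro hu
    rw [← mem_powers_iff_mem_zpowers, Submonoid.mem_powers_iff] at hu
    obtain ⟨n, rfl⟩ := hu
    rw [Units.val_pow_eq_pow_val, map_pow, ← mul_pow, h1, one_pow]

theorem norm_onto (e : Eˣ) (he : D.bar e = e) : ∃ a : Eˣ, (a : E) * D.bar a = e := by
  obtain ⟨γ, ho, hg⟩ := D.exists_gen
  have hN := D.one_lt_N
  obtain ⟨k, rfl⟩ := hg e
  set N := Nat.card F ^ D.r with hNdef
  rw [bar_pow, ← hNdef, ← Units.val_pow_eq_pow_val, Units.val_inj] at he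
  have h0 : (γ ^ k) ^ (N - 1) = 1 := by
    have h1 : (γ ^ k) ^ (N - 1) * γ ^ k = 1 * γ ^ k := by
      rw [← pow_succ, Nat.sub_add_cancel hN.le, he, one_mul]
    exact mul_right_cancel h1
  rw [← pow_mul] at h0
  have h1 := orderOf_dvd_of_pow_eq_one h0
  rw [ho, mul_comm] at h1
  have h2 : N + 1 ∣ k := Nat.dvd_of_mul_dvd_mul_right (by omega) h1
  obtain ⟨m, rfl⟩ := h2
  refine ⟨γ ^ m, ?_⟩
  rw [D.mul_bar_iff, ← hNdef, ← pow_mul, mul_comm]

/-- squares of elements of norm one -/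
def T2 : Set Eˣ := {u | ∃ v : Eˣ, (v : E) * D.bar v = 1 ∧ u = v ^ 2}

private theorem odd_N : 2 ∣ Nat.card F ^ D.r + 1 := by
  have h1 : Nat.card F % 2 = 1 := by
    let _ := Fintype.ofFinite F
    rw [Nat.card_eq_fintype_card]
    apply FiniteField.odd_card_of_char_ne_two
    intro hc
    apply D.two_ne
    have := ringChar.spec F 2
    rw [hc] at this
    exact_mod_cast this.2 dvd_rfl
  have h2 : Odd (Nat.card F ^ D.r) := (Nat.odd_iff.2 h1).pow
  exact (h2.add_one).two_dvd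

theorem card_T2 : 2 * Nat.card D.T2 = Nat.card F ^ D.r + 1 := by
  obtain ⟨θ, h1, h2, h3⟩ := D.torus_gen
  have h4 : Nat.card D.T2 = Nat.card (Subgroup.zpowers (θ ^ 2)) := by
    apply Nat.card_congr
    apply Equiv.subtypeEquivRight
    intro u
    constructor
    · rintro ⟨v, hv, rfl⟩
      obtain ⟨n, rfl⟩ := h3 v hv
      rw [← pow_mul, mul_comm, pow_mul]
      exact Subgroup.npow_mem_zpowers _ n
    · intro hu
      rw [← mem_powers_iff_mem_zpowers, Submonoid.mem_powers_iff] at hu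
      obtain ⟨n, rfl⟩ := hu
      refine ⟨θ ^ n, ?_, ?_⟩
      · rw [Units.val_pow_eq_pow_val, map_pow, ← mul_pow, h1, one_pow]
      · rw [← pow_mul, ← pow_mul, mul_comm]
  rw [h4, Nat.card_zpowers, orderOf_pow_of_dvd two_ne_zero (by rw [h2]; exact D.odd_N), h2]
  exact Nat.mul_div_cancel' D.odd_N

end Dat

end Pool.Agent.H32.UD
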