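import Pool.Agent.H32.UD.Gcd

/-!
# UD.TwA0 : the unipotent elements `hb` (odd `r`)

`hb j β v = v + β (v - bar v) / (2 j)`, `fr j = - j` (so `bar j = - j`), `bar β = β`. `E₀ = Ep` = fixed field of `bar`, `E = E₀ ⊕ E₀ j`.

PROOF. `N v = β (v - bar v)/(2 j)` has values in `E₀` and kills `E₀`, so `N² = 0`, `hb` is invertible with inverse `hb j (-β)`, and `hb v = - v` gives `v = 0` (`(2 + N) v = 0`, apply `N`: `2 N v = 0`, then `2 v = 0`). Isometry: `B (N x, y) + B (x, N y) = 0` and `B (N x, N y) = 0`: with `x = a + b j`, `y = c + d j` (`a,b,c,d ∈ E₀`), `N x = β b`, `N y = β d`: `B (N x, y) = Tr (δ β b (c - d j))`,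
`B (x, N y) = Tr (δ (a + b j) β d)`; `bar δ = - δ` (odd `r`), so `Tr (δ e) = 0` for `e ∈ E₀` (`trace_bar`), and `B (N x, y) = - Tr (δ j β b d)`, `B (x, N y) = Tr (δ j b β d)`; `B (N x, N y) = Tr (δ β² b d) = 0`.
`tr_odd`: by computation, apply both sides to `v = x + y j` (`x, y ∈ E₀`): `J (x + y j) = ν y + x j`, `h (x + y j) = (x + β y) + y j`, `ν = j²`, `bar ν = ν`: `J' = h J h⁻¹` maps `x + y j` to `(β x + (ν - β²) y) + (x - β y) j`, and `J J' + J' J = 2 ν - β²`. (Or with coefficients: `co` of both sides.)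
-/

set_option autoImplicit false
set_option linter.unusedSectionVars false

namespace Pool.Agent.H32.UD

open Module

namespace Dat

variable {F E : Type} [Field F] [Field E] [Algebra F E] (D : Dat F E) [Finite F] [Finite E]

/-- the unipotent element -/
noncomputable def hb (j β : E) : Module.End F E :=
  M F 1 + M F (β / (2 * j)) * (1 - D.Fz (D.r : ZMod (2 * D.r)))

private theorem twa_bar_j (hr : Odd D.r) (j : E) (hj : fr F E j = -j) : D.bar j = -j := by
  have h : ∀ n : ℕ, (fr F E ^ n) j = (-1) ^ n * j := by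
    intro n
    induction n with
    | zero => simp
    | succ n ih =>
      rw [pow_succ, AlgEquiv.mul_apply, hj, map_neg, ih, pow_succ]
      ring
  rw [bar_eq, σ_natCast, h, hr.neg_one_pow]
  ring

private theorem twa_two (D : Dat F E) : (2 : E) ≠ 0 := by
  have h := D.two_ne
  intro h2
  apply h
  apply (algebraMap F E).injective
  rw [map_zero, map_ofNat]
  exact h2

private theorem hb_apply (j β v : E) : D.hb j β v = v + β / (2 * j) * (v - D.bar v) := by
  unfold hb
  rw [LinearMap.add_apply, Module.End.mul_apply, LinearMap.sub_apply, M_apply, M_apply, Module.End.one_apply, one_mul,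
    Fz_apply]
  rfl

private theorem bar_c (hr : Odd D.r) (j β : E) (hj : fr F E j = -j) (hβ : D.bar β = β) :
    D.bar (β / (2 * j)) = -(β / (2 * j)) := by
  rw [map_div₀, map_mul, hβ, D.twa_bar_j hr j hj, map_ofNat, mul_neg, div_neg]

private theorem bar_N (hr : Odd D.r) (j β : E) (hj : fr F E j = -j) (hβ : D.bar β = β) (v : E) :
    D.bar (β / (2 * j) * (v - D.bar v)) = β / (2 * j) * (v - D.bar v) := by
  rw [map_mul, D.bar_c hr j β hj hβ, map_sub, bar_bar]
  ring

private theorem hb_comp (hr : Odd D.r) (j β : E) (hj : fr F E j = -j) (hβ : D.bar β = β) (v : E) :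
    D.hb j β (v - β / (2 * j) * (v - D.bar v)) = v := by
  rw [hb_apply, map_sub, D.bar_N hr j β hj hβ]
  ring

private theorem hb_comp' (hr : Odd D.r) (j β : E) (hj : fr F E j = -j) (hβ : D.bar β = β) (v : E) :
    D.hb j β v - β / (2 * j) * (D.hb j β v - D.bar (D.hb j β v)) = v := by
  rw [hb_apply, map_add, D.bar_N hr j β hj hβ]
  ring

private theorem tr_zero (z : E) (h : D.bar z = -z) : Algebra.trace F E z = 0 := by
  have h1 := D.trace_bar z
  rw [h, map_neg] at h1
  have h2 : (2 : F) * Algebra.trace F E z = 0 := by linear_combination -h1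
  exact (mul_eq_zero.1 h2).resolve_left D.two_ne

theorem exists_hb (hr : Odd D.r) (j β : E) (hj : fr F E j = -j) (hj0 : j ≠ 0) (hβ : D.bar β = β) :
    ∃ h : E ≃ₗ[F] E, (h : Module.End F E) = D.hb j β ∧ h ∈ D.Cay := by
  have h2E := D.twa_two
  let h : E ≃ₗ[F] E := LinearEquiv.ofLinearMap (D.hb j β) (LinearMap.id - M F (β / (2 * j)) * (1 - D.Fz (D.r : ZMod (2 * D.r))))
    (by
      ext v
      have h1 : (LinearMap.id - M F (β / (2 * j)) * (1 - D.Fz (D.r : ZMod (2 * D.r))) : Module.End F E) v =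
          v - β / (2 * j) * (v - D.bar v) := rfl
      rw [LinearMap.comp_apply, h1, D.hb_comp hr j β hj hβ]
      rfl)
    (by
      ext v
      have h1 : ∀ w, (LinearMap.id - M F (β / (2 * j)) * (1 - D.Fz (D.r : ZMod (2 * D.r))) : Module.End F E) w =
          w - β / (2 * j) * (w - D.bar w) := fun w => rfl
      rw [LinearMap.comp_apply, h1, D.hb_comp' hr j β hj hβ]
      rfl)
  have hh : ∀ v, h v = v + β / (2 * j) * (v - D.bar v) := fun v => D.hb_apply j β v
  have hδ : D.bar D.δ = -D.δ := by rw [bar_δ, hr.neg_one_pow]; ring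
  refine ⟨h, rfl, ?_, ?_⟩
  · intro x y
    rw [hh, hh]
    simp only [map_add, LinearMap.add_apply]
    have e1 : D.B (β / (2 * j) * (x - D.bar x)) (β / (2 * j) * (y - D.bar y)) = 0 := by
      rw [B_apply]
      apply D.tr_zero
      rw [map_mul, map_mul, hδ, D.bar_N hr j β hj hβ, bar_bar, D.bar_N hr j β hj hβ]
      ring
    have e2 : D.B (β / (2 * j) * (x - D.bar x)) y + D.B x (β / (2 * j) * (y - D.bar y)) = 0 := by
      rw [B_apply, B_apply, ← map_add]
      apply D.tr_zero
      rw [map_add, map_mul, map_mul, map_mul D.bar (D.δ * x), map_mul D.bar D.δ x, hδ,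
        D.bar_N hr j β hj hβ, bar_bar, bar_bar, D.bar_N hr j β hj hβ]
      ring
    rw [e1]
    linear_combination e2
  · intro x hx
    rw [hh] at hx
    have h3 : β / (2 * j) * (x - D.bar x) = -(2 * x) := by linear_combination hx
    have h4 := D.bar_N hr j β hj hβ x
    rw [h3, map_neg, map_mul, map_ofNat] at h4
    have h5 : (2 : E) * (x - D.bar x) = 0 := by linear_combination h4
    have h6 : x - D.bar x = 0 := (mul_eq_zero.1 h5).resolve_left h2E
    rw [h6, mul_zero] at h3
    have h7 : (2 : E) * x = 0 := by linear_combination h3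
    exact (mul_eq_zero.1 h7).resolve_left h2E

/-- the trace of the quaternion algebra -/
theorem tr_odd (hr : Odd D.r) (j β : E) (hj : fr F E j = -j) (hj0 : j ≠ 0) (hβ : D.bar β = β)
    (h : E ≃ₗ[F] E) (hh : (h : Module.End F E) = D.hb j β) :
    M F j * ((h : Module.End F E) * M F j * ((h⁻¹ : E ≃ₗ[F] E) : Module.End F E)) +
      ((h : Module.End F E) * M F j * ((h⁻¹ : E ≃ₗ[F] E) : Module.End F E)) * M F j =
      M F (2 * j ^ 2 - β ^ 2) := by
  have h2E := D.twa_two
  have hv : ∀ v, h v = v + β / (2 * j) * (v - D.bar v) := by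
    intro v
    have h1 : (h : Module.End F E) v = D.hb j β v := by rw [hh]
    rw [← D.hb_apply j β v, ← h1]
    rfl
  have hi : ∀ v, (h⁻¹ : E ≃ₗ[F] E) v = v - β / (2 * j) * (v - D.bar v) := by
    intro v
    have h1 : h (v - β / (2 * j) * (v - D.bar v)) = v := by
      have h2 := D.hb_comp hr j β hj hβ v
      rw [D.hb_apply] at h2
      rw [hv]
      exact h2
    have h3 : (h⁻¹ : E ≃ₗ[F] E) (h (v - β / (2 * j) * (v - D.bar v))) = v - β / (2 * j) * (v - D.bar v) := by
      rw [← LinearEquiv.mul_apply, inv_mul_cancel]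
      rfl
    rw [h1] at h3
    exact h3
  have hbj := D.twa_bar_j hr j hj
  ext v
  have e1 : (M F j * ((h : Module.End F E) * M F j * ((h⁻¹ : E ≃ₗ[F] E) : Module.End F E)) +
      ((h : Module.End F E) * M F j * ((h⁻¹ : E ≃ₗ[F] E) : Module.End F E)) * M F j) v =
      j * h (j * (h⁻¹ : E ≃ₗ[F] E) v) + h (j * (h⁻¹ : E ≃ₗ[F] E) (j * v)) := rfl
  have e2 : M F (2 * j ^ 2 - β ^ 2) v = (2 * j ^ 2 - β ^ 2) * v := rfl
  have hj2 : (2 : E) * j ≠ 0 := mul_ne_zero h2E hj0
  obtain ⟨c, hc⟩ : ∃ c, c = β / (2 * j) := ⟨_, rfl⟩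
  have hcβ : β = c * (2 * j) := by rw [hc, div_mul_cancel₀ _ hj2]
  have hbc : D.bar c = -c := by rw [hc]; exact D.bar_c hr j β hj hβ
  rw [e1, e2]
  simp only [hv, hi, ← hc, map_mul, map_sub, map_neg, hbj, hbc, bar_bar]
  rw [hcβ]
  ring

end Dat

end Pool.Agent.H32.UD
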