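import Pool.Agent.H32.UD.Gcd

/-!
# UD.TwB0 : the isometry `th` (even `r`)

`th v = (v + bar v)/2 + fr ((v - bar v)/2)` (the identity on `Ep`, Frobenius on `Em`).

PROOF. `E = Ep ⊕ Em` is orthogonal for `B` (`B (x, y) = Tr (δ x bar y)`, `bar δ = δ` as `r` is even, so `Tr (δ e) = 0` for `e ∈ Em`), `fr` preserves `Em` and `B (fr x, fr y) = B (x, y)` (`fr δ = δ`, `trace_σ`), so `th` is an isometry; it is bijective (injective: if `th v = 0` then both components vanish). `th_conj`: `th⁻¹ M j th = M j * Fz r` for `fr j = - j` (so `bar j = j`): on `v ∈ Ep`: `j v ∈ Ep`; on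
`v ∈ Em`: `M j (fr v) = j fr v = - fr (j v) = th (- j v)`. `tr_even`: conjugate by `th`: `th⁻¹ M j th = M j Fz r = J₁`, `th⁻¹ (h M j h⁻¹) th = M w J₁ M w⁻¹ = M (j w²) Fz r` (`bar w = w⁻¹`), and `J₁ * M (j w²) Fz r = M (j² w⁻²)`, `M (j w²) Fz r * J₁ = M (j² w²)`.
-/

set_option autoImplicit false
set_option linter.unusedSectionVars false

namespace Pool.Agent.H32.UD

open Module

namespace Dat

variable {F E : Type} [Field F] [Field E] [Algebra F E] (D : Dat F E) [Finite F] [Finite E]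

/-- the identity on `Ep`, Frobenius on `Em` -/
noncomputable def thE : Module.End F E :=
  M F (1 / 2) * (1 + D.Fz (D.r : ZMod (2 * D.r))) + D.Fz 1 * M F (1 / 2) * (1 - D.Fz (D.r : ZMod (2 * D.r)))

include D in
private lemma tb_two : (2 : E) ≠ 0 := by
  intro h
  apply D.two_ne
  apply (algebraMap F E).injective
  rw [map_ofNat, map_zero]
  exact h

private lemma tb_apply (v : E) :
    D.thE v = 1 / 2 * (v + D.bar v) + fr F E (1 / 2 * (v - D.bar v)) := by
  rw [← D.σ_one]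
  rfl

private lemma tb_pm {p m : E} (hp : D.bar p = p) (hm : D.bar m = -m) : D.thE (p + m) = p + fr F E m := by
  have h2 := D.tb_two
  rw [tb_apply, map_add D.bar, hp, hm]
  have e1 : 1 / 2 * (p + m + (p + -m)) = p := by field_simp; ring
  have e2 : 1 / 2 * (p + m - (p + -m)) = m := by field_simp; ring
  rw [e1, e2]

private lemma tb_dec (v : E) : ∃ p m : E, D.bar p = p ∧ D.bar m = -m ∧ v = p + m := by
  have h2 := D.tb_two
  have e0 : D.bar (1 / 2 : E) = 1 / 2 := by rw [map_div₀, map_one, map_ofNat]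
  refine ⟨1 / 2 * (v + D.bar v), 1 / 2 * (v - D.bar v), ?_, ?_, ?_⟩
  · rw [map_mul, map_add, e0, bar_bar, add_comm]
  · rw [map_mul, map_sub, e0, bar_bar]
    ring
  · field_simp
    ring

private lemma tb_barfr (x : E) : D.bar (fr F E x) = fr F E (D.bar x) := by
  have := D.bar_σ 1 x
  rwa [σ_one] at this

private lemma tb_tr (hr : Even D.r) {e : E} (he : D.bar e = -e) : Algebra.trace F E (D.δ * e) = 0 := by
  have h1 : Algebra.trace F E (D.bar (D.δ * e)) = Algebra.trace F E (D.δ * e) := D.trace_bar _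
  rw [map_mul, he, bar_δ, hr.neg_one_pow, one_mul, mul_neg, map_neg] at h1
  have h2 : (2 : F) * Algebra.trace F E (D.δ * e) = 0 := by linear_combination -h1
  exact (mul_eq_zero.1 h2).resolve_left D.two_ne

private lemma tb_B (hr : Even D.r) (x y : E) : D.B (D.thE x) (D.thE y) = D.B x y := by
  obtain ⟨p, m, hp, hm, rfl⟩ := D.tb_dec x
  obtain ⟨p', m', hp', hm', rfl⟩ := D.tb_dec y
  rw [D.tb_pm hp hm, D.tb_pm hp' hm']
  have hfm : D.bar (fr F E m) = -fr F E m := by rw [tb_barfr, hm, map_neg]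
  have hfm' : D.bar (fr F E m') = -fr F E m' := by rw [tb_barfr, hm', map_neg]
  have c1 : ∀ {u n : E}, D.bar u = u → D.bar n = -n → D.B u n = 0 := by
    intro u n hu hn
    rw [B_apply, hn, mul_assoc]
    apply D.tb_tr hr
    rw [map_mul, map_neg, hu, hn]
    ring
  have c2 : ∀ {u n : E}, D.bar u = u → D.bar n = -n → D.B n u = 0 := by
    intro u n hu hn
    rw [B_apply, hu, mul_assoc]
    apply D.tb_tr hr
    rw [map_mul, hu, hn]
    ring
  have c3 : D.B (fr F E m) (fr F E m') = D.B m m' := by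
    rw [B_apply, B_apply, tb_barfr]
    have h1 : fr F E (D.δ * m * D.bar m') = D.δ * fr F E m * fr F E (D.bar m') := by
      rw [map_mul, map_mul, fr_δ, hr.neg_one_pow, one_mul]
    rw [← h1, ← D.σ_one, D.trace_σ]
  simp only [map_add, LinearMap.add_apply]
  rw [c1 hp hfm', c2 hp' hfm, c1 hp hm', c2 hp' hm, c3]

theorem exists_th (hr : Even D.r) : ∃ th : E ≃ₗ[F] E, (th : Module.End F E) = D.thE ∧ th ∈ D.G := by
  have hinj : Function.Injective D.thE := by
    rw [injective_iff_map_eq_zero]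
    intro v hv
    apply D.B_nondeg
    intro y
    rw [← D.tb_B hr v y, hv, map_zero, LinearMap.zero_apply]
  have : Module.Finite F E := Module.Finite.of_finite
  refine ⟨LinearEquiv.ofInjectiveEndo D.thE hinj,
    LinearMap.ext fun v => congrFun (LinearEquiv.coe_ofInjectiveEndo D.thE hinj) v, fun x y => ?_⟩
  exact D.tb_B hr x y

private lemma tb_barj (hr : Even D.r) (j : E) (hj : fr F E j = -j) : D.bar j = j := by
  rw [bar_eq, σ_natCast]
  have h1 : ∀ k : ℕ, (fr F E ^ k) j = (-1) ^ k * j := by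
    intro k
    induction k with
    | zero => simp
    | succ k ih =>
      rw [pow_succ, AlgEquiv.mul_apply, hj, map_neg, ih, pow_succ]
      ring
  rw [h1, hr.neg_one_pow, one_mul]

private lemma tb_conj (hr : Even D.r) (j : E) (hj : fr F E j = -j) (v : E) :
    j * D.thE v = D.thE (j * D.bar v) := by
  have hbj : D.bar j = j := D.tb_barj hr j hj
  obtain ⟨p, m, hp, hm, rfl⟩ := D.tb_dec v
  have e1 : j * D.bar (p + m) = j * p + -(j * m) := by
    rw [map_add, hp, hm]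
    ring
  have e2 : D.bar (j * p) = j * p := by rw [map_mul, hbj, hp]
  have e3 : D.bar (-(j * m)) = -(-(j * m)) := by rw [map_neg, map_mul, hbj, hm, mul_neg]
  rw [e1, D.tb_pm hp hm, D.tb_pm e2 e3, map_neg, map_mul, hj]
  ring

theorem th_conj (hr : Even D.r) (th : E ≃ₗ[F] E) (hth : (th : Module.End F E) = D.thE) (j : E)
    (hj : fr F E j = -j) : M F j * (th : Module.End F E) =
      (th : Module.End F E) * (M F j * D.Fz (D.r : ZMod (2 * D.r))) := by
  rw [hth]
  ext v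
  exact D.tb_conj hr j hj v

/-- the trace of the quaternion algebra -/
theorem tr_even (hr : Even D.r) (th : E ≃ₗ[F] E) (hth : (th : Module.End F E) = D.thE) (w : Eˣ)
    (hw : (w : E) * D.bar w = 1) (j : E) (hj : fr F E j = -j) (h : E ≃ₗ[F] E) (hh : h = th * mu F w * th⁻¹) :
    M F j * ((h : Module.End F E) * M F j * ((h⁻¹ : E ≃ₗ[F] E) : Module.End F E)) +
      ((h : Module.End F E) * M F j * ((h⁻¹ : E ≃ₗ[F] E) : Module.End F E)) * M F j =
      (th : Module.End F E) * M F (j ^ 2 * ((w : E) ^ 2 + ((w⁻¹ : Eˣ) : E) ^ 2)) *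
        ((th⁻¹ : E ≃ₗ[F] E) : Module.End F E) := by
  have hthv : ∀ v, th v = D.thE v := fun v => by rw [← hth]; rfl
  have hJ : ∀ v, j * th v = th (j * D.bar v) := by
    intro v
    rw [hthv, hthv]
    exact D.tb_conj hr j hj v
  have hbw : D.bar (w : E) = ((w⁻¹ : Eˣ) : E) := by
    have h1 : ((w⁻¹ : Eˣ) : E) * (w : E) = 1 := Units.inv_mul w
    calc D.bar (w : E) = (((w⁻¹ : Eˣ) : E) * (w : E)) * D.bar (w : E) := by rw [h1, one_mul]
      _ = ((w⁻¹ : Eˣ) : E) * ((w : E) * D.bar (w : E)) := by ring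
      _ = _ := by rw [hw, mul_one]
  have hbw' : D.bar ((w⁻¹ : Eˣ) : E) = (w : E) := by rw [← hbw, bar_bar]
  have hbj : D.bar j = j := D.tb_barj hr j hj
  have hh' : h⁻¹ = th * mu F w⁻¹ * th⁻¹ := by
    rw [hh, mul_inv_rev, mul_inv_rev, inv_inv, map_inv, mul_assoc]
  have hT : ∀ v, (th⁻¹ : E ≃ₗ[F] E) (th v) = v := fun v => by
    rw [← LinearEquiv.mul_apply, inv_mul_cancel]; rfl
  have hT' : ∀ v, th ((th⁻¹ : E ≃ₗ[F] E) v) = v := fun v => by
    rw [← LinearEquiv.mul_apply, mul_inv_cancel]; rfl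
  have hv : ∀ y, h (th y) = th (w * y) := fun y => by
    rw [hh]
    show th (mu F w ((th⁻¹ : E ≃ₗ[F] E) (th y))) = _
    rw [hT, mu_apply]
  have hv' : ∀ y, (h⁻¹ : E ≃ₗ[F] E) (th y) = th (((w⁻¹ : Eˣ) : E) * y) := fun y => by
    rw [hh']
    show th (mu F w⁻¹ ((th⁻¹ : E ≃ₗ[F] E) (th y))) = _
    rw [hT, mu_apply]
  have hA : ∀ y, h (j * (h⁻¹ : E ≃ₗ[F] E) (th y)) = th (j * (w : E) ^ 2 * D.bar y) := fun y => by
    rw [hv', hJ, hv, map_mul D.bar, hbw']
    congr 1
    ring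
  ext x
  obtain ⟨y, rfl⟩ : ∃ y, x = th y := ⟨(th⁻¹ : E ≃ₗ[F] E) x, (hT' x).symm⟩
  show j * h (j * (h⁻¹ : E ≃ₗ[F] E) (th y)) + h (j * (h⁻¹ : E ≃ₗ[F] E) (j * th y)) =
    th (j ^ 2 * ((w : E) ^ 2 + ((w⁻¹ : Eˣ) : E) ^ 2) * (th⁻¹ : E ≃ₗ[F] E) (th y))
  rw [hA, hJ, hJ, hA, hT, ← map_add]
  congr 1
  simp only [map_mul, map_pow, hbw, hbj, bar_bar]
  ring

end Dat

end Pool.Agent.H32.UD
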